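import Mathlib

/-!
Lemma (L') of helper40 (MP_562b47_mp, d = 2, uniform law): definitions.

`M = V + Ξ`, `δ = det M`, `P = φᵀ adj(M) φ`, `q = ψᵀ adj(M) φ`, `Δ = δ - i P = det M'`,
`M' = M - i φ φᵀ`, `D = P / δ = φᵀ M⁻¹ φ`, `F = ψᵀ M⁻¹ φ / (D + i)`, `|F| = |q| / |Δ|`, `T = 1 / D = δ / P`.
(Version 2: `φ` complex, no loss form; everything is expressed by `G = M'⁻¹`.)
-/

set_option autoImplicit false

namespace LL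

open MeasureTheory Matrix Finset
open scoped ENNReal

variable {ι : Type*} [Fintype ι] [DecidableEq ι]

/-- `V + Ξ` -/
def mt (Ξ : Matrix ι ι ℂ) (V : ι → ℂ) : Matrix ι ι ℂ := Matrix.diagonal V + Ξ

/-- the bordered matrix `[[M, φ], [ψᵀ, 0]]` -/
def bord (φ ψ : ι → ℂ) (M : Matrix ι ι ℂ) : Matrix (ι ⊕ Unit) (ι ⊕ Unit) ℂ :=
  Matrix.fromBlocks M (Matrix.of fun i _ => φ i) (Matrix.of fun _ j => ψ j) 0

/-- `ψᵀ adj(M) φ` -/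
noncomputable def bq (φ ψ : ι → ℂ) (M : Matrix ι ι ℂ) : ℂ := -(bord φ ψ M).det

/-- real vectors as complex vectors -/
def cc (V : ι → ℝ) : ι → ℂ := fun i => (V i : ℂ)

/-- difference in the coordinate `i` (the derivative, for multi-affine functions) -/
def pd (i : ι) (f : (ι → ℂ) → ℂ) (V : ι → ℂ) : ℂ :=
  f (Function.update V i 1) - f (Function.update V i 0)

/-- difference in the coordinates of `I` -/
def pdS (I : Finset ι) (f : (ι → ℂ) → ℂ) (V : ι → ℂ) : ℂ :=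
  ∑ J ∈ I.powerset, (-1) ^ (I \ J).card *
    f (fun i => if i ∈ J then 1 else if i ∈ I then 0 else V i)

/-- multi-affine functions -/
def MA (f : (ι → ℂ) → ℂ) : Prop :=
  ∀ (V : ι → ℂ) (i : ι) (s : ℂ),
    f (Function.update V i s) = f (Function.update V i 0) + s * pd i f V

/-- the data of lemma (L'): `M = V + Ξ`, `M' = M - i φ φᵀ` is invertible for real `V` and
`|P| ≤ 4 |det M'|` -/
structure Dat (ι : Type*) [Fintype ι] [DecidableEq ι] where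
  Ξ : Matrix ι ι ℂ
  φ : ι → ℂ
  ψ : ι → ℂ
  sym : Ξᵀ = Ξ
  phi_le : ∀ j, ‖φ j‖ ≤ 1
  ne : ∀ V : ι → ℝ, (mt Ξ (cc V) - Complex.I • Matrix.vecMulVec φ φ).det ≠ 0
  le : ∀ V : ι → ℝ, ‖bq φ φ (mt Ξ (cc V))‖ ≤
    4 * ‖(mt Ξ (cc V) - Complex.I • Matrix.vecMulVec φ φ).det‖

/-- Lebesgue measure on `[-1, 1]` -/
noncomputable def mu1 : Measure ℝ := volume.restrict (Set.Icc (-1 : ℝ) 1)

/-- Lebesgue measure on the cube `[-1, 1] ^ ι` -/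
noncomputable def MU (ι : Type*) [Fintype ι] : Measure (ι → ℝ) := Measure.pi fun _ => mu1

namespace Dat

variable (D : Dat ι)

/-- `δ = det M` -/
noncomputable def dl (V : ι → ℂ) : ℂ := (mt D.Ξ V).det

/-- `P = φᵀ adj(M) φ` -/
noncomputable def pp (V : ι → ℂ) : ℂ := bq D.φ D.φ (mt D.Ξ V)

/-- `q = ψᵀ adj(M) φ` -/
noncomputable def qq (V : ι → ℂ) : ℂ := bq D.φ D.ψ (mt D.Ξ V)

/-- `Δ = δ - i P` -/
noncomputable def De (V : ι → ℂ) : ℂ := D.dl V - Complex.I * D.pp V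

/-- `M' = M - i φ φᵀ` for a real potential -/
noncomputable def M' (V : ι → ℝ) : Matrix ι ι ℂ :=
  mt D.Ξ (cc V) - Complex.I • Matrix.vecMulVec D.φ D.φ

/-- `G = M'⁻¹` -/
noncomputable def G (V : ι → ℝ) : Matrix ι ι ℂ := (D.M' V)⁻¹

/-- `G φ` -/
noncomputable def Gf (V : ι → ℝ) : ι → ℂ := D.G V *ᵥ D.φ

/-- `G ψ` -/
noncomputable def Gp (V : ι → ℝ) : ι → ℂ := D.G V *ᵥ D.ψ

/-- `φᵀ G φ = P / Δ` -/
noncomputable def kp (V : ι → ℝ) : ℂ := D.φ ⬝ᵥ D.Gf V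

/-- `ψᵀ G φ = q / Δ`; its absolute value is `|F|`, `F = ψᵀ M⁻¹ φ / (φᵀ M⁻¹ φ + i)` -/
noncomputable def pf (V : ι → ℝ) : ℂ := D.ψ ⬝ᵥ D.Gf V

/-- `|F|²` -/
noncomputable def wt (V : ι → ℝ) : ℝ≥0∞ := ENNReal.ofReal (‖D.pf V‖ ^ 2)

/-- the measure `|F|² dV` on the cube -/
noncomputable def nu : Measure (ι → ℝ) := (MU ι).withDensity D.wt

/-- `w_i = ∂_i δ P - δ ∂_i P = (P z_i)²` -/
noncomputable def wi (i : ι) (V : ι → ℂ) : ℂ :=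
  pd i D.dl V * D.pp V - D.dl V * pd i D.pp V

/-- `w'_ij = ∂_i P ∂_j P - P ∂_i ∂_j P = (P Γ_ij)²` -/
noncomputable def wij (i j : ι) (V : ι → ℂ) : ℂ :=
  pd i D.pp V * pd j D.pp V - D.pp V * pd i (pd j D.pp) V

/-- `g_i = max(1, |Γ_ii|)` -/
noncomputable def gi (i : ι) (V : ι → ℝ) : ℝ := max 1 (‖pd i D.pp (cc V)‖ / ‖D.pp (cc V)‖)

/-- `om_i = max(1, |z_i|)` -/
noncomputable def om (i : ι) (V : ι → ℝ) : ℝ := max 1 (√‖D.wi i (cc V)‖ / ‖D.pp (cc V)‖)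

/-- `|T| ≤ b`, `T = δ / P` -/
def bad (b : ℝ) (V : ι → ℝ) : Prop := ‖D.dl (cc V)‖ ≤ b * ‖D.pp (cc V)‖

/-- `|z_i|² > K |T| g_i` -/
def evA (K : ℝ) (i : ι) (V : ι → ℝ) : Prop :=
  K * ‖D.dl (cc V)‖ * max ‖D.pp (cc V)‖ ‖pd i D.pp (cc V)‖ < ‖D.wi i (cc V)‖

/-- `|Γ_ij|² > K g_i g_j` -/
def evC (K : ℝ) (i j : ι) (V : ι → ℝ) : Prop :=
  K * max ‖D.pp (cc V)‖ ‖pd i D.pp (cc V)‖ * max ‖D.pp (cc V)‖ ‖pd j D.pp (cc V)‖ <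
    ‖D.wij i j (cc V)‖

/-- `V` is bad, `q ≠ 0`, in none of the events `A`, `C` -/
def typ (b K : ℝ) (V : ι → ℝ) : Prop :=
  D.bad b V ∧ D.qq (cc V) ≠ 0 ∧ (∀ i, ¬ D.evA K i V) ∧ ∀ i j, i ≠ j → ¬ D.evC K i j V

/-- the event `E_I` -/
def evE (b K g : ℝ) (n : ℕ) (I : Finset ι) (V : ι → ℝ) : Prop :=
  D.typ b K V ∧ (∀ i ∈ I, g ≤ D.gi i V) ∧
    (∏ i ∈ I, D.gi i V / (4 * n * D.om i V)) * ‖D.qq (cc V)‖ ≤ ‖pdS I D.qq (cc V)‖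

end Dat

end LL
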