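import Pool.Agent.Lib.MP_562b47_mp.LL.Bq

/-!
Meas (version 2): measurability of the weight and of the events.

PROOF. `dl`, `pp`, `qq`, `De`, their `pd`s and `pdS`s are multi-affine (`MA_dl`, ..., `MA.pd`,
`MA.pdS`), hence continuous (`MA.continuous`), and `cc` is continuous (`continuous_cc`).
`wt V = ofReal (‖qq‖² / ‖De‖²)` by `norm_pf` (a quotient of continuous functions is measurable).
`wi`, `wij` are polynomials in continuous functions. The events are given by finitely many
inequalities between measurable functions: `measurableSet_le`, `measurableSet_lt`,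
`MeasurableSet.inter`, `MeasurableSet.compl`, `MeasurableSet.iInter` (countable index: `ι` finite),
`{V | qq (cc V) ≠ 0}` is open; `gi`, `om` are measurable (`Measurable.max`, `Measurable.div`,
`Real.continuous_sqrt`), finite products: `Finset.measurable_prod`.
-/

set_option autoImplicit false

namespace LL

open MeasureTheory Set
open scoped ENNReal

variable {ι : Type*} [Fintype ι] [DecidableEq ι]

namespace Dat

variable (D : Dat ι)

theorem continuous_dl : Continuous fun V : ι → ℝ => D.dl (cc V) :=
  D.MA_dl.continuous.comp continuous_cc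

theorem continuous_pp : Continuous fun V : ι → ℝ => D.pp (cc V) :=
  D.MA_pp.continuous.comp continuous_cc

theorem continuous_qq : Continuous fun V : ι → ℝ => D.qq (cc V) :=
  D.MA_qq.continuous.comp continuous_cc

theorem continuous_De : Continuous fun V : ι → ℝ => D.De (cc V) :=
  D.MA_De.continuous.comp continuous_cc

theorem continuous_pdS_qq (I : Finset ι) : Continuous fun V : ι → ℝ => pdS I D.qq (cc V) :=
  (D.MA_qq.pdS I).continuous.comp continuous_cc

private theorem meas_c_pd_dl (i : ι) : Continuous fun V : ι → ℝ => pd i D.dl (cc V) :=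
  (D.MA_dl.pd i).continuous.comp continuous_cc

private theorem meas_c_pd_pp (i : ι) : Continuous fun V : ι → ℝ => pd i D.pp (cc V) :=
  (D.MA_pp.pd i).continuous.comp continuous_cc

private theorem meas_c_pd2_pp (i j : ι) : Continuous fun V : ι → ℝ => pd i (pd j D.pp) (cc V) :=
  ((D.MA_pp.pd j).pd i).continuous.comp continuous_cc

private theorem meas_c_wi (i : ι) : Continuous fun V : ι → ℝ => D.wi i (cc V) := by
  unfold wi
  exact ((D.meas_c_pd_dl i).mul D.continuous_pp).sub (D.continuous_dl.mul (D.meas_c_pd_pp i))

private theorem meas_c_wij (i j : ι) : Continuous fun V : ι → ℝ => D.wij i j (cc V) := by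
  unfold wij
  exact ((D.meas_c_pd_pp i).mul (D.meas_c_pd_pp j)).sub
    (D.continuous_pp.mul (D.meas_c_pd2_pp i j))

private theorem meas_gi (i : ι) : Measurable fun V : ι → ℝ => D.gi i V := by
  unfold gi
  exact measurable_const.max
    ((D.meas_c_pd_pp i).norm.measurable.div D.continuous_pp.norm.measurable)

private theorem meas_om (i : ι) : Measurable fun V : ι → ℝ => D.om i V := by
  unfold om
  exact measurable_const.max
    ((Real.continuous_sqrt.comp (D.meas_c_wi i).norm).measurable.div
      D.continuous_pp.norm.measurable)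

theorem wt_eq (V : ι → ℝ) :
    D.wt V = ENNReal.ofReal (‖D.qq (cc V)‖ ^ 2 / ‖D.De (cc V)‖ ^ 2) := by
  unfold wt
  rw [D.norm_pf, div_pow]

theorem measurable_wt : Measurable D.wt := by
  have h : D.wt = fun V => ENNReal.ofReal (‖D.qq (cc V)‖ ^ 2 / ‖D.De (cc V)‖ ^ 2) :=
    funext D.wt_eq
  rw [h]
  exact ENNReal.measurable_ofReal.comp
    ((D.continuous_qq.norm.pow 2).measurable.div (D.continuous_De.norm.pow 2).measurable)

theorem measurableSet_bad (b : ℝ) : MeasurableSet {V | D.bad b V} :=
  measurableSet_le D.continuous_dl.norm.measurable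
    (continuous_const.mul D.continuous_pp.norm).measurable

theorem measurableSet_evA (K : ℝ) (i : ι) : MeasurableSet {V | D.evA K i V} :=
  measurableSet_lt ((continuous_const.mul D.continuous_dl.norm).mul
    (D.continuous_pp.norm.max (D.meas_c_pd_pp i).norm)).measurable (D.meas_c_wi i).norm.measurable

theorem measurableSet_evC (K : ℝ) (i j : ι) : MeasurableSet {V | D.evC K i j V} :=
  measurableSet_lt ((continuous_const.mul
    (D.continuous_pp.norm.max (D.meas_c_pd_pp i).norm)).mul
    (D.continuous_pp.norm.max (D.meas_c_pd_pp j).norm)).measurable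
    (D.meas_c_wij i j).norm.measurable

theorem measurableSet_typ (b K : ℝ) : MeasurableSet {V | D.typ b K V} := by
  have h1 : MeasurableSet {V : ι → ℝ | D.qq (cc V) ≠ 0} :=
    (isOpen_ne_fun D.continuous_qq continuous_const).measurableSet
  have h2 : MeasurableSet {V : ι → ℝ | ∀ i, ¬ D.evA K i V} := by
    rw [Set.ofPred_forall]
    exact MeasurableSet.iInter fun i => (D.measurableSet_evA K i).compl
  have h3 : MeasurableSet {V : ι → ℝ | ∀ i j, i ≠ j → ¬ D.evC K i j V} := by
    simp only [Set.ofPred_forall]
    exact MeasurableSet.iInter fun i => MeasurableSet.iInter fun j =>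
      MeasurableSet.iInter fun _ => (D.measurableSet_evC K i j).compl
  exact (D.measurableSet_bad b).inter (h1.inter (h2.inter h3))

theorem measurableSet_evE (b K g : ℝ) (n : ℕ) (I : Finset ι) :
    MeasurableSet {V | D.evE b K g n I V} := by
  have h1 : MeasurableSet {V : ι → ℝ | ∀ i ∈ I, g ≤ D.gi i V} := by
    simp only [Set.ofPred_forall]
    exact MeasurableSet.iInter fun i => MeasurableSet.iInter fun _ =>
      measurableSet_le measurable_const (D.meas_gi i)
  have h2 : MeasurableSet {V : ι → ℝ |
      (∏ i ∈ I, D.gi i V / (4 * n * D.om i V)) * ‖D.qq (cc V)‖ ≤ ‖pdS I D.qq (cc V)‖} := by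
    refine measurableSet_le ?_ (D.continuous_pdS_qq I).norm.measurable
    refine Measurable.mul ?_ D.continuous_qq.norm.measurable
    exact Finset.measurable_prod _ fun i _ =>
      (D.meas_gi i).div (measurable_const.mul (D.meas_om i))
  exact (D.measurableSet_typ b K).inter (h1.inter h2)

end Dat

end LL
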