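import Pool.Agent.Lib.MP_562b47_mp.LL.DetMA

/-!
Bq (version 2): `P`, `q`, `δ`, `Δ` in terms of `G = M'⁻¹`, `M' = M - i φ φᵀ`.

PROOF.
* `bq_eq`: for `M` invertible, `Matrix.det_fromBlocks₁₁` (with `Matrix.invertibleOfIsUnitDet` or
  `invOf_eq_nonsing_inv`): `det (bord φ ψ M) = det M * det (0 - C M⁻¹ B)`, a determinant over `Unit`
  (`Matrix.det_unique`), and `(C M⁻¹ B) () () = ψ ⬝ᵥ (M⁻¹ *ᵥ φ)`.
* `bq_sub`: `bord φ ψ (M - c φ φᵀ) = bord φ ψ M * fromBlocks 1 0 (-c φᵀ) 1`
  (`Matrix.fromBlocks_multiply`), and the last determinant is `1` (`Matrix.det_fromBlocks_zero₁₂`).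
* `det_sub_outer` (for ALL `M`, also singular ones): `det (fromBlocks M φ (c φᵀ) 1)` is
  `det (M - c φ φᵀ)` by `Matrix.det_fromBlocks_one₂₂`; the last row is `c • (φᵀ, 0) + (0, 1)`: by
  `Matrix.det_updateRow_add`, `Matrix.det_updateRow_smul` the determinant is
  `c * det (bord φ φ M) + det (fromBlocks M φ 0 1) = -c * bq φ φ M + det M`
  (`Matrix.det_fromBlocks_zero₂₁`).
* `De_eq_det'`: `det_sub_outer` with `c = i`, for all complex `V`; `De_eq_det`, `De_ne` (`D.ne`).
* `pp_eq`, `qq_eq`: `bq φ ψ M = bq φ ψ M'` (`bq_sub`) `= det M' * (ψ ⬝ᵥ (G φ))` (`bq_eq`).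
* `dl_eq`: `δ = Δ + i P`.
* `kp_le`: `pp_eq` and `D.le`.
* `pp_ne_of_bad`: `P = 0` gives `δ = 0`, so `Δ = 0`.
* `G_symm`: `M'` is symmetric, `Matrix.transpose_nonsing_inv`.
-/

set_option autoImplicit false

namespace LL

open Finset Matrix

variable {ι : Type*} [Fintype ι] [DecidableEq ι]

theorem bq_eq (φ ψ : ι → ℂ) {M : Matrix ι ι ℂ} (hM : M.det ≠ 0) :
    bq φ ψ M = M.det * (ψ ⬝ᵥ (M⁻¹ *ᵥ φ)) := by
  have hu : IsUnit M.det := isUnit_iff_ne_zero.2 hM
  letI : Invertible M := Matrix.invertibleOfIsUnitDet M hu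
  unfold bq bord
  rw [Matrix.det_fromBlocks₁₁, Matrix.invOf_eq_nonsing_inv, Matrix.det_unique (n := Unit)]
  simp only [Matrix.sub_apply, Matrix.zero_apply, zero_sub, mul_neg, neg_neg]
  congr 1
  rw [Matrix.mul_assoc]
  simp only [Matrix.mul_apply, dotProduct, Matrix.mulVec, Matrix.of_apply]

theorem bq_sub (φ ψ : ι → ℂ) (M : Matrix ι ι ℂ) (c : ℂ) :
    bq φ ψ (M - c • Matrix.vecMulVec φ φ) = bq φ ψ M := by
  unfold bq
  congr 1
  have h : bord φ ψ (M - c • Matrix.vecMulVec φ φ) = bord φ ψ M *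
      Matrix.fromBlocks (1 : Matrix ι ι ℂ) 0 (Matrix.of fun (_ : Unit) j => -c * φ j) 1 := by
    unfold bord
    rw [Matrix.fromBlocks_multiply]
    congr 1
    · ext i j
      simp only [Matrix.mul_one, Matrix.sub_apply, Matrix.add_apply, Matrix.smul_apply,
        Matrix.vecMulVec_apply, Matrix.mul_apply, Matrix.of_apply, smul_eq_mul,
        Finset.univ_unique, Finset.sum_singleton]
      ring
    · ext i j
      simp
    · ext i j
      simp
    · ext i j
      simp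
  rw [h, Matrix.det_mul, Matrix.det_fromBlocks_zero₁₂]
  simp

theorem det_sub_outer (φ : ι → ℂ) (M : Matrix ι ι ℂ) (c : ℂ) :
    (M - c • Matrix.vecMulVec φ φ).det = M.det - c * bq φ φ M := by
  have h1 : (Matrix.fromBlocks M (Matrix.of fun i (_ : Unit) => φ i)
      (Matrix.of fun (_ : Unit) j => c * φ j) 1).det = (M - c • Matrix.vecMulVec φ φ).det := by
    rw [Matrix.det_fromBlocks_one₂₂]
    congr 1
    ext i j
    simp only [Matrix.sub_apply, Matrix.smul_apply, Matrix.vecMulVec_apply, Matrix.mul_apply,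
      Matrix.of_apply, smul_eq_mul, Finset.univ_unique, Finset.sum_singleton]
    ring
  have h2 : Matrix.fromBlocks M (Matrix.of fun i (_ : Unit) => φ i)
      (Matrix.of fun (_ : Unit) j => c * φ j) 1 =
      Matrix.updateRow (bord φ φ M) (Sum.inr ())
        (c • (Sum.elim φ (fun _ => 0)) + Sum.elim (fun _ => 0) (fun _ => 1)) := by
    ext i j
    rcases i with i | i
    · rw [Matrix.updateRow_ne (by simp)]
      rcases j with j | j <;> simp [bord]
    · obtain rfl : i = () := rfl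
      rw [Matrix.updateRow_self]
      rcases j with j | j <;> simp
  have h3 : Matrix.updateRow (bord φ φ M) (Sum.inr ()) (Sum.elim φ (fun _ => 0)) =
      bord φ φ M := by
    ext i j
    rcases i with i | i
    · rw [Matrix.updateRow_ne (by simp)]
    · obtain rfl : i = () := rfl
      rw [Matrix.updateRow_self]
      rcases j with j | j <;> simp [bord]
  have h4 : Matrix.updateRow (bord φ φ M) (Sum.inr ())
      (Sum.elim (fun _ => 0) (fun _ => 1)) =
      Matrix.fromBlocks M (Matrix.of fun i (_ : Unit) => φ i) 0 1 := by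
    ext i j
    rcases i with i | i
    · rw [Matrix.updateRow_ne (by simp)]
      rcases j with j | j <;> simp [bord]
    · obtain rfl : i = () := rfl
      rw [Matrix.updateRow_self]
      rcases j with j | j <;> simp
  rw [← h1, h2, Matrix.det_updateRow_add, Matrix.det_updateRow_smul, h3, h4,
    Matrix.det_fromBlocks_zero₂₁]
  unfold bq
  simp only [Matrix.det_one, mul_one]
  ring

namespace Dat

variable (D : Dat ι)

theorem De_eq_det' (V : ι → ℂ) :
    D.De V = (mt D.Ξ V - Complex.I • Matrix.vecMulVec D.φ D.φ).det := by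
  rw [det_sub_outer]
  rfl

theorem De_eq_det (V : ι → ℝ) : D.De (cc V) = (D.M' V).det := by
  exact D.De_eq_det' (cc V)

theorem De_ne (V : ι → ℝ) : D.De (cc V) ≠ 0 := by
  rw [D.De_eq_det']
  exact D.ne V

theorem pp_eq (V : ι → ℝ) : D.pp (cc V) = D.De (cc V) * D.kp V := by
  have hne : (D.M' V).det ≠ 0 := D.ne V
  have h := bq_eq D.φ D.φ hne
  unfold M' at h
  rw [bq_sub] at h
  rw [D.De_eq_det V]
  exact h

theorem qq_eq (V : ι → ℝ) : D.qq (cc V) = D.De (cc V) * D.pf V := by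
  have hne : (D.M' V).det ≠ 0 := D.ne V
  have h := bq_eq D.φ D.ψ hne
  unfold M' at h
  rw [bq_sub] at h
  rw [D.De_eq_det V]
  exact h

theorem dl_eq (V : ι → ℝ) : D.dl (cc V) = D.De (cc V) * (1 + Complex.I * D.kp V) := by
  have h := D.pp_eq V
  have h2 : D.dl (cc V) = D.De (cc V) + Complex.I * D.pp (cc V) := by
    unfold De
    ring
  rw [h2, h]
  ring

theorem pp_le_De (V : ι → ℝ) : ‖D.pp (cc V)‖ ≤ 4 * ‖D.De (cc V)‖ := by
  rw [D.De_eq_det']
  exact D.le V

theorem kp_le (V : ι → ℝ) : ‖D.kp V‖ ≤ 4 := by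
  have h := D.pp_le_De V
  rw [D.pp_eq V, norm_mul, mul_comm (4 : ℝ)] at h
  exact le_of_mul_le_mul_left h (norm_pos_iff.2 (D.De_ne V))

theorem norm_pf (V : ι → ℝ) : ‖D.pf V‖ = ‖D.qq (cc V)‖ / ‖D.De (cc V)‖ := by
  rw [D.qq_eq V, norm_mul, mul_div_cancel_left₀]
  exact norm_ne_zero_iff.2 (D.De_ne V)

theorem pp_ne_of_bad {V : ι → ℝ} {b : ℝ} (h : D.bad b V) : D.pp (cc V) ≠ 0 := by
  intro hp
  unfold bad at h
  rw [hp, norm_zero, mul_zero] at h
  have hd : D.dl (cc V) = 0 := norm_le_zero_iff.1 h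
  apply D.De_ne V
  unfold De
  rw [hd, hp]
  simp

theorem G_symm (V : ι → ℝ) (i j : ι) : D.G V i j = D.G V j i := by
  have h1 : (D.M' V)ᵀ = D.M' V := by
    unfold M' mt
    rw [Matrix.transpose_sub, Matrix.transpose_add, Matrix.diagonal_transpose, D.sym,
      Matrix.transpose_smul]
    congr 2
    ext i j
    simp only [Matrix.transpose_apply, Matrix.vecMulVec_apply]
    ring
  have h2 : (D.G V)ᵀ = D.G V := by
    unfold G
    rw [Matrix.transpose_nonsing_inv, h1]
  conv_lhs => rw [← h2]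
  rfl

theorem G_mul (V : ι → ℝ) : D.G V * D.M' V = 1 ∧ D.M' V * D.G V = 1 := by
  have hu : IsUnit (D.M' V).det := isUnit_iff_ne_zero.2 (D.ne V)
  exact ⟨Matrix.nonsing_inv_mul _ hu, Matrix.mul_nonsing_inv _ hu⟩

end Dat

end LL
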