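import Pool.Agent.Lib.MP_562b47_mp.LL.GBound

/-!
DeRatio (version 2): the ratio of two values of `Δ` on a fibre.

PROOF.
* `det_le_scaled`: put `C_ij = A_ij / √(g_i g_j)`, `‖C_ij‖ ≤ C`; `det A = (∏ g_i) det C` (`A` is
  `diagonal √g * C * diagonal √g`, `Matrix.det_mul`, `Matrix.det_diagonal`), and
  `‖det C‖ ≤ k! C ^ k` (`Matrix.det_le` with `abv = norm`, or the Leibniz formula directly).
* `De_ratio`: `De_block`; the entries of `A = 1 + G_II H`, `|h_j| ≤ 2`, are
  `≤ δ_ij + 4 √(K g_i g_j) ≤ 5 √K √(g_i g_j)` (`G_le`, `1 ≤ g_i`, `1 ≤ √K`); `det_le_scaled` with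
  `C = 5 √K`, `k! ≤ n ^ k`, `k = I.card ≤ n`; the product over the subtype is the product over `I`
  (`Finset.prod_coe_sort` / `Finset.prod_attach`).
-/

set_option autoImplicit false

namespace LL

open Finset Matrix

variable {ι : Type*} [Fintype ι] [DecidableEq ι]

/-- weighted Leibniz bound -/
theorem det_le_scaled {m : Type*} [Fintype m] [DecidableEq m] (A : Matrix m m ℂ) (g : m → ℝ)
    (hg : ∀ i, 0 < g i) {C : ℝ} (hA : ∀ i j, ‖A i j‖ ≤ C * √(g i * g j)) :
    ‖A.det‖ ≤ (Fintype.card m).factorial * C ^ Fintype.card m * ∏ i, g i := by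
  have hσ : ∀ σ : Equiv.Perm m, ‖((Equiv.Perm.sign σ : ℤ) : ℂ) * ∏ i, A (σ i) i‖ ≤
      C ^ Fintype.card m * ∏ i, g i := by
    intro σ
    have h1 : ‖((Equiv.Perm.sign σ : ℤ) : ℂ)‖ = 1 := by
      rcases Int.units_eq_one_or (Equiv.Perm.sign σ) with h | h <;> rw [h] <;> simp
    rw [norm_mul, h1, one_mul, norm_prod]
    have h2 : ∏ i, ‖A (σ i) i‖ ≤ ∏ i, (C * √(g (σ i) * g i)) :=
      Finset.prod_le_prod (fun i _ => norm_nonneg _) (fun i _ => hA (σ i) i)
    refine h2.trans (le_of_eq ?_)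
    rw [Finset.prod_mul_distrib, Finset.prod_const, Finset.card_univ]
    congr 1
    have h3 : ∀ i, √(g (σ i) * g i) = √(g (σ i)) * √(g i) := fun i => Real.sqrt_mul (hg _).le _
    rw [Finset.prod_congr rfl fun i _ => h3 i, Finset.prod_mul_distrib,
      Equiv.prod_comp σ fun i => √(g i), ← Finset.prod_mul_distrib]
    exact Finset.prod_congr rfl fun i _ => Real.mul_self_sqrt (hg i).le
  rw [Matrix.det_apply']
  refine (norm_sum_le _ _).trans ?_
  refine (Finset.sum_le_sum fun σ _ => hσ σ).trans (le_of_eq ?_)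
  rw [Finset.sum_const, Finset.card_univ, Fintype.card_perm, nsmul_eq_mul]
  ring

theorem Dat.De_ratio (D : Dat ι) {b K : ℝ} {n : ℕ} (hb : 0 < b) (hK : 16 ≤ K) (hKb : K * b ≤ 1)
    {V W : ι → ℝ} (h : D.typ b K V) (I : Finset ι) (hn : I.card ≤ n)
    (hVW : ∀ i, i ∉ I → V i = W i) (h2 : ∀ i ∈ I, |W i - V i| ≤ 2) :
    ‖D.De (cc W)‖ ≤ ‖D.De (cc V)‖ * ∏ i ∈ I, (5 * n * √K * D.gi i V) := by
  have hg1 : ∀ i, 1 ≤ D.gi i V := fun i => le_max_left _ _
  have hsK : 1 ≤ √K := by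
    rw [Real.one_le_sqrt]
    linarith
  rw [D.De_block V W I hVW, norm_mul]
  refine mul_le_mul_of_nonneg_left ?_ (norm_nonneg _)
  have hA := det_le_scaled
    (1 + (D.G V).submatrix (fun i : {i // i ∈ I} => i.1) (fun i : {i // i ∈ I} => i.1) *
        Matrix.diagonal fun i : {i // i ∈ I} => ((W i.1 - V i.1 : ℝ) : ℂ))
    (fun i : {i // i ∈ I} => D.gi i.1 V) (fun i => lt_of_lt_of_le one_pos (hg1 i.1))
    (C := 5 * √K) (by
      intro i j
      have hgg : 1 ≤ √(D.gi i.1 V * D.gi j.1 V) := by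
        rw [Real.one_le_sqrt]
        exact one_le_mul_of_one_le_of_one_le (hg1 _) (hg1 _)
      have e1 : ‖(1 : Matrix {i // i ∈ I} {i // i ∈ I} ℂ) i j‖ ≤
          √K * √(D.gi i.1 V * D.gi j.1 V) := by
        have e2 : ‖(1 : Matrix {i // i ∈ I} {i // i ∈ I} ℂ) i j‖ ≤ 1 := by
          by_cases hij : i = j
          · rw [hij, Matrix.one_apply_eq, norm_one]
          · rw [Matrix.one_apply_ne hij, norm_zero]
            exact zero_le_one
        exact e2.trans (one_le_mul_of_one_le_of_one_le hsK hgg)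
      have e3 : ‖((D.G V).submatrix (fun i : {i // i ∈ I} => i.1)
          (fun i : {i // i ∈ I} => i.1) *
          Matrix.diagonal fun i : {i // i ∈ I} => ((W i.1 - V i.1 : ℝ) : ℂ)) i j‖ ≤
          4 * √K * √(D.gi i.1 V * D.gi j.1 V) := by
        rw [Matrix.mul_diagonal, Matrix.submatrix_apply, norm_mul, Complex.norm_real,
          Real.norm_eq_abs]
        have e4 := D.G_le hb hK hKb h i.1 j.1
        rw [Real.sqrt_mul (by linarith)] at e4
        have e5 := h2 j.1 j.2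
        have e6 : 0 ≤ √K * √(D.gi i.1 V * D.gi j.1 V) := by positivity
        calc ‖D.G V i.1 j.1‖ * |W j.1 - V j.1|
            ≤ (2 * (√K * √(D.gi i.1 V * D.gi j.1 V))) * 2 :=
              mul_le_mul e4 e5 (abs_nonneg _) (by positivity)
          _ = 4 * √K * √(D.gi i.1 V * D.gi j.1 V) := by ring
      rw [Matrix.add_apply]
      refine (norm_add_le _ _).trans ?_
      linarith [e1, e3])
  refine hA.trans ?_
  have hcard : Fintype.card {i // i ∈ I} = I.card := Fintype.card_coe I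
  have hprod : ∏ i : {i // i ∈ I}, D.gi i.1 V = ∏ i ∈ I, D.gi i V :=
    Finset.prod_coe_sort I fun i => D.gi i V
  rw [hcard, hprod, Finset.prod_mul_distrib, Finset.prod_const]
  have hgp : 0 ≤ ∏ i ∈ I, D.gi i V :=
    Finset.prod_nonneg fun i _ => (zero_le_one.trans (hg1 i))
  refine mul_le_mul_of_nonneg_right ?_ hgp
  have hf : ((I.card).factorial : ℝ) ≤ (n : ℝ) ^ I.card := by
    have h3 : (I.card).factorial ≤ n ^ I.card :=
      (Nat.factorial_le_pow I.card).trans (Nat.pow_le_pow_left hn _)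
    exact_mod_cast h3
  have e7 : (5 * (n : ℝ) * √K) ^ I.card = (n : ℝ) ^ I.card * (5 * √K) ^ I.card := by
    rw [← mul_pow]
    congr 1
    ring
  rw [e7]
  exact mul_le_mul_of_nonneg_right hf (by positivity)

end LL
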