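import Pool.Agent.Lib.MP_562b47_mp.LL.DetMA

/-!
DetInv: derivatives of determinants at an invertible matrix.

PROOF.
* `det_add_diag_one`: `N + t • single k k 1 = N * (1 + t • (N⁻¹ * single k k 1))`; its determinant is
  `det N * det (1 + t • N⁻¹ * single k k 1)`; write `single k k 1 = vecMulVec e_k e_k` and use
  `Matrix.det_one_add_replicateCol_mul_replicateRow` or `Matrix.det_one_add_mul_comm` (1 × 1
  determinant `1 + t N⁻¹ k k`).
* `det_add_diag_two` (`k ≠ l`): apply `det_add_diag_one` twice if `1 + s N⁻¹ k k ≠ 0`, or directly: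
  `N + s E_kk + t E_ll = N (1 + N⁻¹ U W)` with `U` the columns `e_k, e_l` (indexed by `Fin 2`) and
  `W` the rows `s e_k, t e_l`; `Matrix.det_one_add_mul_comm` and `Matrix.det_fin_two`.
* `pd_det`: `N (update V i a) = N V + (a - V i) • single (e i) (e i) 1` (from `h` for the two values
  `a` and `V i`, `Function.update_eq_self`); use `det_add_diag_one` for `a = 1, 0` and subtract.
* `pd_pd_det`: `N (update (update V i a) j c) = N V + (a - V i) • E_ii + (c - V j) • E_jj`; the four
  values `a, c ∈ {0, 1}`, `det_add_diag_two`.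
-/

set_option autoImplicit false

namespace LL

open Finset Matrix

variable {ι : Type*} [Fintype ι] [DecidableEq ι]

private theorem det_add_two' {m : Type*} [Fintype m] [DecidableEq m] {N : Matrix m m ℂ}
    (hN : N.det ≠ 0) (k l : m) (s t : ℂ) :
    (N + s • Matrix.single k k (1 : ℂ) + t • Matrix.single l l (1 : ℂ)).det =
      N.det * ((1 + s * N⁻¹ k k) * (1 + t * N⁻¹ l l) - s * t * (N⁻¹ k l * N⁻¹ l k)) := by
  have hu : IsUnit N.det := isUnit_iff_ne_zero.2 hN
  let U : Matrix m (Fin 2) ℂ := Matrix.of fun i a => if i = ![k, l] a then 1 else 0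
  let W : Matrix (Fin 2) m ℂ := Matrix.of fun a j => if j = ![k, l] a then ![s, t] a else 0
  have h1 : s • Matrix.single k k (1 : ℂ) + t • Matrix.single l l (1 : ℂ) = U * W := by
    ext i j
    rw [Matrix.mul_apply, Fin.sum_univ_two]
    simp only [Matrix.add_apply, Matrix.smul_apply, Matrix.single_apply, smul_eq_mul, U, W,
      Matrix.of_apply, Matrix.cons_val_zero, Matrix.cons_val_one]
    by_cases hik : i = k <;> by_cases hjk : j = k <;> by_cases hil : i = l <;>
      by_cases hjl : j = l <;> simp [hik, hjk, hil, hjl, eq_comm] <;> simp_all [eq_comm]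
  have h2 : N + s • Matrix.single k k (1 : ℂ) + t • Matrix.single l l (1 : ℂ) =
      N * (1 + (N⁻¹ * U) * W) := by
    rw [add_assoc, h1, Matrix.mul_add, Matrix.mul_one, Matrix.mul_assoc, ← Matrix.mul_assoc N N⁻¹,
      Matrix.mul_nonsing_inv N hu, Matrix.one_mul]
  have h3 : ∀ a b, (W * (N⁻¹ * U)) a b = ![s, t] a * N⁻¹ (![k, l] a) (![k, l] b) := by
    intro a b
    rw [Matrix.mul_apply]
    simp only [W, U, Matrix.of_apply, Matrix.mul_apply, ite_mul, zero_mul, mul_ite, mul_one,
      mul_zero, Finset.sum_ite_eq', Finset.mem_univ, if_true]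
  rw [h2, Matrix.det_mul, Matrix.det_one_add_mul_comm, Matrix.det_fin_two]
  congr 1
  simp only [Matrix.add_apply, h3]
  simp
  ring

theorem det_add_diag_one {m : Type*} [Fintype m] [DecidableEq m] {N : Matrix m m ℂ}
    (hN : N.det ≠ 0) (k : m) (t : ℂ) :
    (N + t • Matrix.single k k (1 : ℂ)).det = N.det * (1 + t * N⁻¹ k k) := by
  have h := det_add_two' hN k k 0 t
  rw [zero_smul, add_zero] at h
  rw [h]
  ring

theorem det_add_diag_two {m : Type*} [Fintype m] [DecidableEq m] {N : Matrix m m ℂ}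
    (hN : N.det ≠ 0) {k l : m} (hkl : k ≠ l) (s t : ℂ) :
    (N + s • Matrix.single k k (1 : ℂ) + t • Matrix.single l l (1 : ℂ)).det =
      N.det * ((1 + s * N⁻¹ k k) * (1 + t * N⁻¹ l l) - s * t * (N⁻¹ k l * N⁻¹ l k)) :=
  det_add_two' hN k l s t

omit [Fintype ι] in
private theorem N_update {m : Type*} [Fintype m] [DecidableEq m] {N : (ι → ℂ) → Matrix m m ℂ}
    {e : ι → m}
    (h : ∀ (V : ι → ℂ) (i : ι) (s : ℂ), N (Function.update V i s) =
      N (Function.update V i 0) + s • Matrix.single (e i) (e i) (1 : ℂ))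
    (V : ι → ℂ) (i : ι) (a : ℂ) :
    N (Function.update V i a) = N V + (a - V i) • Matrix.single (e i) (e i) (1 : ℂ) := by
  have h1 := h V i (V i)
  rw [Function.update_eq_self] at h1
  rw [h V i a, h1, sub_smul]
  abel

theorem pd_det {m : Type*} [Fintype m] [DecidableEq m] {N : (ι → ℂ) → Matrix m m ℂ} {e : ι → m}
    (h : ∀ (V : ι → ℂ) (i : ι) (s : ℂ), N (Function.update V i s) =
      N (Function.update V i 0) + s • Matrix.single (e i) (e i) (1 : ℂ))
    {V : ι → ℂ} (hV : (N V).det ≠ 0) (i : ι) :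
    pd i (fun V => (N V).det) V = (N V).det * (N V)⁻¹ (e i) (e i) := by
  simp only [pd]
  rw [N_update h V i 1, N_update h V i 0, det_add_diag_one hV, det_add_diag_one hV]
  ring

theorem pd_pd_det {m : Type*} [Fintype m] [DecidableEq m] {N : (ι → ℂ) → Matrix m m ℂ}
    {e : ι → m} (he : Function.Injective e)
    (h : ∀ (V : ι → ℂ) (i : ι) (s : ℂ), N (Function.update V i s) =
      N (Function.update V i 0) + s • Matrix.single (e i) (e i) (1 : ℂ))
    {V : ι → ℂ} (hV : (N V).det ≠ 0) {i j : ι} (hij : i ≠ j) :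
    pd i (pd j fun V => (N V).det) V = (N V).det *
      ((N V)⁻¹ (e i) (e i) * (N V)⁻¹ (e j) (e j) - (N V)⁻¹ (e i) (e j) * (N V)⁻¹ (e j) (e i)) := by
  have h2 : ∀ a c : ℂ, (N (Function.update (Function.update V i a) j c)).det =
      (N V).det * ((1 + (a - V i) * (N V)⁻¹ (e i) (e i)) * (1 + (c - V j) * (N V)⁻¹ (e j) (e j)) -
        (a - V i) * (c - V j) * ((N V)⁻¹ (e i) (e j) * (N V)⁻¹ (e j) (e i))) := by
    intro a c
    rw [N_update h (Function.update V i a) j c, N_update h V i a,
      Function.update_of_ne (Ne.symm hij),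
      det_add_diag_two hV (fun hc => hij (he hc))]
  simp only [pd]
  rw [h2, h2, h2, h2]
  ring

end LL
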