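import Pool.Agent.Lib.MP_562b47_mp.LL.MA2

/-!
DetMA: the determinants are multi-affine.

PROOF.
* `det_diag_aff`: `A + t • single k k 1` is `A` with the row `k` replaced by
  `A k + t • Pi.single k 1` (`Matrix.updateRow`), so by `Matrix.det_updateRow_add`,
  `Matrix.det_updateRow_smul` and `Matrix.updateRow_eq_self` its determinant is
  `det A + t * det (A.updateRow k (Pi.single k 1))`.
* `MA_of_det`: if `N (update V i s) = N (update V i 0) + s • single (e i) (e i) 1` for all `V, i, s`,
  then `fun V => (N V).det` is multi-affine: apply `det_diag_aff` to `A = N (update V i 0)`; the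
  constant `c` is `pd i f V` (take `t = 1`).
* `mt_update`: `mt Ξ (update V i s) = mt Ξ (update V i 0) + s • single i i 1` entrywise
  (`Matrix.diagonal_apply`, `Function.update_apply`, cases on equality of the indices).
* `bord_update`: the same for `bord φ ψ (mt Ξ V)` with `e = Sum.inl` (entrywise, `Matrix.fromBlocks`).
* the four functions of `Dat`: `MA_of_det`, `MA.neg`, `MA.sub_smul`.
-/

set_option autoImplicit false

namespace LL

open Finset Matrix

variable {ι : Type*} [Fintype ι] [DecidableEq ι]

theorem det_diag_aff {m : Type*} [Fintype m] [DecidableEq m] (A : Matrix m m ℂ) (k : m) :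
    ∃ c : ℂ, ∀ t : ℂ, (A + t • Matrix.single k k (1 : ℂ)).det = A.det + t * c := by
  refine ⟨(A.updateRow k (Pi.single k 1)).det, fun t => ?_⟩
  have h1 : A + t • Matrix.single k k (1 : ℂ) = A.updateRow k (A k + t • Pi.single k 1) := by
    ext a b
    rw [Matrix.add_apply, Matrix.smul_apply, Matrix.single_apply, Matrix.updateRow_apply]
    by_cases ha : a = k
    · subst ha
      by_cases hb : a = b
      · subst hb
        simp
      · simp [hb, Pi.single_apply, Ne.symm hb]
    · have ha' : ¬ (k = a ∧ k = b) := fun h => ha h.1.symm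
      simp [ha, ha']
  rw [h1, Matrix.det_updateRow_add, Matrix.det_updateRow_smul, Matrix.updateRow_eq_self]

theorem MA_of_det {m : Type*} [Fintype m] [DecidableEq m] (N : (ι → ℂ) → Matrix m m ℂ) (e : ι → m)
    (h : ∀ (V : ι → ℂ) (i : ι) (s : ℂ), N (Function.update V i s) =
      N (Function.update V i 0) + s • Matrix.single (e i) (e i) (1 : ℂ)) :
    MA fun V => (N V).det := by
  intro V i s
  obtain ⟨c, hc⟩ := det_diag_aff (N (Function.update V i 0)) (e i)
  have h1 : pd i (fun V => (N V).det) V = c := by
    show (N (Function.update V i 1)).det - (N (Function.update V i 0)).det = c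
    rw [h V i 1, hc 1]
    ring
  rw [h1]
  show (N (Function.update V i s)).det = (N (Function.update V i 0)).det + s * c
  rw [h V i s, hc s]

theorem mt_update (Ξ : Matrix ι ι ℂ) (V : ι → ℂ) (i : ι) (s : ℂ) :
    mt Ξ (Function.update V i s) = mt Ξ (Function.update V i 0) + s • Matrix.single i i (1 : ℂ) := by
  ext a b
  simp only [mt, Matrix.add_apply, Matrix.smul_apply, Matrix.single_apply, Matrix.diagonal_apply,
    Function.update_apply, smul_eq_mul]
  by_cases hab : a = b
  · subst hab
    by_cases ha : a = i
    · subst ha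
      simp
      ring
    · have ha' : ¬ i = a := fun h => ha h.symm
      simp [ha, ha']
  · by_cases ha : i = a
    · subst ha
      have hb : ¬ i = b := hab
      simp [hb]
    · simp [hab, ha]

theorem bord_update (φ ψ : ι → ℂ) (Ξ : Matrix ι ι ℂ) (V : ι → ℂ) (i : ι) (s : ℂ) :
    bord φ ψ (mt Ξ (Function.update V i s)) = bord φ ψ (mt Ξ (Function.update V i 0)) +
      s • Matrix.single (Sum.inl i) (Sum.inl i) (1 : ℂ) := by
  ext a b
  rw [mt_update]
  rcases a with a | a <;> rcases b with b | b <;>
    simp [bord, Matrix.single_apply]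

theorem MA_bq (φ ψ : ι → ℂ) (Ξ : Matrix ι ι ℂ) : MA fun V => bq φ ψ (mt Ξ V) :=
  MA.neg (MA_of_det (fun V => bord φ ψ (mt Ξ V)) Sum.inl fun V i s => bord_update φ ψ Ξ V i s)

namespace Dat

variable (D : Dat ι)

theorem MA_dl : MA D.dl :=
  MA_of_det (fun V => mt D.Ξ V) id fun V i s => mt_update D.Ξ V i s

theorem MA_pp : MA D.pp := MA_bq _ _ _

theorem MA_qq : MA D.qq := MA_bq _ _ _

theorem MA_De : MA D.De := MA.sub_smul D.MA_dl D.MA_pp Complex.I

end Dat

end LL
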