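import Pool.Agent.Lib.MP_562b47_mp.LL.EDefs

/-!
LL-E1 (one variable integral).

PROOF. `b = 0`: `‖0‖ₑ ^ (θ - 1) = ⊤` (`ENNReal.zero_rpow_of_neg`), the right side is `⊤`.
`b ≠ 0`: `|a + x b| = |b| |x + a/b| ≥ |b| |x - x0|`, `x0 = - Re (a / b)`, so (`θ - 1 < 0`)
`‖a + x b‖ₑ ^ (θ-1) ≤ ‖b‖ₑ ^ (θ-1) * ofReal |x - x0| ^ (θ-1)`.
Put `h x = (τ / max τ |x|)^(2θ) * |x|^(θ-1)`. Pointwise
`(τ / max τ |x + c|)^(2θ) |x - x0|^(θ-1) ≤ h (x + c) + h (x - x0)`:
if `|x - x0| ≥ |x + c|` then `|x-x0|^(θ-1) ≤ |x+c|^(θ-1)`; if `|x - x0| ≤ |x + c|` then the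
weight at `x + c` is at most the weight at `x - x0` (a single `x` where something is `0` does not
matter: use a.e., or ENNReal powers).
`∫ h = 2 (∫_0^τ x^(θ-1) dx + ∫_τ^∞ τ^(2θ) x^(-θ-1) dx) = 4 τ^θ / θ`
(`integral_rpow`, `integral_Ioi_rpow_of_lt`, evenness; or lintegral on `Iic 0`, `Ioc 0 τ`, `Ioi τ`).
Translation invariance of Lebesgue measure (`lintegral_add_right_eq_self`, `lintegral_sub_right_eq_self`).
-/

set_option autoImplicit false

namespace LL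

open MeasureTheory Matrix Finset
open scoped ENNReal Nat

private theorem E1_anti {x y : ℝ≥0∞} {θ : ℝ} (h1 : θ < 1) (h : x ≤ y) :
    y ^ (θ - 1) ≤ x ^ (θ - 1) := by
  have e : θ - 1 = -(1 - θ) := by ring
  rw [e, ENNReal.rpow_neg, ENNReal.rpow_neg]
  exact ENNReal.inv_le_inv.2 (ENNReal.rpow_le_rpow h (by linarith))

private theorem E1_om (θ τ : ℝ) (h0 : 0 < θ) (hτ : 0 < τ) {x y : ℝ} (h : |x| ≤ |y|) :
    om1 θ τ y ≤ om1 θ τ x := by
  unfold om1
  refine ENNReal.ofReal_le_ofReal ?_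
  have hx : 0 < max τ |x| := lt_max_of_lt_left hτ
  have hy : 0 < max τ |y| := lt_max_of_lt_left hτ
  refine Real.rpow_le_rpow (by positivity) ?_ (by linarith)
  exact div_le_div_of_nonneg_left hτ.le hx (max_le_max le_rfl h)

/-- the majorant -/
private noncomputable def E1_h (θ τ x : ℝ) : ℝ≥0∞ := om1 θ τ x * ‖x‖ₑ ^ (θ - 1)

private theorem E1_even (θ τ x : ℝ) : E1_h θ τ (-x) = E1_h θ τ x := by
  unfold E1_h om1
  rw [abs_neg, enorm_neg]

private theorem E1_in (θ τ : ℝ) (h0 : 0 < θ) (hτ : 0 < τ) :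
    ∫⁻ x in Set.Ioc 0 τ, E1_h θ τ x = ENNReal.ofReal (τ ^ θ / θ) := by
  have e1 : ∫⁻ x in Set.Ioc 0 τ, E1_h θ τ x =
      ∫⁻ x in Set.Ioc 0 τ, ENNReal.ofReal (x ^ (θ - 1)) := by
    refine setLIntegral_congr_fun measurableSet_Ioc ?_
    intro x hx
    have hx0 : 0 < x := hx.1
    change om1 θ τ x * ‖x‖ₑ ^ (θ - 1) = ENNReal.ofReal (x ^ (θ - 1))
    unfold om1
    rw [abs_of_pos hx0, max_eq_left hx.2, div_self hτ.ne', Real.one_rpow, ENNReal.ofReal_one,
      one_mul, Real.enorm_eq_ofReal hx0.le, ENNReal.ofReal_rpow_of_pos hx0]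
  rw [e1]
  have hint : IntervalIntegrable (fun x : ℝ => x ^ (θ - 1)) volume 0 τ :=
    intervalIntegral.intervalIntegrable_rpow' (by linarith)
  have hi2 : IntegrableOn (fun x : ℝ => x ^ (θ - 1)) (Set.Ioc 0 τ) volume :=
    (intervalIntegrable_iff_integrableOn_Ioc_of_le hτ.le).1 hint
  have hnn : 0 ≤ᵐ[volume.restrict (Set.Ioc 0 τ)] fun x : ℝ => x ^ (θ - 1) := by
    refine (ae_restrict_iff' measurableSet_Ioc).2 (ae_of_all _ fun x hx => ?_)
    exact Real.rpow_nonneg hx.1.le _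
  rw [← ofReal_integral_eq_lintegral_ofReal hi2 hnn, ← intervalIntegral.integral_of_le hτ.le,
    integral_rpow (Or.inl (by linarith))]
  congr 1
  have e2 : θ - 1 + 1 = θ := by ring
  rw [e2, Real.zero_rpow h0.ne', sub_zero]

private theorem E1_out (θ τ : ℝ) (h0 : 0 < θ) (hτ : 0 < τ) :
    ∫⁻ x in Set.Ioi τ, E1_h θ τ x = ENNReal.ofReal (τ ^ θ / θ) := by
  have e1 : ∫⁻ x in Set.Ioi τ, E1_h θ τ x =
      ∫⁻ x in Set.Ioi τ, ENNReal.ofReal (τ ^ (2 * θ) * x ^ (-θ - 1)) := by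
    refine setLIntegral_congr_fun measurableSet_Ioi ?_
    intro x hx
    have hx0 : 0 < x := hτ.trans hx
    change om1 θ τ x * ‖x‖ₑ ^ (θ - 1) = ENNReal.ofReal (τ ^ (2 * θ) * x ^ (-θ - 1))
    unfold om1
    rw [abs_of_pos hx0, max_eq_right (le_of_lt hx), Real.enorm_eq_ofReal hx0.le,
      ENNReal.ofReal_rpow_of_pos hx0, ← ENNReal.ofReal_mul (by positivity)]
    congr 1
    rw [Real.div_rpow hτ.le hx0.le, div_mul_eq_mul_div, mul_div_assoc, ← Real.rpow_sub hx0]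
    congr 2
    ring
  rw [e1]
  have hi : IntegrableOn (fun x : ℝ => x ^ (-θ - 1)) (Set.Ioi τ) volume :=
    integrableOn_Ioi_rpow_of_lt (by linarith) hτ
  have hi2 : IntegrableOn (fun x : ℝ => τ ^ (2 * θ) * x ^ (-θ - 1)) (Set.Ioi τ) volume :=
    hi.const_mul _
  have hnn : 0 ≤ᵐ[volume.restrict (Set.Ioi τ)] fun x : ℝ => τ ^ (2 * θ) * x ^ (-θ - 1) := by
    refine (ae_restrict_iff' measurableSet_Ioi).2 (ae_of_all _ fun x hx => ?_)
    have hx0 : 0 < x := hτ.trans hx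
    exact mul_nonneg (Real.rpow_nonneg hτ.le _) (Real.rpow_nonneg hx0.le _)
  rw [← ofReal_integral_eq_lintegral_ofReal hi2 hnn, integral_const_mul,
    integral_Ioi_rpow_of_lt (by linarith) hτ]
  congr 1
  have e2 : -θ - 1 + 1 = -θ := by ring
  rw [e2, neg_div_neg_eq, mul_div_assoc', ← Real.rpow_add hτ]
  congr 2
  ring

private theorem E1_tot (θ τ : ℝ) (h0 : 0 < θ) (hτ : 0 < τ) :
    ∫⁻ x : ℝ, E1_h θ τ x = ENNReal.ofReal (4 / θ * τ ^ θ) := by
  have hpos : ∫⁻ x in Set.Ioi (0 : ℝ), E1_h θ τ x = ENNReal.ofReal (2 / θ * τ ^ θ) := by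
    rw [← Set.Ioc_union_Ioi_eq_Ioi hτ.le, lintegral_union measurableSet_Ioi
      (Set.Ioc_disjoint_Ioi le_rfl), E1_in θ τ h0 hτ, E1_out θ τ h0 hτ,
      ← ENNReal.ofReal_add (by positivity) (by positivity)]
    congr 1
    ring
  have hneg : ∫⁻ x in Set.Iic (0 : ℝ), E1_h θ τ x = ENNReal.ofReal (2 / θ * τ ^ θ) := by
    rw [← hpos, ← setLIntegral_congr (Iio_ae_eq_Iic (a := (0 : ℝ))),
      ← lintegral_indicator measurableSet_Iio, ← lintegral_indicator measurableSet_Ioi,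
      ← lintegral_neg_eq_self]
    refine lintegral_congr fun x => ?_
    by_cases hx : 0 < x
    · rw [Set.indicator_of_mem (by simpa using hx), Set.indicator_of_mem (by simpa using hx),
        E1_even]
    · rw [Set.indicator_of_notMem (by simpa using hx), Set.indicator_of_notMem (by simpa using hx)]
  rw [← lintegral_add_compl _ (measurableSet_Ioi (a := (0 : ℝ))), Set.compl_Ioi, hpos, hneg,
    ← ENNReal.ofReal_add (by positivity) (by positivity)]
  congr 1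
  ring

private theorem E1_meas (θ τ : ℝ) : Measurable (E1_h θ τ) := by
  unfold E1_h om1
  fun_prop

theorem int_one (θ τ : ℝ) (h0 : 0 < θ) (h1 : θ < 1) (hτ : 0 < τ) (c : ℝ) (a b : ℂ) :
    ∫⁻ x : ℝ, om1 θ τ (x + c) * ‖a + (x : ℂ) * b‖ₑ ^ (θ - 1) ≤
      ENNReal.ofReal (8 / θ * τ ^ θ) * ‖b‖ₑ ^ (θ - 1) := by
  by_cases hb : b = 0
  · rw [hb, enorm_zero, ENNReal.zero_rpow_of_neg (by linarith), ENNReal.mul_top]
    · exact le_top
    · have : 0 < 8 / θ * τ ^ θ := by positivity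
      exact (ENNReal.ofReal_pos.2 this).ne'
  · have hbe : ‖b‖ₑ ≠ 0 := by simpa using hb
    have hbt : ‖b‖ₑ ≠ ⊤ := enorm_ne_top
    have hpt : ∀ x : ℝ, om1 θ τ (x + c) * ‖a + (x : ℂ) * b‖ₑ ^ (θ - 1) ≤
        (E1_h θ τ (x + c) + E1_h θ τ (x + (a / b).re)) * ‖b‖ₑ ^ (θ - 1) := by
      intro x
      have e1 : ‖x + (a / b).re‖ₑ * ‖b‖ₑ ≤ ‖a + (x : ℂ) * b‖ₑ := by
        have e2 : a + (x : ℂ) * b = (x + a / b) * b := by
          field_simp
          ring
        rw [e2, enorm_mul]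
        refine mul_le_mul_left ?_ _
        rw [← ofReal_norm, ← ofReal_norm]
        refine ENNReal.ofReal_le_ofReal ?_
        have e3 : ((x : ℂ) + a / b).re = x + (a / b).re := by simp
        rw [← e3, Real.norm_eq_abs]
        exact Complex.abs_re_le_norm _
      have e4 : ‖a + (x : ℂ) * b‖ₑ ^ (θ - 1) ≤
          ‖x + (a / b).re‖ₑ ^ (θ - 1) * ‖b‖ₑ ^ (θ - 1) := by
        rw [← ENNReal.mul_rpow_of_ne_top enorm_ne_top hbt]
        exact E1_anti h1 e1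
      have e5 : om1 θ τ (x + c) * ‖x + (a / b).re‖ₑ ^ (θ - 1) ≤
          E1_h θ τ (x + c) + E1_h θ τ (x + (a / b).re) := by
        rcases le_total |x + c| |x + (a / b).re| with h | h
        · refine le_add_right ?_
          unfold E1_h
          refine mul_le_mul_right ?_ _
          refine E1_anti h1 ?_
          rw [← ofReal_norm, ← ofReal_norm]
          exact ENNReal.ofReal_le_ofReal h
        · refine le_add_left ?_
          unfold E1_h
          exact mul_le_mul_left (E1_om θ τ h0 hτ h) _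
      calc om1 θ τ (x + c) * ‖a + (x : ℂ) * b‖ₑ ^ (θ - 1)
          ≤ om1 θ τ (x + c) * (‖x + (a / b).re‖ₑ ^ (θ - 1) * ‖b‖ₑ ^ (θ - 1)) :=
            mul_le_mul_right e4 _
        _ = om1 θ τ (x + c) * ‖x + (a / b).re‖ₑ ^ (θ - 1) * ‖b‖ₑ ^ (θ - 1) := by
            rw [mul_assoc]
        _ ≤ _ := mul_le_mul_left e5 _
    refine (lintegral_mono hpt).trans ?_
    have hfin : ‖b‖ₑ ^ (θ - 1) ≠ ⊤ := ENNReal.rpow_ne_top_of_ne_zero hbe hbt
    rw [lintegral_mul_const' _ _ hfin]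
    refine mul_le_mul_left ?_ _
    have hm : Measurable fun x : ℝ => E1_h θ τ (x + (a / b).re) :=
      (E1_meas θ τ).comp (measurable_id.add_const _)
    rw [lintegral_add_right _ hm,
      lintegral_add_right_eq_self (E1_h θ τ) c,
      lintegral_add_right_eq_self (E1_h θ τ) (a / b).re, E1_tot θ τ h0 hτ,
      ← ENNReal.ofReal_add (by positivity) (by positivity)]
    refine ENNReal.ofReal_le_ofReal (le_of_eq ?_)
    ring

end LL
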