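import Pool.Agent.Lib.MP_562b47_mp.LL.EDefs2

/-!
LL-E10 (structure of the `J`-fibre).

PROOF. `G0 = D.G V0`, `A = D.GJ J V0` (invertible), `Ξ' = A⁻¹ - diagonal (V0 on J)`,
`y' = A⁻¹ *ᵥ (Gf V0 on J)`; `Ξ'` is symmetric since `A` is (`G_symm`, `Matrix.transpose_nonsing_inv`).
For `V = V0` off `J` let `H = diagonal (V - V0)`: `M' V = M' V0 + H`, so
`G V0 = G V0 * (M' V) * G V = G V + G V0 * H * G V` (`G_mul`). Since `H` is supported in `J`, the
`J × J` block of this is `A = B + A * H_J * B`, `B = D.GJ J V` (sums over `ι` of terms that vanish off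
`J`: `Finset.sum_subset`, `Finset.sum_coe_sort`/`Finset.sum_attach`). Multiply by `A⁻¹`:
`1 = (A⁻¹ + H_J) * B = mt Ξ' (cc V_J) * B`, so `B = (mt Ξ' (cc V_J))⁻¹` (`Matrix.inv_eq_right_inv`).
Same for the vectors: `Gf V0 = Gf V + G V0 * H * Gf V`, on `J`: `u0 = u + A H_J u`, so
`A⁻¹ u0 = (A⁻¹ + H_J) u`, `u = (mt Ξ' (cc V_J))⁻¹ *ᵥ y'`.
-/

set_option autoImplicit false

namespace LL

open MeasureTheory Matrix Finset
open scoped ENNReal Nat

variable {ι : Type*} [Fintype ι] [DecidableEq ι]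

namespace Dat

variable (D : Dat ι)

theorem fib_struct (J : Finset ι) (V0 : ι → ℝ) (h0 : (D.GJ J V0).det ≠ 0) :
    ∃ (Ξ' : Matrix {i // i ∈ J} {i // i ∈ J} ℂ) (y' : {i // i ∈ J} → ℂ), Ξ'ᵀ = Ξ' ∧
      ∀ V : ι → ℝ, (∀ i, i ∉ J → V i = V0 i) →
        D.GJ J V = cG Ξ' (fun i => V i.1) ∧
        (fun i : {i // i ∈ J} => D.Gf V i.1) = cu Ξ' y' (fun i => V i.1) := by
  set A := D.GJ J V0 with hA
  have hAu : IsUnit A.det := isUnit_iff_ne_zero.2 h0
  have hAsym : Aᵀ = A := by
    ext i j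
    exact D.G_symm V0 j.1 i.1
  refine ⟨A⁻¹ - Matrix.diagonal (fun i => ((V0 i.1 : ℝ) : ℂ)),
    A⁻¹ *ᵥ (fun i => D.Gf V0 i.1), ?_, ?_⟩
  · rw [Matrix.transpose_sub, Matrix.diagonal_transpose, Matrix.transpose_nonsing_inv, hAsym]
  · intro V hV
    set B := D.GJ J V with hB
    set H : ι → ℂ := fun i => (V i : ℂ) - (V0 i : ℂ) with hH
    set HJ : {i // i ∈ J} → ℂ := fun i => H i.1 with hHJ
    have hH0 : ∀ i, i ∉ J → H i = 0 := by
      intro i hi
      simp only [hH]
      rw [hV i hi, sub_self]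
    have hM : D.M' V = D.M' V0 + Matrix.diagonal H := by
      unfold M' mt cc
      ext i j
      by_cases hij : i = j
      · subst hij
        simp only [Matrix.sub_apply, Matrix.add_apply, Matrix.diagonal_apply_eq, hH]
        ring
      · simp only [Matrix.sub_apply, Matrix.add_apply, Matrix.diagonal_apply_ne _ hij]
        ring
    have hG : D.G V0 = D.G V + D.G V0 * Matrix.diagonal H * D.G V := by
      have h1 : D.G V0 * D.M' V * D.G V = D.G V0 := by
        rw [Matrix.mul_assoc, (D.G_mul V).2, Matrix.mul_one]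
      rw [hM, Matrix.mul_add, (D.G_mul V0).1, Matrix.add_mul, Matrix.one_mul] at h1
      exact h1.symm
    have hsum : ∀ (f : ι → ℂ), (∀ i, i ∉ J → f i = 0) →
        ∑ i, f i = ∑ i : {i // i ∈ J}, f i.1 := by
      intro f hf
      rw [Finset.sum_coe_sort J f]
      exact (Finset.sum_subset (Finset.subset_univ J) fun i _ hi => hf i hi).symm
    have hAB : A = B + A * Matrix.diagonal HJ * B := by
      ext i j
      have h1 := congrFun (congrFun hG i.1) j.1
      rw [Matrix.add_apply, Matrix.mul_apply] at h1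
      rw [Matrix.add_apply, Matrix.mul_apply]
      have h2 : ∑ l, (D.G V0 * Matrix.diagonal H) i.1 l * D.G V l j.1 =
          ∑ l : {i // i ∈ J}, (D.G V0 * Matrix.diagonal H) i.1 l.1 * D.G V l.1 j.1 := by
        apply hsum
        intro l hl
        rw [Matrix.mul_diagonal, hH0 l hl]
        ring
      rw [h2] at h1
      calc A i j = D.G V0 i.1 j.1 := rfl
        _ = _ := h1
        _ = B i j + ∑ l, (A * Matrix.diagonal HJ) i l * B l j := by
          congr 1
          refine Finset.sum_congr rfl fun l _ => ?_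
          rw [Matrix.mul_diagonal, Matrix.mul_diagonal]
          rfl
    have hmt : mt (A⁻¹ - Matrix.diagonal (fun i : {i // i ∈ J} => ((V0 i.1 : ℝ) : ℂ)))
        (cc (fun i : {i // i ∈ J} => V i.1)) = A⁻¹ + Matrix.diagonal HJ := by
      unfold mt cc
      ext i j
      by_cases hij : i = j
      · subst hij
        simp only [Matrix.sub_apply, Matrix.add_apply, Matrix.diagonal_apply_eq, hHJ, hH]
        ring
      · simp only [Matrix.sub_apply, Matrix.add_apply, Matrix.diagonal_apply_ne _ hij]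
        ring
    have hinv : (A⁻¹ + Matrix.diagonal HJ) * B = 1 := by
      have h1 : A⁻¹ * A = 1 := Matrix.nonsing_inv_mul _ hAu
      rw [Matrix.add_mul]
      calc A⁻¹ * B + Matrix.diagonal HJ * B
          = A⁻¹ * B + A⁻¹ * A * Matrix.diagonal HJ * B := by rw [h1, Matrix.one_mul]
        _ = A⁻¹ * (B + A * Matrix.diagonal HJ * B) := by
          rw [Matrix.mul_add]
          simp only [Matrix.mul_assoc]
        _ = 1 := by rw [← hAB, h1]
    have hcG : cG (A⁻¹ - Matrix.diagonal (fun i : {i // i ∈ J} => ((V0 i.1 : ℝ) : ℂ)))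
        (fun i : {i // i ∈ J} => V i.1) = B := by
      unfold cG
      rw [hmt]
      exact Matrix.inv_eq_right_inv hinv
    refine ⟨hcG.symm, ?_⟩
    unfold cu
    rw [hcG]
    have hu : (fun i : {i // i ∈ J} => D.Gf V0 i.1) =
        (fun i : {i // i ∈ J} => D.Gf V i.1) +
          (A * Matrix.diagonal HJ) *ᵥ (fun i : {i // i ∈ J} => D.Gf V i.1) := by
      have h1 : D.Gf V0 = D.Gf V + (D.G V0 * Matrix.diagonal H) *ᵥ D.Gf V := by
        unfold Gf
        rw [Matrix.mulVec_mulVec, ← Matrix.add_mulVec, ← hG]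
      funext i
      have h2 := congrFun h1 i.1
      rw [Pi.add_apply] at h2
      rw [Pi.add_apply, h2]
      congr 1
      have e1 : ((D.G V0 * Matrix.diagonal H) *ᵥ D.Gf V) i.1 =
          ∑ l, (D.G V0 * Matrix.diagonal H) i.1 l * D.Gf V l := rfl
      have e2 : ((A * Matrix.diagonal HJ) *ᵥ (fun i : {i // i ∈ J} => D.Gf V i.1)) i =
          ∑ l, (A * Matrix.diagonal HJ) i l * D.Gf V l.1 := rfl
      rw [e1, e2, hsum]
      · refine Finset.sum_congr rfl fun l _ => ?_
        rw [Matrix.mul_diagonal, Matrix.mul_diagonal]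
        rfl
      · intro l hl
        rw [Matrix.mul_diagonal, hH0 l hl]
        ring
    have hinv' : B * (A⁻¹ + Matrix.diagonal HJ) = 1 := mul_eq_one_comm.1 hinv
    have h1 : A⁻¹ * A = 1 := Matrix.nonsing_inv_mul _ hAu
    rw [hu, Matrix.mulVec_add, Matrix.mulVec_mulVec, ← Matrix.mul_assoc, h1, Matrix.one_mul,
      ← Matrix.add_mulVec, Matrix.mulVec_mulVec, hinv', Matrix.one_mulVec]

end Dat

end LL
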