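import Pool.Agent.Lib.MP_562b47_mp.LL.Typ

/-!
GBound (version 2): the matrix `G = (M - i φ φᵀ)⁻¹` on the event `typ`, and the block formula for `Δ`.

PROOF.
* `G_eq`: by definition of `Γ`, `z` (`kp ≠ 0`).
* `G_le`: `‖G_ij‖ ≤ ‖Γ_ij‖ + ‖kp‖ ‖z_i‖ ‖z_j‖ ≤ √(K g_i g_j) + 4 K b √(g_i g_j) ≤ 2 √(K g_i g_j)`
  (`typ_Ga_all`, `typ_z`, `kp_le`; `4 K b ≤ 4 ≤ √K`).
* `G_diag`: `g_i ≥ 2 > 1`, so `g_i = ‖Γ_ii‖`, and `‖G_ii - Γ_ii‖ ≤ 4 ‖z_i‖² ≤ 4 K b g_i ≤ g_i / 2`.
* `G_phi`: `G φ = kp z`.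
* `De_block`: `M'(W) = M'(V) + diagonal h`, `h = W - V` supported in `I`;
  `det M'(W) = det M'(V) * det (1 + G * diagonal h)`; `diagonal h = U * H * Uᵀ` with `U` the inclusion
  matrix `ι × I`, so by `Matrix.det_one_add_mul_comm` the last determinant is
  `det (1 + H Uᵀ G U)` over `I`, or `det (1 + Uᵀ G U H)` (again `Matrix.det_one_add_mul_comm`).
-/

set_option autoImplicit false

namespace LL

open Finset Matrix

variable {ι : Type*} [Fintype ι] [DecidableEq ι]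

namespace Dat

variable (D : Dat ι)

theorem G_eq {V : ι → ℝ} (hP : D.pp (cc V) ≠ 0) (i j : ι) :
    D.G V i j = D.Ga V i j + D.kp V * (D.z V i * D.z V j) := by
  have hd := D.kp_ne hP
  rw [Ga, z, z]
  field_simp
  ring

theorem G_le {b K : ℝ} (hb : 0 < b) (hK : 16 ≤ K) (hKb : K * b ≤ 1) {V : ι → ℝ}
    (h : D.typ b K V) (i j : ι) : ‖D.G V i j‖ ≤ 2 * √(K * (D.gi i V * D.gi j V)) := by
  have hP := D.typ_pp h
  have hK0 : 0 ≤ K := by linarith
  have hgi : 0 < D.gi i V := lt_of_lt_of_le one_pos (D.one_le_gi i V)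
  have hgj : 0 < D.gi j V := lt_of_lt_of_le one_pos (D.one_le_gi j V)
  have hgg : 0 < D.gi i V * D.gi j V := mul_pos hgi hgj
  have h1 : ‖D.Ga V i j‖ ≤ √(K * (D.gi i V * D.gi j V)) := by
    refine Real.le_sqrt_of_sq_le ?_
    have := D.typ_Ga_all (by linarith) h i j
    rwa [mul_assoc] at this
  have h2 : 4 * (‖D.z V i‖ * ‖D.z V j‖) ≤ √(K * (D.gi i V * D.gi j V)) := by
    refine Real.le_sqrt_of_sq_le ?_
    have h3 := D.typ_z hK0 h i
    have h4 := D.typ_z hK0 h j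
    have h5 : (‖D.z V i‖ * ‖D.z V j‖) ^ 2 ≤ (K * b * D.gi i V) * (K * b * D.gi j V) := by
      rw [mul_pow]
      exact mul_le_mul h3 h4 (sq_nonneg _) (by positivity)
    have h6 : (K * b * D.gi i V) * (K * b * D.gi j V) = (K * b) * (K * b) * (D.gi i V * D.gi j V) := by
      ring
    have h7 : (K * b) * (K * b) ≤ 1 := by
      have h8 : 0 ≤ K * b := by positivity
      nlinarith
    calc (4 * (‖D.z V i‖ * ‖D.z V j‖)) ^ 2 = 16 * (‖D.z V i‖ * ‖D.z V j‖) ^ 2 := by ring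
      _ ≤ 16 * ((K * b) * (K * b) * (D.gi i V * D.gi j V)) := by
          rw [← h6]
          exact mul_le_mul_of_nonneg_left h5 (by norm_num)
      _ ≤ 16 * (1 * (D.gi i V * D.gi j V)) :=
          mul_le_mul_of_nonneg_left (mul_le_mul_of_nonneg_right h7 hgg.le) (by norm_num)
      _ = 16 * (D.gi i V * D.gi j V) := by ring
      _ ≤ K * (D.gi i V * D.gi j V) := mul_le_mul_of_nonneg_right hK hgg.le
  have h3 : ‖D.kp V * (D.z V i * D.z V j)‖ ≤ 4 * (‖D.z V i‖ * ‖D.z V j‖) := by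
    rw [norm_mul, norm_mul]
    exact mul_le_mul_of_nonneg_right (D.kp_le V) (by positivity)
  rw [D.G_eq hP]
  have h4 := norm_add_le (D.Ga V i j) (D.kp V * (D.z V i * D.z V j))
  linarith

theorem G_diag {b K : ℝ} (hb : 0 < b) (hK : 1 ≤ K) (hKb : 8 * (K * b) ≤ 1) {V : ι → ℝ}
    (h : D.typ b K V) {i : ι} (hi : 2 ≤ D.gi i V) :
    D.gi i V / 2 ≤ ‖D.G V i i‖ ∧ ‖D.G V i i‖ ≤ 2 * D.gi i V := by
  have hP := D.typ_pp h
  have hK0 : 0 ≤ K := by linarith
  have h1 : ‖D.Ga V i i‖ = D.gi i V := by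
    have h2 := D.gi_eq hP i
    rcases le_total ‖D.Ga V i i‖ 1 with h3 | h3
    · rw [max_eq_left h3] at h2
      linarith
    · rw [max_eq_right h3] at h2
      exact h2.symm
  have h3 : ‖D.kp V * (D.z V i * D.z V i)‖ ≤ 4 * (‖D.z V i‖ * ‖D.z V i‖) := by
    rw [norm_mul, norm_mul]
    exact mul_le_mul_of_nonneg_right (D.kp_le V) (by positivity)
  have h4 := D.typ_z hK0 h i
  have h5 : 4 * (K * b * D.gi i V) ≤ D.gi i V / 2 := by
    have h6 : 0 ≤ D.gi i V := by linarith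
    nlinarith
  have h6 : 4 * (‖D.z V i‖ * ‖D.z V i‖) ≤ D.gi i V / 2 := by
    rw [← sq]
    linarith
  rw [D.G_eq hP]
  have h7 := norm_add_le (D.Ga V i i) (D.kp V * (D.z V i * D.z V i))
  have h8 := norm_sub_le (D.Ga V i i + D.kp V * (D.z V i * D.z V i))
    (D.kp V * (D.z V i * D.z V i))
  rw [add_sub_cancel_right] at h8
  constructor <;> linarith

theorem G_phi {V : ι → ℝ} (hP : D.pp (cc V) ≠ 0) (i : ι) :
    ∑ j, D.G V i j * D.φ j = D.kp V * D.z V i := by
  have h1 : ∑ j, D.G V i j * D.φ j = D.Gf V i := rfl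
  rw [h1, z, mul_div_cancel₀]
  exact D.kp_ne hP

theorem De_block (V W : ι → ℝ) (I : Finset ι) (h : ∀ i, i ∉ I → V i = W i) :
    D.De (cc W) = D.De (cc V) *
      (1 + (D.G V).submatrix (fun i : {i // i ∈ I} => i.1) (fun i : {i // i ∈ I} => i.1) *
        Matrix.diagonal fun i : {i // i ∈ I} => ((W i.1 - V i.1 : ℝ) : ℂ)).det := by
  have hdet : (D.M' V).det ≠ 0 := D.ne V
  have hU : IsUnit (D.M' V).det := isUnit_iff_ne_zero.2 hdet
  set h' : ι → ℂ := fun i => ((W i - V i : ℝ) : ℂ) with hh'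
  have h0 : ∀ i, i ∉ I → h' i = 0 := by
    intro i hi
    simp only [hh']
    rw [h i hi, sub_self, Complex.ofReal_zero]
  have h1 : D.M' W = D.M' V * (1 + D.G V * Matrix.diagonal h') := by
    rw [mul_add, mul_one, ← mul_assoc, G, Matrix.mul_nonsing_inv _ hU, one_mul]
    have h2 : mt D.Ξ (cc W) = mt D.Ξ (cc V) + Matrix.diagonal h' := by
      ext i j
      simp only [mt, cc, Matrix.add_apply, Matrix.diagonal_apply, hh']
      split_ifs
      · push_cast
        ring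
      · ring
    rw [M', M', h2]
    abel
  set A : Matrix ι {i // i ∈ I} ℂ := (D.G V).submatrix id (fun i : {i // i ∈ I} => i.1) with hA
  set B : Matrix {i // i ∈ I} ι ℂ :=
    Matrix.of fun (a : {i // i ∈ I}) (j : ι) => if a.1 = j then h' j else 0 with hB
  have hAB : D.G V * Matrix.diagonal h' = A * B := by
    ext i j
    rw [Matrix.mul_diagonal, Matrix.mul_apply]
    by_cases hj : j ∈ I
    · rw [Finset.sum_eq_single (⟨j, hj⟩ : {i // i ∈ I})]
      · simp [hA, hB]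
      · intro a _ ha
        have h3 : a.1 ≠ j := fun h4 => ha (Subtype.ext h4)
        simp [hB, h3]
      · intro h3
        exact absurd (Finset.mem_univ _) h3
    · rw [h0 j hj, mul_zero, Finset.sum_eq_zero]
      intro a _
      have h3 : a.1 ≠ j := by
        intro h4
        rw [← h4] at hj
        exact hj a.2
      simp [hB, h3]
  have hBA : B * A = (Matrix.diagonal fun i : {i // i ∈ I} => h' i.1) *
      (D.G V).submatrix (fun i : {i // i ∈ I} => i.1) (fun i : {i // i ∈ I} => i.1) := by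
    ext a b
    rw [Matrix.diagonal_mul, Matrix.mul_apply, Finset.sum_eq_single a.1]
    · simp [hA, hB]
    · intro j _ hj
      simp [hB, hj.symm]
    · intro h3
      exact absurd (Finset.mem_univ _) h3
  rw [D.De_eq_det, D.De_eq_det, h1, Matrix.det_mul, hAB, Matrix.det_one_add_mul_comm, hBA,
    Matrix.det_one_add_mul_comm]

end Dat

end LL
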