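import Pool.Agent.Lib.MP_562b47_mp.LL.EDefs2
import Pool.Agent.Lib.MP_562b47_mp.LL.GBound

/-!
LL-E11 (pointwise bounds on the event `E_I`; uses `Typ`, `GBound` as statements).

PROOF. `h.1 : typ`, `h.2.1 : ∀ i ∈ I, g ≤ gi`. `8 K b ≤ 1` (from `8 K b g ≤ 1`, `g ≥ 1`), `b ≤ 1`.
For `i ∈ I`: `G_diag` gives `g_i / 2 ≤ ‖G_ii‖ ≤ 2 g_i`.
(1) `‖G_ii‖ ≥ g/2 > 0`. (2) `G_le`: `‖G_ij‖² ≤ 4 K g_i g_j ≤ 16 K ‖G_ii‖ ‖G_jj‖ = (4 √K)² ..`.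
(3) `(4/g) ‖G_ii‖ ≥ (4/g)(g/2) ≥ 1`. (4) `u_i = Gf V i = kp z_i` (`z` by definition, `kp ≠ 0` by
`kp_ne`, `typ_pp`), `‖kp‖ ≤ 4` (`kp_le`), `‖z_i‖² ≤ K b g_i` (`typ_z`), so
`‖u_i‖² ≤ 16 K b g_i ≤ (2/g) g_i ≤ (4/g) ‖G_ii‖`. (5) `‖kp‖ ≥ 1/2` (`typ_kp`): `‖z_i‖ ≤ 2 ‖u_i‖`,
`om_i = max 1 ‖z_i‖` (`om_eq`), `om_i² ≤ 4 max 1 ‖u_i‖²`; `1 / g_i² ≤ 4 / ‖G_ii‖²`.
(6) `typ_om`: `om_i² ≤ g_i / g`, so `(om_i/g_i)² ≤ 1/(g g_i) ≤ 1/g`.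
-/

set_option autoImplicit false

namespace LL

open MeasureTheory Matrix Finset
open scoped ENNReal Nat

variable {ι : Type*} [Fintype ι] [DecidableEq ι]

namespace Dat

variable (D : Dat ι)

theorem evE_mem {b K g : ℝ} (hb : 0 < b) (hK : 24 ≤ K) (hg : 2 ≤ g) (hKbg : 8 * (K * b * g) ≤ 1)
    {n : ℕ} {I : Finset ι} {V : ι → ℝ} (h : D.evE b K g n I V) :
    (∀ i ∈ I, D.G V i i ≠ 0) ∧
    (∀ i ∈ I, ∀ j ∈ I, ‖D.G V i j‖ ^ 2 ≤ (4 * √K) ^ 2 * (‖D.G V i i‖ * ‖D.G V j j‖)) ∧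
    (∀ i ∈ I, 1 ≤ 4 / g * ‖D.G V i i‖) ∧
    (∀ i ∈ I, ‖D.Gf V i‖ ^ 2 ≤ 4 / g * ‖D.G V i i‖) ∧
    (∀ i ∈ I, (D.om i V / D.gi i V) ^ 2 ≤
      16 * (max 1 (‖D.Gf V i‖ ^ 2) / ‖D.G V i i‖ ^ 2)) ∧
    ∀ i ∈ I, (D.om i V / D.gi i V) ^ 2 ≤ 1 / g := by
  obtain ⟨ht, hgi, -⟩ := h
  have hP := D.typ_pp ht
  have hK0 : 0 < K := by linarith
  have hg0 : 0 < g := by linarith
  have hKb0 : 0 < K * b := mul_pos hK0 hb
  have hKb : 8 * (K * b) ≤ 1 := by nlinarith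
  have hb1 : b ≤ 1 := by nlinarith
  have hd : ∀ i ∈ I, D.gi i V / 2 ≤ ‖D.G V i i‖ ∧ ‖D.G V i i‖ ≤ 2 * D.gi i V := fun i hi =>
    D.G_diag hb (by linarith) hKb ht (hg.trans (hgi i hi))
  have hgi1 : ∀ i ∈ I, 1 ≤ D.gi i V := fun i _ => D.one_le_gi i V
  have hG1 : ∀ i ∈ I, 0 < ‖D.G V i i‖ := fun i hi => by
    have h1 := (hd i hi).1
    have h2 := hgi1 i hi
    linarith
  have hu : ∀ i, D.Gf V i = D.kp V * D.z V i := fun i => by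
    rw [z, mul_div_cancel₀ _ (D.kp_ne hP)]
  have hkp := D.kp_le V
  have hkp2 := D.typ_kp hb1 ht
  refine ⟨fun i hi => ?_, fun i hi j hj => ?_, fun i hi => ?_, fun i hi => ?_, fun i hi => ?_,
    fun i hi => ?_⟩
  · exact norm_pos_iff.1 (hG1 i hi)
  · have h1 := D.G_le hb (by linarith) (by linarith) ht i j
    have h2 : 0 ≤ K * (D.gi i V * D.gi j V) := by
      have := hgi1 i hi
      have := hgi1 j hj
      positivity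
    have h3 : ‖D.G V i j‖ ^ 2 ≤ (2 * √(K * (D.gi i V * D.gi j V))) ^ 2 :=
      pow_le_pow_left₀ (norm_nonneg _) h1 2
    rw [mul_pow, Real.sq_sqrt h2] at h3
    rw [mul_pow, Real.sq_sqrt hK0.le]
    have h4 : D.gi i V ≤ 2 * ‖D.G V i i‖ := by linarith [(hd i hi).1]
    have h5 : D.gi j V ≤ 2 * ‖D.G V j j‖ := by linarith [(hd j hj).1]
    have h6 : D.gi i V * D.gi j V ≤ (2 * ‖D.G V i i‖) * (2 * ‖D.G V j j‖) :=
      mul_le_mul h4 h5 (by linarith [hgi1 j hj]) (by positivity)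
    calc ‖D.G V i j‖ ^ 2 ≤ 2 ^ 2 * (K * (D.gi i V * D.gi j V)) := h3
      _ ≤ 2 ^ 2 * (K * ((2 * ‖D.G V i i‖) * (2 * ‖D.G V j j‖))) := by gcongr
      _ = 4 ^ 2 * K * (‖D.G V i i‖ * ‖D.G V j j‖) := by ring
  · have h1 := (hd i hi).1
    have h2 := hgi i hi
    rw [div_mul_eq_mul_div, le_div_iff₀ hg0]
    linarith
  · have h1 := (hd i hi).1
    have h2 := D.typ_z hK0.le ht i
    have h3 : ‖D.Gf V i‖ ^ 2 ≤ 16 * (K * b * D.gi i V) := by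
      rw [hu, norm_mul, mul_pow]
      have h4 : ‖D.kp V‖ ^ 2 ≤ 4 ^ 2 := pow_le_pow_left₀ (norm_nonneg _) hkp 2
      calc ‖D.kp V‖ ^ 2 * ‖D.z V i‖ ^ 2 ≤ 4 ^ 2 * (K * b * D.gi i V) :=
            mul_le_mul h4 h2 (by positivity) (by norm_num)
        _ = 16 * (K * b * D.gi i V) := by norm_num
    refine h3.trans ?_
    rw [div_mul_eq_mul_div, le_div_iff₀ hg0]
    have h5 : 0 ≤ D.gi i V := by linarith [hgi1 i hi]
    have h6 := mul_le_mul_of_nonneg_right hKbg h5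
    nlinarith
  · have h1 := (hd i hi).2
    have h2 : ‖D.z V i‖ ≤ 2 * ‖D.Gf V i‖ := by
      rw [hu, norm_mul]
      have h3 := norm_nonneg (D.z V i)
      nlinarith
    have h3 : D.om i V ^ 2 ≤ 4 * max 1 (‖D.Gf V i‖ ^ 2) := by
      rw [D.om_eq hP]
      rcases le_total ‖D.z V i‖ 1 with h4 | h4
      · rw [max_eq_left h4]
        linarith [le_max_left 1 (‖D.Gf V i‖ ^ 2)]
      · rw [max_eq_right h4]
        have h5 : ‖D.z V i‖ ^ 2 ≤ (2 * ‖D.Gf V i‖) ^ 2 :=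
          pow_le_pow_left₀ (norm_nonneg _) h2 2
        have h6 := le_max_right 1 (‖D.Gf V i‖ ^ 2)
        nlinarith
    have h4 : 0 < D.gi i V := by linarith [hgi1 i hi]
    have h5 := hG1 i hi
    have h6 : ‖D.G V i i‖ ^ 2 ≤ 4 * D.gi i V ^ 2 := by
      have := pow_le_pow_left₀ (norm_nonneg _) h1 2
      nlinarith
    have h7 : 0 ≤ max 1 (‖D.Gf V i‖ ^ 2) := le_trans zero_le_one (le_max_left _ _)
    rw [div_pow, ← mul_div_assoc, div_le_div_iff₀ (by positivity) (by positivity)]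
    calc D.om i V ^ 2 * ‖D.G V i i‖ ^ 2
        ≤ (4 * max 1 (‖D.Gf V i‖ ^ 2)) * (4 * D.gi i V ^ 2) :=
          mul_le_mul h3 h6 (by positivity) (by positivity)
      _ = 16 * max 1 (‖D.Gf V i‖ ^ 2) * D.gi i V ^ 2 := by ring
  · have h1 := D.typ_om (by linarith) hK0.le hb (by nlinarith) ht (hgi i hi)
    have h2 := hgi1 i hi
    have h4 : 0 < D.gi i V := by linarith
    rw [div_pow, div_le_div_iff₀ (by positivity) hg0, one_mul]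
    rw [le_div_iff₀ hg0] at h1
    nlinarith

end Dat

end LL
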