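import Pool.Agent.Lib.MP_562b47_mp.LL.E8
import Pool.Agent.Lib.MP_562b47_mp.LL.E10
import Pool.Agent.Lib.MP_562b47_mp.LL.E11

/-!
LL-E12 (integral over the `J`-fibre; uses `core`, `fib_struct`, `evE_mem` as statements).

PROOF. Unfold `lmarginal`: `∫⁻ y, f (updateFinset V J y) ∂Measure.pi fun _ : {i // i ∈ J} => mu1`.
Case A: `(D.GJ J (updateFinset V J y)).det = 0` for all `y`: the integrand is `0` (`J` nonempty or not:
for `J = ∅` the determinant is `1`, so case A does not occur).
Case B: `V0 = updateFinset V J y0` has nonzero determinant: `fib_struct J V0` gives `Ξ'`, `y'`; for all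
`y`, `V' = updateFinset V J y` agrees with `V0` off `J` and `V' i.1 = y i` (`updateFinset` simp lemmas),
so `GJ J V' = cG Ξ' y`, `Gf V' = cu Ξ' y' y` on `J`. If `evE` holds at `V'`, then
`y ∈ cS Ξ' y' Λ e` with `Λ = 4 √K`, `e = 4 / g` (`evE_mem`, `cG Ξ' y i j = G V' i.1 j.1`), and
`‖det‖² ∏_{i ∈ J} (om/g)² ≤ 16^|J| cF Ξ' y' y` (`Finset.prod_coe_sort`, `Finset.prod_le_prod`). So the
integrand is `≤ (cS ..).indicator (fun y => ofReal (16^|J| * cF Ξ' y' y)) y`. The measure
`Measure.pi (fun _ => mu1) ≤ volume` (`Measure.restrict_pi_pi`, `Measure.restrict_le_self`,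
`volume_pi`), `lintegral_mono'`, `lintegral_indicator_le`, `lintegral_const_mul'`, then
`core Ξ' _ y' Λ e _ _` (`1 ≤ 4 √K`, `0 < 4 / g`), `Fintype.card {i // i ∈ J} = J.card`.
-/

set_option autoImplicit false

namespace LL

open MeasureTheory Matrix Finset
open scoped ENNReal Nat

variable {ι : Type*} [Fintype ι] [DecidableEq ι]

namespace Dat

variable (D : Dat ι)

theorem J_fibre {b K g : ℝ} (hb : 0 < b) (hK : 24 ≤ K) (hg : 2 ≤ g) (hKbg : 8 * (K * b * g) ≤ 1)
    (n : ℕ) {I J : Finset ι} (hJI : J ⊆ I) (V : ι → ℝ) :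
    (∫⋯∫⁻_J, D.fE b K g n I J J ∂fun _ => mu1) V ≤
      ENNReal.ofReal ((16 * (((J.card + 1 : ℕ) : ℝ) ^ 28 * (4 * √K) ^ 3 * (4 / g))) ^ J.card) := by
  have hg0 : 0 < g := by linarith
  have hK1 : 1 ≤ √K := by
    rw [Real.one_le_sqrt]
    linarith
  change ∫⁻ y : (i : {i // i ∈ J}) → ℝ, D.fE b K g n I J J (Function.updateFinset V J y)
    ∂Measure.pi (fun _ : {i // i ∈ J} => mu1) ≤ _
  by_cases hall : ∀ y : (i : {i // i ∈ J}) → ℝ,
      (D.GJ J (Function.updateFinset V J y)).det = 0
  · have h1 : ∀ y : (i : {i // i ∈ J}) → ℝ,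
        D.fE b K g n I J J (Function.updateFinset V J y) = 0 := by
      intro y
      unfold fE
      by_cases h : Function.updateFinset V J y ∈ {V | D.evE b K g n I V}
      · rw [Set.indicator_of_mem h, hall y]
        simp
      · rw [Set.indicator_of_notMem h]
    simp only [h1, lintegral_zero]
    exact zero_le
  push Not at hall
  obtain ⟨y₀, hy₀⟩ := hall
  obtain ⟨Ξ', y', hsym, hfib⟩ := D.fib_struct J _ hy₀
  have hupd : ∀ (y : (i : {i // i ∈ J}) → ℝ) (i : {i // i ∈ J}),
      Function.updateFinset V J y i.1 = y i := by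
    intro y i
    unfold Function.updateFinset
    rw [dif_pos i.2]
  have hoff : ∀ (y : (i : {i // i ∈ J}) → ℝ) (i : ι), i ∉ J →
      Function.updateFinset V J y i = Function.updateFinset V J y₀ i := by
    intro y i hi
    unfold Function.updateFinset
    rw [dif_neg hi, dif_neg hi]
  have hpt : ∀ y : (i : {i // i ∈ J}) → ℝ,
      D.fE b K g n I J J (Function.updateFinset V J y) ≤
        (cS Ξ' y' (4 * √K) (4 / g)).indicator
          (fun y => ENNReal.ofReal (16 ^ J.card * cF Ξ' y' y)) y := by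
    intro y
    obtain ⟨hG, hu⟩ := hfib (Function.updateFinset V J y) (hoff y)
    have hy : (fun i : {i // i ∈ J} => Function.updateFinset V J y i.1) = y :=
      funext fun i => hupd y i
    rw [hy] at hG hu
    unfold fE
    by_cases h : Function.updateFinset V J y ∈ {V | D.evE b K g n I V}
    · rw [Set.indicator_of_mem h]
      obtain ⟨e1, e2, e3, e4, e5, -⟩ := D.evE_mem hb hK hg hKbg h
      have hGe : ∀ i j : {i // i ∈ J}, cG Ξ' y i j =
          D.G (Function.updateFinset V J y) i.1 j.1 := by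
        intro i j
        rw [← hG]
        rfl
      have hue : ∀ i : {i // i ∈ J}, cu Ξ' y' y i =
          D.Gf (Function.updateFinset V J y) i.1 := by
        intro i
        rw [← hu]
      have hmem : y ∈ cS Ξ' y' (4 * √K) (4 / g) := by
        refine ⟨fun i => ?_, fun i j => ?_, fun i => ?_, fun i => ?_⟩
        · rw [hGe]
          exact e1 _ (hJI i.2)
        · rw [hGe, hGe, hGe]
          exact e2 _ (hJI i.2) _ (hJI j.2)
        · rw [hGe]
          exact e3 _ (hJI i.2)
        · rw [hGe, hue]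
          exact e4 _ (hJI i.2)
      rw [Set.indicator_of_mem hmem]
      refine ENNReal.ofReal_le_ofReal ?_
      have hprod : ∏ i ∈ J, (D.om i (Function.updateFinset V J y) /
          D.gi i (Function.updateFinset V J y)) ^ 2 ≤
          16 ^ J.card * ∏ i : {i // i ∈ J},
            (max 1 (‖cu Ξ' y' y i‖ ^ 2) / ‖cG Ξ' y i i‖ ^ 2) := by
        rw [← Finset.prod_coe_sort J (fun i => (D.om i (Function.updateFinset V J y) /
          D.gi i (Function.updateFinset V J y)) ^ 2)]
        have h16 : (16 : ℝ) ^ J.card = ∏ _i : {i // i ∈ J}, (16 : ℝ) := by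
          rw [Finset.prod_const, Finset.card_univ, Fintype.card_coe]
        rw [h16, ← Finset.prod_mul_distrib]
        refine Finset.prod_le_prod (fun i _ => by positivity) fun i _ => ?_
        rw [hGe, hue]
        exact e5 _ (hJI i.2)
      unfold cF
      rw [hG]
      calc ‖(cG Ξ' y).det‖ ^ 2 * ∏ i ∈ J, (D.om i (Function.updateFinset V J y) /
            D.gi i (Function.updateFinset V J y)) ^ 2
          ≤ ‖(cG Ξ' y).det‖ ^ 2 * (16 ^ J.card * ∏ i : {i // i ∈ J},
            (max 1 (‖cu Ξ' y' y i‖ ^ 2) / ‖cG Ξ' y i i‖ ^ 2)) :=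
            mul_le_mul_of_nonneg_left hprod (by positivity)
        _ = _ := by ring
    · rw [Set.indicator_of_notMem h]
      exact zero_le
  have hmeas : Measure.pi (fun _ : {i // i ∈ J} => mu1) ≤
      (volume : Measure ({i // i ∈ J} → ℝ)) := by
    unfold mu1
    rw [← Measure.restrict_pi_pi, ← volume_pi]
    exact Measure.restrict_le_self
  have hcore := core Ξ' hsym y' (4 * √K) (4 / g) (by linarith) (by positivity)
  calc ∫⁻ y : (i : {i // i ∈ J}) → ℝ, D.fE b K g n I J J (Function.updateFinset V J y)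
        ∂Measure.pi (fun _ : {i // i ∈ J} => mu1)
      ≤ ∫⁻ y : {i // i ∈ J} → ℝ, (cS Ξ' y' (4 * √K) (4 / g)).indicator
          (fun y => ENNReal.ofReal (16 ^ J.card * cF Ξ' y' y)) y :=
        lintegral_mono' hmeas hpt
    _ ≤ ∫⁻ y in cS Ξ' y' (4 * √K) (4 / g), ENNReal.ofReal (16 ^ J.card * cF Ξ' y' y) :=
        lintegral_indicator_le _ _
    _ = ENNReal.ofReal (16 ^ J.card) *
        ∫⁻ y in cS Ξ' y' (4 * √K) (4 / g), ENNReal.ofReal (cF Ξ' y' y) := by
        rw [← lintegral_const_mul' _ _ ENNReal.ofReal_ne_top]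
        refine lintegral_congr fun y => ?_
        rw [ENNReal.ofReal_mul (by positivity)]
    _ ≤ ENNReal.ofReal (16 ^ J.card) * ENNReal.ofReal
        ((((Fintype.card {i // i ∈ J} + 1 : ℕ) : ℝ) ^ 28 * (4 * √K) ^ 3 * (4 / g)) ^
          Fintype.card {i // i ∈ J}) := mul_le_mul_right hcore _
    _ = _ := by
        rw [← ENNReal.ofReal_mul (by positivity), Fintype.card_coe, ← mul_pow]

end Dat

end LL
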