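import Pool.Agent.Lib.MP_562b47_mp.LL.Defs

/-!
Fib: from fibres to the cube.

PROOF. `MU ι = Measure.pi (fun _ => mu1)`; `mu1` is a finite measure, hence σ-finite.
`lintegral_eq_lmarginal_univ`, `univ = Iᶜ ∪ I` (`Finset.union_compl`, disjoint), so
`∫⋯∫⁻_univ, f = ∫⋯∫⁻_Iᶜ, ∫⋯∫⁻_I, f` (`lmarginal_union` / `lmarginal_union'`);
`lmarginal_mono` and `∫⋯∫⁻_Iᶜ (c * ..) = c * ∫⋯∫⁻_Iᶜ ..` (unfold `lmarginal`, `lintegral_const_mul`,
`Measurable.lmarginal`). `fib1` is the case `I = {i}` (`lmarginal_singleton`).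
-/

set_option autoImplicit false

namespace LL

open MeasureTheory Set
open scoped ENNReal

variable {ι : Type*} [Fintype ι] [DecidableEq ι]

instance : IsFiniteMeasure mu1 := by
  unfold mu1; infer_instance

theorem fib (I : Finset ι) {f g : (ι → ℝ) → ℝ≥0∞} (hf : Measurable f) (hg : Measurable g)
    {c : ℝ≥0∞}
    (h : ∀ V, (∫⋯∫⁻_I, f ∂fun _ => mu1) V ≤ c * (∫⋯∫⁻_I, g ∂fun _ => mu1) V) :
    ∫⁻ V, f V ∂MU ι ≤ c * ∫⁻ V, g V ∂MU ι := by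
  have hd : Disjoint Iᶜ I := disjoint_compl_left
  have hu : (Finset.univ : Finset ι) = Iᶜ ∪ I := by
    rw [Finset.union_comm, Finset.union_compl]
  unfold MU
  rw [lintegral_eq_lmarginal_univ (μ := fun _ : ι => mu1) (fun _ => 0),
    lintegral_eq_lmarginal_univ (μ := fun _ : ι => mu1) (fun _ => 0), hu,
    lmarginal_union _ f hf hd, lmarginal_union _ g hg hd]
  have h1 : (∫⋯∫⁻_Iᶜ, ∫⋯∫⁻_I, f ∂fun _ => mu1 ∂fun _ => mu1) (fun _ => 0) ≤
      (∫⋯∫⁻_Iᶜ, (fun V => c * (∫⋯∫⁻_I, g ∂fun _ => mu1) V) ∂fun _ => mu1) (fun _ => 0) :=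
    lmarginal_mono (μ := fun _ : ι => mu1) (s := Iᶜ) (fun V => h V) _
  refine h1.trans (le_of_eq ?_)
  unfold lmarginal
  rw [lintegral_const_mul]
  exact (hg.lmarginal (fun _ : ι => mu1) (s := I)).comp measurable_updateFinset

theorem fib1 (i : ι) {f g : (ι → ℝ) → ℝ≥0∞} (hf : Measurable f) (hg : Measurable g)
    {c : ℝ≥0∞}
    (h : ∀ V, ∫⁻ x in Icc (-1 : ℝ) 1, f (Function.update V i x) ≤
      c * ∫⁻ x in Icc (-1 : ℝ) 1, g (Function.update V i x)) :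
    ∫⁻ V, f V ∂MU ι ≤ c * ∫⁻ V, g V ∂MU ι := by
  refine fib {i} hf hg fun V => ?_
  rw [lmarginal_singleton, lmarginal_singleton]
  exact h V

end LL
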