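import Pool.Agent.Lib.MP_562b47_mp.LL.E12
import Pool.Agent.Lib.MP_562b47_mp.LL.Fib
import Pool.Agent.Lib.MP_562b47_mp.LL.Meas

/-!
LL-E13 (measurability; integral over the `I`-fibre; uses `J_fibre`, `evE_mem` as statements).

PROOF of `measurable_fE`: `Measurable.indicator` with `measurableSet_evE` (Meas);
`V ↦ (D.GJ J V).det` is measurable: `G V = (det (M' V))⁻¹ • adjugate (M' V)` (`Matrix.inv_def`),
`M' V` is continuous in `V` (`continuous_cc`), `Continuous.matrix_adjugate`, `Continuous.matrix_det`,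
determinants are nonzero (`D.ne`); or entries measurable and `det` a finite sum of products.
`gi`, `om`: quotients, `√`, `max` of continuous functions (see the proofs in Meas).

PROOF of `I_fibre`: `I = (I \ J) ∪ J` (disjoint), `lmarginal_union` (σ-finite `mu1`). Pointwise
`fE I J I ≤ ofReal ((1/g)^|I \ J|) * fE I J J` (`evE_mem` (6), `Finset.prod_sdiff`). So
`∫⋯∫⁻_J fE I J I ≤ ofReal ((1/g)^|I\J|) * ofReal (..J_fibre..)`, a constant `c`, and
`∫⋯∫⁻_{I \ J} c = 2^|I \ J| c` (`lmarginal` of a constant: unfold, `lintegral_const`,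
`Measure.pi_univ`, `mu1 univ = 2`). Numbers: `J.card + 1 ≤ n + 1 ≤ 2 n`, `√K ^ 3 ≤ K^2`:
`16 (J.card+1)^28 (4√K)^3 (4/g) ≤ 2^12 2^28 n^28 K^2 / g = A`, `2 / g ≤ A`; `c 2^|I\J| ≤ A^|I|`.
-/

set_option autoImplicit false

namespace LL

open MeasureTheory Matrix Finset
open scoped ENNReal Nat

variable {ι : Type*} [Fintype ι] [DecidableEq ι]

namespace Dat

variable (D : Dat ι)

private theorem e13_cM : Continuous fun V : ι → ℝ => D.M' V := by
  unfold M' mt
  refine Continuous.sub (Continuous.add ?_ continuous_const) continuous_const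
  exact continuous_cc.matrix_diagonal

private theorem e13_cG : Continuous fun V : ι → ℝ => D.G V := by
  have h : (fun V : ι → ℝ => D.G V) = fun V => ((D.M' V).det)⁻¹ • (D.M' V).adjugate := by
    funext V
    unfold G
    rw [Matrix.inv_def, Ring.inverse_eq_inv']
  rw [h]
  exact (D.e13_cM.matrix_det.inv₀ (fun V => D.ne V)).smul D.e13_cM.matrix_adjugate

private theorem e13_cdet (J : Finset ι) : Continuous fun V : ι → ℝ => (D.GJ J V).det := by
  unfold GJ
  exact (D.e13_cG.matrix_submatrix _ _).matrix_det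

private theorem e13_gi (i : ι) : Measurable fun V : ι → ℝ => D.gi i V := by
  unfold gi
  exact measurable_const.max
    (((D.MA_pp.pd i).continuous.comp continuous_cc).norm.measurable.div
      D.continuous_pp.norm.measurable)

private theorem e13_om (i : ι) : Measurable fun V : ι → ℝ => D.om i V := by
  have hw : Continuous fun V : ι → ℝ => D.wi i (cc V) := by
    unfold wi
    exact (((D.MA_dl.pd i).continuous.comp continuous_cc).mul D.continuous_pp).sub
      (D.continuous_dl.mul ((D.MA_pp.pd i).continuous.comp continuous_cc))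
  unfold om
  exact measurable_const.max
    ((Real.continuous_sqrt.comp hw.norm).measurable.div D.continuous_pp.norm.measurable)

theorem measurable_fE (b K g : ℝ) (n : ℕ) (I J I' : Finset ι) :
    Measurable (D.fE b K g n I J I') := by
  unfold fE
  refine Measurable.indicator ?_ (D.measurableSet_evE b K g n I)
  refine ENNReal.measurable_ofReal.comp ?_
  refine Measurable.mul ((D.e13_cdet J).norm.pow 2).measurable ?_
  exact Finset.measurable_prod _ fun i _ => ((D.e13_om i).div (D.e13_gi i)).pow_const 2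

private theorem e13_pt {b K g : ℝ} (hb : 0 < b) (hK : 24 ≤ K) (hg : 2 ≤ g)
    (hKbg : 8 * (K * b * g) ≤ 1) {n : ℕ} {I J : Finset ι} (hJI : J ⊆ I) (V : ι → ℝ) :
    D.fE b K g n I J I V ≤
      ENNReal.ofReal ((1 / g) ^ (I \ J).card) * D.fE b K g n I J J V := by
  unfold fE
  by_cases hV : D.evE b K g n I V
  · rw [Set.indicator_of_mem (show V ∈ {V | D.evE b K g n I V} from hV),
      Set.indicator_of_mem (show V ∈ {V | D.evE b K g n I V} from hV)]
    have hg0 : 0 < g := by linarith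
    have h6 := (D.evE_mem hb hK hg hKbg hV).2.2.2.2.2
    rw [← ENNReal.ofReal_mul (by positivity)]
    apply ENNReal.ofReal_le_ofReal
    rw [← Finset.prod_sdiff hJI]
    have h1 : ∏ i ∈ I \ J, (D.om i V / D.gi i V) ^ 2 ≤ (1 / g) ^ (I \ J).card := by
      refine (Finset.prod_le_prod (fun i _ => sq_nonneg _) (fun i hi => ?_)).trans
        (le_of_eq (Finset.prod_const _))
      exact h6 i (Finset.mem_sdiff.1 hi).1
    have h2 : 0 ≤ ∏ i ∈ J, (D.om i V / D.gi i V) ^ 2 := Finset.prod_nonneg fun i _ => sq_nonneg _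
    calc ‖(D.GJ J V).det‖ ^ 2 * ((∏ i ∈ I \ J, (D.om i V / D.gi i V) ^ 2) *
          ∏ i ∈ J, (D.om i V / D.gi i V) ^ 2)
        ≤ ‖(D.GJ J V).det‖ ^ 2 * ((1 / g) ^ (I \ J).card *
          ∏ i ∈ J, (D.om i V / D.gi i V) ^ 2) := by gcongr
      _ = (1 / g) ^ (I \ J).card * (‖(D.GJ J V).det‖ ^ 2 *
          ∏ i ∈ J, (D.om i V / D.gi i V) ^ 2) := by ring
  · rw [Set.indicator_of_notMem (show V ∉ {V | D.evE b K g n I V} from hV)]
    exact bot_le

private theorem e13_mu1 : mu1 Set.univ = 2 := by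
  unfold mu1
  rw [Measure.restrict_apply_univ, Real.volume_Icc]
  norm_num

theorem I_fibre {b K g : ℝ} (hb : 0 < b) (hK : 24 ≤ K) (hg : 2 ≤ g) (hKbg : 8 * (K * b * g) ≤ 1)
    {n : ℕ} (hn : 1 ≤ n) (hcard : Fintype.card ι ≤ n) {I J : Finset ι} (hJI : J ⊆ I)
    (V : ι → ℝ) :
    (∫⋯∫⁻_I, D.fE b K g n I J I ∂fun _ => mu1) V ≤
      ENNReal.ofReal ((2 ^ 40 * (n : ℝ) ^ 28 * K ^ 2 / g) ^ I.card) := by
  have hg0 : 0 < g := by linarith
  have hK1 : 1 ≤ K := by linarith
  set j := J.card with hj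
  set m := (I \ J).card with hm
  have hmj : m + j = I.card := Finset.card_sdiff_add_card_eq_card hJI
  set B : ℝ := 16 * (((j + 1 : ℕ) : ℝ) ^ 28 * (4 * √K) ^ 3 * (4 / g)) with hB
  have hB0 : 0 ≤ B := by positivity
  set c : ℝ≥0∞ := ENNReal.ofReal ((1 / g) ^ m * B ^ j) with hc
  have hinner : ∀ W : ι → ℝ, (∫⋯∫⁻_J, D.fE b K g n I J I ∂fun _ => mu1) W ≤ c := by
    intro W
    have h1 : (∫⋯∫⁻_J, D.fE b K g n I J I ∂fun _ => mu1) W ≤
        (∫⋯∫⁻_J, (fun V => ENNReal.ofReal ((1 / g) ^ m) * D.fE b K g n I J J V)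
          ∂fun _ => mu1) W :=
      lmarginal_mono (μ := fun _ : ι => mu1) (s := J)
        (fun V => D.e13_pt hb hK hg hKbg hJI V) _
    have h2 : (∫⋯∫⁻_J, (fun V => ENNReal.ofReal ((1 / g) ^ m) * D.fE b K g n I J J V)
          ∂fun _ => mu1) W =
        ENNReal.ofReal ((1 / g) ^ m) * (∫⋯∫⁻_J, D.fE b K g n I J J ∂fun _ => mu1) W := by
      unfold lmarginal
      rw [lintegral_const_mul' _ _ ENNReal.ofReal_ne_top]
    rw [h2] at h1
    refine h1.trans ?_
    rw [hc, ENNReal.ofReal_mul (by positivity)]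
    gcongr
    exact D.J_fibre hb hK hg hKbg n hJI W
  have hd : Disjoint (I \ J) J := Finset.sdiff_disjoint
  have hu : I = (I \ J) ∪ J := (Finset.sdiff_union_of_subset hJI).symm
  have h3 : (∫⋯∫⁻_I, D.fE b K g n I J I ∂fun _ => mu1) V ≤ c * 2 ^ m := by
    have e1 : (∫⋯∫⁻_I, D.fE b K g n I J I ∂fun _ => mu1) =
        ∫⋯∫⁻_(I \ J), ∫⋯∫⁻_J, D.fE b K g n I J I ∂fun _ => mu1 ∂fun _ => mu1 := by
      rw [← lmarginal_union _ _ (D.measurable_fE b K g n I J I) hd, ← hu]
    rw [e1]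
    refine (lmarginal_mono (μ := fun _ : ι => mu1) (s := I \ J)
      (g := fun _ => c) (fun W => hinner W) V).trans (le_of_eq ?_)
    unfold lmarginal
    rw [lintegral_const, Measure.pi_univ]
    simp only [e13_mu1, Finset.prod_const, Finset.card_univ, Fintype.card_coe, hm]
  refine h3.trans ?_
  set A : ℝ := 2 ^ 40 * (n : ℝ) ^ 28 * K ^ 2 / g with hA
  have hn1 : (1 : ℝ) ≤ n := by exact_mod_cast hn
  have hBA : B ≤ A := by
    have h4 : ((j + 1 : ℕ) : ℝ) ≤ 2 * n := by
      have h5 : j ≤ n := by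
        rw [hj]
        exact (Finset.card_le_univ J).trans hcard
      have h6 : ((j + 1 : ℕ) : ℝ) = (j : ℝ) + 1 := by push_cast; ring
      have h7 : (j : ℝ) ≤ n := by exact_mod_cast h5
      rw [h6]
      linarith
    have h5 : ((j + 1 : ℕ) : ℝ) ^ 28 ≤ (2 * (n : ℝ)) ^ 28 :=
      pow_le_pow_left₀ (Nat.cast_nonneg _) h4 28
    have h6 : (√K) ^ 3 ≤ K ^ 2 := by
      have h7 : √K * √K = K := Real.mul_self_sqrt (by linarith)
      have h8 : √K ≤ K := by
        rw [Real.sqrt_le_left (by linarith)]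
        nlinarith
      have h9 : 0 ≤ √K := Real.sqrt_nonneg K
      calc (√K) ^ 3 = (√K * √K) * √K := by ring
        _ = K * √K := by rw [h7]
        _ ≤ K * K := by gcongr
        _ = K ^ 2 := by ring
    calc B = 16 * (((j + 1 : ℕ) : ℝ) ^ 28 * (64 * (√K) ^ 3) * (4 / g)) := by
          rw [hB]; ring
      _ ≤ 16 * ((2 * (n : ℝ)) ^ 28 * (64 * K ^ 2) * (4 / g)) := by gcongr
      _ = A := by rw [hA]; ring
  have h2A : 2 / g ≤ A := by
    rw [hA]
    apply div_le_div_of_nonneg_right _ hg0.le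
    have h4 : (1 : ℝ) ≤ (n : ℝ) ^ 28 := one_le_pow₀ hn1
    have h5 : (1 : ℝ) ≤ K ^ 2 := one_le_pow₀ hK1
    have h6 : (1 : ℝ) ≤ (n : ℝ) ^ 28 * K ^ 2 := one_le_mul_of_one_le_of_one_le h4 h5
    nlinarith
  have hA0 : 0 ≤ A := hB0.trans hBA
  have e2 : (2 : ℝ≥0∞) ^ m = ENNReal.ofReal ((2 : ℝ) ^ m) := by
    rw [ENNReal.ofReal_pow (by norm_num)]
    norm_num
  have h1g : 0 ≤ 1 / g := by positivity
  have h2g : 0 ≤ 2 / g := by positivity
  rw [hc, e2, ← ENNReal.ofReal_mul (mul_nonneg (pow_nonneg h1g m) (pow_nonneg hB0 j))]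
  apply ENNReal.ofReal_le_ofReal
  calc (1 / g) ^ m * B ^ j * 2 ^ m = (2 / g) ^ m * B ^ j := by
        rw [mul_right_comm, ← mul_pow]
        congr 2
        ring
    _ ≤ A ^ m * A ^ j := mul_le_mul (pow_le_pow_left₀ h2g h2A m) (pow_le_pow_left₀ hB0 hBA j)
        (pow_nonneg hB0 j) (pow_nonneg hA0 m)
    _ = A ^ I.card := by rw [← pow_add, hmj]

end Dat

end LL
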