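import Pool.Agent.Lib.MP_562b47_mp.LL.MA1

/-!
MA2: multi-affine functions, several coordinates.

PROOF.
* `pdS_empty`: `powerset_empty`, the function in the sum is `V`.
* `pdS_insert` (`i ∉ I`): `Finset.sum_powerset_insert`: the subsets of `insert i I` are `J` and
  `insert i J` (`J ⊆ I`); `insert i I \ J = insert i (I \ J)` has one element more than `I \ J`,
  `insert i I \ insert i J = I \ J`; the arguments are
  `update (fun k => if k ∈ J then 1 else if k ∈ I then 0 else V k) i 0` and `... i 1`, so that
  the two sums together are the sum for `pd i f`.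
* `pdS_update` (`i ∈ I`): the argument function does not look at `V i`.
* `pdS_congr`: the same for all coordinates of `I`.
* `MA.pdS`: `MA (pdS I f)`, induction on `I` (`Finset.induction_on`) with `pdS_insert` applied to the
  multi-affine function `pd i f`.
* `MA.taylor`: induction on `S` (generalise `V`, `h` and `f`): `S = ∅`: `h = 0`. For `insert i S`,
  `i ∉ S`: let `h'` be `h` with the coordinate `i` set to `0`. `V + h = update (V + h') i (V i + h i)`
  and `V + h' = update (V + h') i (V i)`, so by `MA.line`
  `f (V + h) = f (V + h') + h i * pd i f (V + h')`; use the induction hypothesis for `f` and for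
  `pd i f` (`MA.pd`), `Finset.sum_powerset_insert`, `Finset.prod_insert`, `pdS_insert`; the products
  over `J ⊆ S` of `h'` and of `h` agree.
* `MA.continuous`: by `MA.taylor` with `S = univ`, `V = 0`, `h = V`: `f V` is a polynomial in the
  coordinates (a finite sum of constants times products of `V i`); `fun_prop` / `continuity`.
-/

set_option autoImplicit false

namespace LL

open Finset

variable {ι : Type*} [Fintype ι] [DecidableEq ι]

theorem pdS_empty (f : (ι → ℂ) → ℂ) (V : ι → ℂ) : pdS ∅ f V = f V := by
  simp [pdS]

theorem pdS_insert {i : ι} {I : Finset ι} (hi : i ∉ I) (f : (ι → ℂ) → ℂ) (V : ι → ℂ) :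
    pdS (insert i I) f V = pdS I (pd i f) V := by
  unfold pdS
  rw [Finset.sum_powerset_insert hi, ← Finset.sum_add_distrib]
  refine Finset.sum_congr rfl fun J hJ => ?_
  have hJI : J ⊆ I := Finset.mem_powerset.1 hJ
  have hiJ : i ∉ J := fun h => hi (hJI h)
  have e1 : insert i I \ J = insert i (I \ J) := Finset.insert_sdiff_of_notMem I hiJ
  have hi2 : i ∉ I \ J := fun h => hi (Finset.mem_sdiff.1 h).1
  have e2 : insert i I \ insert i J = I \ J := by
    ext k
    simp only [Finset.mem_sdiff, Finset.mem_insert]
    constructor
    · rintro ⟨h1 | h1, h2⟩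
      · exact absurd (Or.inl h1) h2
      · exact ⟨h1, fun h => h2 (Or.inr h)⟩
    · rintro ⟨h1, h2⟩
      refine ⟨Or.inr h1, ?_⟩
      rintro (h | h)
      · exact hi (h ▸ h1)
      · exact h2 h
  have a0 : (fun k => if k ∈ J then (1 : ℂ) else if k ∈ insert i I then 0 else V k) =
      Function.update (fun k => if k ∈ J then (1 : ℂ) else if k ∈ I then 0 else V k) i 0 := by
    funext k
    by_cases hk : k = i
    · subst hk
      simp [hiJ]
    · simp [Function.update_of_ne hk, Finset.mem_insert, hk]
  have a1 : (fun k => if k ∈ insert i J then (1 : ℂ) else if k ∈ insert i I then 0 else V k) =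
      Function.update (fun k => if k ∈ J then (1 : ℂ) else if k ∈ I then 0 else V k) i 1 := by
    funext k
    by_cases hk : k = i
    · subst hk
      simp
    · simp [Function.update_of_ne hk, Finset.mem_insert, hk]
  rw [e1, e2, a0, a1, Finset.card_insert_of_notMem hi2, pow_succ]
  unfold pd
  ring

theorem pdS_singleton (i : ι) (f : (ι → ℂ) → ℂ) (V : ι → ℂ) : pdS {i} f V = pd i f V := by
  have h := pdS_insert (Finset.notMem_empty i) f V
  rw [pdS_empty] at h
  exact h

theorem pdS_update {i : ι} {I : Finset ι} (hi : i ∈ I) (f : (ι → ℂ) → ℂ) (V : ι → ℂ) (s : ℂ) :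
    pdS I f (Function.update V i s) = pdS I f V := by
  unfold pdS
  refine Finset.sum_congr rfl fun J _ => ?_
  have h : (fun k => if k ∈ J then (1 : ℂ) else if k ∈ I then 0 else Function.update V i s k) =
      fun k => if k ∈ J then (1 : ℂ) else if k ∈ I then 0 else V k := by
    funext k
    by_cases hk : k = i
    · subst hk
      simp [hi]
    · simp [Function.update_of_ne hk]
  rw [h]

theorem pdS_congr {I : Finset ι} (f : (ι → ℂ) → ℂ) {V W : ι → ℂ} (h : ∀ i, i ∉ I → V i = W i) :
    pdS I f V = pdS I f W := by
  unfold pdS
  refine Finset.sum_congr rfl fun J _ => ?_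
  have h1 : (fun k => if k ∈ J then (1 : ℂ) else if k ∈ I then 0 else V k) =
      fun k => if k ∈ J then (1 : ℂ) else if k ∈ I then 0 else W k := by
    funext k
    by_cases hk : k ∈ I
    · simp [hk]
    · simp [hk, h k hk]
  rw [h1]

theorem MA.pdS {f : (ι → ℂ) → ℂ} (hf : MA f) (I : Finset ι) : MA (pdS I f) := by
  induction I using Finset.induction_on generalizing f with
  | empty =>
    have h : LL.pdS ∅ f = f := funext fun V => pdS_empty f V
    rw [h]
    exact hf
  | insert i I hi ih =>
    have h : LL.pdS (insert i I) f = LL.pdS I (LL.pd i f) := funext fun V => pdS_insert hi f V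
    rw [h]
    exact ih (hf.pd i)

theorem MA.taylor {f : (ι → ℂ) → ℂ} (hf : MA f) (S : Finset ι) (V h : ι → ℂ)
    (hh : ∀ i, i ∉ S → h i = 0) :
    f (V + h) = ∑ J ∈ S.powerset, (∏ i ∈ J, h i) * LL.pdS J f V := by
  induction S using Finset.induction_on generalizing f h with
  | empty =>
    have h0 : h = 0 := funext fun i => hh i (Finset.notMem_empty i)
    simp [h0, pdS_empty]
  | insert i S hi ih =>
    have hh' : ∀ k, k ∉ S → Function.update h i 0 k = 0 := by
      intro k hk
      by_cases hki : k = i
      · subst hki
        simp
      · rw [Function.update_of_ne hki]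
        exact hh k (by simp [hki, hk])
    have w1 : Function.update (V + Function.update h i 0) i (V i + h i) = V + h := by
      funext k
      by_cases hki : k = i
      · subst hki
        simp
      · simp [Function.update_of_ne hki]
    have w2 : Function.update (V + Function.update h i 0) i (V i) =
        V + Function.update h i 0 := by
      funext k
      by_cases hki : k = i
      · subst hki
        simp
      · simp [Function.update_of_ne hki]
    have hl := hf.line (V + Function.update h i 0) i (V i + h i) (V i)
    rw [w1, w2, ih hf (Function.update h i 0) hh', ih (hf.pd i) (Function.update h i 0) hh'] at hl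
    rw [hl, Finset.sum_powerset_insert hi]
    have e : V i + h i - V i = h i := by ring
    rw [e, Finset.mul_sum]
    have hprod : ∀ J ∈ S.powerset, ∏ k ∈ J, Function.update h i 0 k = ∏ k ∈ J, h k := by
      intro J hJ
      refine Finset.prod_congr rfl fun k hk => ?_
      have hki : k ≠ i := by
        rintro rfl
        exact hi (Finset.mem_powerset.1 hJ hk)
      rw [Function.update_of_ne hki]
    refine congrArg₂ (· + ·) ?_ ?_
    · exact Finset.sum_congr rfl fun J hJ => by rw [hprod J hJ]
    · refine Finset.sum_congr rfl fun J hJ => ?_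
      have hiJ : i ∉ J := fun hk => hi (Finset.mem_powerset.1 hJ hk)
      rw [hprod J hJ, Finset.prod_insert hiJ, pdS_insert hiJ]
      ring

theorem MA.continuous {f : (ι → ℂ) → ℂ} (hf : MA f) : Continuous f := by
  have h : f = fun V => ∑ J ∈ (Finset.univ : Finset ι).powerset,
      (∏ i ∈ J, V i) * LL.pdS J f 0 := by
    funext V
    have h1 := hf.taylor Finset.univ 0 V (fun i hi => absurd (Finset.mem_univ i) hi)
    rwa [zero_add] at h1
  rw [h]
  fun_prop

theorem continuous_cc : Continuous (cc : (ι → ℝ) → ι → ℂ) := by
  unfold cc
  fun_prop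

end LL
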