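import Pool.Agent.Lib.MP_562b47_mp.LL.EDefs
import Pool.Agent.Lib.MP_562b47_mp.LL.MA2
import Pool.Agent.Lib.MP_562b47_mp.LL.Fib

/-!
LL-E14 (lower bound of `∫ |f|²` over a fibre, `f` multi-affine).

PROOF of `low1`: `∫_{-1}^1 |a + x b|² dx = 2|a|² + (2/3)|b|² ≥ (2/3)|b|²` (`|a + x b|²` is
`|a|² + 2 x Re(a conj b) + x² |b|²`; `ofReal_integral_eq_lintegral_ofReal`, or: the odd part
vanishes; alternatively `|a + x b|² + |a - x b|² ≥ 2 x² |b|²` and symmetry of the interval).
PROOF of `low`: induction on `I` (`Finset.induction_on`, `V` generalised; `f` fixed). `I = ∅`: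
`pdS_empty`, `lmarginal_empty`. `insert i I`, `i ∉ I`: `lmarginal_insert` (the function is continuous,
hence measurable: `hf.continuous`, `continuous_cc`):
`(∫⋯∫⁻_{insert i I}) V = ∫⁻ x, (∫⋯∫⁻_I) (update V i x) ∂mu1 ≥ ∫⁻ x, ofReal ((2/3)^|I| ‖pdS I f (cc (update V i x))‖²) ∂mu1`;
`cc (update V i x) = update (cc V) i x`, `(hf.pdS I)` is multi-affine:
`pdS I f (update (cc V) i x) = a + x b`, `b = pd i (pdS I f) (cc V) = pdS (insert i I) f (cc V)`
(`pdS_insert`, and `pd i (pdS I f) = pdS I (pd i f)` by unfolding: `i ∉ I`), then `low1`.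
-/

set_option autoImplicit false

namespace LL

open MeasureTheory Matrix Finset
open scoped ENNReal Nat

variable {ι : Type*} [Fintype ι] [DecidableEq ι]

theorem low1 (a b : ℂ) : ENNReal.ofReal (2 / 3 * ‖b‖ ^ 2) ≤
    ∫⁻ x, ENNReal.ofReal (‖a + (x : ℂ) * b‖ ^ 2) ∂mu1 := by
  have hc : Continuous fun x : ℝ => ‖a + (x : ℂ) * b‖ ^ 2 := by fun_prop
  have hint : Integrable (fun x : ℝ => ‖a + (x : ℂ) * b‖ ^ 2) mu1 := by
    unfold mu1
    exact hc.integrableOn_Icc
  rw [← ofReal_integral_eq_lintegral_ofReal hint (Filter.Eventually.of_forall fun x => by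
    positivity)]
  apply ENNReal.ofReal_le_ofReal
  have e1 : ∀ x : ℝ, ‖a + (x : ℂ) * b‖ ^ 2 =
      (‖a‖ ^ 2 + (2 * (a.re * b.re + a.im * b.im)) * x) + ‖b‖ ^ 2 * x ^ 2 := by
    intro x
    rw [← Complex.normSq_eq_norm_sq, ← Complex.normSq_eq_norm_sq, ← Complex.normSq_eq_norm_sq,
      Complex.normSq_apply, Complex.normSq_apply, Complex.normSq_apply]
    simp only [Complex.add_re, Complex.add_im, Complex.mul_re, Complex.mul_im,
      Complex.ofReal_re, Complex.ofReal_im]
    ring
  have e2 : ∫ x, ‖a + (x : ℂ) * b‖ ^ 2 ∂mu1 = 2 * ‖a‖ ^ 2 + 2 / 3 * ‖b‖ ^ 2 := by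
    unfold mu1
    rw [integral_Icc_eq_integral_Ioc, ← intervalIntegral.integral_of_le (by norm_num)]
    simp only [e1]
    rw [intervalIntegral.integral_add
      ((by fun_prop : Continuous fun x : ℝ => ‖a‖ ^ 2 +
        (2 * (a.re * b.re + a.im * b.im)) * x).intervalIntegrable _ _)
      ((by fun_prop : Continuous fun x : ℝ => ‖b‖ ^ 2 * x ^ 2).intervalIntegrable _ _),
      intervalIntegral.integral_add
      ((by fun_prop : Continuous fun x : ℝ => ‖a‖ ^ 2).intervalIntegrable _ _)
      ((by fun_prop : Continuous fun x : ℝ =>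
        (2 * (a.re * b.re + a.im * b.im)) * x).intervalIntegrable _ _),
      intervalIntegral.integral_const_mul, intervalIntegral.integral_const_mul,
      intervalIntegral.integral_const, integral_id, integral_pow, smul_eq_mul]
    norm_num
    ring
  rw [e2]
  have : 0 ≤ ‖a‖ ^ 2 := by positivity
  linarith

theorem e14_pd_pdS {i : ι} {I : Finset ι} (hi : i ∉ I) (f : (ι → ℂ) → ℂ) (V : ι → ℂ) :
    pd i (pdS I f) V = pdS I (pd i f) V := by
  unfold pdS
  rw [pd, ← Finset.sum_sub_distrib]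
  refine Finset.sum_congr rfl fun J hJ => ?_
  have hiJ : i ∉ J := fun h => hi (Finset.mem_powerset.1 hJ h)
  have h : ∀ s : ℂ, (fun k => if k ∈ J then (1 : ℂ) else if k ∈ I then 0 else
      Function.update V i s k) = Function.update (fun k => if k ∈ J then (1 : ℂ) else
        if k ∈ I then 0 else V k) i s := by
    intro s
    funext k
    by_cases hk : k = i
    · subst hk
      simp [hiJ, hi]
    · simp [Function.update_of_ne hk]
  rw [h, h, ← mul_sub]
  rfl

theorem low {f : (ι → ℂ) → ℂ} (hf : MA f) (I : Finset ι) (V : ι → ℝ) :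
    ENNReal.ofReal ((2 / 3) ^ I.card * ‖pdS I f (cc V)‖ ^ 2) ≤
      (∫⋯∫⁻_I, (fun V => ENNReal.ofReal (‖f (cc V)‖ ^ 2)) ∂fun _ => mu1) V := by
  have hm : Measurable fun V : ι → ℝ => ENNReal.ofReal (‖f (cc V)‖ ^ 2) := by
    have h1 : Continuous fun V : ι → ℝ => ‖f (cc V)‖ ^ 2 :=
      ((hf.continuous.comp continuous_cc).norm).pow 2
    exact h1.measurable.ennreal_ofReal
  induction I using Finset.induction_on generalizing V with
  | empty =>
    rw [lmarginal_empty, pdS_empty, Finset.card_empty, pow_zero, one_mul]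
  | insert i I hi ih =>
    rw [lmarginal_insert _ hm hi]
    refine le_trans ?_ (lintegral_mono fun x => ih (Function.update V i x))
    have e1 : ∀ x : ℝ, pdS I f (cc (Function.update V i x)) =
        pdS I f (Function.update (cc V) i 0) + (x : ℂ) * pdS (insert i I) f (cc V) := by
      intro x
      rw [cc_update, (hf.pdS I) (cc V) i (x : ℂ), pdS_insert hi, e14_pd_pdS hi]
    have e2 : ∀ x : ℝ, ENNReal.ofReal ((2 / 3) ^ I.card *
        ‖pdS I f (cc (Function.update V i x))‖ ^ 2) = ENNReal.ofReal ((2 / 3) ^ I.card) *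
          ENNReal.ofReal (‖pdS I f (Function.update (cc V) i 0) +
            (x : ℂ) * pdS (insert i I) f (cc V)‖ ^ 2) := by
      intro x
      rw [e1, ENNReal.ofReal_mul (by positivity)]
    simp only [e2]
    rw [lintegral_const_mul' _ _ ENNReal.ofReal_ne_top]
    refine le_trans (le_of_eq ?_) (mul_le_mul_right (low1 _ _) _)
    rw [← ENNReal.ofReal_mul (by positivity), Finset.card_insert_of_notMem hi]
    congr 1
    ring

end LL
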