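import Pool.Agent.Lib.MP_562b47_mp.LL.E1

/-!
LL-E2 (several variables).

PROOF. For `s : Finset κ` let `N s v` be the matrix `mt Ξ (cc v)` with the rows `i ∈ s` replaced by
the unit rows `Pi.single i 1`. For `i ∉ s` the row `i` of `N s v` is `v_i e_i + (row i of Ξ)`, so
`det (N s v) = det (N s (update v i 0)) + v_i det (N (insert i s) v)`
(`Matrix.det_updateRow_add`, `det_updateRow_smul`), and `det (N (insert i s) v)` does not depend on
`v_i`. Let `f v = (∏ i, om1 θ (τ i) (v i + Re Ξ_ii)) * ‖det M‖ₑ ^ (θ-1)`. Claim, by induction on `s`: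
for all `v`:  `(∫⋯∫⁻_s, f ∂(fun _ => volume)) v ≤
   (∏ i ∈ s, ofReal (8/θ τ_i^θ)) * (∏ i ∈ sᶜ, om1 ..) * ‖det (N s v)‖ₑ ^ (θ-1)`.
Step: `lmarginal_insert` (needs `f` measurable: `fun_prop` / `measurability`;
`lmarginal_insert' `/`lmarginal_insert` gives `∫⁻ x, (∫⋯∫⁻_s f) (update v i x)`), then `int_one`
with `c = Re Ξ_ii`, `a = det (N s (update v i 0))`, `b = det (N (insert i s) v)`.
`s = univ`: `lmarginal_univ`, `N univ v = 1`, `volume_pi`.
-/

set_option autoImplicit false

namespace LL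

open MeasureTheory Matrix Finset
open scoped ENNReal Nat

variable {κ : Type*} [Fintype κ] [DecidableEq κ]

/-- the matrix with the rows in `s` replaced by the unit rows -/
private noncomputable def e2N (Ξ : Matrix κ κ ℂ) (s : Finset κ) (v : κ → ℝ) : Matrix κ κ ℂ :=
  Matrix.of fun i j => if i ∈ s then (Pi.single i 1 : κ → ℂ) j else mt Ξ (cc v) i j

private theorem e2_step (Ξ : Matrix κ κ ℂ) (s : Finset κ) (v : κ → ℝ) (i : κ) (hi : i ∉ s)
    (x : ℝ) : (e2N Ξ s (Function.update v i x)).det =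
      (e2N Ξ s (Function.update v i 0)).det + (x : ℂ) * (e2N Ξ (insert i s) v).det := by
  have key : ∀ x : ℝ, e2N Ξ s (Function.update v i x) =
      updateRow (e2N Ξ (insert i s) v) i ((x : ℂ) • (Pi.single i 1 : κ → ℂ) + Ξ i) := by
    intro x
    ext a b
    rw [updateRow_apply]
    by_cases ha : a = i
    · subst ha
      rw [if_pos rfl]
      simp only [e2N, mt, Matrix.of_apply, if_neg hi, Matrix.add_apply, Pi.add_apply,
        Pi.smul_apply, smul_eq_mul]
      congr 1
      rw [diagonal_apply]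
      by_cases hb : a = b
      · subst hb
        have : cc (Function.update v a x) a = (x : ℂ) := by
          unfold cc
          rw [Function.update_self]
        simp [this]
      · rw [if_neg hb, Pi.single_apply, if_neg (Ne.symm hb), mul_zero]
    · rw [if_neg ha]
      simp only [e2N, mt, Matrix.of_apply, mem_insert, ha, false_or, Matrix.add_apply]
      by_cases has : a ∈ s
      · rw [if_pos has, if_pos has]
      · have : cc (Function.update v i x) a = cc v a := by
          unfold cc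
          rw [Function.update_of_ne ha]
        rw [if_neg has, if_neg has, diagonal_apply, diagonal_apply, this]
  have hA : updateRow (e2N Ξ (insert i s) v) i (Pi.single i 1 : κ → ℂ) =
      e2N Ξ (insert i s) v := by
    ext a b
    rw [updateRow_apply]
    by_cases ha : a = i
    · subst ha
      rw [if_pos rfl]
      simp [e2N]
    · rw [if_neg ha]
  rw [key x, key 0, det_updateRow_add, det_updateRow_smul, det_updateRow_add, det_updateRow_smul, hA]
  push_cast
  ring

private theorem e2_om (θ τ : ℝ) : Measurable (om1 θ τ) := by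
  unfold om1
  fun_prop

private theorem e2_meas1 (θ τ c : ℝ) (a b : ℂ) :
    Measurable fun x : ℝ => om1 θ τ (x + c) * ‖a + (x : ℂ) * b‖ₑ ^ (θ - 1) := by
  refine Measurable.mul ((e2_om θ τ).comp (measurable_id.add_const c)) ?_
  refine Measurable.pow_const ?_ _
  refine Measurable.enorm ?_
  fun_prop

private theorem e2_meas (Ξ : Matrix κ κ ℂ) (θ : ℝ) (τ : κ → ℝ) :
    Measurable fun v : κ → ℝ => (∏ i, om1 θ (τ i) (v i + (Ξ i i).re)) *
      ‖(mt Ξ (cc v)).det‖ₑ ^ (θ - 1) := by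
  refine Measurable.mul ?_ ?_
  · refine Finset.measurable_prod _ fun i _ => ?_
    exact (e2_om θ (τ i)).comp ((measurable_pi_apply i).add_const _)
  · refine Measurable.pow_const ?_ _
    refine Measurable.enorm ?_
    refine Continuous.measurable ?_
    refine Continuous.matrix_det ?_
    refine Continuous.add ?_ continuous_const
    refine Continuous.matrix_diagonal ?_
    unfold cc
    fun_prop

private theorem e2_claim (Ξ : Matrix κ κ ℂ) (θ : ℝ) (h0 : 0 < θ) (h1 : θ < 1) (τ : κ → ℝ)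
    (hτ : ∀ i, 0 < τ i) (s : Finset κ) : ∀ v : κ → ℝ,
    (∫⋯∫⁻_s, (fun v : κ → ℝ => (∏ i, om1 θ (τ i) (v i + (Ξ i i).re)) *
      ‖(mt Ξ (cc v)).det‖ₑ ^ (θ - 1)) ∂(fun _ => (volume : Measure ℝ))) v ≤
    (∏ i ∈ s, ENNReal.ofReal (8 / θ * τ i ^ θ)) *
      ((∏ i ∈ sᶜ, om1 θ (τ i) (v i + (Ξ i i).re)) * ‖(e2N Ξ s v).det‖ₑ ^ (θ - 1)) := by
  induction s using Finset.induction_on with
  | empty =>
    intro v
    rw [lmarginal_empty, prod_empty, one_mul, compl_empty]
    have : e2N Ξ ∅ v = mt Ξ (cc v) := by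
      ext a b
      simp [e2N]
    rw [this]
  | insert i s hi ih =>
    intro v
    rw [lmarginal_insert _ (e2_meas Ξ θ τ) hi]
    have hcompl : sᶜ = insert i (insert i s)ᶜ := by
      ext j
      simp only [mem_compl, mem_insert]
      by_cases hj : j = i
      · subst hj
        simp [hi]
      · simp [hj]
    have hnot : i ∉ (insert i s)ᶜ := by simp
    have hpt : ∀ x : ℝ, (∏ i ∈ s, ENNReal.ofReal (8 / θ * τ i ^ θ)) *
        ((∏ j ∈ sᶜ, om1 θ (τ j) (Function.update v i x j + (Ξ j j).re)) *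
          ‖(e2N Ξ s (Function.update v i x)).det‖ₑ ^ (θ - 1)) =
        ((∏ i ∈ s, ENNReal.ofReal (8 / θ * τ i ^ θ)) *
          ∏ j ∈ (insert i s)ᶜ, om1 θ (τ j) (v j + (Ξ j j).re)) *
          (om1 θ (τ i) (x + (Ξ i i).re) *
            ‖(e2N Ξ s (Function.update v i 0)).det +
              (x : ℂ) * (e2N Ξ (insert i s) v).det‖ₑ ^ (θ - 1)) := by
      intro x
      rw [hcompl, prod_insert hnot, Function.update_self, e2_step Ξ s v i hi x]
      have : ∏ j ∈ (insert i s)ᶜ, om1 θ (τ j) (Function.update v i x j + (Ξ j j).re) =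
          ∏ j ∈ (insert i s)ᶜ, om1 θ (τ j) (v j + (Ξ j j).re) := by
        refine prod_congr rfl fun j hj => ?_
        have hji : j ≠ i := by
          rintro rfl
          exact hnot hj
        rw [Function.update_of_ne hji]
      rw [this]
      ring
    calc _ ≤ ∫⁻ x : ℝ, (∏ i ∈ s, ENNReal.ofReal (8 / θ * τ i ^ θ)) *
        ((∏ j ∈ sᶜ, om1 θ (τ j) (Function.update v i x j + (Ξ j j).re)) *
          ‖(e2N Ξ s (Function.update v i x)).det‖ₑ ^ (θ - 1)) :=
          lintegral_mono fun x => ih (Function.update v i x)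
      _ = ∫⁻ x : ℝ, ((∏ i ∈ s, ENNReal.ofReal (8 / θ * τ i ^ θ)) *
          ∏ j ∈ (insert i s)ᶜ, om1 θ (τ j) (v j + (Ξ j j).re)) *
          (om1 θ (τ i) (x + (Ξ i i).re) *
            ‖(e2N Ξ s (Function.update v i 0)).det +
              (x : ℂ) * (e2N Ξ (insert i s) v).det‖ₑ ^ (θ - 1)) :=
          lintegral_congr hpt
      _ = ((∏ i ∈ s, ENNReal.ofReal (8 / θ * τ i ^ θ)) *
          ∏ j ∈ (insert i s)ᶜ, om1 θ (τ j) (v j + (Ξ j j).re)) *
          ∫⁻ x : ℝ, (om1 θ (τ i) (x + (Ξ i i).re) *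
            ‖(e2N Ξ s (Function.update v i 0)).det +
              (x : ℂ) * (e2N Ξ (insert i s) v).det‖ₑ ^ (θ - 1)) :=
          lintegral_const_mul _ (e2_meas1 _ _ _ _ _)
      _ ≤ ((∏ i ∈ s, ENNReal.ofReal (8 / θ * τ i ^ θ)) *
          ∏ j ∈ (insert i s)ᶜ, om1 θ (τ j) (v j + (Ξ j j).re)) *
          (ENNReal.ofReal (8 / θ * τ i ^ θ) * ‖(e2N Ξ (insert i s) v).det‖ₑ ^ (θ - 1)) := by
          gcongr
          exact int_one θ (τ i) h0 h1 (hτ i) _ _ _
      _ = _ := by
          rw [prod_insert hi]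
          ring

theorem int_det (Ξ : Matrix κ κ ℂ) (θ : ℝ) (h0 : 0 < θ) (h1 : θ < 1) (τ : κ → ℝ)
    (hτ : ∀ i, 0 < τ i) :
    ∫⁻ v : κ → ℝ, (∏ i, om1 θ (τ i) (v i + (Ξ i i).re)) * ‖(mt Ξ (cc v)).det‖ₑ ^ (θ - 1) ≤
      ∏ i, ENNReal.ofReal (8 / θ * τ i ^ θ) := by
  rw [volume_pi, lintegral_eq_lmarginal_univ (fun _ => (0 : ℝ))]
  refine (e2_claim Ξ θ h0 h1 τ hτ univ (fun _ => (0 : ℝ))).trans ?_
  have h2 : e2N Ξ univ (fun _ => (0 : ℝ)) = 1 := by
    ext a b
    simp only [e2N, Matrix.of_apply, mem_univ, if_true, Matrix.one_apply, Pi.single_apply]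
    by_cases h : a = b
    · subst h
      simp
    · rw [if_neg h, if_neg (Ne.symm h)]
  rw [h2, det_one, compl_univ, prod_empty, one_mul, enorm_one, ENNReal.one_rpow, mul_one]

end LL
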