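import Pool.Agent.Lib.MP_562b47_mp.LL.EDefs

/-!
LL-E3 (hats: cofactor bounds).

PROOF. `r_i = √t_i`, `Gh_ij = r_i r_j G_ij` (`Gh = diagonal r * G * diagonal r`), `‖Gh_ij‖ ≤ Λ`.
`hat_det`: `det Gh = (∏ t_i) det G` and `Matrix.det_le` (Leibniz).
`hat_M`: `M = det(G)⁻¹ adj G`, `adjugate Gh i j = det (Gh.updateRow j (Pi.single i 1))`
(`Matrix.adjugate_apply`), all entries have norm `≤ Λ` (`1 ≤ Λ`), so `‖adj Gh i j‖ ≤ k! Λ^k`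
(`Matrix.det_le`). And `Mh = diagonal r⁻¹ * M * diagonal r⁻¹` is the inverse of `Gh`, so
`adj Gh = det Gh • Mh`: `‖M i j‖ Y ≤ C r_i r_j`.
`hat_y`: `‖y_i‖ Y ≤ ∑_j ‖M_ij‖ Y ‖u_j‖ ≤ ∑_j C r_i r_j (√e / r_j) = k C r_i √e`.
-/

set_option autoImplicit false

namespace LL

open MeasureTheory Matrix Finset
open scoped ENNReal Nat

variable {κ : Type*} [Fintype κ] [DecidableEq κ]

theorem E3_det_le (A : Matrix κ κ ℂ) (Λ : ℝ) (h : ∀ i j, ‖A i j‖ ≤ Λ) :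
    ‖A.det‖ ≤ cC κ Λ := by
  have h1 := Matrix.det_le (A := A) (abv := NormedField.toAbsoluteValue ℂ) (x := Λ) h
  rw [nsmul_eq_mul] at h1
  exact h1

/-- the scaled matrix -/
noncomputable def E3_hat (G : Matrix κ κ ℂ) (r : κ → ℝ) : Matrix κ κ ℂ :=
  diagonal (fun i => (r i : ℂ)) * G * diagonal (fun i => (r i : ℂ))

theorem E3_hat_apply (G : Matrix κ κ ℂ) (r : κ → ℝ) (i j : κ) :
    E3_hat G r i j = (r i : ℂ) * G i j * (r j : ℂ) := by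
  unfold E3_hat
  rw [mul_diagonal, diagonal_mul]

theorem E3_hat_le (G : Matrix κ κ ℂ) (t : κ → ℝ) (Λ : ℝ) (hΛ : 1 ≤ Λ) (ht : ∀ i, 0 < t i)
    (hG : ∀ i j, ‖G i j‖ ^ 2 * (t i * t j) ≤ Λ ^ 2) (i j : κ) :
    ‖E3_hat G (fun i => √(t i)) i j‖ ≤ Λ := by
  rw [E3_hat_apply]
  rw [norm_mul, norm_mul, Complex.norm_real, Complex.norm_real,
    Real.norm_of_nonneg (Real.sqrt_nonneg _), Real.norm_of_nonneg (Real.sqrt_nonneg _)]
  refine abs_le_of_sq_le_sq' ?_ (by linarith) |>.2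
  calc (√(t i) * ‖G i j‖ * √(t j)) ^ 2
      = ‖G i j‖ ^ 2 * (√(t i) ^ 2 * √(t j) ^ 2) := by ring
    _ = ‖G i j‖ ^ 2 * (t i * t j) := by rw [Real.sq_sqrt (ht i).le, Real.sq_sqrt (ht j).le]
    _ ≤ Λ ^ 2 := hG i j

theorem E3_hat_det (G : Matrix κ κ ℂ) (t : κ → ℝ) (ht : ∀ i, 0 < t i) :
    ‖(E3_hat G (fun i => √(t i))).det‖ = ‖G.det‖ * ∏ i, t i := by
  unfold E3_hat
  rw [det_mul, det_mul, det_diagonal, norm_mul, norm_mul, norm_prod]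
  have h1 : ∀ i, ‖((√(t i) : ℝ) : ℂ)‖ = √(t i) := fun i => by
    rw [Complex.norm_real, Real.norm_of_nonneg (Real.sqrt_nonneg _)]
  simp only [h1]
  have h2 : (∏ i, √(t i)) * (∏ i, √(t i)) = ∏ i, t i := by
    rw [← Finset.prod_mul_distrib]
    exact Finset.prod_congr rfl (fun i _ => Real.mul_self_sqrt (ht i).le)
  calc (∏ i, √(t i)) * ‖G.det‖ * ∏ i, √(t i)
      = ‖G.det‖ * ((∏ i, √(t i)) * (∏ i, √(t i))) := by ring
    _ = ‖G.det‖ * ∏ i, t i := by rw [h2]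

theorem hat_det (G : Matrix κ κ ℂ) (t : κ → ℝ) (Λ : ℝ) (hΛ : 1 ≤ Λ) (ht : ∀ i, 0 < t i)
    (hG : ∀ i j, ‖G i j‖ ^ 2 * (t i * t j) ≤ Λ ^ 2) :
    ‖G.det‖ * ∏ i, t i ≤ cC κ Λ := by
  rw [← E3_hat_det G t ht]
  exact E3_det_le _ _ (E3_hat_le G t Λ hΛ ht hG)

theorem E3_M (G M : Matrix κ κ ℂ) (hGM : G * M = 1) (t : κ → ℝ) (Λ : ℝ) (hΛ : 1 ≤ Λ)
    (ht : ∀ i, 0 < t i) (hG : ∀ i j, ‖G i j‖ ^ 2 * (t i * t j) ≤ Λ ^ 2) (i j : κ) :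
    ‖M i j‖ * (‖G.det‖ * ∏ i, t i) ≤ cC κ Λ * (√(t i) * √(t j)) := by
  set H := E3_hat G (fun i => √(t i)) with hH
  set R : Matrix κ κ ℂ := diagonal (fun i => ((√(t i))⁻¹ : ℂ)) with hR
  set D : Matrix κ κ ℂ := diagonal (fun i => ((√(t i) : ℝ) : ℂ)) with hD
  have hr : ∀ i, ((√(t i) : ℝ) : ℂ) ≠ 0 := fun i => by
    have := Real.sqrt_pos.mpr (ht i)
    exact_mod_cast this.ne'
  have hDR : D * R = 1 := by
    rw [hD, hR, diagonal_mul_diagonal, ← diagonal_one]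
    congr 1
    funext i
    exact mul_inv_cancel₀ (hr i)
  have hHM : H * (R * M * R) = 1 := by
    have h1 : H = D * G * D := rfl
    calc H * (R * M * R) = D * G * (D * R) * M * R := by rw [h1]; simp only [Matrix.mul_assoc]
      _ = D * (G * M) * R := by rw [hDR]; simp only [Matrix.mul_assoc, Matrix.one_mul]
      _ = D * R := by rw [hGM, Matrix.mul_one]
      _ = 1 := hDR
  have hadj : H.adjugate = H.det • (R * M * R) := by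
    calc H.adjugate = H.adjugate * (H * (R * M * R)) := by rw [hHM, Matrix.mul_one]
      _ = (H.adjugate * H) * (R * M * R) := (Matrix.mul_assoc _ _ _).symm
      _ = H.det • (R * M * R) := by rw [adjugate_mul, Matrix.smul_mul, Matrix.one_mul]
  have hbd : ‖H.adjugate i j‖ ≤ cC κ Λ := by
    rw [adjugate_apply]
    refine E3_det_le _ _ (fun a b => ?_)
    rw [updateRow_apply]
    split_ifs with hab
    · by_cases hbi : b = i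
      · rw [hbi, Pi.single_eq_same, norm_one]; exact hΛ
      · rw [Pi.single_eq_of_ne hbi, norm_zero]; linarith
    · exact E3_hat_le G t Λ hΛ ht hG a b
  have hent : H.adjugate i j = H.det * ((√(t i) : ℂ)⁻¹ * M i j * (√(t j) : ℂ)⁻¹) := by
    rw [hadj, Matrix.smul_apply, smul_eq_mul, hR, mul_diagonal, diagonal_mul]
  have hi := Real.sqrt_pos.mpr (ht i)
  have hj := Real.sqrt_pos.mpr (ht j)
  have hnorm : ‖H.adjugate i j‖ =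
      (‖G.det‖ * ∏ i, t i) * ((√(t i))⁻¹ * ‖M i j‖ * (√(t j))⁻¹) := by
    rw [hent, norm_mul, hH, E3_hat_det G t ht, norm_mul, norm_mul, norm_inv, norm_inv,
      Complex.norm_real, Complex.norm_real, Real.norm_of_nonneg (Real.sqrt_nonneg _),
      Real.norm_of_nonneg (Real.sqrt_nonneg _)]
  rw [hnorm] at hbd
  calc ‖M i j‖ * (‖G.det‖ * ∏ i, t i)
      = ((‖G.det‖ * ∏ i, t i) * ((√(t i))⁻¹ * ‖M i j‖ * (√(t j))⁻¹)) * (√(t i) * √(t j)) := by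
        field_simp
    _ ≤ cC κ Λ * (√(t i) * √(t j)) :=
        mul_le_mul_of_nonneg_right hbd (mul_nonneg hi.le hj.le)

theorem E3_cC_nonneg (Λ : ℝ) (hΛ : 1 ≤ Λ) : 0 ≤ cC κ Λ := by
  unfold cC
  positivity

theorem hat_M (G M : Matrix κ κ ℂ) (hGM : G * M = 1) (t : κ → ℝ) (Λ : ℝ) (hΛ : 1 ≤ Λ)
    (ht : ∀ i, 0 < t i) (hG : ∀ i j, ‖G i j‖ ^ 2 * (t i * t j) ≤ Λ ^ 2) (i j : κ) :
    ‖M i j‖ ^ 2 * (‖G.det‖ * ∏ i, t i) ^ 2 ≤ cC κ Λ ^ 2 * (t i * t j) := by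
  have h := E3_M G M hGM t Λ hΛ ht hG i j
  have hP : 0 ≤ ‖G.det‖ * ∏ i, t i :=
    mul_nonneg (norm_nonneg _) (Finset.prod_nonneg (fun i _ => (ht i).le))
  have h0 : 0 ≤ ‖M i j‖ * (‖G.det‖ * ∏ i, t i) := mul_nonneg (norm_nonneg _) hP
  calc ‖M i j‖ ^ 2 * (‖G.det‖ * ∏ i, t i) ^ 2 = (‖M i j‖ * (‖G.det‖ * ∏ i, t i)) ^ 2 := by ring
    _ ≤ (cC κ Λ * (√(t i) * √(t j))) ^ 2 := pow_le_pow_left₀ h0 h 2
    _ = cC κ Λ ^ 2 * (√(t i) ^ 2 * √(t j) ^ 2) := by ring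
    _ = cC κ Λ ^ 2 * (t i * t j) := by rw [Real.sq_sqrt (ht i).le, Real.sq_sqrt (ht j).le]

theorem hat_y (G M : Matrix κ κ ℂ) (hGM : G * M = 1) (t : κ → ℝ) (Λ e : ℝ) (hΛ : 1 ≤ Λ)
    (he : 0 ≤ e) (ht : ∀ i, 0 < t i) (hG : ∀ i j, ‖G i j‖ ^ 2 * (t i * t j) ≤ Λ ^ 2)
    (u : κ → ℂ) (hu : ∀ i, ‖u i‖ ^ 2 * t i ≤ e) (i : κ) :
    ‖(M *ᵥ u) i‖ ^ 2 * (‖G.det‖ * ∏ i, t i) ^ 2 ≤
      (Fintype.card κ * cC κ Λ) ^ 2 * (t i * e) := by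
  set P := ‖G.det‖ * ∏ i, t i with hPdef
  have hP : 0 ≤ P :=
    mul_nonneg (norm_nonneg _) (Finset.prod_nonneg (fun i _ => (ht i).le))
  have hC : 0 ≤ cC κ Λ := E3_cC_nonneg Λ hΛ
  have hu' : ∀ j, √(t j) * ‖u j‖ ≤ √e := by
    intro j
    refine Real.le_sqrt_of_sq_le ?_
    calc (√(t j) * ‖u j‖) ^ 2 = ‖u j‖ ^ 2 * √(t j) ^ 2 := by ring
      _ = ‖u j‖ ^ 2 * t j := by rw [Real.sq_sqrt (ht j).le]
      _ ≤ e := hu j
  have h1 : ‖(M *ᵥ u) i‖ * P ≤ Fintype.card κ * cC κ Λ * (√(t i) * √e) := by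
    have h2 : (M *ᵥ u) i = ∑ j, M i j * u j := rfl
    rw [h2]
    calc ‖∑ j, M i j * u j‖ * P ≤ (∑ j, ‖M i j * u j‖) * P :=
          mul_le_mul_of_nonneg_right (norm_sum_le _ _) hP
      _ = ∑ j, ‖M i j‖ * P * ‖u j‖ := by
          rw [Finset.sum_mul]
          refine Finset.sum_congr rfl (fun j _ => ?_)
          rw [norm_mul]; ring
      _ ≤ ∑ _j : κ, cC κ Λ * (√(t i) * √e) := by
          refine Finset.sum_le_sum (fun j _ => ?_)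
          calc ‖M i j‖ * P * ‖u j‖ ≤ cC κ Λ * (√(t i) * √(t j)) * ‖u j‖ :=
                mul_le_mul_of_nonneg_right (E3_M G M hGM t Λ hΛ ht hG i j) (norm_nonneg _)
            _ = cC κ Λ * √(t i) * (√(t j) * ‖u j‖) := by ring
            _ ≤ cC κ Λ * √(t i) * √e :=
                mul_le_mul_of_nonneg_left (hu' j) (mul_nonneg hC (Real.sqrt_nonneg _))
            _ = cC κ Λ * (√(t i) * √e) := by ring
      _ = Fintype.card κ * cC κ Λ * (√(t i) * √e) := by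
          rw [Finset.sum_const, Finset.card_univ, nsmul_eq_mul]; ring
  have h0 : 0 ≤ ‖(M *ᵥ u) i‖ * P := mul_nonneg (norm_nonneg _) hP
  calc ‖(M *ᵥ u) i‖ ^ 2 * P ^ 2 = (‖(M *ᵥ u) i‖ * P) ^ 2 := by ring
    _ ≤ (Fintype.card κ * cC κ Λ * (√(t i) * √e)) ^ 2 := pow_le_pow_left₀ h0 h1 2
    _ = (Fintype.card κ * cC κ Λ) ^ 2 * (√(t i) ^ 2 * √e ^ 2) := by ring
    _ = (Fintype.card κ * cC κ Λ) ^ 2 * (t i * e) := by
        rw [Real.sq_sqrt (ht i).le, Real.sq_sqrt he]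

end LL
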