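import Pool.Agent.Lib.MP_562b47_mp.LL.EDefs

/-!
LL-E4 (cut lemma).

PROOF. `r_i = √t_i`: `‖G_ij‖ ≤ Λ / (r_i r_j)`, `‖u_j‖ ≤ √e / r_j`, for `j ∈ B`, `m ∉ B`:
`‖M_jm‖ ≤ s r_j r_m` and (symmetry) `‖M_mj‖ ≤ s r_j r_m`; `‖(M u)_j‖ ≤ s √e r_j` for `j ∈ B`.
For `i ∈ B`: `u_i = ∑_{m ∈ B} (G M)_im u_m = ∑_j G_ij c_j`, `c_j = ∑_{m ∈ B} M_jm u_m`.
`j ∉ B`: `‖c_j‖ ≤ ∑_{m ∈ B} s r_j r_m √e / r_m ≤ k s √e r_j`.
`j ∈ B`: `c_j = (M u)_j - ∑_{m ∉ B} M_jm u_m`, so `‖c_j‖ ≤ s √e r_j + k s √e r_j`.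
Hence `‖u_i‖ ≤ ∑_j Λ/(r_i r_j) (k+1) s √e r_j = k (k+1) Λ s √e / r_i ≤ 2 k² Λ s √e / r_i`
(`k ≥ 1` since `i ∈ B`).
-/

set_option autoImplicit false

namespace LL

open MeasureTheory Matrix Finset
open scoped ENNReal Nat

variable {κ : Type*} [Fintype κ] [DecidableEq κ]

theorem cut (G M : Matrix κ κ ℂ) (hGM : G * M = 1) (hM : Mᵀ = M) (t : κ → ℝ) (Λ e s : ℝ)
    (hΛ : 0 ≤ Λ) (hs : 0 ≤ s) (he : 0 ≤ e) (ht : ∀ i, 0 < t i)
    (hG : ∀ i j, ‖G i j‖ ^ 2 * (t i * t j) ≤ Λ ^ 2) (u : κ → ℂ)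
    (hu : ∀ i, ‖u i‖ ^ 2 * t i ≤ e) (B : Finset κ)
    (h1 : ∀ i ∈ B, ∀ j ∉ B, ‖M i j‖ ^ 2 ≤ s ^ 2 * (t i * t j))
    (h2 : ∀ i ∈ B, ‖(M *ᵥ u) i‖ ^ 2 ≤ s ^ 2 * (t i * e)) :
    ∀ i ∈ B, ‖u i‖ ^ 2 * t i ≤ (2 * (Fintype.card κ : ℝ) ^ 2 * Λ * s) ^ 2 * e := by
  intro i hi
  set r : κ → ℝ := fun j => Real.sqrt (t j) with hr
  have hr0 : ∀ j, 0 < r j := fun j => Real.sqrt_pos.2 (ht j)
  have hrt : ∀ j, r j ^ 2 = t j := fun j => Real.sq_sqrt (ht j).le
  set E : ℝ := Real.sqrt e with hE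
  have hE0 : 0 ≤ E := Real.sqrt_nonneg e
  have hEe : E ^ 2 = e := Real.sq_sqrt he
  have gG : ∀ a b, ‖G a b‖ * (r a * r b) ≤ Λ := by
    intro a b
    refine (sq_le_sq₀ (by have := hr0 a; have := hr0 b; positivity) hΛ).1 ?_
    rw [mul_pow, mul_pow, hrt, hrt]
    exact hG a b
  have gu : ∀ a, ‖u a‖ * r a ≤ E := by
    intro a
    refine (sq_le_sq₀ (by have := hr0 a; positivity) hE0).1 ?_
    rw [mul_pow, hrt, hEe]
    exact hu a
  have g1 : ∀ a ∈ B, ∀ b ∉ B, ‖M a b‖ ≤ s * (r a * r b) := by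
    intro a ha b hb
    refine (sq_le_sq₀ (norm_nonneg _) (by have := hr0 a; have := hr0 b; positivity)).1 ?_
    rw [mul_pow, mul_pow, hrt, hrt]
    exact h1 a ha b hb
  have g2 : ∀ a ∈ B, ‖(M *ᵥ u) a‖ ≤ s * (r a * E) := by
    intro a ha
    refine (sq_le_sq₀ (norm_nonneg _) (by have := hr0 a; positivity)).1 ?_
    rw [mul_pow, mul_pow, hrt, hEe]
    exact h2 a ha
  have hsym : ∀ a b, M a b = M b a := by
    intro a b
    have h3 := congrFun (congrFun hM a) b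
    rw [Matrix.transpose_apply] at h3
    exact h3.symm
  set w : κ → ℂ := fun m => if m ∈ B then u m else 0 with hw
  have hGw : w = G *ᵥ (M *ᵥ w) := by
    rw [Matrix.mulVec_mulVec, hGM, Matrix.one_mulVec]
  set k : ℝ := (Fintype.card κ : ℝ) with hk
  have hk1 : 1 ≤ k := by
    have h3 : 0 < Fintype.card κ := Fintype.card_pos_iff.2 ⟨i⟩
    rw [hk]
    exact_mod_cast h3
  have hcard : ∀ c : ℝ, ∑ _m : κ, c = k * c := by
    intro c
    rw [Finset.sum_const, Finset.card_univ, nsmul_eq_mul]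
  -- the elementary products
  have hprod : ∀ a b : κ, ‖M a b‖ ≤ s * (r a * r b) → ‖M a b‖ * ‖u b‖ ≤ s * (r a * E) := by
    intro a b h3
    calc ‖M a b‖ * ‖u b‖ ≤ s * (r a * r b) * ‖u b‖ :=
          mul_le_mul_of_nonneg_right h3 (norm_nonneg _)
      _ = s * r a * (‖u b‖ * r b) := by ring
      _ ≤ s * r a * E := mul_le_mul_of_nonneg_left (gu b) (mul_nonneg hs (hr0 a).le)
      _ = s * (r a * E) := by ring
  have hc : ∀ j, ‖(M *ᵥ w) j‖ ≤ (k + 1) * (s * (r j * E)) := by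
    intro j
    have hpos : 0 ≤ s * (r j * E) := mul_nonneg hs (mul_nonneg (hr0 j).le hE0)
    by_cases hj : j ∈ B
    · have h4 : (M *ᵥ w) j = (M *ᵥ u) j - ∑ m, M j m * (u m - w m) := by
        rw [Matrix.mulVec, Matrix.mulVec, dotProduct, dotProduct, ← Finset.sum_sub_distrib]
        refine Finset.sum_congr rfl fun m _ => ?_
        ring
      have h5 : ‖∑ m, M j m * (u m - w m)‖ ≤ k * (s * (r j * E)) := by
        refine (norm_sum_le _ _).trans ?_
        rw [← hcard]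
        refine Finset.sum_le_sum fun m _ => ?_
        by_cases hm : m ∈ B
        · simp only [hw, if_pos hm, sub_self, mul_zero, norm_zero]
          exact hpos
        · simp only [hw, if_neg hm, sub_zero, norm_mul]
          exact hprod j m (g1 j hj m hm)
      rw [h4]
      refine (norm_sub_le _ _).trans ?_
      have h6 := g2 j hj
      linarith
    · have h5 : ‖(M *ᵥ w) j‖ ≤ k * (s * (r j * E)) := by
        rw [Matrix.mulVec, dotProduct]
        refine (norm_sum_le _ _).trans ?_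
        rw [← hcard]
        refine Finset.sum_le_sum fun m _ => ?_
        by_cases hm : m ∈ B
        · simp only [hw, if_pos hm, norm_mul]
          refine hprod j m ?_
          rw [hsym j m, mul_comm (r j) (r m)]
          exact g1 m hm j hj
        · simp only [hw, if_neg hm, mul_zero, norm_zero]
          exact hpos
      linarith
  have hui : ‖u i‖ * r i ≤ 2 * k ^ 2 * Λ * s * E := by
    have h7 : u i = ∑ j, G i j * (M *ᵥ w) j := by
      have h8 := congrFun hGw i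
      have h9 : w i = u i := by simp only [hw, if_pos hi]
      rw [h9] at h8
      exact h8
    have hn : 0 ≤ (k + 1) * (s * E) := mul_nonneg (by linarith) (mul_nonneg hs hE0)
    calc ‖u i‖ * r i ≤ (∑ j, ‖G i j * (M *ᵥ w) j‖) * r i := by
          rw [h7]
          exact mul_le_mul_of_nonneg_right (norm_sum_le _ _) (hr0 i).le
      _ = ∑ j, ‖G i j * (M *ᵥ w) j‖ * r i := by rw [Finset.sum_mul]
      _ ≤ ∑ _j : κ, Λ * ((k + 1) * (s * E)) := by
          refine Finset.sum_le_sum fun j _ => ?_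
          rw [norm_mul]
          calc ‖G i j‖ * ‖(M *ᵥ w) j‖ * r i
              ≤ ‖G i j‖ * ((k + 1) * (s * (r j * E))) * r i :=
                mul_le_mul_of_nonneg_right
                  (mul_le_mul_of_nonneg_left (hc j) (norm_nonneg _)) (hr0 i).le
            _ = ‖G i j‖ * (r i * r j) * ((k + 1) * (s * E)) := by ring
            _ ≤ Λ * ((k + 1) * (s * E)) := mul_le_mul_of_nonneg_right (gG i j) hn
      _ = (Λ * (s * E)) * (k * (k + 1)) := by
          rw [hcard]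
          ring
      _ ≤ (Λ * (s * E)) * (2 * k ^ 2) := by
          refine mul_le_mul_of_nonneg_left ?_ (mul_nonneg hΛ (mul_nonneg hs hE0))
          nlinarith
      _ = 2 * k ^ 2 * Λ * s * E := by ring
  have hfin := pow_le_pow_left₀ (mul_nonneg (norm_nonneg (u i)) (hr0 i).le) hui 2
  rw [mul_pow, hrt, mul_pow, hEe] at hfin
  exact hfin

end LL
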