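import Pool.Agent.Lib.MP_562b47_mp.LL.EDefs

/-!
LL-E5 (counting scale vectors).

PROOF of `count_le`. Claim, by induction on `Bᶜ`... precisely on `n = B.card`: for all `B : Finset κ`
with `B.card = n` and all `f : κ → ℤ`, `{l ∈ L | ∀ j ∉ B, l j = f j}.encard ≤ (k (k+1) b)^n`.
`n = 0`: at most the single `f`. `n + 1`: by `hL l B`, every such `l` has some `i ∈ B` and a value
`l i ∈ R i ∪ ⋃_{j ∉ B} S i j (f j)` (at most `(k+1) b` values), so the set is covered by at most
`k (k+1) b` sets `{l ∈ L | ∀ j ∉ B.erase i, l j = update f i z j}`, each of encard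
`≤ (k (k+1) b)^n`. `B = univ` is the theorem. (`Set.encard_le_encard`, union bound:
`Set.encard_biUnion_le`/Finset induction, or work with `Set.Finite` and `Set.ncard`.)

`scale_mem`: with `Int.log`: `2 ^ Int.log 2 α ≤ α < 2 ^ (Int.log 2 α + 1)`
(`Int.zpow_log_le_self`, `Int.lt_zpow_succ_log_self`). `2^(z+1) ≥ α ≥ 2^(log α)` gives
`z + 1 ≥ log α`; `2^z < 2^N α < 2^(N + log α + 1)` gives `z ≤ N + log α`.
-/

set_option autoImplicit false

namespace LL

open MeasureTheory Matrix Finset
open scoped ENNReal Nat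

variable {κ : Type*} [Fintype κ] [DecidableEq κ]

private theorem encard_biUnion_le' {α β : Type*} (T : Finset α) (A : α → Set β) (c : ℕ∞)
    (h : ∀ t ∈ T, (A t).encard ≤ c) : (⋃ t ∈ T, A t).encard ≤ T.card * c := by
  classical
  induction T using Finset.induction_on with
  | empty => simp
  | insert a T ha ih =>
    rw [Finset.set_biUnion_insert, Finset.card_insert_of_notMem ha]
    refine (Set.encard_union_le _ _).trans ?_
    have h1 := h a (Finset.mem_insert_self a T)
    have h2 := ih fun t ht => h t (Finset.mem_insert_of_mem ht)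
    push_cast
    rw [add_mul, one_mul, add_comm]
    exact add_le_add h2 h1

theorem count_le (L : Set (κ → ℤ)) (R : κ → Finset ℤ) (S : κ → κ → ℤ → Finset ℤ) (b : ℕ)
    (hR : ∀ i, (R i).card ≤ b) (hS : ∀ i j z, (S i j z).card ≤ b)
    (hL : ∀ l ∈ L, ∀ B : Finset κ, B.Nonempty →
      ∃ i ∈ B, l i ∈ R i ∨ ∃ j ∉ B, l i ∈ S i j (l j)) :
    L.encard ≤ ((Fintype.card κ * (Fintype.card κ + 1) * b) ^ Fintype.card κ : ℕ) := by
  have key : ∀ n : ℕ, ∀ B : Finset κ, B.card = n → ∀ f : κ → ℤ,
      {l | l ∈ L ∧ ∀ j ∉ B, l j = f j}.encard ≤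
        ((Fintype.card κ * (Fintype.card κ + 1) * b) ^ n : ℕ) := by
    intro n
    induction n with
    | zero =>
      intro B hB f
      have hB' : B = ∅ := Finset.card_eq_zero.1 hB
      subst hB'
      have h1 : {l | l ∈ L ∧ ∀ j ∉ (∅ : Finset κ), l j = f j} ⊆ {f} := by
        rintro l ⟨_, h⟩
        exact funext fun j => h j (Finset.notMem_empty j)
      refine (Set.encard_le_encard h1).trans ?_
      simp
    | succ n ih =>
      intro B hB f
      have hBne : B.Nonempty := Finset.card_pos.1 (by omega)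
      obtain ⟨V, hVdef⟩ : ∃ V : κ → Finset ℤ, V = fun i =>
        R i ∪ (Finset.univ : Finset κ).biUnion (fun j => S i j (f j)) := ⟨_, rfl⟩
      have hV : ∀ i, (V i).card ≤ (Fintype.card κ + 1) * b := by
        intro i
        rw [hVdef]
        refine (Finset.card_union_le _ _).trans ?_
        have h1 := hR i
        have h2 : ((Finset.univ : Finset κ).biUnion (fun j => S i j (f j))).card ≤
            Fintype.card κ * b := by
          refine Finset.card_biUnion_le.trans ?_
          refine (Finset.sum_le_card_nsmul _ _ b fun j _ => hS i j (f j)).trans ?_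
          rw [Finset.card_univ, smul_eq_mul]
        rw [add_mul, one_mul]
        omega
      have hsub : {l | l ∈ L ∧ ∀ j ∉ B, l j = f j} ⊆ ⋃ p ∈ B.sigma V,
          {l | l ∈ L ∧ ∀ j ∉ B.erase p.1, l j = Function.update f p.1 p.2 j} := by
        rintro l ⟨hl, hf⟩
        obtain ⟨i, hi, h⟩ := hL l hl B hBne
        have hmem : l i ∈ V i := by
          rw [hVdef]
          rcases h with h | ⟨j, hj, h⟩
          · exact Finset.mem_union_left _ h
          · refine Finset.mem_union_right _ (Finset.mem_biUnion.2 ⟨j, Finset.mem_univ j, ?_⟩)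
            rw [← hf j hj]
            exact h
        simp only [Set.mem_iUnion]
        refine ⟨⟨i, l i⟩, Finset.mem_sigma.2 ⟨hi, hmem⟩, hl, ?_⟩
        intro j hj
        by_cases hji : j = i
        · subst hji
          simp
        · rw [Function.update_of_ne hji]
          apply hf
          intro hjB
          exact hj (Finset.mem_erase.2 ⟨hji, hjB⟩)
      refine (Set.encard_le_encard hsub).trans ?_
      refine (encard_biUnion_le' _ _ _ (fun p hp => ih (B.erase p.1) ?_ _)).trans ?_
      · have h1 := (Finset.mem_sigma.1 hp).1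
        rw [Finset.card_erase_of_mem h1, hB]
        rfl
      · have h1 : (B.sigma V).card ≤ Fintype.card κ * (Fintype.card κ + 1) * b := by
          rw [Finset.card_sigma]
          refine (Finset.sum_le_card_nsmul _ _ _ fun i _ => hV i).trans ?_
          rw [smul_eq_mul, mul_assoc]
          exact Nat.mul_le_mul_right _ (Finset.card_le_univ B)
        have h2 : (B.sigma V).card * (Fintype.card κ * (Fintype.card κ + 1) * b) ^ n ≤
            (Fintype.card κ * (Fintype.card κ + 1) * b) ^ (n + 1) := by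
          rw [pow_succ, mul_comm _ (Fintype.card κ * (Fintype.card κ + 1) * b)]
          exact Nat.mul_le_mul_right _ h1
        exact_mod_cast h2
  have h1 := key (Fintype.card κ) Finset.univ Finset.card_univ (fun _ => 0)
  refine (Set.encard_le_encard ?_).trans h1
  intro l hl
  exact ⟨hl, fun j hj => absurd (Finset.mem_univ j) hj⟩

theorem scale_mem (α t : ℝ) (N : ℕ) (z : ℤ) (hα : 0 < α) (h1 : α ≤ t) (h2 : t ≤ 2 ^ N * α)
    (h3 : (2 : ℝ) ^ z < t) (h4 : t ≤ (2 : ℝ) ^ (z + 1)) :
    z ∈ Finset.Icc (Int.log 2 α - 1) (Int.log 2 α + N) := by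
  have h5 : ((2 : ℕ) : ℝ) ^ Int.log 2 α ≤ α := Int.zpow_log_le_self (by norm_num) hα
  have h6 : α < ((2 : ℕ) : ℝ) ^ (Int.log 2 α + 1) := Int.lt_zpow_succ_log_self (by norm_num) α
  push_cast at h5 h6
  have h7 : (2 : ℝ) ^ Int.log 2 α ≤ (2 : ℝ) ^ (z + 1) := h5.trans (h1.trans h4)
  have h8 : Int.log 2 α ≤ z + 1 := (zpow_le_zpow_iff_right₀ (by norm_num)).1 h7
  have h9 : (2 : ℝ) ^ z < (2 : ℝ) ^ ((N : ℤ) + (Int.log 2 α + 1)) := by
    rw [zpow_add₀ (by norm_num : (2 : ℝ) ≠ 0), zpow_natCast]
    calc (2 : ℝ) ^ z < t := h3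
      _ ≤ 2 ^ N * α := h2
      _ < 2 ^ N * 2 ^ (Int.log 2 α + 1) := mul_lt_mul_of_pos_left h6 (by positivity)
  have h10 : z < (N : ℤ) + (Int.log 2 α + 1) := (zpow_lt_zpow_iff_right₀ (by norm_num)).1 h9
  rw [Finset.mem_Icc]
  constructor
  · omega
  · omega

end LL
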