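import Pool.Agent.Lib.MP_562b47_mp.LL.EDefs

/-!
LL-E6 (pointwise bound). `k = card κ ≥ 1`, `θ = 1/(4k)`, `Y = p⁻¹ ∏ t_i`.

PROOF. `p⁻¹ = p^(θ-1) p^(-θ) = p^(θ-1) Y^θ ∏ t_i^(-θ)`, so
`p⁻¹ Y^(1/2) = p^(θ-1) Y^(θ + 1/2) ∏ t_i^(-θ)`. `Y^(1/2) = ∏_i Y^(2θ)` (`2 θ k = 1/2`), and
`Y ≤ C t_i / max(t_i, |x_i|)` (from `hY`, `hx`), so `Y^(1/2) ≤ C^(1/2) ∏ (t_i/max(t_i,|x_i|))^(2θ)`;
`Y^θ ≤ C^θ`, `C^(1/2 + θ) ≤ C` (`1 ≤ C`, `θ ≤ 1/4`). Finally `t_i^(-θ) ≤ (τ_i/2)^(-θ)` and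
`t_i / max(t_i,|x_i|) ≤ τ_i / max(τ_i,|x_i|)` (monotone in `t`).
-/

set_option autoImplicit false

namespace LL

open MeasureTheory Matrix Finset
open scoped ENNReal Nat

variable {κ : Type*} [Fintype κ] [DecidableEq κ]

theorem pt_bound_E (θ p C : ℝ) (hk : 0 < Fintype.card κ) (hθ : θ = 1 / (4 * Fintype.card κ))
    (hp : 0 < p) (hC : 1 ≤ C) (t τ x : κ → ℝ) (ht : ∀ i, 0 < t i) (h1 : ∀ i, t i ≤ τ i)
    (h2 : ∀ i, τ i / 2 ≤ t i) (hY : p⁻¹ * ∏ i, t i ≤ C)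
    (hx : ∀ i, |x i| * (p⁻¹ * ∏ i, t i) ≤ C * t i) :
    p⁻¹ * (p⁻¹ * ∏ i, t i) ^ (1 / 2 : ℝ) ≤
      C * p ^ (θ - 1) * ∏ i, ((τ i / 2) ^ (-θ) * (τ i / max (τ i) |x i|) ^ (2 * θ)) := by
  set Y : ℝ := p⁻¹ * ∏ i, t i with hYdef
  have hP : 0 < ∏ i, t i := Finset.prod_pos fun i _ => ht i
  have hY0 : 0 < Y := mul_pos (inv_pos.mpr hp) hP
  have hkR : (1 : ℝ) ≤ Fintype.card κ := by exact_mod_cast hk
  have hθ0 : 0 < θ := by rw [hθ]; positivity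
  have hθ4 : θ ≤ 1 / 4 := by
    rw [hθ]
    apply one_div_le_one_div_of_le (by norm_num)
    linarith
  have hkθ : 2 * θ * (Fintype.card κ : ℝ) = 1 / 2 := by
    rw [hθ]
    field_simp
    norm_num
  have hC0 : 0 < C := by linarith
  have hτ : ∀ i, 0 < τ i := fun i => lt_of_lt_of_le (ht i) (h1 i)
  have e1 : p⁻¹ = p ^ (θ - 1) * p ^ (-θ) := by
    rw [← Real.rpow_add hp, show θ - 1 + -θ = -1 by ring, Real.rpow_neg_one]
  have e2 : p ^ (-θ) = Y ^ θ * ∏ i, t i ^ (-θ) := by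
    rw [Real.finsetProd_rpow _ _ (fun i _ => (ht i).le), hYdef,
      Real.mul_rpow (inv_pos.mpr hp).le hP.le, mul_assoc, ← Real.rpow_add hP, add_neg_cancel,
      Real.rpow_zero, mul_one, Real.inv_rpow hp.le, Real.rpow_neg hp.le]
  have e3 : Y ^ (1 / 2 : ℝ) = ∏ _i : κ, Y ^ (2 * θ) := by
    rw [Finset.prod_const, Finset.card_univ, ← Real.rpow_natCast, ← Real.rpow_mul hY0.le, hkθ]
  have b1 : Y ^ θ ≤ C ^ θ := Real.rpow_le_rpow hY0.le hY hθ0.le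
  have b2 : ∏ i, t i ^ (-θ) ≤ ∏ i, (τ i / 2) ^ (-θ) := by
    apply Finset.prod_le_prod (fun i _ => Real.rpow_nonneg (ht i).le _)
    intro i _
    exact Real.rpow_le_rpow_of_nonpos (by have := hτ i; positivity) (h2 i) (by linarith)
  have b3 : ∀ i, Y ≤ C * (τ i / max (τ i) |x i|) := by
    intro i
    have hm : 0 < max (t i) |x i| := lt_max_of_lt_left (ht i)
    have hm' : 0 < max (τ i) |x i| := lt_max_of_lt_left (hτ i)
    have c1 : Y * max (t i) |x i| ≤ C * t i := by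
      rw [mul_max_of_nonneg _ _ hY0.le]
      apply max_le
      · exact mul_le_mul_of_nonneg_right hY (ht i).le
      · rw [mul_comm]
        exact hx i
    have c2 : Y ≤ C * (t i / max (t i) |x i|) := by
      rw [← mul_div_assoc, le_div_iff₀ hm]
      exact c1
    refine c2.trans (mul_le_mul_of_nonneg_left ?_ hC0.le)
    rw [div_le_div_iff₀ hm hm', mul_max_of_nonneg _ _ (ht i).le, mul_max_of_nonneg _ _ (hτ i).le]
    apply max_le_max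
    · rw [mul_comm]
    · exact mul_le_mul_of_nonneg_right (h1 i) (abs_nonneg _)
  have hg : ∀ i, 0 ≤ τ i / max (τ i) |x i| := fun i =>
    div_nonneg (hτ i).le (le_max_of_le_left (hτ i).le)
  have b4 : ∏ _i : κ, Y ^ (2 * θ) ≤ C ^ (1 / 2 : ℝ) * ∏ i, (τ i / max (τ i) |x i|) ^ (2 * θ) := by
    have c1 : ∏ _i : κ, Y ^ (2 * θ) ≤ ∏ i, (C * (τ i / max (τ i) |x i|)) ^ (2 * θ) := by
      apply Finset.prod_le_prod (fun i _ => Real.rpow_nonneg hY0.le _)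
      intro i _
      exact Real.rpow_le_rpow hY0.le (b3 i) (by linarith)
    refine c1.trans (le_of_eq ?_)
    have c2 : ∀ i, (C * (τ i / max (τ i) |x i|)) ^ (2 * θ) =
        C ^ (2 * θ) * (τ i / max (τ i) |x i|) ^ (2 * θ) := fun i =>
      Real.mul_rpow hC0.le (hg i)
    rw [Finset.prod_congr rfl fun i _ => c2 i, Finset.prod_mul_distrib, Finset.prod_const,
      Finset.card_univ, ← Real.rpow_natCast, ← Real.rpow_mul hC0.le, hkθ]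
  have hpp : 0 < p ^ (θ - 1) := Real.rpow_pos_of_pos hp _
  have hA : 0 ≤ ∏ i, (τ i / 2) ^ (-θ) := Finset.prod_nonneg fun i _ =>
    Real.rpow_nonneg (by have := hτ i; positivity) _
  have hB : 0 ≤ ∏ i, (τ i / max (τ i) |x i|) ^ (2 * θ) := Finset.prod_nonneg fun i _ =>
    Real.rpow_nonneg (hg i) _
  have hY3 : 0 ≤ ∏ _i : κ, Y ^ (2 * θ) := Finset.prod_nonneg fun i _ =>
    Real.rpow_nonneg hY0.le _
  have b5 : C ^ θ * C ^ (1 / 2 : ℝ) ≤ C := by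
    rw [← Real.rpow_add hC0]
    calc C ^ (θ + 1 / 2) ≤ C ^ (1 : ℝ) := Real.rpow_le_rpow_of_exponent_le hC (by linarith)
      _ = C := Real.rpow_one C
  rw [e3, e1, e2, Finset.prod_mul_distrib]
  calc p ^ (θ - 1) * (Y ^ θ * ∏ i, t i ^ (-θ)) * ∏ _i : κ, Y ^ (2 * θ)
      ≤ p ^ (θ - 1) * (C ^ θ * ∏ i, (τ i / 2) ^ (-θ)) *
          (C ^ (1 / 2 : ℝ) * ∏ i, (τ i / max (τ i) |x i|) ^ (2 * θ)) := by
        apply mul_le_mul _ b4 hY3 (by positivity)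
        apply mul_le_mul_of_nonneg_left _ hpp.le
        exact mul_le_mul b1 b2 (Finset.prod_nonneg fun i _ => Real.rpow_nonneg (ht i).le _)
          (by positivity)
    _ = (C ^ θ * C ^ (1 / 2 : ℝ)) * (p ^ (θ - 1) * ((∏ i, (τ i / 2) ^ (-θ)) *
          ∏ i, (τ i / max (τ i) |x i|) ^ (2 * θ))) := by ring
    _ ≤ C * (p ^ (θ - 1) * ((∏ i, (τ i / 2) ^ (-θ)) *
          ∏ i, (τ i / max (τ i) |x i|) ^ (2 * θ))) := by
        apply mul_le_mul_of_nonneg_right b5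
        positivity
    _ = C * p ^ (θ - 1) * ((∏ i, (τ i / 2) ^ (-θ)) *
          ∏ i, (τ i / max (τ i) |x i|) ^ (2 * θ)) := by ring

end LL
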