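import Pool.Agent.Lib.MP_562b47_mp.LL.EFacts
import Pool.Agent.Lib.MP_562b47_mp.LL.E4

/-!
LL-E7a (levels). `k = card κ ≥ 1`, `ν_h = 2^{-h} / (2 k² Λ)`.

FACTS for `v ∈ cS Ξ y Λ e`: `G = cG Ξ v` is nonzero (`k ≥ 1`), so `M = mt Ξ (cc v)` is invertible
(else `M⁻¹ = 0`), `G M = 1`, `Mᵀ = M`, `u = G y`, `y = M u`; with `t_i = ct Ξ v i > 0`:
`‖G_ij‖² t_i t_j ≤ Λ²`, `t_i ≤ e`, `‖u_i‖² t_i ≤ e`, `M_ij = Ξ_ij` for `i ≠ j`.

PROOF of `level`. `lev` fails at `ν` => there is `B ≠ ∅` with, for `i ∈ B`: `t_i < ν² e`,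
`‖y_i‖² < ν² t_i e`, `‖M_ij‖² < ν² t_i t_j` for `j ∉ B`; by `cut` (`s = ν`):
`‖u_i‖² t_i ≤ (2k²Λν)² e`, also `t_i ≤ ν² e ≤ (2k²Λν)² e`; so `max(1,‖u_i‖²) t_i ≤ (2k²Λν)² e` for
`i ∈ B`, and `≤ e` for the other `i`: `∏ ≤ (2k²Λν)² e^k` when `2k²Λν ≤ 1` (`ν = ν_h`:
`(2k²Λν_h)² = 4^{-h}`). `lev` holds for large `h` (first alternative, `ν_h → 0`, `t_i > 0`): take the
least such `h` (`Nat.find`). `h = 0`: `∏ ≤ e^k`. `h > 0`: fails at `h - 1`, `∏ ≤ 4^{-(h-1)} e^k`.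
-/


set_option autoImplicit false

namespace LL

open MeasureTheory Matrix Finset
open scoped ENNReal Nat

variable {κ : Type*} [Fintype κ] [DecidableEq κ]

theorem level (Ξ : Matrix κ κ ℂ) (hΞ : Ξᵀ = Ξ) (y : κ → ℂ) (Λ e : ℝ) (hk : 0 < Fintype.card κ)
    (hΛ : 1 ≤ Λ) (he : 0 < e) (v : κ → ℝ) (hv : v ∈ cS Ξ y Λ e) :
    ∃ h : ℕ, lev Ξ y e (nuh κ Λ h) v ∧
      ∏ i, (max 1 (‖cu Ξ y v i‖ ^ 2) * ct Ξ v i) ≤ 4 * (1 / 4) ^ h * e ^ Fintype.card κ := by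
  classical
  have hne : Nonempty κ := Fintype.card_pos_iff.1 hk
  have hdet := cS_det Ξ y Λ e hk v hv
  have htp := ct_pos Ξ y Λ e v hv
  have hte := ct_le Ξ y Λ e v hv
  have hut := cu_ct Ξ y Λ e v hv
  set k : ℝ := (Fintype.card κ : ℝ) with hkdef
  have hk1 : 1 ≤ k := by
    rw [hkdef]
    exact_mod_cast hk
  have hc2 : 1 ≤ 2 * k ^ 2 * Λ := by
    have h1 : 1 ≤ k ^ 2 := one_le_pow₀ hk1
    nlinarith
  have hnu : ∀ h : ℕ, 2 * k ^ 2 * Λ * nuh κ Λ h = (1 / 2) ^ h := by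
    intro h
    unfold nuh
    rw [← hkdef]
    field_simp
  have hnu0 : ∀ h : ℕ, 0 ≤ nuh κ Λ h := by
    intro h
    unfold nuh
    rw [← hkdef]
    positivity
  have hnule : ∀ h : ℕ, nuh κ Λ h ≤ (1 / 2) ^ h := by
    intro h
    rw [← hnu h]
    nlinarith [hnu0 h]
  have hnusq : ∀ h : ℕ, nuh κ Λ h ^ 2 ≤ (1 / 4) ^ h := by
    intro h
    calc nuh κ Λ h ^ 2 ≤ ((1 / 2) ^ h) ^ 2 := pow_le_pow_left₀ (hnu0 h) (hnule h) 2
      _ = (1 / 4) ^ h := by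
        rw [← pow_mul, mul_comm, pow_mul]
        norm_num
  -- existence of a level
  have hex : ∃ h : ℕ, lev Ξ y e (nuh κ Λ h) v := by
    obtain ⟨i0, _, hmin⟩ := Finset.exists_min_image univ (ct Ξ v) Finset.univ_nonempty
    obtain ⟨h, hh⟩ := exists_pow_lt_of_lt_one (div_pos (htp i0) he)
      (by norm_num : (1 / 4 : ℝ) < 1)
    refine ⟨h, ?_⟩
    rintro B ⟨i, hi⟩
    refine ⟨i, hi, Or.inl ?_⟩
    rw [lt_div_iff₀ he] at hh
    calc nuh κ Λ h ^ 2 * e ≤ (1 / 4) ^ h * e := mul_le_mul_of_nonneg_right (hnusq h) he.le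
      _ ≤ ct Ξ v i0 := hh.le
      _ ≤ ct Ξ v i := hmin i (Finset.mem_univ i)
  have hae : ∀ i, max 1 (‖cu Ξ y v i‖ ^ 2) * ct Ξ v i ≤ e := by
    intro i
    rw [max_mul_of_nonneg _ _ (htp i).le, one_mul]
    exact max_le (hte i) (hut i)
  have ha0 : ∀ i, 0 ≤ max 1 (‖cu Ξ y v i‖ ^ 2) * ct Ξ v i := fun i =>
    mul_nonneg (le_trans zero_le_one (le_max_left _ _)) (htp i).le
  refine ⟨Nat.find hex, Nat.find_spec hex, ?_⟩
  rcases Nat.eq_zero_or_pos (Nat.find hex) with h0 | h0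
  · rw [h0, pow_zero, mul_one]
    have h1 : ∏ i, (max 1 (‖cu Ξ y v i‖ ^ 2) * ct Ξ v i) ≤ ∏ _i : κ, e :=
      Finset.prod_le_prod (fun i _ => ha0 i) (fun i _ => hae i)
    rw [Finset.prod_const, Finset.card_univ] at h1
    have h2 : 0 ≤ e ^ Fintype.card κ := by positivity
    linarith
  · obtain ⟨h', hh'⟩ : ∃ h', Nat.find hex = h' + 1 := ⟨Nat.find hex - 1, by omega⟩
    rw [hh']
    have hnot : ¬ lev Ξ y e (nuh κ Λ h') v := Nat.find_min hex (by omega)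
    unfold lev at hnot
    push Not at hnot
    obtain ⟨B, ⟨i, hi⟩, hB⟩ := hnot
    have hcut := cut (cG Ξ v) (mt Ξ (cc v)) (cG_mul Ξ v hdet) (mt_sym Ξ hΞ v) (ct Ξ v) Λ e
      (nuh κ Λ h') (by linarith) (hnu0 h') he.le htp (cG_ct Ξ y Λ e v hv) (cu Ξ y v) hut B
      (by
        intro a ha b hb
        have hab : a ≠ b := by
          rintro rfl
          exact hb ha
        rw [mt_off Ξ v a b hab]
        exact ((hB a ha).2.2 b hb).le)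
      (by
        intro a ha
        rw [mt_cu Ξ y v hdet]
        exact ((hB a ha).2.1).le) i hi
    rw [← hkdef, hnu h'] at hcut
    have hsq : ((1 / 2 : ℝ) ^ h') ^ 2 = (1 / 4) ^ h' := by
      rw [← pow_mul, mul_comm, pow_mul]
      norm_num
    rw [hsq] at hcut
    have hti : ct Ξ v i ≤ (1 / 4) ^ h' * e :=
      (hB i hi).1.le.trans (mul_le_mul_of_nonneg_right (hnusq h') he.le)
    have hai : max 1 (‖cu Ξ y v i‖ ^ 2) * ct Ξ v i ≤ (1 / 4) ^ h' * e := by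
      rw [max_mul_of_nonneg _ _ (htp i).le, one_mul]
      exact max_le hti hcut
    rw [← Finset.mul_prod_erase univ _ (Finset.mem_univ i)]
    have h1 : ∏ j ∈ univ.erase i, (max 1 (‖cu Ξ y v j‖ ^ 2) * ct Ξ v j) ≤
        ∏ _j ∈ univ.erase i, e :=
      Finset.prod_le_prod (fun j _ => ha0 j) (fun j _ => hae j)
    rw [Finset.prod_const, Finset.card_erase_of_mem (Finset.mem_univ i), Finset.card_univ] at h1
    have h2 : 0 ≤ ∏ j ∈ univ.erase i, (max 1 (‖cu Ξ y v j‖ ^ 2) * ct Ξ v j) :=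
      Finset.prod_nonneg fun j _ => ha0 j
    calc max 1 (‖cu Ξ y v i‖ ^ 2) * ct Ξ v i *
          ∏ j ∈ univ.erase i, (max 1 (‖cu Ξ y v j‖ ^ 2) * ct Ξ v j)
        ≤ ((1 / 4) ^ h' * e) * e ^ (Fintype.card κ - 1) := by
          apply mul_le_mul hai h1 h2
          positivity
      _ = 4 * (1 / 4) ^ (h' + 1) * (e ^ (Fintype.card κ - 1) * e) := by
          rw [pow_succ]
          ring
      _ = 4 * (1 / 4) ^ (h' + 1) * e ^ Fintype.card κ := by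
          rw [← pow_succ, Nat.sub_add_cancel hk]

end LL
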