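import Pool.Agent.Lib.MP_562b47_mp.LL.EFacts
import Pool.Agent.Lib.MP_562b47_mp.LL.E3
import Pool.Agent.Lib.MP_562b47_mp.LL.E5

/-!
LL-E7b (number of scale vectors). `k = card κ ≥ 1`, `ν_h = 2^{-h} / (2 k² Λ)`.

FACTS for `v ∈ cS Ξ y Λ e`: `G = cG Ξ v` is nonzero (`k ≥ 1`), so `M = mt Ξ (cc v)` is invertible
(else `M⁻¹ = 0`), `G M = 1`, `Mᵀ = M`, `u = G y`, `y = M u`; with `t_i = ct Ξ v i > 0`:
`‖G_ij‖² t_i t_j ≤ Λ²`, `t_i ≤ e`, `‖u_i‖² t_i ≤ e`, `M_ij = Ξ_ij` for `i ≠ j`.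

PROOF of `count_lev`. `count_le` with `b = 2(N+2)`, `N = 2q + 8m + 2h + 9`. Let `W = k 16^{m+1}`. For
`v` as in the set: `‖M_ij‖² ≤ W² t_i t_j`, `‖y_i‖² ≤ W² t_i e` (`hat_M`, `hat_y`,
`C / Y ≤ 16^{m+1}`), `t_i ≤ e`. The three alternatives of `lev` put `t_i` into `[α, 2^N α]`:
(1) `α = ν² e`, `t_i ≤ e = α/ν²`; (2) `α = ‖y_i‖²/(W² e) > 0`, `t_i ≤ ‖y_i‖²/(ν² e) = (W²/ν²) α`;
(3) `α = ‖Ξ_ij‖²/(W² 2^{l_j + 1})`, `t_i ≤ ‖Ξ_ij‖²/(ν² t_j) ≤ ‖Ξ_ij‖²/(ν² 2^{l_j}) = 2 (W²/ν²) α`.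
`2 W²/ν² = 2 k² 16^{2m+2} 4^h 4 k⁴ Λ² = 2^{8m+9+2h} (2k³Λ)² ≤ 2^N`. Then `scale_mem`:
`R i = Icc (log(ν² e) - 1) (log(ν² e) + N) ∪ Icc (log(‖y_i‖²/(W² e)) - 1) (.. + N)`,
`S i j z = Icc (log(‖Ξ_ij‖²/(W² 2^{z+1})) - 1) (.. + N)` (`Int.card_Icc`).
-/

set_option autoImplicit false

namespace LL

open MeasureTheory Matrix Finset
open scoped ENNReal Nat

variable {κ : Type*} [Fintype κ] [DecidableEq κ]

theorem E7b_num (k Λ : ℝ) (hk : 0 < k) (hΛ : 1 ≤ Λ) (q : ℕ) (hq : 2 * k ^ 3 * Λ ≤ 2 ^ q)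
    (h m : ℕ) :
    2 * (k * 16 ^ (m + 1)) ^ 2 ≤
      2 ^ (2 * q + 8 * m + 2 * h + 9) * ((1 / 2) ^ h / (2 * k ^ 2 * Λ)) ^ 2 := by
  have hΛ0 : 0 < Λ := by linarith
  have h1 : (2 * k ^ 3 * Λ) ^ 2 ≤ ((2 : ℝ) ^ q) ^ 2 :=
    pow_le_pow_left₀ (by positivity) hq 2
  have h16 : (16 : ℝ) ^ (m + 1) = 16 * (2 ^ m) ^ 4 := by
    rw [pow_succ, show (16 : ℝ) = 2 ^ 4 by norm_num, ← pow_mul, ← pow_mul]
    ring
  have hN : (2 : ℝ) ^ (2 * q + 8 * m + 2 * h + 9) =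
      (2 ^ q) ^ 2 * (2 ^ m) ^ 8 * (2 ^ h) ^ 2 * 512 := by
    rw [pow_add, pow_add, pow_add, ← pow_mul, ← pow_mul, ← pow_mul]
    norm_num [mul_comm]
  have hh : ((1 : ℝ) / 2) ^ h = 1 / 2 ^ h := by
    rw [div_pow, one_pow]
  rw [h16, hN, hh, div_pow, mul_div_assoc', le_div_iff₀ (by positivity)]
  have hp : (0 : ℝ) < 2 ^ h := by positivity
  have hx : (0 : ℝ) ≤ (2 ^ m) ^ 8 * 128 * 4 := by positivity
  have h2 := mul_le_mul_of_nonneg_right h1 hx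
  have h3 : (1 / (2 : ℝ) ^ h) ^ 2 * (2 ^ h) ^ 2 = 1 := by
    rw [← mul_pow, one_div, inv_mul_cancel₀ hp.ne', one_pow]
  calc 2 * (k * (16 * (2 ^ m) ^ 4)) ^ 2 * (2 * k ^ 2 * Λ) ^ 2
      = (2 * k ^ 3 * Λ) ^ 2 * ((2 ^ m) ^ 8 * 128 * 4) := by ring
    _ ≤ ((2 : ℝ) ^ q) ^ 2 * ((2 ^ m) ^ 8 * 128 * 4) := h2
    _ = ((2 : ℝ) ^ q) ^ 2 * ((2 ^ m) ^ 8 * 128 * 4) *
          ((1 / (2 : ℝ) ^ h) ^ 2 * (2 ^ h) ^ 2) := by rw [h3, mul_one]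
    _ = (2 ^ q) ^ 2 * (2 ^ m) ^ 8 * (2 ^ h) ^ 2 * 512 * (1 / 2 ^ h) ^ 2 := by ring

theorem E7b_card (a : ℤ) (N : ℕ) : (Finset.Icc (a - 1) (a + N)).card = N + 2 := by
  rw [Int.card_Icc]
  omega

theorem E7b_bds (Ξ : Matrix κ κ ℂ) (y : κ → ℂ) (Λ e : ℝ)
    (hk : 0 < Fintype.card κ) (hΛ : 1 ≤ Λ) (he : 0 < e) (m : ℕ) (v : κ → ℝ)
    (hv : v ∈ cS Ξ y Λ e) (hY : cC κ Λ * (1 / 16) ^ (m + 1) < cY Ξ v) :
    (∀ i j, ‖mt Ξ (cc v) i j‖ ^ 2 ≤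
      ((Fintype.card κ : ℝ) * 16 ^ (m + 1)) ^ 2 * (ct Ξ v i * ct Ξ v j)) ∧
    ∀ i, ‖y i‖ ^ 2 ≤ ((Fintype.card κ : ℝ) * 16 ^ (m + 1)) ^ 2 * (ct Ξ v i * e) := by
  have hdet := cS_det Ξ y Λ e hk v hv
  have hk1 : (1 : ℝ) ≤ Fintype.card κ := by exact_mod_cast hk
  have hC : 0 ≤ cC κ Λ := E3_cC_nonneg Λ hΛ
  have ht := ct_pos Ξ y Λ e v hv
  have hY0 : 0 < cY Ξ v := lt_of_le_of_lt (by positivity) hY
  have hCY : cC κ Λ ≤ 16 ^ (m + 1) * cY Ξ v := by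
    have h1 : cC κ Λ = 16 ^ (m + 1) * (cC κ Λ * (1 / 16) ^ (m + 1)) := by
      rw [div_pow, one_pow]
      field_simp
    rw [h1]
    exact mul_le_mul_of_nonneg_left hY.le (by positivity)
  constructor
  · intro i j
    have h1 := hat_M (cG Ξ v) (mt Ξ (cc v)) (cG_mul Ξ v hdet) (ct Ξ v) Λ hΛ ht
      (cG_ct Ξ y Λ e v hv) i j
    have h2 : ‖mt Ξ (cc v) i j‖ ^ 2 * cY Ξ v ^ 2 ≤
        (((Fintype.card κ : ℝ) * 16 ^ (m + 1)) ^ 2 * (ct Ξ v i * ct Ξ v j)) * cY Ξ v ^ 2 := by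
      refine le_trans h1 ?_
      have h3 : cC κ Λ ≤ (Fintype.card κ : ℝ) * 16 ^ (m + 1) * cY Ξ v := by
        refine hCY.trans ?_
        have h5 : 0 ≤ (16 : ℝ) ^ (m + 1) * cY Ξ v := by positivity
        nlinarith
      have h4 : cC κ Λ ^ 2 ≤ ((Fintype.card κ : ℝ) * 16 ^ (m + 1) * cY Ξ v) ^ 2 :=
        pow_le_pow_left₀ hC h3 2
      have h6 := mul_le_mul_of_nonneg_right h4 (mul_pos (ht i) (ht j)).le
      calc cC κ Λ ^ 2 * (ct Ξ v i * ct Ξ v j) ≤ _ := h6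
        _ = _ := by ring
    exact le_of_mul_le_mul_right h2 (by positivity)
  · intro i
    have h1 := hat_y (cG Ξ v) (mt Ξ (cc v)) (cG_mul Ξ v hdet) (ct Ξ v) Λ e hΛ he.le ht
      (cG_ct Ξ y Λ e v hv) (cu Ξ y v) (cu_ct Ξ y Λ e v hv) i
    rw [mt_cu Ξ y v hdet] at h1
    have h2 : ‖y i‖ ^ 2 * cY Ξ v ^ 2 ≤
        (((Fintype.card κ : ℝ) * 16 ^ (m + 1)) ^ 2 * (ct Ξ v i * e)) * cY Ξ v ^ 2 := by
      refine le_trans h1 ?_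
      have h3 : (Fintype.card κ : ℝ) * cC κ Λ ≤
          (Fintype.card κ : ℝ) * (16 ^ (m + 1) * cY Ξ v) :=
        mul_le_mul_of_nonneg_left hCY (by positivity)
      have h4 : ((Fintype.card κ : ℝ) * cC κ Λ) ^ 2 ≤
          ((Fintype.card κ : ℝ) * (16 ^ (m + 1) * cY Ξ v)) ^ 2 :=
        pow_le_pow_left₀ (by positivity) h3 2
      have h6 := mul_le_mul_of_nonneg_right h4 (mul_pos (ht i) he).le
      calc ((Fintype.card κ : ℝ) * cC κ Λ) ^ 2 * (ct Ξ v i * e) ≤ _ := h6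
        _ = _ := by ring
    exact le_of_mul_le_mul_right h2 (by positivity)

theorem count_lev (Ξ : Matrix κ κ ℂ) (hΞ : Ξᵀ = Ξ) (y : κ → ℂ) (Λ e : ℝ)
    (hk : 0 < Fintype.card κ) (hΛ : 1 ≤ Λ) (he : 0 < e) (q : ℕ)
    (hq : 2 * (Fintype.card κ : ℝ) ^ 3 * Λ ≤ 2 ^ q) (h m : ℕ) :
    (scL Ξ y Λ e h m).encard ≤ ((Fintype.card κ * (Fintype.card κ + 1) *
      (2 * (2 * q + 8 * m + 2 * h + 11))) ^ Fintype.card κ : ℕ) := by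
  have hk0 : (0 : ℝ) < Fintype.card κ := by exact_mod_cast hk
  have hk1 : (1 : ℝ) ≤ Fintype.card κ := by exact_mod_cast hk
  obtain ⟨N, hN⟩ : ∃ N : ℕ, N = 2 * q + 8 * m + 2 * h + 9 := ⟨_, rfl⟩
  obtain ⟨W, hW⟩ : ∃ W : ℝ, W = (Fintype.card κ : ℝ) * 16 ^ (m + 1) := ⟨_, rfl⟩
  obtain ⟨ν, hν⟩ : ∃ ν : ℝ, ν = nuh κ Λ h := ⟨_, rfl⟩
  have hnum : 2 * W ^ 2 ≤ 2 ^ N * ν ^ 2 := by
    rw [hN, hW, hν]
    exact E7b_num _ Λ hk0 hΛ q hq h m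
  have hW1 : 1 ≤ W := by
    rw [hW]
    have : (1 : ℝ) ≤ 16 ^ (m + 1) := one_le_pow₀ (by norm_num)
    nlinarith
  have hW0 : 0 < W := by linarith
  have hν0 : 0 < ν := by
    rw [hν, nuh]
    positivity
  have hb : 2 * (2 * q + 8 * m + 2 * h + 11) = 2 * (N + 2) := by omega
  rw [hb]
  refine count_le _
    (fun i => Finset.Icc (Int.log 2 (ν ^ 2 * e) - 1) (Int.log 2 (ν ^ 2 * e) + N) ∪
      Finset.Icc (Int.log 2 (‖y i‖ ^ 2 / (W ^ 2 * e)) - 1)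
        (Int.log 2 (‖y i‖ ^ 2 / (W ^ 2 * e)) + N))
    (fun i j z => Finset.Icc (Int.log 2 (‖Ξ i j‖ ^ 2 / (W ^ 2 * 2 ^ (z + 1))) - 1)
        (Int.log 2 (‖Ξ i j‖ ^ 2 / (W ^ 2 * 2 ^ (z + 1))) + N))
    (2 * (N + 2)) ?_ ?_ ?_
  · intro i
    refine (Finset.card_union_le _ _).trans ?_
    rw [E7b_card, E7b_card]
    omega
  · intro i j z
    rw [E7b_card]
    omega
  · intro l hl B hB
    obtain ⟨v, hv, hlev, hY, hsc⟩ := hl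
    obtain ⟨hbM, hby⟩ := E7b_bds Ξ y Λ e hk hΛ he m v hv hY
    rw [← hW] at hbM hby
    rw [← hν] at hlev
    have ht := ct_pos Ξ y Λ e v hv
    obtain ⟨i, hi, halt⟩ := hlev B hB
    refine ⟨i, hi, ?_⟩
    have hti := ht i
    rcases halt with h1 | h1 | ⟨j, hj, h1⟩
    · left
      refine Finset.mem_union_left _ (scale_mem _ (ct Ξ v i) N _ (by positivity) h1 ?_
        (hsc i).1 (hsc i).2)
      have h2 : ct Ξ v i ≤ e := ct_le Ξ y Λ e v hv i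
      have h3 : (1 : ℝ) ≤ 2 ^ N * ν ^ 2 := by nlinarith
      calc ct Ξ v i ≤ 1 * e := by rw [one_mul]; exact h2
        _ ≤ (2 ^ N * ν ^ 2) * e := mul_le_mul_of_nonneg_right h3 he.le
        _ = 2 ^ N * (ν ^ 2 * e) := by ring
    · left
      have hy0 : 0 < ‖y i‖ ^ 2 := lt_of_lt_of_le (by positivity) h1
      have hα : 0 < ‖y i‖ ^ 2 / (W ^ 2 * e) := by positivity
      refine Finset.mem_union_right _ (scale_mem _ (ct Ξ v i) N _ hα ?_ ?_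
        (hsc i).1 (hsc i).2)
      · rw [div_le_iff₀ (by positivity)]
        calc ‖y i‖ ^ 2 ≤ W ^ 2 * (ct Ξ v i * e) := hby i
          _ = _ := by ring
      · rw [mul_div_assoc', le_div_iff₀ (by positivity)]
        have h3 : W ^ 2 ≤ 2 ^ N * ν ^ 2 := by nlinarith [sq_nonneg W]
        calc ct Ξ v i * (W ^ 2 * e) = W ^ 2 * (ct Ξ v i * e) := by ring
          _ ≤ (2 ^ N * ν ^ 2) * (ct Ξ v i * e) :=
              mul_le_mul_of_nonneg_right h3 (by positivity)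
          _ = 2 ^ N * (ν ^ 2 * (ct Ξ v i * e)) := by ring
          _ ≤ 2 ^ N * ‖y i‖ ^ 2 := mul_le_mul_of_nonneg_left h1 (by positivity)
    · right
      refine ⟨j, hj, ?_⟩
      have hij : i ≠ j := fun hh => hj (hh ▸ hi)
      have htj := ht j
      have hΞ0 : 0 < ‖Ξ i j‖ ^ 2 := lt_of_lt_of_le (by positivity) h1
      have hz : (2 : ℝ) ^ (l j + 1) = 2 * 2 ^ l j := by
        rw [zpow_add₀ (by norm_num), zpow_one, mul_comm]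
      have hz0 : (0 : ℝ) < 2 ^ l j := by positivity
      have hα : 0 < ‖Ξ i j‖ ^ 2 / (W ^ 2 * 2 ^ (l j + 1)) := by positivity
      refine scale_mem _ (ct Ξ v i) N _ hα ?_ ?_ (hsc i).1 (hsc i).2
      · rw [div_le_iff₀ (by positivity)]
        have h2 := hbM i j
        rw [mt_off Ξ v i j hij] at h2
        calc ‖Ξ i j‖ ^ 2 ≤ W ^ 2 * (ct Ξ v i * ct Ξ v j) := h2
          _ ≤ W ^ 2 * (ct Ξ v i * 2 ^ (l j + 1)) :=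
              mul_le_mul_of_nonneg_left
                (mul_le_mul_of_nonneg_left (hsc j).2 hti.le) (by positivity)
          _ = _ := by ring
      · rw [mul_div_assoc', le_div_iff₀ (by positivity)]
        rw [hz]
        calc ct Ξ v i * (W ^ 2 * (2 * 2 ^ l j)) = (2 * W ^ 2) * (ct Ξ v i * 2 ^ l j) := by ring
          _ ≤ (2 ^ N * ν ^ 2) * (ct Ξ v i * 2 ^ l j) :=
              mul_le_mul_of_nonneg_right hnum (by positivity)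
          _ ≤ (2 ^ N * ν ^ 2) * (ct Ξ v i * ct Ξ v j) :=
              mul_le_mul_of_nonneg_left
                (mul_le_mul_of_nonneg_left (hsc j).1.le hti.le) (by positivity)
          _ = 2 ^ N * (ν ^ 2 * (ct Ξ v i * ct Ξ v j)) := by ring
          _ ≤ 2 ^ N * ‖Ξ i j‖ ^ 2 := mul_le_mul_of_nonneg_left h1 (by positivity)

end LL
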