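import Pool.Agent.Lib.MP_562b47_mp.LL.E2
import Pool.Agent.Lib.MP_562b47_mp.LL.E6
import Pool.Agent.Lib.MP_562b47_mp.LL.E7a
import Pool.Agent.Lib.MP_562b47_mp.LL.E7b

/-!
LL-E8 (core lemma).
-/

set_option autoImplicit false

namespace LL

open MeasureTheory Matrix Finset
open scoped ENNReal Nat

variable {κ : Type*} [Fintype κ] [DecidableEq κ]

theorem pow_bd (k m : ℕ) : (m + 1) ^ k ≤ (2 * k) ^ k * 2 ^ m := by
  have h1 : (m + 1) ^ k ≤ (m + 1).ascFactorial k := Nat.pow_succ_le_ascFactorial _ _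
  have h2 : (m + 1).ascFactorial k = k ! * (m + k).choose k := by
    have := Nat.ascFactorial_eq_factorial_mul_choose m k
    simpa using this
  have h3 : (m + k).choose k ≤ 2 ^ (m + k) := Nat.choose_le_two_pow _ _
  have h4 : k ! ≤ k ^ k := Nat.factorial_le_pow k
  calc (m + 1) ^ k ≤ k ! * (m + k).choose k := h2 ▸ h1
    _ ≤ k ^ k * 2 ^ (m + k) := Nat.mul_le_mul h4 h3
    _ = (2 * k) ^ k * 2 ^ m := by rw [mul_pow, pow_add]; ring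

theorem cC_one (Λ : ℝ) (hΛ : 1 ≤ Λ) : 1 ≤ cC κ Λ := by
  unfold cC
  have h1 : (1 : ℝ) ≤ ((Fintype.card κ)! : ℝ) := by
    exact_mod_cast Nat.one_le_iff_ne_zero.mpr (Nat.factorial_ne_zero _)
  exact one_le_mul_of_one_le_of_one_le h1 (one_le_pow₀ hΛ)

/-- the majorant at scale `l` -/
noncomputable def Ph (Ξ : Matrix κ κ ℂ) (Λ : ℝ) (l : κ → ℤ) (v : κ → ℝ) : ℝ≥0∞ :=
  ENNReal.ofReal (cC κ Λ * ∏ i, ((2 : ℝ) ^ l i) ^ (-(1 / (4 * (Fintype.card κ : ℝ))))) *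
    ((∏ i, om1 (1 / (4 * (Fintype.card κ : ℝ))) ((2 : ℝ) ^ (l i + 1)) (v i + (Ξ i i).re)) *
      ‖(mt Ξ (cc v)).det‖ₑ ^ (1 / (4 * (Fintype.card κ : ℝ)) - 1))

theorem om1_meas (θ τ : ℝ) : Measurable (om1 θ τ) := by
  unfold om1
  fun_prop

theorem mt_det_cont (Ξ : Matrix κ κ ℂ) : Continuous fun v : κ → ℝ => (mt Ξ (cc v)).det := by
  apply Continuous.matrix_det
  unfold mt cc
  fun_prop

theorem Ph_meas (Ξ : Matrix κ κ ℂ) (Λ : ℝ) (l : κ → ℤ) : Measurable (Ph Ξ Λ l) := by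
  unfold Ph
  have h1 := (mt_det_cont Ξ).measurable
  have h2 : ∀ i, Measurable fun v : κ → ℝ =>
      om1 (1 / (4 * (Fintype.card κ : ℝ))) ((2 : ℝ) ^ (l i + 1)) (v i + (Ξ i i).re) := fun i =>
    (om1_meas _ _).comp (by fun_prop)
  have h3 : Measurable fun v : κ → ℝ => ∏ i, om1 (1 / (4 * (Fintype.card κ : ℝ)))
      ((2 : ℝ) ^ (l i + 1)) (v i + (Ξ i i).re) := Finset.measurable_prod _ fun i _ => h2 i
  exact (h3.mul (h1.enorm.pow_const _)).const_mul _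

theorem Ph_int (Ξ : Matrix κ κ ℂ) (Λ : ℝ) (hk : 0 < Fintype.card κ) (hΛ : 1 ≤ Λ) (l : κ → ℤ) :
    ∫⁻ v, Ph Ξ Λ l v ≤
      ENNReal.ofReal (cC κ Λ * (64 * (Fintype.card κ : ℝ)) ^ Fintype.card κ) := by
  have hk' : (1 : ℝ) ≤ Fintype.card κ := by exact_mod_cast hk
  have hC := cC_one (κ := κ) Λ hΛ
  set k : ℝ := (Fintype.card κ : ℝ) with hkdef
  set θ : ℝ := 1 / (4 * k) with hθ
  have h0 : 0 < θ := by positivity
  have h1 : θ < 1 := by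
    rw [hθ, div_lt_one (by positivity)]; linarith
  have hm : Measurable fun v : κ → ℝ => (∏ i, om1 θ ((2 : ℝ) ^ (l i + 1)) (v i + (Ξ i i).re)) *
      ‖(mt Ξ (cc v)).det‖ₑ ^ (θ - 1) := by
    have h1 := (mt_det_cont Ξ).measurable
    have h3 : Measurable fun v : κ → ℝ => ∏ i, om1 θ
        ((2 : ℝ) ^ (l i + 1)) (v i + (Ξ i i).re) :=
      Finset.measurable_prod _ fun i _ => (om1_meas _ _).comp (by fun_prop)
    exact h3.mul (h1.enorm.pow_const _)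
  unfold Ph
  rw [lintegral_const_mul _ hm]
  refine (mul_le_mul_right (int_det Ξ θ h0 h1 (fun i => (2 : ℝ) ^ (l i + 1))
    (fun i => by positivity)) _).trans ?_
  rw [← ENNReal.ofReal_prod_of_nonneg (fun i _ => by positivity),
    ← ENNReal.ofReal_mul (by positivity)]
  apply ENNReal.ofReal_le_ofReal
  rw [mul_assoc, ← Finset.prod_mul_distrib]
  refine mul_le_mul_of_nonneg_left ?_ (by linarith)
  have : ∀ i ∈ (univ : Finset κ), ((2 : ℝ) ^ l i) ^ (-θ) * (8 / θ * ((2 : ℝ) ^ (l i + 1)) ^ θ) ≤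
      64 * k := by
    intro i _
    have e1 : ((2 : ℝ) ^ (l i + 1)) ^ θ = ((2 : ℝ) ^ l i) ^ θ * 2 ^ θ := by
      rw [zpow_add_one₀ (by norm_num), Real.mul_rpow (by positivity) (by norm_num)]
    have e2 : ((2 : ℝ) ^ l i) ^ (-θ) * ((2 : ℝ) ^ l i) ^ θ = 1 := by
      rw [← Real.rpow_add (by positivity)]; simp
    have e3 : (2 : ℝ) ^ θ ≤ 2 := by
      calc (2 : ℝ) ^ θ ≤ (2 : ℝ) ^ (1 : ℝ) :=
            Real.rpow_le_rpow_of_exponent_le (by norm_num) h1.le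
        _ = 2 := by simp
    have e4 : 8 / θ = 32 * k := by rw [hθ]; field_simp; ring
    rw [e1, e4]
    calc ((2 : ℝ) ^ l i) ^ (-θ) * (32 * k * (((2 : ℝ) ^ l i) ^ θ * 2 ^ θ))
        = (((2 : ℝ) ^ l i) ^ (-θ) * ((2 : ℝ) ^ l i) ^ θ) * (32 * k) * 2 ^ θ := by ring
      _ = 32 * k * 2 ^ θ := by rw [e2]; ring
      _ ≤ 32 * k * 2 := by gcongr
      _ = 64 * k := by ring
  calc ∏ i, ((2 : ℝ) ^ l i) ^ (-θ) * (8 / θ * ((2 : ℝ) ^ (l i + 1)) ^ θ)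
      ≤ ∏ _i : κ, 64 * k := Finset.prod_le_prod (fun i _ => by positivity) this
    _ = (64 * k) ^ Fintype.card κ := by simp

theorem cover (Ξ : Matrix κ κ ℂ) (hΞ : Ξᵀ = Ξ) (y : κ → ℂ) (Λ e : ℝ) (hk : 0 < Fintype.card κ)
    (hΛ : 1 ≤ Λ) (he : 0 < e) (v : κ → ℝ) (hv : v ∈ cS Ξ y Λ e) :
    ∃ h m : ℕ, ∃ l ∈ scL Ξ y Λ e h m, ENNReal.ofReal (cF Ξ y v) ≤
      ENNReal.ofReal (4 * (1 / 4) ^ h * e ^ Fintype.card κ * (cC κ Λ * (1 / 4) ^ m)) *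
        Ph Ξ Λ l v := by
  have hk' : (1 : ℝ) ≤ Fintype.card κ := by exact_mod_cast hk
  have hC := cC_one (κ := κ) Λ hΛ
  obtain ⟨h, hlev, hprod⟩ := level Ξ hΞ y Λ e hk hΛ he v hv
  have hdet := cS_det Ξ y Λ e hk v hv
  have ht : ∀ i, 0 < ct Ξ v i := ct_pos Ξ y Λ e v hv
  have hp : 0 < ‖(mt Ξ (cc v)).det‖ := norm_pos_iff.mpr hdet
  have hGp : ‖(cG Ξ v).det‖ = ‖(mt Ξ (cc v)).det‖⁻¹ := by rw [det_cG, norm_inv]
  have hY0 : 0 < cY Ξ v := by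
    unfold cY
    rw [hGp]
    exact mul_pos (by positivity) (Finset.prod_pos fun i _ => ht i)
  have hYC : cY Ξ v ≤ cC κ Λ := hat_det (cG Ξ v) (ct Ξ v) Λ hΛ ht (cG_ct Ξ y Λ e v hv)
  obtain ⟨m, hm1, hm2⟩ := exists_nat_pow_near_of_lt_one (x := cY Ξ v / cC κ Λ) (y := 1 / 16)
    (by positivity) ((div_le_one (by positivity)).mpr hYC) (by norm_num) (by norm_num)
  rw [lt_div_iff₀ (by positivity)] at hm1
  rw [div_le_iff₀ (by positivity)] at hm2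
  have hl : ∀ i, ∃ n : ℤ, (2 : ℝ) ^ n < ct Ξ v i ∧ ct Ξ v i ≤ (2 : ℝ) ^ (n + 1) := fun i => by
    obtain ⟨n, hn⟩ := exists_mem_Ioc_zpow (ht i) (one_lt_two)
    exact ⟨n, hn.1, hn.2⟩
  choose l hl1 hl2 using hl
  refine ⟨h, m, l, ⟨v, hv, hlev, ?_, fun i => ⟨hl1 i, hl2 i⟩⟩, ?_⟩
  · rw [mul_comm]; exact hm1
  set θ : ℝ := 1 / (4 * (Fintype.card κ : ℝ)) with hθ
  have hpt := pt_bound_E θ ‖(mt Ξ (cc v)).det‖ (cC κ Λ) hk hθ hp hC (ct Ξ v)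
    (fun i => (2 : ℝ) ^ (l i + 1)) (fun i => v i + (Ξ i i).re) ht hl2
    (fun i => by
      have : (2 : ℝ) ^ (l i + 1) / 2 = 2 ^ l i := by
        rw [zpow_add_one₀ (by norm_num)]; ring
      simp only [this]
      exact (hl1 i).le)
    (by rw [← hGp]; exact hYC)
    (fun i => by
      rw [← hGp]
      have h1 := hat_M (cG Ξ v) (mt Ξ (cc v)) (cG_mul Ξ v hdet) (ct Ξ v) Λ hΛ ht
        (cG_ct Ξ y Λ e v hv) i i
      have h2 : ‖mt Ξ (cc v) i i‖ * cY Ξ v ≤ cC κ Λ * ct Ξ v i := by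
        refine le_of_sq_le_sq ?_ (mul_nonneg (by linarith) (ht i).le)
        calc (‖mt Ξ (cc v) i i‖ * cY Ξ v) ^ 2 = ‖mt Ξ (cc v) i i‖ ^ 2 * cY Ξ v ^ 2 := by ring
          _ ≤ cC κ Λ ^ 2 * (ct Ξ v i * ct Ξ v i) := h1
          _ = (cC κ Λ * ct Ξ v i) ^ 2 := by ring
      exact (mul_le_mul_of_nonneg_right (re_le Ξ v i) hY0.le).trans h2)
  have hYY : ‖(mt Ξ (cc v)).det‖⁻¹ * ∏ i, ct Ξ v i = cY Ξ v := by rw [← hGp]; rfl
  rw [hYY] at hpt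
  have hsq : cY Ξ v ^ (1 / 2 : ℝ) ≤ cC κ Λ * (1 / 4) ^ m := by
    rw [← Real.sqrt_eq_rpow]
    apply Real.sqrt_le_iff.mpr
    refine ⟨by positivity, hm2.trans ?_⟩
    have : (cC κ Λ * (1 / 4) ^ m) ^ 2 = (1 / 16) ^ m * (cC κ Λ * cC κ Λ) := by
      have : ((1 / 4 : ℝ) ^ m) ^ 2 = (1 / 16) ^ m := by
        rw [← pow_mul, mul_comm, pow_mul]; norm_num
      rw [mul_pow, this]; ring
    rw [this]
    refine mul_le_mul_of_nonneg_left ?_ (by positivity)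
    exact le_mul_of_one_le_right (by linarith) hC
  have hsplit : cY Ξ v = cY Ξ v ^ (1 / 2 : ℝ) * cY Ξ v ^ (1 / 2 : ℝ) := by
    rw [← Real.rpow_add hY0]; norm_num
  have hF : cF Ξ y v ≤ (4 * (1 / 4) ^ h * e ^ Fintype.card κ * (cC κ Λ * (1 / 4) ^ m)) *
      (‖(mt Ξ (cc v)).det‖⁻¹ * cY Ξ v ^ (1 / 2 : ℝ)) := by
    rw [cF_eq, hGp]
    nth_rewrite 1 [hsplit]
    have hprod0 : 0 ≤ ∏ i, (max 1 (‖cu Ξ y v i‖ ^ 2) * ct Ξ v i) :=
      Finset.prod_nonneg fun i _ => mul_nonneg (le_max_of_le_left zero_le_one) (ht i).le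
    calc ‖(mt Ξ (cc v)).det‖⁻¹ * (cY Ξ v ^ (1 / 2 : ℝ) * cY Ξ v ^ (1 / 2 : ℝ)) *
          ∏ i, (max 1 (‖cu Ξ y v i‖ ^ 2) * ct Ξ v i)
        = (‖(mt Ξ (cc v)).det‖⁻¹ * cY Ξ v ^ (1 / 2 : ℝ)) * (cY Ξ v ^ (1 / 2 : ℝ) *
          ∏ i, (max 1 (‖cu Ξ y v i‖ ^ 2) * ct Ξ v i)) := by ring
      _ ≤ (‖(mt Ξ (cc v)).det‖⁻¹ * cY Ξ v ^ (1 / 2 : ℝ)) * ((cC κ Λ * (1 / 4) ^ m) *
          (4 * (1 / 4) ^ h * e ^ Fintype.card κ)) := by
          refine mul_le_mul_of_nonneg_left ?_ (by positivity)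
          exact mul_le_mul hsq hprod hprod0 (by positivity)
      _ = _ := by ring
  refine (ENNReal.ofReal_le_ofReal hF).trans ?_
  rw [ENNReal.ofReal_mul (by positivity)]
  refine mul_le_mul_right ?_ _
  refine (ENNReal.ofReal_le_ofReal hpt).trans (le_of_eq ?_)
  unfold Ph om1
  have e1 : ∀ i, ((2 : ℝ) ^ (l i + 1) / 2) = 2 ^ l i := fun i => by
    rw [zpow_add_one₀ (by norm_num)]; ring
  have hen : ‖(mt Ξ (cc v)).det‖ₑ ^ (θ - 1) =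
      ENNReal.ofReal (‖(mt Ξ (cc v)).det‖ ^ (θ - 1)) := by
    rw [← ENNReal.ofReal_rpow_of_pos hp, ofReal_norm]
  simp only [← hθ]
  rw [hen, ← ENNReal.ofReal_prod_of_nonneg (fun i _ => by positivity),
    ← ENNReal.ofReal_mul (Finset.prod_nonneg fun i _ => by positivity),
    ← ENNReal.ofReal_mul (by positivity)]
  congr 1
  simp only [e1]
  rw [Finset.prod_mul_distrib]
  ring

/-- the constant -/
theorem const_bd (k : ℕ) (hk : 0 < k) (Λ e : ℝ) (hΛ : 1 ≤ Λ) (he : 0 < e) (q : ℕ)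
    (hq : (q : ℝ) ≤ 2 * k ^ 3 * Λ + 1) :
    4 * (4 * e ^ k * ((k ! : ℝ) * Λ ^ k) * (((k ! : ℝ) * Λ ^ k) * (64 * k) ^ k) *
      ((k * (k + 1) * (2 * (2 * q + 11))) ^ k * ((2 * k) ^ k * (2 * k) ^ k))) ≤
      (((k + 1 : ℕ) : ℝ) ^ 28 * Λ ^ 3 * e) ^ k := by
  have hk' : (1 : ℝ) ≤ k := by exact_mod_cast hk
  have hkf : (k ! : ℝ) ≤ (k : ℝ) ^ k := by exact_mod_cast Nat.factorial_le_pow k
  have hq2 : 2 * (q : ℝ) + 11 ≤ 17 * k ^ 3 * Λ := by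
    have : 1 ≤ (k : ℝ) ^ 3 * Λ := one_le_mul_of_one_le_of_one_le (one_le_pow₀ hk') hΛ
    nlinarith
  have h16 : (16 : ℝ) ≤ 16 ^ k := by
    calc (16 : ℝ) = 16 ^ 1 := by norm_num
      _ ≤ 16 ^ k := pow_le_pow_right₀ (by norm_num) hk
  calc 4 * (4 * e ^ k * ((k ! : ℝ) * Λ ^ k) * (((k ! : ℝ) * Λ ^ k) * (64 * k) ^ k) *
      ((k * (k + 1) * (2 * (2 * q + 11))) ^ k * ((2 * k) ^ k * (2 * k) ^ k)))
      ≤ 4 * (4 * e ^ k * ((k : ℝ) ^ k * Λ ^ k) * (((k : ℝ) ^ k * Λ ^ k) * (64 * k) ^ k) *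
      ((k * (k + 1) * (2 * (17 * k ^ 3 * Λ))) ^ k * ((2 * k) ^ k * (2 * k) ^ k))) := by
        gcongr
    _ = 16 * (8704 * (k : ℝ) ^ 9 * (k + 1) * Λ ^ 3 * e) ^ k := by
        have : (8704 * (k : ℝ) ^ 9 * (k + 1) * Λ ^ 3 * e) ^ k =
          e ^ k * ((k : ℝ) ^ k * Λ ^ k) * (((k : ℝ) ^ k * Λ ^ k) * (64 * k) ^ k) *
          ((k * (k + 1) * (2 * (17 * k ^ 3 * Λ))) ^ k * ((2 * k) ^ k * (2 * k) ^ k)) := by
            simp only [← mul_pow]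
            congr 1
            ring
        rw [this]; ring
    _ ≤ 16 ^ k * (8704 * (k : ℝ) ^ 9 * (k + 1) * Λ ^ 3 * e) ^ k := by gcongr
    _ = (139264 * (k : ℝ) ^ 9 * (k + 1) * Λ ^ 3 * e) ^ k := by
        rw [← mul_pow]; congr 1; ring
    _ ≤ (((k + 1 : ℕ) : ℝ) ^ 28 * Λ ^ 3 * e) ^ k := by
        push_cast
        gcongr
        have h2 : (2 : ℝ) ≤ (k : ℝ) + 1 := by linarith
        calc 139264 * (k : ℝ) ^ 9 * ((k : ℝ) + 1) ≤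
              (2 : ℝ) ^ 18 * ((k : ℝ) + 1) ^ 9 * ((k : ℝ) + 1) := by
              gcongr
              · norm_num
              · linarith
          _ ≤ ((k : ℝ) + 1) ^ 18 * ((k : ℝ) + 1) ^ 9 * ((k : ℝ) + 1) := by gcongr
          _ = ((k : ℝ) + 1) ^ 28 := by ring

theorem core (Ξ : Matrix κ κ ℂ) (hΞ : Ξᵀ = Ξ) (y : κ → ℂ) (Λ e : ℝ) (hΛ : 1 ≤ Λ)
    (he : 0 < e) :
    ∫⁻ v in cS Ξ y Λ e, ENNReal.ofReal (cF Ξ y v) ≤
      ENNReal.ofReal ((((Fintype.card κ + 1 : ℕ) : ℝ) ^ 28 * Λ ^ 3 * e) ^ Fintype.card κ) := by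
  rcases Nat.eq_zero_or_pos (Fintype.card κ) with hk0 | hk
  · have hem : IsEmpty κ := Fintype.card_eq_zero_iff.mp hk0
    rw [hk0]
    calc ∫⁻ v in cS Ξ y Λ e, ENNReal.ofReal (cF Ξ y v) ≤
          ∫⁻ v : κ → ℝ, ENNReal.ofReal (cF Ξ y v) := setLIntegral_le_lintegral _ _
      _ = ∫⁻ v : κ → ℝ, 1 := by
          congr 1; ext v
          simp [cF, cG]
      _ = 1 := by
          simp [volume_pi]
      _ ≤ _ := by simp
  have hk' : (1 : ℝ) ≤ Fintype.card κ := by exact_mod_cast hk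
  have hC := cC_one (κ := κ) Λ hΛ
  set k := Fintype.card κ with hkdef
  set q : ℕ := ⌈2 * (k : ℝ) ^ 3 * Λ⌉₊ with hq
  have hq1 : 2 * (k : ℝ) ^ 3 * Λ ≤ 2 ^ q := by
    calc 2 * (k : ℝ) ^ 3 * Λ ≤ q := Nat.le_ceil _
      _ ≤ 2 ^ q := by exact_mod_cast Nat.lt_two_pow_self.le
  have hq2 : (q : ℝ) ≤ 2 * (k : ℝ) ^ 3 * Λ + 1 := (Nat.ceil_lt_add_one (by positivity)).le
  let A : ℕ × ℕ → ℝ≥0∞ := fun hm =>
    ENNReal.ofReal (4 * (1 / 4) ^ hm.1 * e ^ k * (cC κ Λ * (1 / 4) ^ hm.2))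
  let T : ℕ × ℕ → (κ → ℝ) → ℝ≥0∞ := fun hm v =>
    A hm * ∑' l : scL Ξ y Λ e hm.1 hm.2, Ph Ξ Λ l.1 v
  have hTm : ∀ hm, Measurable (T hm) := fun hm => by
    apply Measurable.const_mul
    exact Measurable.tsum fun l => Ph_meas Ξ Λ l.1
  have hpt : ∀ v ∈ cS Ξ y Λ e, ENNReal.ofReal (cF Ξ y v) ≤ ∑' hm, T hm v := by
    intro v hv
    obtain ⟨h, m, l, hl, hle⟩ := cover Ξ hΞ y Λ e hk hΛ he v hv
    refine hle.trans (le_trans ?_ (ENNReal.le_tsum (h, m)))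
    show _ ≤ A (h, m) * _
    refine mul_le_mul_right ?_ _
    exact ENNReal.le_tsum (f := fun l : scL Ξ y Λ e h m => Ph Ξ Λ l.1 v) ⟨l, hl⟩
  have h1 : ∫⁻ v in cS Ξ y Λ e, ENNReal.ofReal (cF Ξ y v) ≤ ∫⁻ v, ∑' hm, T hm v :=
    (setLIntegral_mono (Measurable.tsum hTm) hpt).trans (setLIntegral_le_lintegral _ _)
  rw [lintegral_tsum fun hm => (hTm hm).aemeasurable] at h1
  set B : ℝ := cC κ Λ * (64 * (k : ℝ)) ^ k with hB
  set E : ℝ := 4 * e ^ k * cC κ Λ * B *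
    ((k * (k + 1) * (2 * (2 * q + 11))) ^ k * ((2 * k) ^ k * (2 * k) ^ k)) with hE
  have h2 : ∀ hm, ∫⁻ v, T hm v ≤ ENNReal.ofReal E *
      ((1 / 2 : ℝ≥0∞) ^ hm.1 * (1 / 2 : ℝ≥0∞) ^ hm.2) := by
    rintro ⟨h, m⟩
    have hm' : Measurable fun v => ∑' l : scL Ξ y Λ e h m, Ph Ξ Λ l.1 v :=
      Measurable.tsum fun l => Ph_meas Ξ Λ l.1
    show ∫⁻ v, A (h, m) * ∑' l : scL Ξ y Λ e h m, Ph Ξ Λ l.1 v ≤ _
    rw [lintegral_const_mul _ hm']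
    have hts : ∫⁻ v, ∑' l : scL Ξ y Λ e h m, Ph Ξ Λ l.1 v =
        ∑' l : scL Ξ y Λ e h m, ∫⁻ v, Ph Ξ Λ l.1 v :=
      lintegral_tsum (μ := volume) (f := fun (l : scL Ξ y Λ e h m) v => Ph Ξ Λ l.1 v)
        fun l => (Ph_meas Ξ Λ l.1).aemeasurable
    rw [hts]
    have hc : ∑' l : scL Ξ y Λ e h m, ∫⁻ v, Ph Ξ Λ l.1 v ≤
        (((k * (k + 1) * (2 * (2 * q + 8 * m + 2 * h + 11))) ^ k : ℕ) : ℝ≥0∞) *
          ENNReal.ofReal B := by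
      calc ∑' l : scL Ξ y Λ e h m, ∫⁻ v, Ph Ξ Λ l.1 v
          ≤ ∑' _l : scL Ξ y Λ e h m, ENNReal.ofReal B :=
            ENNReal.tsum_le_tsum fun l => Ph_int Ξ Λ hk hΛ l.1
        _ = ((scL Ξ y Λ e h m).encard : ℝ≥0∞) * ENNReal.ofReal B := ENNReal.tsum_set_const _ _
        _ ≤ _ := by
          refine mul_le_mul_left ?_ _
          have := count_lev Ξ hΞ y Λ e hk hΛ he q hq1 h m
          exact_mod_cast this
    refine (mul_le_mul_right hc _).trans ?_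
    have hN : (k * (k + 1) * (2 * (2 * q + 8 * m + 2 * h + 11))) ^ k ≤
        (k * (k + 1) * (2 * (2 * q + 11))) ^ k * ((2 * k) ^ k * (2 * k) ^ k) *
          (2 ^ h * 2 ^ m) := by
      calc (k * (k + 1) * (2 * (2 * q + 8 * m + 2 * h + 11))) ^ k
          ≤ (k * (k + 1) * (2 * ((2 * q + 11) * ((h + 1) * (m + 1))))) ^ k := by
            gcongr
            nlinarith [Nat.zero_le (q * m), Nat.zero_le (q * h), Nat.zero_le (h * m),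
              Nat.zero_le (q * (h * m))]
        _ = (k * (k + 1) * (2 * (2 * q + 11))) ^ k * ((h + 1) ^ k * (m + 1) ^ k) := by
            simp only [← mul_pow]; congr 1; ring
        _ ≤ (k * (k + 1) * (2 * (2 * q + 11))) ^ k *
            (((2 * k) ^ k * 2 ^ h) * ((2 * k) ^ k * 2 ^ m)) := by
            gcongr
            · exact pow_bd k h
            · exact pow_bd k m
        _ = _ := by ring
    have hN' : (((k * (k + 1) * (2 * (2 * q + 8 * m + 2 * h + 11))) ^ k : ℕ) : ℝ≥0∞) ≤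
        ENNReal.ofReal (((k * (k + 1) * (2 * (2 * q + 11))) ^ k * ((2 * k) ^ k * (2 * k) ^ k) *
          (2 ^ h * 2 ^ m) : ℕ) : ℝ) := by
      rw [ENNReal.ofReal_natCast]
      exact_mod_cast hN
    have hh : ∀ n : ℕ, (1 / 2 : ℝ≥0∞) ^ n = ENNReal.ofReal ((1 / 2) ^ n) := fun n => by
      rw [ENNReal.ofReal_pow (by norm_num)]
      congr 1
      rw [ENNReal.ofReal_div_of_pos (by norm_num)]
      simp
    calc A (h, m) * ((((k * (k + 1) * (2 * (2 * q + 8 * m + 2 * h + 11))) ^ k : ℕ) : ℝ≥0∞) *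
          ENNReal.ofReal B)
        ≤ ENNReal.ofReal (4 * (1 / 4) ^ h * e ^ k * (cC κ Λ * (1 / 4) ^ m)) *
          (ENNReal.ofReal (((k * (k + 1) * (2 * (2 * q + 11))) ^ k *
            ((2 * k) ^ k * (2 * k) ^ k) * (2 ^ h * 2 ^ m) : ℕ) : ℝ) * ENNReal.ofReal B) := by
          gcongr
      _ = ENNReal.ofReal E * ((1 / 2 : ℝ≥0∞) ^ h * (1 / 2 : ℝ≥0∞) ^ m) := by
          rw [hh, hh, ← ENNReal.ofReal_mul (by positivity), ← ENNReal.ofReal_mul (by positivity),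
            ← ENNReal.ofReal_mul (by positivity), ← ENNReal.ofReal_mul (by positivity)]
          congr 1
          rw [hE]
          push_cast
          have e4 : ∀ n : ℕ, (1 / 4 : ℝ) ^ n * 2 ^ n = (1 / 2) ^ n := fun n => by
            rw [← mul_pow]; norm_num
          rw [← e4 h, ← e4 m]
          ring
  have h3 : ∑' hm : ℕ × ℕ, ((1 / 2 : ℝ≥0∞) ^ hm.1 * (1 / 2 : ℝ≥0∞) ^ hm.2) = 4 := by
    rw [ENNReal.tsum_prod (f := fun a b : ℕ => (1 / 2 : ℝ≥0∞) ^ a * (1 / 2 : ℝ≥0∞) ^ b)]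
    simp only [ENNReal.tsum_mul_left, ENNReal.tsum_mul_right]
    rw [ENNReal.tsum_geometric]
    have : (1 - 1 / 2 : ℝ≥0∞)⁻¹ = 2 := by
      rw [one_div, ENNReal.one_sub_inv_two, inv_inv]
    rw [this]; norm_num
  calc ∫⁻ v in cS Ξ y Λ e, ENNReal.ofReal (cF Ξ y v) ≤ ∑' hm, ∫⁻ v, T hm v := h1
    _ ≤ ∑' hm : ℕ × ℕ, ENNReal.ofReal E * ((1 / 2 : ℝ≥0∞) ^ hm.1 * (1 / 2 : ℝ≥0∞) ^ hm.2) :=
        ENNReal.tsum_le_tsum h2
    _ = ENNReal.ofReal E * 4 := by rw [ENNReal.tsum_mul_left, h3]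
    _ = ENNReal.ofReal (4 * E) := by
        rw [mul_comm, ENNReal.ofReal_mul (p := 4) (q := E) (by norm_num)]
        congr 1; norm_num
    _ ≤ _ := by
        apply ENNReal.ofReal_le_ofReal
        have := const_bd k hk Λ e hΛ he q hq2
        simpa [hE, hB, cC, ← hkdef] using this

end LL
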