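import Pool.Agent.Lib.MP_562b47_mp.LL.EDefs2

/-!
LL-E9 (principal minors, supremum of `Δ` on the fibre).

PROOF of `det_one_add_le`: `det (1 + A * diagonal h) = det (1 + diagonal h * A)`
(`Matrix.det_one_add_mul_comm`); the row `i` of `1 + diagonal h * A` is `h i • A i + e_i`;
multilinearity in the rows (`Matrix.detRowAlternating`, `MultilinearMap.map_add_univ`,
`MultilinearMap.map_piecewise_smul`) gives `∑_s (∏_{i ∈ s} h i) det (s.piecewise A 1)`, and
`Matrix.det_piecewise_one_eq_submatrix_det` (Mathlib, `LinearAlgebra/Matrix/Charpoly/Coeff`) is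
`det (s.piecewise A 1) = det A_ss`. Terms with `s ⊄ I` vanish (some `h i = 0`), and
`‖∏_{i ∈ s} h i‖ ≤ 2 ^ |s|`.
(Model: `Matrix.coeff_det_one_add_X_smul_eq...` in the same Mathlib file.)

PROOF of `De_sup`: `De_eq_det`, `M' W = M' V + diagonal h`, `h i = W i - V i`,
`M' V + diagonal h = M' V * (1 + G V * diagonal h)` (`G_mul`), `Matrix.det_mul`, `det_one_add_le`.
-/

set_option autoImplicit false

namespace LL

open MeasureTheory Matrix Finset
open scoped ENNReal Nat

variable {ι : Type*} [Fintype ι] [DecidableEq ι]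

private theorem det_one_add_expand (A : Matrix ι ι ℂ) (h : ι → ℂ) :
    (1 + A * Matrix.diagonal h).det = ∑ s : Finset ι, (∏ i ∈ s, h i) *
      (A.submatrix (fun i : {i // i ∈ s} => i.1) (fun i : {i // i ∈ s} => i.1)).det := by
  rw [Matrix.det_one_add_mul_comm]
  have h1 : (1 + Matrix.diagonal h * A).det =
      (detRowAlternating : (ι → ℂ) [⋀^ι]→ₗ[ℂ] ℂ)
        ((fun i => h i • A i) + (fun i => (1 : Matrix ι ι ℂ) i)) := by
    have h2 : ((fun i => h i • A i) + (fun i => (1 : Matrix ι ι ℂ) i) : ι → ι → ℂ) =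
        (1 + Matrix.diagonal h * A : Matrix ι ι ℂ) := by
      funext i j
      show h i * A i j + (1 : Matrix ι ι ℂ) i j = (1 + Matrix.diagonal h * A) i j
      rw [Matrix.add_apply, Matrix.diagonal_mul]
      ring
    rw [h2]
    rfl
  rw [h1, AlternatingMap.map_add_univ]
  refine Finset.sum_congr rfl fun s _ => ?_
  have h3 : s.piecewise (fun i => h i • A i) (fun i => (1 : Matrix ι ι ℂ) i) =
      fun i => (if i ∈ s then h i else 1) •
        s.piecewise (fun i => A i) (fun i => (1 : Matrix ι ι ℂ) i) i := by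
    funext i j
    simp only [Finset.piecewise, Pi.smul_apply, smul_eq_mul]
    split_ifs
    · rfl
    · rw [one_mul]
  rw [h3, AlternatingMap.map_smul_univ, Finset.prod_ite_mem, Finset.univ_inter, smul_eq_mul]
  congr 1
  exact Matrix.det_piecewise_one_eq_submatrix_det A s

theorem det_one_add_le (A : Matrix ι ι ℂ) (h : ι → ℂ) (I : Finset ι) (hI : ∀ i, i ∉ I → h i = 0)
    (h2 : ∀ i, ‖h i‖ ≤ 2) :
    ‖(1 + A * Matrix.diagonal h).det‖ ≤ ∑ J ∈ I.powerset, 2 ^ J.card *
      ‖(A.submatrix (fun i : {i // i ∈ J} => i.1) (fun i : {i // i ∈ J} => i.1)).det‖ := by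
  rw [det_one_add_expand]
  have h3 : ∑ s : Finset ι, (∏ i ∈ s, h i) *
      (A.submatrix (fun i : {i // i ∈ s} => i.1) (fun i : {i // i ∈ s} => i.1)).det =
      ∑ s ∈ I.powerset, (∏ i ∈ s, h i) *
      (A.submatrix (fun i : {i // i ∈ s} => i.1) (fun i : {i // i ∈ s} => i.1)).det := by
    symm
    refine Finset.sum_subset (Finset.subset_univ _) fun s _ hs => ?_
    rw [Finset.mem_powerset, Finset.not_subset] at hs
    obtain ⟨i, his, hiI⟩ := hs
    rw [Finset.prod_eq_zero his (hI i hiI), zero_mul]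
  rw [h3]
  refine (norm_sum_le _ _).trans (Finset.sum_le_sum fun s _ => ?_)
  rw [norm_mul]
  refine mul_le_mul_of_nonneg_right ?_ (norm_nonneg _)
  rw [norm_prod]
  refine (Finset.prod_le_prod (fun i _ => norm_nonneg _) fun i _ => h2 i).trans (le_of_eq ?_)
  rw [Finset.prod_const]

namespace Dat

variable (D : Dat ι)

theorem De_sup (I : Finset ι) (V W : ι → ℝ) (h : ∀ i, i ∉ I → V i = W i)
    (h2 : ∀ i, |W i - V i| ≤ 2) :
    ‖D.De (cc W)‖ ≤ ‖D.De (cc V)‖ * ∑ J ∈ I.powerset, 2 ^ J.card * ‖(D.GJ J V).det‖ := by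
  have h3 : D.M' W = D.M' V * (1 + D.G V * Matrix.diagonal (fun i => ((W i - V i : ℝ) : ℂ))) := by
    rw [Matrix.mul_add, Matrix.mul_one, ← Matrix.mul_assoc, (D.G_mul V).2, Matrix.one_mul]
    unfold M' mt
    have h4 : (Matrix.diagonal (cc W) : Matrix ι ι ℂ) =
        Matrix.diagonal (cc V) + Matrix.diagonal (fun i => ((W i - V i : ℝ) : ℂ)) := by
      rw [Matrix.diagonal_add]
      congr 1
      funext i
      unfold cc
      push_cast
      ring
    rw [h4]
    abel
  rw [D.De_eq_det W, D.De_eq_det V, h3, Matrix.det_mul, norm_mul]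
  refine mul_le_mul_of_nonneg_left ?_ (norm_nonneg _)
  refine det_one_add_le (D.G V) (fun i => ((W i - V i : ℝ) : ℂ)) I (fun i hi => ?_) fun i => ?_
  · rw [h i hi]
    simp
  · rw [Complex.norm_real, Real.norm_eq_abs]
    exact h2 i

end Dat

end LL
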