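import Pool.Agent.Lib.MP_562b47_mp.LL.Defs

/-!
Step E of lemma (L'), without `η` (helper89): definitions for the core lemma.

`κ` finite, `k = card κ`, `Ξ` symmetric, `M = v + Ξ`, `G = M⁻¹`, `u = G y`, `t_i = 1 / |G_ii|`,
`Y = |det G| ∏ t_i`, `a_i = max(1, |u_i|²) t_i`, `C_k = k! Λ^k`.
-/

set_option autoImplicit false

namespace LL

open MeasureTheory Matrix Finset
open scoped ENNReal Nat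

variable {κ : Type*} [Fintype κ] [DecidableEq κ]

/-- resolvent `(v + Ξ)⁻¹` -/
noncomputable def cG (Ξ : Matrix κ κ ℂ) (v : κ → ℝ) : Matrix κ κ ℂ := (mt Ξ (cc v))⁻¹

/-- `u = G y` -/
noncomputable def cu (Ξ : Matrix κ κ ℂ) (y : κ → ℂ) (v : κ → ℝ) : κ → ℂ := cG Ξ v *ᵥ y

/-- `t_i = 1 / |G_ii|` -/
noncomputable def ct (Ξ : Matrix κ κ ℂ) (v : κ → ℝ) (i : κ) : ℝ := 1 / ‖cG Ξ v i i‖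

/-- `Y = |det G| ∏ t_i` -/
noncomputable def cY (Ξ : Matrix κ κ ℂ) (v : κ → ℝ) : ℝ := ‖(cG Ξ v).det‖ * ∏ i, ct Ξ v i

/-- the set of the core lemma -/
def cS (Ξ : Matrix κ κ ℂ) (y : κ → ℂ) (Λ e : ℝ) : Set (κ → ℝ) :=
  {v | (∀ i, cG Ξ v i i ≠ 0) ∧
    (∀ i j, ‖cG Ξ v i j‖ ^ 2 ≤ Λ ^ 2 * (‖cG Ξ v i i‖ * ‖cG Ξ v j j‖)) ∧
    (∀ i, 1 ≤ e * ‖cG Ξ v i i‖) ∧ ∀ i, ‖cu Ξ y v i‖ ^ 2 ≤ e * ‖cG Ξ v i i‖}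

/-- the integrand of the core lemma -/
noncomputable def cF (Ξ : Matrix κ κ ℂ) (y : κ → ℂ) (v : κ → ℝ) : ℝ :=
  ‖(cG Ξ v).det‖ ^ 2 * ∏ i, (max 1 (‖cu Ξ y v i‖ ^ 2) / ‖cG Ξ v i i‖ ^ 2)

/-- `C_k = k! Λ^k` -/
noncomputable def cC (κ : Type*) [Fintype κ] (Λ : ℝ) : ℝ :=
  ((Fintype.card κ)! : ℝ) * Λ ^ Fintype.card κ

/-- the weight `(τ / max(τ, |x|))^(2θ)` -/
noncomputable def om1 (θ τ x : ℝ) : ℝ≥0∞ := ENNReal.ofReal ((τ / max τ |x|) ^ (2 * θ))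

/-- the level condition -/
def lev (Ξ : Matrix κ κ ℂ) (y : κ → ℂ) (e ν : ℝ) (v : κ → ℝ) : Prop :=
  ∀ B : Finset κ, B.Nonempty → ∃ i ∈ B, ν ^ 2 * e ≤ ct Ξ v i ∨
    ν ^ 2 * (ct Ξ v i * e) ≤ ‖y i‖ ^ 2 ∨
    ∃ j ∉ B, ν ^ 2 * (ct Ξ v i * ct Ξ v j) ≤ ‖Ξ i j‖ ^ 2

/-- `ν_h` -/
noncomputable def nuh (κ : Type*) [Fintype κ] (Λ : ℝ) (h : ℕ) : ℝ :=
  (1 / 2) ^ h / (2 * (Fintype.card κ : ℝ) ^ 2 * Λ)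

/-- the scale vectors at level `h` with `Y > C_k 16^{-m-1}` -/
def scL (Ξ : Matrix κ κ ℂ) (y : κ → ℂ) (Λ e : ℝ) (h m : ℕ) : Set (κ → ℤ) :=
  {l | ∃ v ∈ cS Ξ y Λ e, lev Ξ y e (nuh κ Λ h) v ∧ cC κ Λ * (1 / 16) ^ (m + 1) < cY Ξ v ∧
    ∀ i, (2 : ℝ) ^ l i < ct Ξ v i ∧ ct Ξ v i ≤ (2 : ℝ) ^ (l i + 1)}

end LL
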