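import Pool.Agent.Lib.MP_562b47_mp.LL.EDefs
import Pool.Agent.Lib.MP_562b47_mp.LL.Bq

/-!
Step E: definitions for the fibre part.
-/

set_option autoImplicit false

namespace LL

open MeasureTheory Matrix Finset
open scoped ENNReal Nat

variable {ι : Type*} [Fintype ι] [DecidableEq ι]

namespace Dat

variable (D : Dat ι)

/-- `G_JJ` -/
noncomputable def GJ (J : Finset ι) (V : ι → ℝ) : Matrix {i // i ∈ J} {i // i ∈ J} ℂ :=
  (D.G V).submatrix (fun i => i.1) (fun i => i.1)

/-- the integrand of step E for `J` -/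
noncomputable def fE (b K g : ℝ) (n : ℕ) (I J I' : Finset ι) : (ι → ℝ) → ℝ≥0∞ :=
  {V | D.evE b K g n I V}.indicator fun V =>
    ENNReal.ofReal (‖(D.GJ J V).det‖ ^ 2 * ∏ i ∈ I', (D.om i V / D.gi i V) ^ 2)

end Dat

end LL
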