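import Pool.Agent.Lib.MP_562b47_mp.LL.EDefs

/-!
Facts about the points of `cS` (used by LL-E7a, LL-E7b, LL-E8).
-/

set_option autoImplicit false

namespace LL

open MeasureTheory Matrix Finset
open scoped ENNReal Nat

variable {κ : Type*} [Fintype κ] [DecidableEq κ]

theorem mt_off (Ξ : Matrix κ κ ℂ) (v : κ → ℝ) (i j : κ) (h : i ≠ j) :
    mt Ξ (cc v) i j = Ξ i j := by
  simp [mt, Matrix.diagonal_apply_ne _ h]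

theorem mt_diag (Ξ : Matrix κ κ ℂ) (v : κ → ℝ) (i : κ) :
    mt Ξ (cc v) i i = (v i : ℂ) + Ξ i i := by
  simp [mt, cc]

theorem mt_sym (Ξ : Matrix κ κ ℂ) (hΞ : Ξᵀ = Ξ) (v : κ → ℝ) :
    (mt Ξ (cc v))ᵀ = mt Ξ (cc v) := by
  simp [mt, Matrix.transpose_add, hΞ]

theorem re_le (Ξ : Matrix κ κ ℂ) (v : κ → ℝ) (i : κ) :
    |v i + (Ξ i i).re| ≤ ‖mt Ξ (cc v) i i‖ := by
  rw [mt_diag]
  have := Complex.abs_re_le_norm ((v i : ℂ) + Ξ i i)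
  simpa using this

theorem cS_det (Ξ : Matrix κ κ ℂ) (y : κ → ℂ) (Λ e : ℝ) (hk : 0 < Fintype.card κ)
    (v : κ → ℝ) (hv : v ∈ cS Ξ y Λ e) : (mt Ξ (cc v)).det ≠ 0 := by
  intro h0
  obtain ⟨i⟩ := Fintype.card_pos_iff.mp hk
  apply hv.1 i
  have : cG Ξ v = 0 := by
    rw [cG, Matrix.nonsing_inv_apply_not_isUnit]
    rw [h0]; simp
  rw [this]; rfl

theorem cG_mul (Ξ : Matrix κ κ ℂ) (v : κ → ℝ) (h : (mt Ξ (cc v)).det ≠ 0) :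
    cG Ξ v * mt Ξ (cc v) = 1 :=
  Matrix.nonsing_inv_mul _ (isUnit_iff_ne_zero.mpr h)

theorem mul_cG (Ξ : Matrix κ κ ℂ) (v : κ → ℝ) (h : (mt Ξ (cc v)).det ≠ 0) :
    mt Ξ (cc v) * cG Ξ v = 1 :=
  Matrix.mul_nonsing_inv _ (isUnit_iff_ne_zero.mpr h)

theorem mt_cu (Ξ : Matrix κ κ ℂ) (y : κ → ℂ) (v : κ → ℝ) (h : (mt Ξ (cc v)).det ≠ 0) :
    mt Ξ (cc v) *ᵥ cu Ξ y v = y := by
  rw [cu, Matrix.mulVec_mulVec, mul_cG Ξ v h, Matrix.one_mulVec]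

theorem det_cG (Ξ : Matrix κ κ ℂ) (v : κ → ℝ) :
    (cG Ξ v).det = ((mt Ξ (cc v)).det)⁻¹ := by
  rw [cG, Matrix.det_nonsing_inv, Ring.inverse_eq_inv']

theorem ct_pos (Ξ : Matrix κ κ ℂ) (y : κ → ℂ) (Λ e : ℝ) (v : κ → ℝ) (hv : v ∈ cS Ξ y Λ e)
    (i : κ) : 0 < ct Ξ v i := by
  unfold ct
  have := norm_pos_iff.mpr (hv.1 i)
  positivity

theorem ct_le (Ξ : Matrix κ κ ℂ) (y : κ → ℂ) (Λ e : ℝ) (v : κ → ℝ) (hv : v ∈ cS Ξ y Λ e)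
    (i : κ) : ct Ξ v i ≤ e := by
  unfold ct
  rw [div_le_iff₀ (norm_pos_iff.mpr (hv.1 i))]
  exact hv.2.2.1 i

theorem cG_ct (Ξ : Matrix κ κ ℂ) (y : κ → ℂ) (Λ e : ℝ) (v : κ → ℝ) (hv : v ∈ cS Ξ y Λ e)
    (i j : κ) : ‖cG Ξ v i j‖ ^ 2 * (ct Ξ v i * ct Ξ v j) ≤ Λ ^ 2 := by
  have hi := norm_pos_iff.mpr (hv.1 i)
  have hj := norm_pos_iff.mpr (hv.1 j)
  have := hv.2.1 i j
  unfold ct
  rw [div_mul_div_comm, one_mul, mul_one_div, div_le_iff₀ (by positivity)]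
  exact this

theorem cu_ct (Ξ : Matrix κ κ ℂ) (y : κ → ℂ) (Λ e : ℝ) (v : κ → ℝ) (hv : v ∈ cS Ξ y Λ e)
    (i : κ) : ‖cu Ξ y v i‖ ^ 2 * ct Ξ v i ≤ e := by
  have hi := norm_pos_iff.mpr (hv.1 i)
  have := hv.2.2.2 i
  unfold ct
  rw [mul_one_div, div_le_iff₀ hi]
  exact this

theorem cF_eq (Ξ : Matrix κ κ ℂ) (y : κ → ℂ) (v : κ → ℝ) :
    cF Ξ y v = ‖(cG Ξ v).det‖ * cY Ξ v * ∏ i, (max 1 (‖cu Ξ y v i‖ ^ 2) * ct Ξ v i) := by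
  unfold cF cY ct
  rw [Finset.prod_div_distrib, Finset.prod_mul_distrib, Finset.prod_div_distrib]
  simp only [Finset.prod_const_one, Finset.prod_pow]
  ring

end LL
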