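import Pool.Agent.Lib.MP_562b47_mp.LL.DetInv
import Pool.Agent.Lib.MP_562b47_mp.LL.Bq

/-!
Gam (version 2): the matrices `Γ`, `B`, the vector `z`, and the derivatives of `Δ`, `δ`, `P`, `q` at
real points.

PROOF.
* `bord_inv_apply`: let `M' = M - i φ φᵀ` be invertible and `s = ψ ⬝ᵥ (M'⁻¹ φ) ≠ 0`. As in `bq_sub`
  (`c = i`), `bord φ ψ M' = bord φ ψ M * E`, `E = fromBlocks 1 0 (-i φᵀ) 1` (invertible), so
  `(bord φ ψ M)⁻¹ = E * (bord φ ψ M')⁻¹`, and the first block row of `E` is `(1, 0)`: the top left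
  blocks of the two inverses agree. `(bord φ ψ M')⁻¹` is
  `fromBlocks (M'⁻¹ - (M'⁻¹ φ)(ψᵀ M'⁻¹) / s) (M'⁻¹ φ / s) (ψᵀ M'⁻¹ / s) (-1 / s)`: verify
  `bord φ ψ M' * _ = 1` blockwise (`Matrix.fromBlocks_multiply`, `Matrix.inv_eq_right_inv`).
* `pd_De`: `De V = det (mt Ξ V - i φ φᵀ)` (`De_eq_det'`) for all complex `V`; `pd_det` with
  `N V = mt Ξ V - i φ φᵀ`, `e = id` (`mt_update`).
* `pd_pp`, `pd_pd_pp`, `pd_qq`: `pp = -det (bord ..)`, `pd_det`, `pd_pd_det` with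
  `N = fun V => bord φ ψ (mt Ξ V)`, `e = Sum.inl` (`bord_update`), `bord_inv_apply`; note
  `pp (cc V) ≠ 0` gives `kp V ≠ 0` (`pp_eq`), `qq (cc V) ≠ 0` gives `pf V ≠ 0` (`qq_eq`), and
  `pd i (fun V => -f V) = -pd i f`. `(ψ ᵥ* G) j = (G ψ) j` as `G` is symmetric (`G_symm`).
* `wi_eq`: `dl = De + i pp`, so `w_i = ∂_iδ P - δ ∂_iP = ∂_iΔ P - Δ ∂_iP = Δ P (G_ii - Γ_ii)`
  `= Δ P (G φ)_i² / kp = P² z_i²` (`P = Δ kp`).
* `wij_eq`: `∂_iP ∂_jP - P ∂_i∂_jP = P² Γ_ij²` (`Γ` symmetric).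
* `gi_eq`, `om_eq`: norms, `√(‖P‖² ‖z_i‖²) = ‖P‖ ‖z_i‖`.
* `Ga_phi`: `∑_j Γ_ij φ_j = (G φ)_i - (G φ)_i kp / kp = 0`; `z_phi`: `∑_j z_j φ_j = kp / kp = 1`.
-/

set_option autoImplicit false

namespace LL

open Finset Matrix

variable {ι : Type*} [Fintype ι] [DecidableEq ι]

private theorem bord_key (φ ψ : ι → ℂ) {M : Matrix ι ι ℂ} (hM : M.det ≠ 0)
    (hs : ψ ⬝ᵥ (M⁻¹ *ᵥ φ) ≠ 0) :
    bord φ ψ M * Matrix.fromBlocks
      (Matrix.of fun i j => M⁻¹ i j - (M⁻¹ *ᵥ φ) i * (ψ ᵥ* M⁻¹) j / (ψ ⬝ᵥ (M⁻¹ *ᵥ φ)))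
      (Matrix.of fun i (_ : Unit) => (M⁻¹ *ᵥ φ) i / (ψ ⬝ᵥ (M⁻¹ *ᵥ φ)))
      (Matrix.of fun (_ : Unit) j => (ψ ᵥ* M⁻¹) j / (ψ ⬝ᵥ (M⁻¹ *ᵥ φ)))
      (Matrix.of fun (_ _ : Unit) => -1 / (ψ ⬝ᵥ (M⁻¹ *ᵥ φ))) = 1 := by
  have hU : IsUnit M.det := isUnit_iff_ne_zero.2 hM
  set u : ι → ℂ := M⁻¹ *ᵥ φ with hu
  set w : ι → ℂ := ψ ᵥ* M⁻¹ with hw
  set s : ℂ := ψ ⬝ᵥ u with hsdef
  have hMM : ∀ i j, ∑ k, M i k * M⁻¹ k j = (1 : Matrix ι ι ℂ) i j := by
    intro i j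
    rw [← Matrix.mul_apply, Matrix.mul_nonsing_inv _ hU]
  have hMu : ∀ i, ∑ k, M i k * u k = φ i := by
    intro i
    have h1 : M *ᵥ u = φ := by
      rw [hu, Matrix.mulVec_mulVec, Matrix.mul_nonsing_inv _ hU, Matrix.one_mulVec]
    exact congrFun h1 i
  have hpM : ∀ j, ∑ k, ψ k * M⁻¹ k j = w j := fun j => rfl
  have hpu : ∑ k, ψ k * u k = s := rfl
  have key : bord φ ψ M * Matrix.fromBlocks (Matrix.of fun i j => M⁻¹ i j - u i * w j / s)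
      (Matrix.of fun i (_ : Unit) => u i / s) (Matrix.of fun (_ : Unit) j => w j / s)
      (Matrix.of fun (_ _ : Unit) => -1 / s) = 1 := by
    ext a b
    rw [Matrix.mul_apply, Fintype.sum_sum_type]
    rcases a with a | a <;> rcases b with b | b
    · simp only [bord, Matrix.fromBlocks_apply₁₁, Matrix.fromBlocks_apply₁₂,
        Matrix.fromBlocks_apply₂₁, Matrix.of_apply, Finset.univ_unique, Finset.sum_singleton]
      have h1 : ∑ k, M a k * (M⁻¹ k b - u k * w b / s) =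
          ∑ k, M a k * M⁻¹ k b - (∑ k, M a k * u k) * (w b / s) := by
        rw [Finset.sum_mul, ← Finset.sum_sub_distrib]
        exact Finset.sum_congr rfl fun k _ => by ring
      rw [h1, hMM, hMu]
      simp only [Matrix.one_apply, Sum.inl.injEq]
      ring
    · simp only [bord, Matrix.fromBlocks_apply₁₁, Matrix.fromBlocks_apply₁₂,
        Matrix.fromBlocks_apply₂₂, Matrix.of_apply, Finset.univ_unique, Finset.sum_singleton]
      have h1 : ∑ k, M a k * (u k / s) = (∑ k, M a k * u k) / s := by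
        rw [Finset.sum_div]
        exact Finset.sum_congr rfl fun k _ => by ring
      rw [h1, hMu, Matrix.one_apply_ne (by simp)]
      ring
    · simp only [bord, Matrix.fromBlocks_apply₂₁, Matrix.fromBlocks_apply₁₁,
        Matrix.fromBlocks_apply₂₂, Matrix.of_apply, Finset.univ_unique, Finset.sum_singleton,
        Matrix.zero_apply, zero_mul, add_zero]
      have h1 : ∑ k, ψ k * (M⁻¹ k b - u k * w b / s) =
          ∑ k, ψ k * M⁻¹ k b - (∑ k, ψ k * u k) * (w b / s) := by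
        rw [Finset.sum_mul, ← Finset.sum_sub_distrib]
        exact Finset.sum_congr rfl fun k _ => by ring
      rw [h1, hpM, hpu, Matrix.one_apply_ne (by simp)]
      field_simp
      ring
    · simp only [bord, Matrix.fromBlocks_apply₂₁, Matrix.fromBlocks_apply₁₂,
        Matrix.fromBlocks_apply₂₂, Matrix.of_apply, Finset.univ_unique, Finset.sum_singleton,
        Matrix.zero_apply, zero_mul, add_zero]
      have h1 : ∑ k, ψ k * (u k / s) = (∑ k, ψ k * u k) / s := by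
        rw [Finset.sum_div]
        exact Finset.sum_congr rfl fun k _ => by ring
      rw [h1, hpu, div_self hs]
      simp
  exact key

theorem bord_inv_apply (φ ψ : ι → ℂ) {M : Matrix ι ι ℂ}
    (hM : (M - Complex.I • Matrix.vecMulVec φ φ).det ≠ 0)
    (hs : ψ ⬝ᵥ ((M - Complex.I • Matrix.vecMulVec φ φ)⁻¹ *ᵥ φ) ≠ 0) (i j : ι) :
    (bord φ ψ M)⁻¹ (Sum.inl i) (Sum.inl j) =
      (M - Complex.I • Matrix.vecMulVec φ φ)⁻¹ i j -
        ((M - Complex.I • Matrix.vecMulVec φ φ)⁻¹ *ᵥ φ) i *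
          (ψ ᵥ* (M - Complex.I • Matrix.vecMulVec φ φ)⁻¹) j /
            (ψ ⬝ᵥ ((M - Complex.I • Matrix.vecMulVec φ φ)⁻¹ *ᵥ φ)) := by
  have h0 := bord_key φ ψ hM hs
  have h : bord φ ψ (M - Complex.I • Matrix.vecMulVec φ φ) = bord φ ψ M *
      Matrix.fromBlocks (1 : Matrix ι ι ℂ) 0 (Matrix.of fun (_ : Unit) j => -Complex.I * φ j) 1 := by
    unfold bord
    rw [Matrix.fromBlocks_multiply]
    congr 1
    · ext i j
      simp only [Matrix.mul_one, Matrix.sub_apply, Matrix.add_apply, Matrix.smul_apply,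
        Matrix.vecMulVec_apply, Matrix.mul_apply, Matrix.of_apply, smul_eq_mul,
        Finset.univ_unique, Finset.sum_singleton]
      ring
    · ext i j
      simp
    · ext i j
      simp
    · ext i j
      simp
  rw [h, Matrix.mul_assoc] at h0
  rw [Matrix.inv_eq_right_inv h0, Matrix.fromBlocks_multiply, Matrix.fromBlocks_apply₁₁,
    Matrix.one_mul, Matrix.zero_mul, add_zero, Matrix.of_apply]

private theorem pd_neg (i : ι) (f : (ι → ℂ) → ℂ) (V : ι → ℂ) :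
    pd i (fun V => -f V) V = -pd i f V := by
  unfold pd
  ring

private theorem pd_pd_neg (i j : ι) (f : (ι → ℂ) → ℂ) (V : ι → ℂ) :
    pd i (pd j fun V => -f V) V = -pd i (pd j f) V := by
  unfold pd
  ring

namespace Dat

variable (D : Dat ι)

/-- `Γ = G - (G φ)(G φ)ᵀ / kp` -/
noncomputable def Ga (V : ι → ℝ) (i j : ι) : ℂ := D.G V i j - D.Gf V i * D.Gf V j / D.kp V

/-- `z = G φ / kp` -/
noncomputable def z (V : ι → ℝ) (i : ι) : ℂ := D.Gf V i / D.kp V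

/-- `B = G - (G φ)(G ψ)ᵀ / (ψᵀ G φ)` -/
noncomputable def Bm (V : ι → ℝ) (i j : ι) : ℂ := D.G V i j - D.Gf V i * D.Gp V j / D.pf V

private theorem vecMul_G (v : ι → ℂ) (V : ι → ℝ) (j : ι) : (v ᵥ* D.G V) j = (D.G V *ᵥ v) j := by
  simp only [Matrix.vecMul, Matrix.mulVec, dotProduct]
  exact Finset.sum_congr rfl fun k _ => by rw [D.G_symm V k j, mul_comm]

theorem kp_ne {V : ι → ℝ} (hP : D.pp (cc V) ≠ 0) : D.kp V ≠ 0 := by
  intro h
  rw [D.pp_eq, h, mul_zero] at hP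
  exact hP rfl

theorem pf_ne {V : ι → ℝ} (hq : D.qq (cc V) ≠ 0) : D.pf V ≠ 0 := by
  intro h
  rw [D.qq_eq, h, mul_zero] at hq
  exact hq rfl

private theorem sum_Gf (V : ι → ℝ) : ∑ j, D.Gf V j * D.φ j = D.kp V := by
  simp only [kp, dotProduct]
  exact Finset.sum_congr rfl fun k _ => mul_comm _ _

private theorem bord_det_pp (V : ι → ℝ) :
    (bord D.φ D.φ (mt D.Ξ (cc V))).det = -D.pp (cc V) := by
  rw [pp, bq, neg_neg]

private theorem bord_det_qq (V : ι → ℝ) :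
    (bord D.φ D.ψ (mt D.Ξ (cc V))).det = -D.qq (cc V) := by
  rw [qq, bq, neg_neg]

private theorem inv_Ga {V : ι → ℝ} (hP : D.pp (cc V) ≠ 0) (i j : ι) :
    (bord D.φ D.φ (mt D.Ξ (cc V)))⁻¹ (Sum.inl i) (Sum.inl j) = D.Ga V i j := by
  refine (bord_inv_apply D.φ D.φ (D.ne V) (D.kp_ne hP) i j).trans ?_
  have h1 := D.vecMul_G D.φ V j
  change D.G V i j - (D.G V *ᵥ D.φ) i * (D.φ ᵥ* D.G V) j / D.kp V = _
  rw [h1]
  rfl

private theorem inv_Bm {V : ι → ℝ} (hq : D.qq (cc V) ≠ 0) (i j : ι) :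
    (bord D.φ D.ψ (mt D.Ξ (cc V)))⁻¹ (Sum.inl i) (Sum.inl j) = D.Bm V i j := by
  refine (bord_inv_apply D.φ D.ψ (D.ne V) (D.pf_ne hq) i j).trans ?_
  have h1 := D.vecMul_G D.ψ V j
  change D.G V i j - (D.G V *ᵥ D.φ) i * (D.ψ ᵥ* D.G V) j / D.pf V = _
  rw [h1]
  rfl

theorem Ga_symm (V : ι → ℝ) (i j : ι) : D.Ga V i j = D.Ga V j i := by
  rw [Ga, Ga, D.G_symm V i j, mul_comm (D.Gf V i)]

theorem Ga_phi {V : ι → ℝ} (hP : D.pp (cc V) ≠ 0) (i : ι) :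
    ∑ j, D.Ga V i j * D.φ j = 0 := by
  have h1 : ∑ j, D.Ga V i j * D.φ j =
      ∑ j, D.G V i j * D.φ j - D.Gf V i / D.kp V * ∑ j, D.Gf V j * D.φ j := by
    rw [Finset.mul_sum, ← Finset.sum_sub_distrib]
    refine Finset.sum_congr rfl fun j _ => ?_
    rw [Ga]
    ring
  have h2 : ∑ j, D.G V i j * D.φ j = D.Gf V i := rfl
  rw [h1, h2, D.sum_Gf, div_mul_cancel₀ _ (D.kp_ne hP), sub_self]

theorem z_phi {V : ι → ℝ} (hP : D.pp (cc V) ≠ 0) : ∑ j, D.z V j * D.φ j = 1 := by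
  have h1 : ∑ j, D.z V j * D.φ j = (∑ j, D.Gf V j * D.φ j) / D.kp V := by
    rw [Finset.sum_div]
    refine Finset.sum_congr rfl fun j _ => ?_
    rw [z]
    ring
  rw [h1, D.sum_Gf, div_self (D.kp_ne hP)]

theorem pd_De (V : ι → ℝ) (i : ι) : pd i D.De (cc V) = D.De (cc V) * D.G V i i := by
  have hup : ∀ (V : ι → ℂ) (i : ι) (s : ℂ),
      mt D.Ξ (Function.update V i s) - Complex.I • Matrix.vecMulVec D.φ D.φ =
      (mt D.Ξ (Function.update V i 0) - Complex.I • Matrix.vecMulVec D.φ D.φ) +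
        s • Matrix.single (id i) (id i) (1 : ℂ) := by
    intro V i s
    rw [mt_update D.Ξ V i s]
    simp only [id]
    abel
  have h1 := pd_det (N := fun V => mt D.Ξ V - Complex.I • Matrix.vecMulVec D.φ D.φ) (e := id)
    hup (V := cc V) (D.ne V) i
  have h2 : D.De = fun V => (mt D.Ξ V - Complex.I • Matrix.vecMulVec D.φ D.φ).det := by
    funext V
    exact D.De_eq_det' V
  rw [h2]
  exact h1

theorem pd_pp {V : ι → ℝ} (hP : D.pp (cc V) ≠ 0) (i : ι) :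
    pd i D.pp (cc V) = D.pp (cc V) * D.Ga V i i := by
  have hdet : (bord D.φ D.φ (mt D.Ξ (cc V))).det ≠ 0 := by
    rw [D.bord_det_pp]
    exact neg_ne_zero.2 hP
  have h1 := pd_det (N := fun V => bord D.φ D.φ (mt D.Ξ V)) (e := Sum.inl)
    (fun V i s => bord_update _ _ D.Ξ V i s) (V := cc V) hdet i
  have h2 := pd_neg i (fun V => (bord D.φ D.φ (mt D.Ξ V)).det) (cc V)
  rw [h1, D.inv_Ga hP, D.bord_det_pp] at h2
  change pd i D.pp (cc V) = _ at h2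
  rw [h2]
  ring

theorem pd_pd_pp {V : ι → ℝ} (hP : D.pp (cc V) ≠ 0) {i j : ι} (hij : i ≠ j) :
    pd i (pd j D.pp) (cc V) = D.pp (cc V) * (D.Ga V i i * D.Ga V j j - D.Ga V i j ^ 2) := by
  have hdet : (bord D.φ D.φ (mt D.Ξ (cc V))).det ≠ 0 := by
    rw [D.bord_det_pp]
    exact neg_ne_zero.2 hP
  have h1 := pd_pd_det (N := fun V => bord D.φ D.φ (mt D.Ξ V)) (e := Sum.inl)
    Sum.inl_injective (fun V i s => bord_update _ _ D.Ξ V i s) (V := cc V) hdet hij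
  have h2 := pd_pd_neg i j (fun V => (bord D.φ D.φ (mt D.Ξ V)).det) (cc V)
  rw [h1, D.inv_Ga hP, D.inv_Ga hP, D.inv_Ga hP, D.inv_Ga hP, D.bord_det_pp,
    D.Ga_symm V j i] at h2
  change pd i (pd j D.pp) (cc V) = _ at h2
  rw [h2]
  ring

theorem pd_qq {V : ι → ℝ} (hq : D.qq (cc V) ≠ 0) (i : ι) :
    pd i D.qq (cc V) = D.qq (cc V) * D.Bm V i i := by
  have hdet : (bord D.φ D.ψ (mt D.Ξ (cc V))).det ≠ 0 := by
    rw [D.bord_det_qq]
    exact neg_ne_zero.2 hq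
  have h1 := pd_det (N := fun V => bord D.φ D.ψ (mt D.Ξ V)) (e := Sum.inl)
    (fun V i s => bord_update _ _ D.Ξ V i s) (V := cc V) hdet i
  have h2 := pd_neg i (fun V => (bord D.φ D.ψ (mt D.Ξ V)).det) (cc V)
  rw [h1, D.inv_Bm hq, D.bord_det_qq] at h2
  change pd i D.qq (cc V) = _ at h2
  rw [h2]
  ring

theorem wi_eq {V : ι → ℝ} (hP : D.pp (cc V) ≠ 0) (i : ι) :
    D.wi i (cc V) = D.pp (cc V) ^ 2 * D.z V i ^ 2 := by
  have hd := D.kp_ne hP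
  have h1 : pd i D.dl (cc V) = pd i D.De (cc V) + Complex.I * pd i D.pp (cc V) := by
    simp only [pd, De]
    ring
  have h2 : D.dl (cc V) = D.De (cc V) + Complex.I * D.pp (cc V) := by
    unfold De
    ring
  rw [wi, h1, h2, D.pd_De, D.pd_pp hP, Ga, z, D.pp_eq]
  field_simp
  ring

theorem wij_eq {V : ι → ℝ} (hP : D.pp (cc V) ≠ 0) {i j : ι} (hij : i ≠ j) :
    D.wij i j (cc V) = D.pp (cc V) ^ 2 * D.Ga V i j ^ 2 := by
  rw [wij, D.pd_pp hP, D.pd_pp hP, D.pd_pd_pp hP hij]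
  ring

theorem gi_eq {V : ι → ℝ} (hP : D.pp (cc V) ≠ 0) (i : ι) : D.gi i V = max 1 ‖D.Ga V i i‖ := by
  rw [gi, D.pd_pp hP, norm_mul, mul_div_cancel_left₀ _ (norm_ne_zero_iff.2 hP)]

theorem om_eq {V : ι → ℝ} (hP : D.pp (cc V) ≠ 0) (i : ι) : D.om i V = max 1 ‖D.z V i‖ := by
  rw [om, D.wi_eq hP, ← mul_pow, norm_pow, Real.sqrt_sq (norm_nonneg _), norm_mul,
    mul_div_cancel_left₀ _ (norm_ne_zero_iff.2 hP)]

end Dat

end LL
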