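import Pool.Agent.Lib.MP_562b47_mp.LL.LinePt

/-!
LineA: Step A on one line. Affine functions `δ(v) = d0 + v d1`, `P(v) = p0 + v p1`,
`q(v) = q0 + v q1`, `Δ = δ - i P = e0 + v e1`, `e0 = d0 - i p0`, `e1 = d1 - i p1`.

PROOF. `A` empty: trivial. Put `W = ‖d1 p0 - d0 p1‖`; for every `v`:
`d1 p0 - d0 p1 = d1 P(v) - δ(v) p1`. `M = max ‖P(1)‖ ‖P(-1)‖`. Then `‖p1‖ ≤ M`, `‖P(v)‖ ≤ M` for
`v ∈ [-1, 1]` (convexity), `M ≤ ‖P(v)‖ + 2 ‖p1‖ ≤ 3 max ‖P(v)‖ ‖p1‖`.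
For `v ∈ A`: `P(v) ≠ 0` (otherwise `δ(v) = 0` and `W = 0`, contradiction with the strict
inequality), so `M > 0`; `‖δ(v)‖ ≤ 3 W / (K M)`; `W ≤ ‖d1‖ ‖P(v)‖ + ‖δ(v)‖ ‖p1‖ ≤ ‖d1‖ ‖P(v)‖ + W / K`,
so `W ≤ 2 ‖d1‖ ‖P(v)‖` and `d1 ≠ 0`.
For `v, v' ∈ A`: `‖d1‖ |v - v'| = ‖δ(v) - δ(v')‖ ≤ 6 W / (K M)`, so
(a) `|v - v'| ≤ 12 ‖P(v)‖ / (K M)`;
(b) `‖P(v') - P(v)‖ ≤ ‖p1‖ |v - v'| ≤ 12 ‖P(v)‖ / K ≤ ‖P(v)‖ / 2`;
(c) `‖d1‖ |v - v'| ≤ ‖δ(v)‖ + ‖δ(v')‖ ≤ b (‖P(v)‖ + ‖P(v')‖) ≤ (5/2) b ‖P(v)‖`.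
Fix `v0 ∈ A`. For `v ∈ A` use `pt_bound` with `ℓ = min 1 (‖P(v)‖ / (16 (‖d1‖ + ‖p1‖)))`
(`‖e1‖ ≤ ‖d1‖ + ‖p1‖`, `‖P(v)‖ ≤ 4 ‖Δ(v)‖`): the weight at `v` is at most
`(25/4) (1 + 16 (‖d1‖ + ‖p1‖) / ‖P(v)‖) ≤ B := (25/4) (1 + 32 (‖d1‖ + ‖p1‖) / ‖P(v0)‖)` times the total
mass (by (b) `‖P(v)‖ ≥ ‖P(v0)‖ / 2`). The diameter of `A` is at most
`L := min (12 · (3/2) ‖P(v0)‖ / (K M)) ((15/4) b ‖P(v0)‖ / ‖d1‖)` (by (a), (c) with
`‖P(v)‖ ≤ (3/2) ‖P(v0)‖`). `small_set`: the factor is `B L ≤ (25/4) (18/K + 32 · (15/4) b + 32 · 18/K)`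
`= (25/4) (594/K + 120 b) ≤ 4000 (1/K + b)`.
-/

set_option autoImplicit false

namespace LL

open MeasureTheory Set
open scoped ENNReal

private theorem M_facts (p0 p1 : ℂ) {v : ℝ} (hv : v ∈ Icc (-1 : ℝ) 1) :
    ‖p1‖ ≤ max ‖p0 + p1‖ ‖p0 - p1‖ ∧ ‖p0 + v * p1‖ ≤ max ‖p0 + p1‖ ‖p0 - p1‖ ∧
      max ‖p0 + p1‖ ‖p0 - p1‖ ≤ 3 * max ‖p0 + v * p1‖ ‖p1‖ := by
  obtain ⟨h1, h2⟩ := hv
  have ha : ‖p0 + p1‖ ≤ max ‖p0 + p1‖ ‖p0 - p1‖ := le_max_left _ _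
  have hb : ‖p0 - p1‖ ≤ max ‖p0 + p1‖ ‖p0 - p1‖ := le_max_right _ _
  set M := max ‖p0 + p1‖ ‖p0 - p1‖ with hM
  refine ⟨?_, ?_, ?_⟩
  · have h3 : ‖(2 : ℂ) * p1‖ ≤ ‖p0 + p1‖ + ‖p0 - p1‖ := by
      have : (2 : ℂ) * p1 = (p0 + p1) - (p0 - p1) := by ring
      rw [this]
      exact norm_sub_le _ _
    rw [norm_mul, show ‖(2 : ℂ)‖ = 2 by norm_num] at h3
    linarith
  · have h3 : p0 + v * p1 = (((1 + v) / 2 : ℝ) : ℂ) * (p0 + p1) +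
        (((1 - v) / 2 : ℝ) : ℂ) * (p0 - p1) := by
      push_cast
      ring
    rw [h3]
    refine (norm_add_le _ _).trans ?_
    rw [norm_mul, norm_mul, Complex.norm_real, Complex.norm_real,
      Real.norm_of_nonneg (by linarith), Real.norm_of_nonneg (by linarith)]
    nlinarith
  · have hl : ‖p0 + v * p1‖ ≤ max ‖p0 + v * p1‖ ‖p1‖ := le_max_left _ _
    have hr : ‖p1‖ ≤ max ‖p0 + v * p1‖ ‖p1‖ := le_max_right _ _
    rw [hM]
    refine max_le ?_ ?_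
    · have h3 : p0 + p1 = (p0 + v * p1) + ((1 - v : ℝ) : ℂ) * p1 := by
        push_cast
        ring
      rw [h3]
      refine (norm_add_le _ _).trans ?_
      rw [norm_mul, Complex.norm_real, Real.norm_of_nonneg (by linarith)]
      have := norm_nonneg p1
      nlinarith
    · have h3 : p0 - p1 = (p0 + v * p1) - ((1 + v : ℝ) : ℂ) * p1 := by
        push_cast
        ring
      rw [h3]
      refine (norm_sub_le _ _).trans ?_
      rw [norm_mul, Complex.norm_real, Real.norm_of_nonneg (by linarith)]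
      have := norm_nonneg p1
      nlinarith

theorem lineA (d0 d1 p0 p1 q0 q1 : ℂ) {K b : ℝ} (hK : 24 ≤ K) (hb : 0 < b)
    (hΔ : ∀ v ∈ Icc (-1 : ℝ) 1,
      ‖p0 + v * p1‖ ≤ 4 * ‖(d0 - Complex.I * p0) + v * (d1 - Complex.I * p1)‖)
    {A : Set ℝ} (hAm : MeasurableSet A)
    (hA : ∀ v ∈ A, v ∈ Icc (-1 : ℝ) 1 ∧ ‖d0 + v * d1‖ ≤ b * ‖p0 + v * p1‖ ∧
      K * ‖d0 + v * d1‖ * max ‖p0 + v * p1‖ ‖p1‖ < ‖d1 * p0 - d0 * p1‖) :
    ∫⁻ v in A, ENNReal.ofReal (‖q0 + (v : ℝ) * q1‖ ^ 2 /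
        ‖(d0 - Complex.I * p0) + (v : ℝ) * (d1 - Complex.I * p1)‖ ^ 2) ≤
      ENNReal.ofReal (4000 * (1 / K + b)) *
        ∫⁻ v in Icc (-1 : ℝ) 1, ENNReal.ofReal (‖q0 + (v : ℝ) * q1‖ ^ 2 /
          ‖(d0 - Complex.I * p0) + (v : ℝ) * (d1 - Complex.I * p1)‖ ^ 2) := by
  rcases A.eq_empty_or_nonempty with hAe | ⟨v0, hv0⟩
  · rw [hAe]
    simp
  set W := ‖d1 * p0 - d0 * p1‖ with hW
  set M := max ‖p0 + p1‖ ‖p0 - p1‖ with hM
  have hK0 : 0 < K := by linarith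
  -- facts at one point
  have key : ∀ v ∈ A, 0 < W ∧ 0 < ‖p0 + v * p1‖ ∧ K * ‖d0 + v * d1‖ * M ≤ 3 * W ∧
      W ≤ 2 * (‖d1‖ * ‖p0 + v * p1‖) := by
    intro v hv
    obtain ⟨hI, -, h3⟩ := hA v hv
    obtain ⟨m1, m2, m3⟩ := M_facts p0 p1 hI
    have hd : 0 ≤ ‖d0 + v * d1‖ := norm_nonneg _
    have hmax : 0 ≤ max ‖p0 + v * p1‖ ‖p1‖ := le_max_of_le_left (norm_nonneg _)
    have hW0 : 0 < W := lt_of_le_of_lt (by positivity) h3
    have h4 : K * ‖d0 + v * d1‖ * M ≤ 3 * W := by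
      have : K * ‖d0 + v * d1‖ * M ≤ K * ‖d0 + v * d1‖ * (3 * max ‖p0 + v * p1‖ ‖p1‖) :=
        mul_le_mul_of_nonneg_left m3 (by positivity)
      nlinarith
    have h5 : W ≤ ‖d1‖ * ‖p0 + v * p1‖ + ‖d0 + v * d1‖ * ‖p1‖ := by
      have h6 : d1 * p0 - d0 * p1 = d1 * (p0 + v * p1) - (d0 + v * d1) * p1 := by ring
      rw [hW, h6, ← norm_mul, ← norm_mul]
      exact norm_sub_le _ _
    have h7 : ‖d0 + v * d1‖ * ‖p1‖ ≤ ‖d0 + v * d1‖ * max ‖p0 + v * p1‖ ‖p1‖ :=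
      mul_le_mul_of_nonneg_left (le_max_right _ _) hd
    have h8 : 24 * (‖d0 + v * d1‖ * max ‖p0 + v * p1‖ ‖p1‖) ≤ W := by
      have : 24 * (‖d0 + v * d1‖ * max ‖p0 + v * p1‖ ‖p1‖) ≤
          K * (‖d0 + v * d1‖ * max ‖p0 + v * p1‖ ‖p1‖) :=
        mul_le_mul_of_nonneg_right hK (by positivity)
      nlinarith
    have h9 : W ≤ 2 * (‖d1‖ * ‖p0 + v * p1‖) := by linarith
    refine ⟨hW0, ?_, h4, h9⟩
    by_contra hc
    have h10 : ‖p0 + v * p1‖ = 0 := le_antisymm (not_lt.mp hc) (norm_nonneg _)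
    rw [h10] at h9
    linarith
  obtain ⟨hW0, hP0, -, hWd⟩ := key v0 hv0
  have hd1 : 0 < ‖d1‖ := by
    by_contra hc
    have h10 : ‖d1‖ = 0 := le_antisymm (not_lt.mp hc) (norm_nonneg _)
    rw [h10] at hWd
    linarith
  have hMp : ‖p0 + v0 * p1‖ ≤ M := (M_facts p0 p1 (hA v0 hv0).1).2.1
  have hp1M : ‖p1‖ ≤ M := (M_facts p0 p1 (hA v0 hv0).1).1
  have hM0 : 0 < M := lt_of_lt_of_le hP0 hMp
  have hKM : 0 < K * M := by positivity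
  -- differences
  have dist : ∀ v ∈ A, ∀ v' ∈ A, |v - v'| * (K * M) ≤ 12 * ‖p0 + v * p1‖ := by
    intro v hv v' hv'
    obtain ⟨-, -, h4, h9⟩ := key v hv
    obtain ⟨-, -, h4', -⟩ := key v' hv'
    have h1 : ‖d1‖ * |v - v'| ≤ ‖d0 + v * d1‖ + ‖d0 + v' * d1‖ := by
      have h6 : d1 * ((v - v' : ℝ) : ℂ) = (d0 + v * d1) - (d0 + v' * d1) := by
        push_cast
        ring
      have h7 : ‖d1‖ * |v - v'| = ‖d1 * ((v - v' : ℝ) : ℂ)‖ := by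
        rw [norm_mul, Complex.norm_real, Real.norm_eq_abs]
      rw [h7, h6]
      exact norm_sub_le _ _
    have h2 : ‖d1‖ * (|v - v'| * (K * M)) ≤ ‖d1‖ * (12 * ‖p0 + v * p1‖) := by
      have h3 : ‖d1‖ * |v - v'| * (K * M) ≤ (‖d0 + v * d1‖ + ‖d0 + v' * d1‖) * (K * M) :=
        mul_le_mul_of_nonneg_right h1 hKM.le
      nlinarith
    exact le_of_mul_le_mul_left h2 hd1
  have comp : ∀ v ∈ A, ∀ v' ∈ A, ‖p0 + v' * p1‖ ≤ 3 / 2 * ‖p0 + v * p1‖ := by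
    intro v hv v' hv'
    have h1 := dist v hv v' hv'
    have h6 : p0 + v' * p1 = (p0 + v * p1) + ((v' - v : ℝ) : ℂ) * p1 := by
      push_cast
      ring
    have h2 : ‖p0 + v' * p1‖ ≤ ‖p0 + v * p1‖ + |v' - v| * ‖p1‖ := by
      rw [h6]
      refine (norm_add_le _ _).trans ?_
      rw [norm_mul, Complex.norm_real, Real.norm_eq_abs]
    have h3 : |v' - v| * ‖p1‖ ≤ |v - v'| * M := by
      rw [abs_sub_comm]
      exact mul_le_mul_of_nonneg_left hp1M (abs_nonneg _)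
    have h4 : 24 * (|v - v'| * M) ≤ 12 * ‖p0 + v * p1‖ := by
      have : 24 * (|v - v'| * M) ≤ K * (|v - v'| * M) :=
        mul_le_mul_of_nonneg_right hK (by positivity)
      nlinarith
    linarith
  have distb : ∀ v ∈ A, ∀ v' ∈ A, ‖d1‖ * |v - v'| ≤ 5 / 2 * (b * ‖p0 + v * p1‖) := by
    intro v hv v' hv'
    have h1 : ‖d1‖ * |v - v'| ≤ ‖d0 + v * d1‖ + ‖d0 + v' * d1‖ := by
      have h6 : d1 * ((v - v' : ℝ) : ℂ) = (d0 + v * d1) - (d0 + v' * d1) := by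
        push_cast
        ring
      have h7 : ‖d1‖ * |v - v'| = ‖d1 * ((v - v' : ℝ) : ℂ)‖ := by
        rw [norm_mul, Complex.norm_real, Real.norm_eq_abs]
      rw [h7, h6]
      exact norm_sub_le _ _
    have h2 := (hA v hv).2.1
    have h3 := (hA v' hv').2.1
    have h4 : b * ‖p0 + v' * p1‖ ≤ b * (3 / 2 * ‖p0 + v * p1‖) :=
      mul_le_mul_of_nonneg_left (comp v hv v' hv') hb.le
    linarith
  set P0 := ‖p0 + v0 * p1‖ with hP0def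
  set S := ‖d1‖ + ‖p1‖ with hS
  have hS0 : 0 < S := by
    have := norm_nonneg p1
    linarith
  set B := 25 / 4 * (1 + 32 * S / P0) with hB
  set L := min (18 * P0 / (K * M)) (15 / 4 * (b * P0) / ‖d1‖) with hL
  have hBL : B * L ≤ 4000 * (1 / K + b) := by
    have hL0 : 0 ≤ L := le_min (by positivity) (by positivity)
    have hL1 : L ≤ 18 * P0 / (K * M) := min_le_left _ _
    have hL2 : L ≤ 15 / 4 * (b * P0) / ‖d1‖ := min_le_right _ _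
    have e1 : L ≤ 18 / K := by
      refine hL1.trans ?_
      rw [div_le_div_iff₀ hKM hK0]
      nlinarith
    have e2 : ‖d1‖ / P0 * L ≤ 15 / 4 * b := by
      have : ‖d1‖ / P0 * L ≤ ‖d1‖ / P0 * (15 / 4 * (b * P0) / ‖d1‖) :=
        mul_le_mul_of_nonneg_left hL2 (by positivity)
      refine this.trans (le_of_eq ?_)
      field_simp
    have e3 : ‖p1‖ / P0 * L ≤ 18 / K := by
      have h1 : ‖p1‖ / P0 * L ≤ ‖p1‖ / P0 * (18 * P0 / (K * M)) :=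
        mul_le_mul_of_nonneg_left hL1 (by positivity)
      have h2 : ‖p1‖ / P0 * (18 * P0 / (K * M)) = 18 / K * (‖p1‖ / M) := by
        field_simp
      have h3 : ‖p1‖ / M ≤ 1 := (div_le_one hM0).mpr hp1M
      rw [h2] at h1
      refine h1.trans ?_
      have : 0 ≤ 18 / K := by positivity
      nlinarith
    have h1 : B * L = 25 / 4 * (L + 32 * (‖d1‖ / P0 * L) + 32 * (‖p1‖ / P0 * L)) := by
      rw [hB, hS]
      field_simp
      ring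
    rw [h1]
    have h2 : 18 / K = 18 * (1 / K) := by ring
    rw [h2] at e1 e3
    have h3 : 0 ≤ 1 / K := by positivity
    nlinarith
  have hB0 : 0 ≤ B := by positivity
  refine (small_set q0 q1 (d0 - Complex.I * p0) (d1 - Complex.I * p1) hAm (B := B) (L := L)
    ?_ ?_).trans ?_
  · intro v hv v' hv'
    refine le_min ?_ ?_
    · rw [le_div_iff₀ hKM]
      have h1 := dist v hv v' hv'
      have h2 := comp v0 hv0 v hv
      linarith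
    · rw [le_div_iff₀ hd1]
      have h1 := distb v hv v' hv'
      have h2 := mul_le_mul_of_nonneg_left (comp v0 hv0 v hv) hb.le
      linarith
  · intro v hv
    obtain ⟨-, hPv, -, -⟩ := key v hv
    have hI := (hA v hv).1
    have hD := hΔ v hI
    set ℓ := min 1 (‖p0 + v * p1‖ / (16 * S)) with hℓ
    have hℓ0 : 0 < ℓ := lt_min one_pos (by positivity)
    have he1 : ‖d1 - Complex.I * p1‖ ≤ S := by
      refine (norm_sub_le _ _).trans ?_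
      rw [norm_mul, Complex.norm_I, one_mul]
    have h1 := pt_bound q0 q1 (d0 - Complex.I * p0) (d1 - Complex.I * p1) (v := v) (ℓ := ℓ) hI
      hℓ0 (min_le_left _ _) (by
        intro h0
        rw [h0, norm_zero] at hD
        linarith) (by
        have h2 : ‖d1 - Complex.I * p1‖ * ℓ ≤ S * (‖p0 + v * p1‖ / (16 * S)) :=
          mul_le_mul he1 (min_le_right _ _) hℓ0.le hS0.le
        have h3 : S * (‖p0 + v * p1‖ / (16 * S)) = ‖p0 + v * p1‖ / 16 := by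
          field_simp
        rw [h3] at h2
        linarith)
    refine h1.trans ?_
    gcongr
    -- 25 / (4 ℓ) ≤ B
    have h4 : 1 / ℓ ≤ 1 + 32 * S / P0 := by
      have h5 : P0 ≤ 3 / 2 * ‖p0 + v * p1‖ := comp v hv v0 hv0
      rcases min_choice 1 (‖p0 + v * p1‖ / (16 * S)) with h6 | h6
      · rw [hℓ, h6]
        have : 0 ≤ 32 * S / P0 := by positivity
        linarith
      · rw [hℓ, h6]
        have h7 : 1 / (‖p0 + v * p1‖ / (16 * S)) ≤ 32 * S / P0 := by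
          rw [one_div_div, div_le_div_iff₀ hPv hP0]
          nlinarith
        linarith
    have h8 : 25 / (4 * ℓ) = 25 / 4 * (1 / ℓ) := by
      field_simp
    rw [h8, hB]
    exact mul_le_mul_of_nonneg_left h4 (by norm_num)
  · rw [← ENNReal.ofReal_mul hB0]
    gcongr

end LL
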