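import Pool.Agent.Lib.MP_562b47_mp.LL.LinePt

/-!
LineC: Step C on one line. Notation of `LineA`, and `S(v) = s0 + v s1`.

PROOF. `A` empty: trivial. `W' = ‖p1 s0 - p0 s1‖ = ‖p1 S(v) - P(v) s1‖`,
`W = ‖d1 p0 - d0 p1‖ = ‖d1 P(v) - δ(v) p1‖`, `M = max ‖P(1)‖ ‖P(-1)‖`; `‖p1‖ ≤ M`, `‖P(v)‖ ≤ M`,
`M ≤ 3 max ‖P(v)‖ ‖p1‖` for `v ∈ [-1, 1]`.
For `v ∈ A`: `P(v) ≠ 0`: otherwise `δ(v) = 0`, so `Δ(v) = 0`; use the hypothesis `hne`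
(`Δ ≠ 0` on `[-1, 1]`). `K (M/3) max ‖P(v)‖ ‖S(v)‖ < W'`, so `‖S(v)‖ ≤ 3 W' / (K M)`,
`W' ≤ ‖p1‖ ‖S(v)‖ + ‖P(v)‖ ‖s1‖ ≤ M ‖S(v)‖ + ‖P(v)‖ ‖s1‖ ≤ 3 W' / K + ‖P(v)‖ ‖s1‖`, so
`W' ≤ 2 ‖P(v)‖ ‖s1‖`, and `s1 ≠ 0` (as `W' > 0`).
For `v, v' ∈ A`: `‖s1‖ |v - v'| ≤ 6 W' / (K M) ≤ 12 ‖P(v)‖ ‖s1‖ / (K M)`, so
`|v - v'| ≤ 12 ‖P(v)‖ / (K M)` and `‖P(v') - P(v)‖ ≤ ‖p1‖ |v - v'| ≤ 12 ‖P(v)‖ / K ≤ ‖P(v)‖ / 2`.
`‖d1‖ ‖P(v)‖ ≤ W + ‖δ(v)‖ ‖p1‖ ≤ (K + 1) ‖δ(v)‖ max ‖P(v)‖ ‖p1‖ ≤ (K + 1) b ‖P(v)‖ M`, so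
`‖d1‖ ≤ 2 K b M ≤ M`, `‖e1‖ ≤ 2 M`. `pt_bound` with `ℓ = ‖P(v)‖ / (32 M)` (`≤ 1/32`,
`‖e1‖ ℓ ≤ ‖P(v)‖ / 16 ≤ ‖Δ(v)‖ / 4`): the weight at `v` is at most `200 M / ‖P(v)‖ ≤ B := 400 M / ‖P(v0)‖`
times the total mass (`v0 ∈ A` fixed); the diameter of `A` is at most
`L := 18 ‖P(v0)‖ / (K M)`; `B L = 7200 / K`.
-/

set_option autoImplicit false

namespace LL

open MeasureTheory Set
open scoped ENNReal

private theorem M_facts (p0 p1 : ℂ) {v : ℝ} (hv : v ∈ Icc (-1 : ℝ) 1) :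
    ‖p1‖ ≤ max ‖p0 + p1‖ ‖p0 - p1‖ ∧ ‖p0 + v * p1‖ ≤ max ‖p0 + p1‖ ‖p0 - p1‖ ∧
      max ‖p0 + p1‖ ‖p0 - p1‖ ≤ 3 * max ‖p0 + v * p1‖ ‖p1‖ := by
  obtain ⟨h1, h2⟩ := hv
  have ha : ‖p0 + p1‖ ≤ max ‖p0 + p1‖ ‖p0 - p1‖ := le_max_left _ _
  have hb : ‖p0 - p1‖ ≤ max ‖p0 + p1‖ ‖p0 - p1‖ := le_max_right _ _
  set M := max ‖p0 + p1‖ ‖p0 - p1‖ with hM
  refine ⟨?_, ?_, ?_⟩
  · have h3 : ‖(2 : ℂ) * p1‖ ≤ ‖p0 + p1‖ + ‖p0 - p1‖ := by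
      have : (2 : ℂ) * p1 = (p0 + p1) - (p0 - p1) := by ring
      rw [this]
      exact norm_sub_le _ _
    rw [norm_mul, show ‖(2 : ℂ)‖ = 2 by norm_num] at h3
    linarith
  · have h3 : p0 + v * p1 = (((1 + v) / 2 : ℝ) : ℂ) * (p0 + p1) +
        (((1 - v) / 2 : ℝ) : ℂ) * (p0 - p1) := by
      push_cast
      ring
    rw [h3]
    refine (norm_add_le _ _).trans ?_
    rw [norm_mul, norm_mul, Complex.norm_real, Complex.norm_real,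
      Real.norm_of_nonneg (by linarith), Real.norm_of_nonneg (by linarith)]
    nlinarith
  · have hl : ‖p0 + v * p1‖ ≤ max ‖p0 + v * p1‖ ‖p1‖ := le_max_left _ _
    have hr : ‖p1‖ ≤ max ‖p0 + v * p1‖ ‖p1‖ := le_max_right _ _
    rw [hM]
    refine max_le ?_ ?_
    · have h3 : p0 + p1 = (p0 + v * p1) + ((1 - v : ℝ) : ℂ) * p1 := by
        push_cast
        ring
      rw [h3]
      refine (norm_add_le _ _).trans ?_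
      rw [norm_mul, Complex.norm_real, Real.norm_of_nonneg (by linarith)]
      have := norm_nonneg p1
      nlinarith
    · have h3 : p0 - p1 = (p0 + v * p1) - ((1 + v : ℝ) : ℂ) * p1 := by
        push_cast
        ring
      rw [h3]
      refine (norm_sub_le _ _).trans ?_
      rw [norm_mul, Complex.norm_real, Real.norm_of_nonneg (by linarith)]
      have := norm_nonneg p1
      nlinarith

/-- the facts at one point of `A` -/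
private theorem ptC (d0 d1 p0 p1 s0 s1 : ℂ) {K b M : ℝ} (hK : 24 ≤ K) (hb : 0 < b)
    (hKb : 2 * (K * b) ≤ 1) (hMd : M = max ‖p0 + p1‖ ‖p0 - p1‖) {v : ℝ}
    (hI : v ∈ Icc (-1 : ℝ) 1) (h2 : ‖d0 + v * d1‖ ≤ b * ‖p0 + v * p1‖)
    (hne : (d0 - Complex.I * p0) + v * (d1 - Complex.I * p1) ≠ 0)
    (h3 : ‖d1 * p0 - d0 * p1‖ ≤ K * ‖d0 + v * d1‖ * max ‖p0 + v * p1‖ ‖p1‖)
    (h4 : K * max ‖p0 + v * p1‖ ‖p1‖ * max ‖p0 + v * p1‖ ‖s0 + v * s1‖ <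
      ‖p1 * s0 - p0 * s1‖) :
    0 < ‖p0 + v * p1‖ ∧ K * ‖s0 + v * s1‖ * M ≤ 3 * ‖p1 * s0 - p0 * s1‖ ∧
      ‖p1 * s0 - p0 * s1‖ ≤ 2 * (‖s1‖ * ‖p0 + v * p1‖) ∧ ‖d1‖ ≤ M := by
  obtain ⟨m1, m2, m3⟩ := M_facts p0 p1 hI
  rw [← hMd] at m1 m2 m3
  have hK0 : 0 < K := by linarith
  have hP : 0 < ‖p0 + v * p1‖ := by
    rw [norm_pos_iff]
    intro h0
    rw [h0, norm_zero, mul_zero] at h2
    have h5 : d0 + v * d1 = 0 := norm_le_zero_iff.mp h2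
    apply hne
    have h6 : (d0 - Complex.I * p0) + v * (d1 - Complex.I * p1) =
        (d0 + v * d1) - Complex.I * (p0 + v * p1) := by ring
    rw [h6, h5, h0]
    simp
  set m := max ‖p0 + v * p1‖ ‖p1‖ with hm
  set n := max ‖p0 + v * p1‖ ‖s0 + v * s1‖ with hn
  have hm0 : 0 < m := lt_max_of_lt_left hP
  have hn0 : 0 < n := lt_max_of_lt_left hP
  have hSn : ‖s0 + v * s1‖ ≤ n := le_max_right _ _
  have hS0 : 0 ≤ ‖s0 + v * s1‖ := norm_nonneg _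
  have hM0 : 0 < M := lt_of_lt_of_le hP m2
  set W := ‖p1 * s0 - p0 * s1‖ with hW
  have hW0 : 0 < W := lt_of_le_of_lt (by positivity) h4
  have h5 : K * ‖s0 + v * s1‖ * M ≤ 3 * W := by
    have e1 : K * ‖s0 + v * s1‖ * M ≤ K * n * (3 * m) := by
      have : K * ‖s0 + v * s1‖ ≤ K * n := mul_le_mul_of_nonneg_left hSn hK0.le
      exact mul_le_mul this m3 hM0.le (by positivity)
    nlinarith
  refine ⟨hP, h5, ?_, ?_⟩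
  · have h6 : W ≤ ‖p1‖ * ‖s0 + v * s1‖ + ‖p0 + v * p1‖ * ‖s1‖ := by
      have h7 : p1 * s0 - p0 * s1 = p1 * (s0 + v * s1) - (p0 + v * p1) * s1 := by ring
      rw [hW, h7, ← norm_mul, ← norm_mul]
      exact norm_sub_le _ _
    have h8 : ‖p1‖ * ‖s0 + v * s1‖ ≤ M * ‖s0 + v * s1‖ := mul_le_mul_of_nonneg_right m1 hS0
    have h9 : 24 * (M * ‖s0 + v * s1‖) ≤ K * (M * ‖s0 + v * s1‖) :=
      mul_le_mul_of_nonneg_right hK (by positivity)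
    nlinarith
  · have h6 : ‖d1‖ * ‖p0 + v * p1‖ ≤ ‖d1 * p0 - d0 * p1‖ + ‖d0 + v * d1‖ * ‖p1‖ := by
      have h7 : d1 * (p0 + v * p1) = (d1 * p0 - d0 * p1) + (d0 + v * d1) * p1 := by ring
      rw [← norm_mul, ← norm_mul, h7]
      exact norm_add_le _ _
    have hd : 0 ≤ ‖d0 + v * d1‖ := norm_nonneg _
    have h8 : ‖d0 + v * d1‖ * ‖p1‖ ≤ ‖d0 + v * d1‖ * m :=
      mul_le_mul_of_nonneg_left (le_max_right _ _) hd
    have hmM : m ≤ M := max_le m2 m1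
    have h9 : ‖d1‖ * ‖p0 + v * p1‖ ≤ (K + 1) * (‖d0 + v * d1‖ * m) := by nlinarith
    have h10 : ‖d0 + v * d1‖ * m ≤ b * ‖p0 + v * p1‖ * M :=
      mul_le_mul h2 hmM hm0.le (by positivity)
    have h11 : (K + 1) * (‖d0 + v * d1‖ * m) ≤ (K + 1) * (b * ‖p0 + v * p1‖ * M) :=
      mul_le_mul_of_nonneg_left h10 (by positivity)
    have h12 : (K + 1) * b ≤ 1 := by nlinarith
    have h13 : (K + 1) * (b * ‖p0 + v * p1‖ * M) ≤ M * ‖p0 + v * p1‖ := by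
      have : (K + 1) * (b * ‖p0 + v * p1‖ * M) = ((K + 1) * b) * (M * ‖p0 + v * p1‖) := by ring
      rw [this]
      have h14 : 0 ≤ M * ‖p0 + v * p1‖ := by positivity
      nlinarith
    exact le_of_mul_le_mul_right (by linarith) hP

theorem lineC (d0 d1 p0 p1 q0 q1 s0 s1 : ℂ) {K b : ℝ} (hK : 24 ≤ K) (hb : 0 < b)
    (hKb : 2 * (K * b) ≤ 1)
    (hne : ∀ v ∈ Icc (-1 : ℝ) 1, (d0 - Complex.I * p0) + v * (d1 - Complex.I * p1) ≠ 0)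
    (hΔ : ∀ v ∈ Icc (-1 : ℝ) 1,
      ‖p0 + v * p1‖ ≤ 4 * ‖(d0 - Complex.I * p0) + v * (d1 - Complex.I * p1)‖)
    {A : Set ℝ} (hAm : MeasurableSet A)
    (hA : ∀ v ∈ A, v ∈ Icc (-1 : ℝ) 1 ∧ ‖d0 + v * d1‖ ≤ b * ‖p0 + v * p1‖ ∧
      ‖d1 * p0 - d0 * p1‖ ≤ K * ‖d0 + v * d1‖ * max ‖p0 + v * p1‖ ‖p1‖ ∧
      K * max ‖p0 + v * p1‖ ‖p1‖ * max ‖p0 + v * p1‖ ‖s0 + v * s1‖ < ‖p1 * s0 - p0 * s1‖) :
    ∫⁻ v in A, ENNReal.ofReal (‖q0 + (v : ℝ) * q1‖ ^ 2 /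
        ‖(d0 - Complex.I * p0) + (v : ℝ) * (d1 - Complex.I * p1)‖ ^ 2) ≤
      ENNReal.ofReal (7200 / K) *
        ∫⁻ v in Icc (-1 : ℝ) 1, ENNReal.ofReal (‖q0 + (v : ℝ) * q1‖ ^ 2 /
          ‖(d0 - Complex.I * p0) + (v : ℝ) * (d1 - Complex.I * p1)‖ ^ 2) := by
  rcases A.eq_empty_or_nonempty with hAe | ⟨v0, hv0⟩
  · rw [hAe]
    simp
  set W := ‖p1 * s0 - p0 * s1‖ with hW
  set M := max ‖p0 + p1‖ ‖p0 - p1‖ with hM
  have hK0 : 0 < K := by linarith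
  have key : ∀ v ∈ A, 0 < ‖p0 + v * p1‖ ∧ K * ‖s0 + v * s1‖ * M ≤ 3 * W ∧
      W ≤ 2 * (‖s1‖ * ‖p0 + v * p1‖) ∧ ‖d1‖ ≤ M := by
    intro v hv
    obtain ⟨hI, h2, h3, h4⟩ := hA v hv
    exact ptC d0 d1 p0 p1 s0 s1 hK hb hKb hM hI h2 (hne v hI) h3 h4
  have hW0 : 0 < W := by
    obtain ⟨-, -, -, h4⟩ := hA v0 hv0
    have h1 : 0 < max ‖p0 + v0 * p1‖ ‖p1‖ := lt_max_of_lt_left (key v0 hv0).1
    have h2 : 0 < max ‖p0 + v0 * p1‖ ‖s0 + v0 * s1‖ := lt_max_of_lt_left (key v0 hv0).1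
    exact lt_of_le_of_lt (by positivity) h4
  obtain ⟨hP0, -, hWs, hd1M⟩ := key v0 hv0
  have hs1 : 0 < ‖s1‖ := by
    by_contra hc
    have h10 : ‖s1‖ = 0 := le_antisymm (not_lt.mp hc) (norm_nonneg _)
    rw [h10] at hWs
    linarith
  have hMp : ‖p0 + v0 * p1‖ ≤ M := (M_facts p0 p1 (hA v0 hv0).1).2.1
  have hp1M : ‖p1‖ ≤ M := (M_facts p0 p1 (hA v0 hv0).1).1
  have hM0 : 0 < M := lt_of_lt_of_le hP0 hMp
  have hKM : 0 < K * M := by positivity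
  have dist : ∀ v ∈ A, ∀ v' ∈ A, |v - v'| * (K * M) ≤ 12 * ‖p0 + v * p1‖ := by
    intro v hv v' hv'
    obtain ⟨-, h4, h9, -⟩ := key v hv
    obtain ⟨-, h4', -, -⟩ := key v' hv'
    have h1 : ‖s1‖ * |v - v'| ≤ ‖s0 + v * s1‖ + ‖s0 + v' * s1‖ := by
      have h6 : s1 * ((v - v' : ℝ) : ℂ) = (s0 + v * s1) - (s0 + v' * s1) := by
        push_cast
        ring
      have h7 : ‖s1‖ * |v - v'| = ‖s1 * ((v - v' : ℝ) : ℂ)‖ := by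
        rw [norm_mul, Complex.norm_real, Real.norm_eq_abs]
      rw [h7, h6]
      exact norm_sub_le _ _
    have h2 : ‖s1‖ * (|v - v'| * (K * M)) ≤ ‖s1‖ * (12 * ‖p0 + v * p1‖) := by
      have h3 : ‖s1‖ * |v - v'| * (K * M) ≤ (‖s0 + v * s1‖ + ‖s0 + v' * s1‖) * (K * M) :=
        mul_le_mul_of_nonneg_right h1 hKM.le
      nlinarith
    exact le_of_mul_le_mul_left h2 hs1
  have comp : ∀ v ∈ A, ∀ v' ∈ A, ‖p0 + v' * p1‖ ≤ 3 / 2 * ‖p0 + v * p1‖ := by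
    intro v hv v' hv'
    have h1 := dist v hv v' hv'
    have h6 : p0 + v' * p1 = (p0 + v * p1) + ((v' - v : ℝ) : ℂ) * p1 := by
      push_cast
      ring
    have h2 : ‖p0 + v' * p1‖ ≤ ‖p0 + v * p1‖ + |v' - v| * ‖p1‖ := by
      rw [h6]
      refine (norm_add_le _ _).trans ?_
      rw [norm_mul, Complex.norm_real, Real.norm_eq_abs]
    have h3 : |v' - v| * ‖p1‖ ≤ |v - v'| * M := by
      rw [abs_sub_comm]
      exact mul_le_mul_of_nonneg_left hp1M (abs_nonneg _)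
    have h4 : 24 * (|v - v'| * M) ≤ 12 * ‖p0 + v * p1‖ := by
      have : 24 * (|v - v'| * M) ≤ K * (|v - v'| * M) :=
        mul_le_mul_of_nonneg_right hK (by positivity)
      nlinarith
    linarith
  set P0 := ‖p0 + v0 * p1‖ with hP0def
  set B := 400 * M / P0 with hB
  set L := 18 * P0 / (K * M) with hL
  have hB0 : 0 ≤ B := by positivity
  refine (small_set q0 q1 (d0 - Complex.I * p0) (d1 - Complex.I * p1) hAm (B := B) (L := L)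
    ?_ ?_).trans ?_
  · intro v hv v' hv'
    rw [hL, le_div_iff₀ hKM]
    have h1 := dist v hv v' hv'
    have h2 := comp v0 hv0 v hv
    linarith
  · intro v hv
    obtain ⟨hPv, -, -, -⟩ := key v hv
    have hI := (hA v hv).1
    have hD := hΔ v hI
    have hPM : ‖p0 + v * p1‖ ≤ M := (M_facts p0 p1 hI).2.1
    set ℓ := ‖p0 + v * p1‖ / (32 * M) with hℓ
    have hℓ0 : 0 < ℓ := by positivity
    have hℓ1 : ℓ ≤ 1 := by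
      rw [hℓ, div_le_one (by positivity)]
      linarith
    have he1 : ‖d1 - Complex.I * p1‖ ≤ 2 * M := by
      refine (norm_sub_le _ _).trans ?_
      rw [norm_mul, Complex.norm_I, one_mul]
      linarith
    have h1 := pt_bound q0 q1 (d0 - Complex.I * p0) (d1 - Complex.I * p1) (v := v) (ℓ := ℓ) hI
      hℓ0 hℓ1 (hne v hI) (by
        have h2 : ‖d1 - Complex.I * p1‖ * ℓ ≤ 2 * M * ℓ :=
          mul_le_mul_of_nonneg_right he1 hℓ0.le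
        have h3 : 2 * M * ℓ = ‖p0 + v * p1‖ / 16 := by
          rw [hℓ]
          field_simp
          norm_num
        rw [h3] at h2
        linarith)
    refine h1.trans ?_
    gcongr
    have h5 : P0 ≤ 3 / 2 * ‖p0 + v * p1‖ := comp v hv v0 hv0
    rw [hℓ, hB]
    rw [div_le_div_iff₀ (by positivity) hP0]
    have h6 : 400 * M * (4 * (‖p0 + v * p1‖ / (32 * M))) = 50 * ‖p0 + v * p1‖ := by
      field_simp
      norm_num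
    rw [h6]
    linarith
  · rw [← ENNReal.ofReal_mul hB0]
    gcongr
    rw [hB, hL]
    apply le_of_eq
    field_simp
    norm_num

end LL
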