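import Pool.Agent.Lib.MP_562b47_mp.LL.Defs

/-!
LinePt: one variable, pointwise bound of the weight by its integral.

PROOF.
* `aff_mean`: put `m = (l + r) / 2`, `h = (r - l) / 2 > 0`, `A = a + m c`. Then
  `∫_l^r ‖a + x c‖² dx = 2 h ‖A‖² + (2/3) h³ ‖c‖²` (`‖A + t c‖² = ‖A‖² + 2 t Re (A conj c) + t² ‖c‖²`
  is a polynomial in `t`), and for `v = m + t`, `|t| ≤ h`:
  `‖A + t c‖² ≤ (‖A‖ + h ‖c‖)² ≤ 4 (‖A‖² + h² ‖c‖² / 3)`. Convert with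
  `ofReal_integral_eq_lintegral_ofReal`, `intervalIntegral`, or compare directly.
* `pt_bound`: one of the intervals `[v, v + ℓ]`, `[v - ℓ, v]` is contained in `[-1, 1]`; on it
  `‖e0 + x e1‖ ≤ ‖e0 + v e1‖ + ‖e1‖ ℓ ≤ (5/4) ‖e0 + v e1‖`, so there
  `‖q‖² / ‖Δ(x)‖² ≥ (16/25) ‖q(x)‖² / ‖Δ(v)‖²` (if `Δ(x) = 0` the left side is `0` in Lean: but
  `‖Δ(x)‖ ≥ (3/4) ‖Δ(v)‖ > 0`, so this does not happen), and by `aff_mean` the integral over it is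
  `≥ (16/25) (ℓ/4) ‖q(v)‖² / ‖Δ(v)‖²`.
-/

set_option autoImplicit false

namespace LL

open MeasureTheory Set
open scoped ENNReal

private theorem lp_expand (a c : ℂ) (x : ℝ) :
    ‖a + x * c‖ ^ 2 = ‖a‖ ^ 2 + 2 * x * (a * (starRingEnd ℂ) c).re + x ^ 2 * ‖c‖ ^ 2 := by
  rw [← Complex.normSq_eq_norm_sq, ← Complex.normSq_eq_norm_sq, ← Complex.normSq_eq_norm_sq,
    Complex.normSq_add]
  simp only [map_mul, Complex.conj_ofReal, Complex.normSq_ofReal]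
  have h : (a * ((x : ℂ) * (starRingEnd ℂ) c)).re = x * (a * (starRingEnd ℂ) c).re := by
    simp only [Complex.mul_re, Complex.mul_im, Complex.ofReal_re, Complex.ofReal_im]
    ring
  rw [h]
  ring

private theorem lp_cs (a c : ℂ) : (a * (starRingEnd ℂ) c).re ≤ ‖a‖ * ‖c‖ ∧
    -(a * (starRingEnd ℂ) c).re ≤ ‖a‖ * ‖c‖ := by
  have h := Complex.abs_re_le_norm (a * (starRingEnd ℂ) c)
  rw [norm_mul, Complex.norm_conj] at h
  exact ⟨(le_abs_self _).trans h, (neg_le_abs _).trans h⟩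

private theorem lp_int (a c : ℂ) {l r : ℝ} (hlr : l ≤ r) :
    ∫⁻ x in Icc l r, ENNReal.ofReal (‖a + (x : ℝ) * c‖ ^ 2) = ENNReal.ofReal
      (‖a‖ ^ 2 * (r - l) + (a * (starRingEnd ℂ) c).re * (r ^ 2 - l ^ 2) +
        ‖c‖ ^ 2 * (r ^ 3 - l ^ 3) / 3) := by
  have hcont : Continuous fun x : ℝ => ‖a + (x : ℝ) * c‖ ^ 2 := by fun_prop
  rw [← ofReal_integral_eq_lintegral_ofReal (hcont.integrableOn_Icc)
    (Filter.Eventually.of_forall fun x => by positivity)]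
  congr 1
  rw [integral_Icc_eq_integral_Ioc, ← intervalIntegral.integral_of_le hlr]
  have h1 : ∀ x : ℝ, ‖a + (x : ℝ) * c‖ ^ 2 =
      ‖a‖ ^ 2 + 2 * (a * (starRingEnd ℂ) c).re * x + ‖c‖ ^ 2 * x ^ 2 := by
    intro x
    rw [lp_expand]
    ring
  simp only [h1]
  rw [intervalIntegral.integral_add, intervalIntegral.integral_add,
    intervalIntegral.integral_const_mul, intervalIntegral.integral_const_mul, integral_id,
    integral_pow, intervalIntegral.integral_const, smul_eq_mul]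
  · norm_num
    ring
  · exact (continuous_const).intervalIntegrable _ _
  · exact (by fun_prop : Continuous fun x : ℝ => 2 * (a * (starRingEnd ℂ) c).re * x).intervalIntegrable _ _
  · exact (by fun_prop : Continuous fun x : ℝ =>
      ‖a‖ ^ 2 + 2 * (a * (starRingEnd ℂ) c).re * x).intervalIntegrable _ _
  · exact (by fun_prop : Continuous fun x : ℝ => ‖c‖ ^ 2 * x ^ 2).intervalIntegrable _ _

theorem aff_mean (a c : ℂ) {l r v : ℝ} (hlr : l < r) (hv : v ∈ Icc l r) :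
    ENNReal.ofReal (‖a + v * c‖ ^ 2) ≤
      ENNReal.ofReal (4 / (r - l)) * ∫⁻ x in Icc l r, ENNReal.ofReal (‖a + (x : ℝ) * c‖ ^ 2) := by
  rw [lp_int a c hlr.le, ← ENNReal.ofReal_mul (by
    have : 0 < r - l := by linarith
    positivity)]
  refine ENNReal.ofReal_le_ofReal ?_
  have hd : 0 < r - l := by linarith
  have e1 : 4 / (r - l) * (‖a‖ ^ 2 * (r - l) + (a * (starRingEnd ℂ) c).re * (r ^ 2 - l ^ 2) +
        ‖c‖ ^ 2 * (r ^ 3 - l ^ 3) / 3) =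
      4 * (‖a‖ ^ 2 + (a * (starRingEnd ℂ) c).re * (r + l) +
        ‖c‖ ^ 2 * (r ^ 2 + r * l + l ^ 2) / 3) := by
    field_simp
    ring
  rw [e1]
  obtain ⟨m, hm⟩ : ∃ m : ℝ, m = (l + r) / 2 := ⟨_, rfl⟩
  obtain ⟨h, hh⟩ : ∃ h : ℝ, h = (r - l) / 2 := ⟨_, rfl⟩
  obtain ⟨A, hA⟩ : ∃ A : ℂ, A = a + m * c := ⟨_, rfl⟩
  have hy : ‖A‖ ^ 2 = ‖a‖ ^ 2 + 2 * m * (a * (starRingEnd ℂ) c).re + m ^ 2 * ‖c‖ ^ 2 := by
    rw [hA, lp_expand]
  have hl : l = m - h := by rw [hm, hh]; ring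
  have hr : r = m + h := by rw [hm, hh]; ring
  have e2 : 4 * (‖a‖ ^ 2 + (a * (starRingEnd ℂ) c).re * (r + l) +
        ‖c‖ ^ 2 * (r ^ 2 + r * l + l ^ 2) / 3) = 4 * ‖A‖ ^ 2 + 4 / 3 * (h * ‖c‖) ^ 2 := by
    rw [hy, hl, hr]
    ring
  rw [e2]
  have h0 : 0 ≤ h := by rw [hh]; linarith
  have hτ : |v - m| ≤ h := by
    rw [abs_le]
    constructor
    · rw [hl] at hv; linarith [hv.1]
    · rw [hr] at hv; linarith [hv.2]
  have e3 : a + v * c = A + ((v - m : ℝ) : ℂ) * c := by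
    rw [hA]
    push_cast
    ring
  have e4 : ‖a + v * c‖ ≤ ‖A‖ + h * ‖c‖ := by
    rw [e3]
    refine (norm_add_le _ _).trans ?_
    rw [norm_mul, Complex.norm_real, Real.norm_eq_abs]
    have := mul_le_mul_of_nonneg_right hτ (norm_nonneg c)
    linarith
  have e5 : ‖a + v * c‖ ^ 2 ≤ (‖A‖ + h * ‖c‖) ^ 2 := pow_le_pow_left₀ (norm_nonneg _) e4 2
  nlinarith [sq_nonneg (3 * ‖A‖ - h * ‖c‖)]

theorem pt_bound (q0 q1 e0 e1 : ℂ) {v ℓ : ℝ} (hv : v ∈ Icc (-1 : ℝ) 1) (hℓ : 0 < ℓ) (hℓ1 : ℓ ≤ 1)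
    (hne : e0 + v * e1 ≠ 0) (he : ‖e1‖ * ℓ ≤ ‖e0 + v * e1‖ / 4) :
    ENNReal.ofReal (‖q0 + v * q1‖ ^ 2 / ‖e0 + v * e1‖ ^ 2) ≤
      ENNReal.ofReal (25 / (4 * ℓ)) *
        ∫⁻ x in Icc (-1 : ℝ) 1, ENNReal.ofReal (‖q0 + (x : ℝ) * q1‖ ^ 2 / ‖e0 + (x : ℝ) * e1‖ ^ 2) := by
  obtain ⟨l, r, hl, hr, hlr, hvl, hvr⟩ : ∃ l r : ℝ, -1 ≤ l ∧ r ≤ 1 ∧ r - l = ℓ ∧ l ≤ v ∧ v ≤ r := by
    rcases le_total v 0 with h | h
    · exact ⟨v, v + ℓ, hv.1, by linarith, by ring, le_rfl, by linarith⟩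
    · exact ⟨v - ℓ, v, by linarith, hv.2, by ring, by linarith, le_rfl⟩
  have hE : 0 < ‖e0 + v * e1‖ := norm_pos_iff.2 hne
  obtain ⟨E, hEd⟩ : ∃ E : ℝ, E = ‖e0 + v * e1‖ := ⟨_, rfl⟩
  rw [← hEd] at hE he
  have hmean := aff_mean q0 q1 (l := l) (r := r) (v := v) (by linarith) ⟨hvl, hvr⟩
  rw [hlr] at hmean
  have h1 : ENNReal.ofReal (‖q0 + v * q1‖ ^ 2 / ‖e0 + v * e1‖ ^ 2) =
      ENNReal.ofReal (1 / E ^ 2) * ENNReal.ofReal (‖q0 + v * q1‖ ^ 2) := by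
    rw [← ENNReal.ofReal_mul (by positivity), ← hEd]
    congr 1
    ring
  rw [h1]
  calc ENNReal.ofReal (1 / E ^ 2) * ENNReal.ofReal (‖q0 + v * q1‖ ^ 2) ≤
      ENNReal.ofReal (1 / E ^ 2) * (ENNReal.ofReal (4 / ℓ) *
        ∫⁻ x in Icc l r, ENNReal.ofReal (‖q0 + (x : ℝ) * q1‖ ^ 2)) := by gcongr
    _ = ∫⁻ x in Icc l r, ENNReal.ofReal (1 / E ^ 2 * (4 / ℓ)) *
          ENNReal.ofReal (‖q0 + (x : ℝ) * q1‖ ^ 2) := by
        rw [lintegral_const_mul' _ _ ENNReal.ofReal_ne_top, ENNReal.ofReal_mul (by positivity),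
          mul_assoc]
    _ ≤ ∫⁻ x in Icc l r, ENNReal.ofReal (25 / (4 * ℓ)) *
          ENNReal.ofReal (‖q0 + (x : ℝ) * q1‖ ^ 2 / ‖e0 + (x : ℝ) * e1‖ ^ 2) := by
        refine setLIntegral_mono' measurableSet_Icc fun x hx => ?_
        rw [← ENNReal.ofReal_mul (by positivity), ← ENNReal.ofReal_mul (by positivity)]
        refine ENNReal.ofReal_le_ofReal ?_
        have hxv : |x - v| ≤ ℓ := by
          rw [abs_le]
          constructor <;> linarith [hx.1, hx.2]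
        have e3 : e0 + x * e1 = (e0 + v * e1) + ((x - v : ℝ) : ℂ) * e1 := by
          push_cast
          ring
        have e4 : ‖((x - v : ℝ) : ℂ) * e1‖ ≤ E / 4 := by
          rw [norm_mul, Complex.norm_real, Real.norm_eq_abs]
          have := mul_le_mul_of_nonneg_right hxv (norm_nonneg e1)
          linarith
        have e5 : ‖e0 + x * e1‖ ≤ 5 / 4 * E := by
          rw [e3]
          refine (norm_add_le _ _).trans ?_
          rw [← hEd]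
          linarith
        have e6 : 0 < ‖e0 + x * e1‖ := by
          have h2 := norm_sub_norm_le (e0 + v * e1) (-(((x - v : ℝ) : ℂ) * e1))
          rw [norm_neg, sub_neg_eq_add, ← e3, ← hEd] at h2
          linarith
        have e7 : ‖e0 + x * e1‖ ^ 2 ≤ (5 / 4 * E) ^ 2 := pow_le_pow_left₀ e6.le e5 2
        have e8 : 1 / E ^ 2 ≤ 25 / 16 / ‖e0 + x * e1‖ ^ 2 := by
          rw [div_le_div_iff₀ (by positivity) (by positivity)]
          nlinarith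
        have hn : 0 ≤ ‖q0 + x * q1‖ ^ 2 := by positivity
        calc 1 / E ^ 2 * (4 / ℓ) * ‖q0 + x * q1‖ ^ 2 ≤
            25 / 16 / ‖e0 + x * e1‖ ^ 2 * (4 / ℓ) * ‖q0 + x * q1‖ ^ 2 := by gcongr
          _ = 25 / (4 * ℓ) * (‖q0 + x * q1‖ ^ 2 / ‖e0 + x * e1‖ ^ 2) := by
              field_simp
              ring
    _ = ENNReal.ofReal (25 / (4 * ℓ)) * ∫⁻ x in Icc l r,
          ENNReal.ofReal (‖q0 + (x : ℝ) * q1‖ ^ 2 / ‖e0 + (x : ℝ) * e1‖ ^ 2) := by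
        rw [lintegral_const_mul' _ _ ENNReal.ofReal_ne_top]
    _ ≤ _ := by
        gcongr

/-- a set of small diameter on which the weight is at most `B` times its total mass -/
theorem small_set (q0 q1 e0 e1 : ℂ) {A : Set ℝ} (hA : MeasurableSet A) {B L : ℝ}
    (hL : ∀ v ∈ A, ∀ v' ∈ A, |v - v'| ≤ L)
    (hB : ∀ v ∈ A, ENNReal.ofReal (‖q0 + v * q1‖ ^ 2 / ‖e0 + v * e1‖ ^ 2) ≤
      ENNReal.ofReal B *
        ∫⁻ x in Icc (-1 : ℝ) 1, ENNReal.ofReal (‖q0 + (x : ℝ) * q1‖ ^ 2 / ‖e0 + (x : ℝ) * e1‖ ^ 2)) :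
    ∫⁻ v in A, ENNReal.ofReal (‖q0 + (v : ℝ) * q1‖ ^ 2 / ‖e0 + (v : ℝ) * e1‖ ^ 2) ≤
      ENNReal.ofReal B * ENNReal.ofReal L *
        ∫⁻ x in Icc (-1 : ℝ) 1, ENNReal.ofReal (‖q0 + (x : ℝ) * q1‖ ^ 2 / ‖e0 + (x : ℝ) * e1‖ ^ 2) := by
  obtain ⟨I, hI⟩ : ∃ I : ℝ≥0∞, I = ∫⁻ x in Icc (-1 : ℝ) 1,
    ENNReal.ofReal (‖q0 + (x : ℝ) * q1‖ ^ 2 / ‖e0 + (x : ℝ) * e1‖ ^ 2) := ⟨_, rfl⟩
  rw [← hI] at hB ⊢
  have hvol : volume A ≤ ENNReal.ofReal L := by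
    refine (Real.volume_le_diam A).trans ?_
    refine Metric.ediam_le fun x hx y hy => ?_
    rw [edist_dist, Real.dist_eq]
    exact ENNReal.ofReal_le_ofReal (hL x hx y hy)
  calc ∫⁻ v in A, ENNReal.ofReal (‖q0 + (v : ℝ) * q1‖ ^ 2 / ‖e0 + (v : ℝ) * e1‖ ^ 2) ≤
      ∫⁻ _ in A, ENNReal.ofReal B * I := setLIntegral_mono' hA fun v hv => hB v hv
    _ = ENNReal.ofReal B * I * volume A := by rw [setLIntegral_const]
    _ ≤ ENNReal.ofReal B * I * ENNReal.ofReal L := by gcongr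
    _ = ENNReal.ofReal B * ENNReal.ofReal L * I := by ring

end LL
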