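import Pool.Agent.Lib.MP_562b47_mp.LL.Defs

/-!
MA1: multi-affine functions, one coordinate.

PROOF. Everything is `Function.update` algebra: `Function.update_idem`, `Function.update_comm`,
`Function.update_eq_self`.
* `pd_update_self`: `update (update V i s) i 1 = update V i 1`.
* `pd_comm`: unfold; for `i = j` trivial, for `i ≠ j` use `Function.update_comm`.
* `MA.pd`: if `i = j` then `pd j f (update V j s) = pd j f V` (`pd_update_self`) and
  `pd j (pd j f) V = 0`; if `i ≠ j` then `update (update V i s) j a = update (update V j a) i s` and
  `f (update (update V j a) i s) = f (update (update V j a) i 0) + s * pd i f (update V j a)` for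
  `a = 0, 1`; subtract.
* `MA.line`: subtract the defining equation for `s` and `t`.
-/

set_option autoImplicit false

namespace LL

open Finset

variable {ι : Type*} [Fintype ι] [DecidableEq ι]

theorem pd_update_self (i : ι) (f : (ι → ℂ) → ℂ) (V : ι → ℂ) (s : ℂ) :
    pd i f (Function.update V i s) = pd i f V := by
  unfold pd
  rw [Function.update_idem, Function.update_idem]

theorem pd_self_pd (i : ι) (f : (ι → ℂ) → ℂ) (V : ι → ℂ) : pd i (pd i f) V = 0 := by
  change pd i f (Function.update V i 1) - pd i f (Function.update V i 0) = 0
  rw [pd_update_self, pd_update_self, sub_self]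

theorem pd_comm (i j : ι) (f : (ι → ℂ) → ℂ) (V : ι → ℂ) : pd i (pd j f) V = pd j (pd i f) V := by
  by_cases h : i = j
  · rw [h]
  · unfold pd
    rw [Function.update_comm h, Function.update_comm h, Function.update_comm h,
      Function.update_comm h]
    ring

theorem MA.pd {f : (ι → ℂ) → ℂ} (hf : MA f) (j : ι) : MA (pd j f) := by
  intro V i s
  by_cases h : i = j
  · subst h
    rw [pd_update_self, pd_update_self, pd_self_pd, mul_zero, add_zero]
  · have h1 := hf (Function.update V j 1) i s
    have h0 := hf (Function.update V j 0) i s
    rw [pd_comm]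
    have hc : ∀ a b : ℂ, Function.update (Function.update V i a) j b =
        Function.update (Function.update V j b) i a := fun a b => Function.update_comm h a b V
    unfold LL.pd at *
    rw [hc, hc, hc, hc]
    linear_combination h1 - h0

theorem MA.line {f : (ι → ℂ) → ℂ} (hf : MA f) (V : ι → ℂ) (i : ι) (s t : ℂ) :
    f (Function.update V i s) = f (Function.update V i t) + (s - t) * LL.pd i f V := by
  have h1 := hf V i s
  have h2 := hf V i t
  linear_combination h1 - h2

theorem MA.line_self {f : (ι → ℂ) → ℂ} (hf : MA f) (V : ι → ℂ) (i : ι) (s : ℂ) :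
    f (Function.update V i s) = f V + (s - V i) * LL.pd i f V := by
  have h1 := hf.line V i s (V i)
  rw [Function.update_eq_self] at h1
  exact h1

theorem MA.sub_smul {f g : (ι → ℂ) → ℂ} (hf : MA f) (hg : MA g) (c : ℂ) :
    MA (fun V => f V - c * g V) := by
  intro V i s
  have h1 := hf V i s
  have h2 := hg V i s
  unfold LL.pd at *
  linear_combination h1 - c * h2

theorem MA.neg {f : (ι → ℂ) → ℂ} (hf : MA f) : MA (fun V => -f V) := by
  intro V i s
  have h1 := hf V i s
  unfold LL.pd at *
  linear_combination -h1

theorem cc_update (V : ι → ℝ) (i : ι) (s : ℝ) :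
    cc (Function.update V i s) = Function.update (cc V) i (s : ℂ) := by
  funext j
  unfold cc
  by_cases h : j = i
  · subst h
    rw [Function.update_self, Function.update_self]
  · rw [Function.update_of_ne h, Function.update_of_ne h]

end LL
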