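import Mathlib

/-!
Num: the choice of the constants.

PROOF. `K = n^(κ+20)`, `C1 = C0 (κ + 21) + κ + 10`, `g = n^C1`, `C = C1 + 2 κ + 50`, `b = n^(-C)`,
`ε = (n K)^C0 / g = n^(-κ-10)`. Use `n ≥ 2`, so `n^k ≥ 2^k`:
`K ≥ 2^20 ≥ 24`; `g ≥ 2`; `200 K² n² g b = 200 n^(2κ + 42 + C1 - C) = 200 n^(-8) ≤ 200/256 ≤ 1`;
`8 K b g ≤ 1` and `2 K b ≤ 1` follow; `n · 4000 (1/K + b) ≤ 4000 (n^(-κ-19) + n^(-κ-49)) ≤ n^(-κ) / 50`;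
`n² · 7200 / K = 7200 n^(-κ-18) ≤ n^(-κ) / 30`; `(1 + ε)^n - 1 ≤ exp (n ε) - 1 ≤ 2 n ε = 2 n^(-κ-9) ≤ n^(-κ)/100`.
-/

set_option autoImplicit false

namespace LL

private theorem num_pow (t : ℝ) (n : ℕ) (h0 : 0 ≤ t) (h1 : n * t ≤ 1 / 2) :
    (1 + t) ^ n - 1 ≤ 2 * (n * t) := by
  have h2 : (1 + t) ^ n ≤ Real.exp (n * t) := by
    rw [Real.exp_nat_mul]
    refine pow_le_pow_left₀ (by linarith) ?_ n
    linarith [Real.add_one_le_exp t]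
  have h3 : Real.exp (n * t) ≤ 1 / (1 - n * t) :=
    Real.exp_bound_div_one_sub_of_interval (by positivity) (by linarith)
  have h4 : 1 / (1 - n * t) ≤ 1 + 2 * (n * t) := by
    rw [div_le_iff₀ (by linarith)]
    have : 0 ≤ (n : ℝ) * t := by positivity
    nlinarith
  linarith

private theorem num_inv (x : ℝ) (hx : 2 ≤ x) (j : ℕ) : (x ^ j)⁻¹ ≤ ((2 : ℝ) ^ j)⁻¹ :=
  inv_anti₀ (by positivity) (pow_le_pow_left₀ (by norm_num) hx j)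

theorem num (κ C0 : ℕ) : ∃ C : ℕ, ∀ n : ℕ, 2 ≤ n → ∃ b K g : ℝ, b = ((n : ℝ) ^ C)⁻¹ ∧
    0 < b ∧ 24 ≤ K ∧ 2 ≤ g ∧ 2 * (K * b) ≤ 1 ∧ 8 * (K * b * g) ≤ 1 ∧
    200 * K ^ 2 * (n : ℝ) ^ 2 * g * b ≤ 1 ∧ 0 ≤ (n * K) ^ C0 / g ∧
    n * (4000 * (1 / K + b)) + n ^ 2 * (7200 / K) + ((1 + (n * K) ^ C0 / g) ^ n - 1) ≤
      ((n : ℝ) ^ κ)⁻¹ := by
  refine ⟨(C0 * (κ + 21) + κ + 10) + 2 * κ + 50, fun n hn => ?_⟩
  obtain ⟨x, hx⟩ : ∃ x : ℝ, x = (n : ℝ) := ⟨_, rfl⟩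
  have hx2 : 2 ≤ x := by rw [hx]; exact_mod_cast hn
  have hx0 : 0 < x := by linarith
  have hx1 : 1 ≤ x := by linarith
  obtain ⟨y, hy⟩ : ∃ y : ℝ, y = x ^ κ := ⟨_, rfl⟩
  have hy0 : 0 < y := by rw [hy]; positivity
  have hy1 : 1 ≤ y := by rw [hy]; exact one_le_pow₀ hx1
  obtain ⟨G, hG⟩ : ∃ G : ℝ, G = x ^ (C0 * (κ + 21) + κ + 10) := ⟨_, rfl⟩
  have hG0 : 0 < G := by rw [hG]; positivity
  have hG2 : 2 ≤ G := by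
    rw [hG]
    calc (2 : ℝ) ≤ x ^ 1 := by rw [pow_one]; exact hx2
      _ ≤ x ^ (C0 * (κ + 21) + κ + 10) := pow_le_pow_right₀ hx1 (by omega)
  have hp : ∀ j : ℕ, (2 : ℝ) ^ j ≤ x ^ j := fun j => pow_le_pow_left₀ (by norm_num) hx2 j
  have hb : x ^ ((C0 * (κ + 21) + κ + 10) + 2 * κ + 50) = G * y ^ 2 * x ^ 50 := by
    rw [hG, hy, pow_add, pow_add, ← pow_mul, mul_comm 2 κ]
  have hK : x ^ (κ + 20) = y * x ^ 20 := by rw [hy, pow_add]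
  have he : (x * x ^ (κ + 20)) ^ C0 / G = (y * x ^ 10)⁻¹ := by
    rw [hG, hy, ← pow_succ', ← pow_mul, ← pow_add, ← one_div, div_eq_div_iff (by positivity) (by positivity),
      one_mul, ← pow_add]
    congr 1
    ring
  refine ⟨(x ^ ((C0 * (κ + 21) + κ + 10) + 2 * κ + 50))⁻¹, x ^ (κ + 20), G, ?_, ?_, ?_, hG2,
    ?_, ?_, ?_, ?_, ?_⟩
  · rw [hx]
  · positivity
  · calc (24 : ℝ) ≤ 2 ^ 20 := by norm_num
      _ ≤ x ^ 20 := hp 20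
      _ ≤ x ^ (κ + 20) := pow_le_pow_right₀ hx1 (by omega)
  · rw [hb, hK, ← div_eq_mul_inv, mul_div_assoc', div_le_one (by positivity)]
    have h50 : x ^ 50 = x ^ 20 * x ^ 30 := by rw [← pow_add]
    have h1 : (2 : ℝ) ≤ x ^ 30 := le_trans (by norm_num) (hp 30)
    calc 2 * (y * x ^ 20) = 2 * (1 * y * 1 * x ^ 20) := by ring
      _ ≤ x ^ 30 * (G * y * y * x ^ 20) := by
          have hGy : 1 * y * 1 ≤ G * y * y := by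
            have : 1 * y ≤ G * y := mul_le_mul_of_nonneg_right (by linarith) hy0.le
            exact mul_le_mul this hy1 (by norm_num) (by positivity)
          exact mul_le_mul h1 (mul_le_mul_of_nonneg_right hGy (by positivity)) (by positivity)
            (by positivity)
      _ = G * y ^ 2 * x ^ 50 := by rw [h50]; ring
  · rw [hb, hK]
    have h50 : x ^ 50 = x ^ 20 * x ^ 30 := by rw [← pow_add]
    have h1 : (8 : ℝ) ≤ x ^ 30 := le_trans (by norm_num) (hp 30)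
    have h2 : 8 * (y * x ^ 20 * (G * y ^ 2 * x ^ 50)⁻¹ * G) = 8 / (y * x ^ 30) := by
      rw [h50]
      field_simp
    rw [h2, div_le_one (by positivity)]
    nlinarith
  · rw [← hx, hb, hK]
    have h50 : x ^ 50 = x ^ 20 * x ^ 20 * x ^ 2 * x ^ 8 := by rw [← pow_add, ← pow_add, ← pow_add]
    have h1 : (200 : ℝ) ≤ x ^ 8 := le_trans (by norm_num) (hp 8)
    have h2 : 200 * (y * x ^ 20) ^ 2 * x ^ 2 * G * (G * y ^ 2 * x ^ 50)⁻¹ = 200 / x ^ 8 := by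
      rw [h50]
      field_simp
    rw [h2, div_le_one (by positivity)]
    exact h1
  · positivity
  · rw [← hx, he, hb, hK, ← hy]
    have hi10 : ((x : ℝ) ^ 9)⁻¹ ≤ ((2 : ℝ) ^ 9)⁻¹ := num_inv x hx2 9
    have hi18 : ((x : ℝ) ^ 18)⁻¹ ≤ ((2 : ℝ) ^ 18)⁻¹ := num_inv x hx2 18
    have hi19 : ((x : ℝ) ^ 19)⁻¹ ≤ ((2 : ℝ) ^ 19)⁻¹ := num_inv x hx2 19
    have hi49 : ((x : ℝ) ^ 49)⁻¹ ≤ ((2 : ℝ) ^ 49)⁻¹ := num_inv x hx2 49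
    have hyi0 : 0 < y⁻¹ := by positivity
    have hyi1 : y⁻¹ ≤ 1 := inv_le_one_of_one_le₀ hy1
    have hGi : G⁻¹ ≤ 1 := inv_le_one_of_one_le₀ (by linarith)
    have hGi0 : 0 < G⁻¹ := by positivity
    have e1 : (n : ℝ) * (y * x ^ 10)⁻¹ = y⁻¹ * (x ^ 9)⁻¹ := by
      rw [← hx, show x ^ 10 = x * x ^ 9 by ring]
      field_simp
    have hsmall : (n : ℝ) * (y * x ^ 10)⁻¹ ≤ 1 / 2 := by
      rw [e1]
      calc y⁻¹ * (x ^ 9)⁻¹ ≤ 1 * ((2 : ℝ) ^ 9)⁻¹ :=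
            mul_le_mul hyi1 hi10 (by positivity) (by norm_num)
        _ ≤ 1 / 2 := by norm_num
    have h3 := num_pow ((y * x ^ 10)⁻¹) n (by positivity) hsmall
    rw [e1] at h3
    have e2 : x * (4000 * (1 / (y * x ^ 20) + (G * y ^ 2 * x ^ 50)⁻¹)) =
        4000 * (y⁻¹ * (x ^ 19)⁻¹) + 4000 * (G⁻¹ * y⁻¹ * y⁻¹ * (x ^ 49)⁻¹) := by
      rw [show x ^ 20 = x * x ^ 19 by ring, show x ^ 50 = x * x ^ 49 by ring]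
      field_simp
    have e3 : x ^ 2 * (7200 / (y * x ^ 20)) = 7200 * (y⁻¹ * (x ^ 18)⁻¹) := by
      rw [show x ^ 20 = x ^ 2 * x ^ 18 by ring]
      field_simp
    rw [e2, e3]
    have b1 : y⁻¹ * (x ^ 19)⁻¹ ≤ y⁻¹ * ((2 : ℝ) ^ 19)⁻¹ := mul_le_mul_of_nonneg_left hi19 hyi0.le
    have b2 : y⁻¹ * (x ^ 18)⁻¹ ≤ y⁻¹ * ((2 : ℝ) ^ 18)⁻¹ := mul_le_mul_of_nonneg_left hi18 hyi0.le
    have b3 : y⁻¹ * (x ^ 9)⁻¹ ≤ y⁻¹ * ((2 : ℝ) ^ 9)⁻¹ := mul_le_mul_of_nonneg_left hi10 hyi0.le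
    have b4 : G⁻¹ * y⁻¹ * y⁻¹ * (x ^ 49)⁻¹ ≤ y⁻¹ * ((2 : ℝ) ^ 49)⁻¹ := by
      have : G⁻¹ * y⁻¹ * y⁻¹ ≤ 1 * y⁻¹ := by
        refine mul_le_mul_of_nonneg_right ?_ hyi0.le
        calc G⁻¹ * y⁻¹ ≤ 1 * 1 := mul_le_mul hGi hyi1 hyi0.le (by norm_num)
          _ = 1 := one_mul 1
      rw [one_mul] at this
      exact mul_le_mul this hi49 (by positivity) hyi0.le
    have hfin : y⁻¹ * (4000 * ((2 : ℝ) ^ 19)⁻¹ + 4000 * ((2 : ℝ) ^ 49)⁻¹ +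
        7200 * ((2 : ℝ) ^ 18)⁻¹ + 2 * ((2 : ℝ) ^ 9)⁻¹) ≤ y⁻¹ * 1 :=
      mul_le_mul_of_nonneg_left (by norm_num) hyi0.le
    linarith

end LL
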