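import Pool.Agent.Lib.MP_562b47_mp.LL.E9
import Pool.Agent.Lib.MP_562b47_mp.LL.E13
import Pool.Agent.Lib.MP_562b47_mp.LL.E14

/-!
StepE: the bound for the events `E_I` (form without `η`, after helper89's core lemma).
-/

set_option autoImplicit false

namespace LL

open MeasureTheory Set
open scoped ENNReal

variable {ι : Type*} [Fintype ι] [DecidableEq ι]

theorem ae_cube (I : Finset ι) : ∀ᵐ y ∂(Measure.pi fun _ : {i // i ∈ I} => mu1),
    ∀ i, y i ∈ Icc (-1 : ℝ) 1 := by
  unfold mu1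
  rw [← Measure.restrict_pi_pi]
  have h := ae_restrict_mem (μ := Measure.pi fun _ : {i // i ∈ I} => (volume : Measure ℝ))
    (MeasurableSet.univ_pi fun _ : {i // i ∈ I} => measurableSet_Icc (a := (-1 : ℝ)) (b := 1))
  filter_upwards [h] with y hy i using hy i (mem_univ i)

theorem sq_sum_le (I : Finset ι) (d : Finset ι → ℝ) :
    (∑ J ∈ I.powerset, 2 ^ J.card * d J) ^ 2 ≤
      8 ^ I.card * ∑ J ∈ I.powerset, d J ^ 2 := by
  have h1 : (∑ J ∈ I.powerset, 2 ^ J.card * d J) ^ 2 ≤
      (I.powerset.card : ℝ) * ∑ J ∈ I.powerset, (2 ^ J.card * d J) ^ 2 :=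
    sq_sum_le_card_mul_sum_sq
  refine h1.trans ?_
  rw [Finset.card_powerset]
  push_cast
  have h2 : ∑ J ∈ I.powerset, (2 ^ J.card * d J) ^ 2 ≤
      ∑ J ∈ I.powerset, 4 ^ I.card * d J ^ 2 := by
    apply Finset.sum_le_sum
    intro J hJ
    rw [mul_pow, ← pow_mul, mul_comm J.card 2, pow_mul]
    norm_num
    refine mul_le_mul_of_nonneg_right ?_ (sq_nonneg _)
    exact pow_le_pow_right₀ (by norm_num) (Finset.card_le_card (Finset.mem_powerset.mp hJ))
  calc (2 : ℝ) ^ I.card * ∑ J ∈ I.powerset, (2 ^ J.card * d J) ^ 2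
      ≤ (2 : ℝ) ^ I.card * ∑ J ∈ I.powerset, 4 ^ I.card * d J ^ 2 := by gcongr
    _ = 8 ^ I.card * ∑ J ∈ I.powerset, d J ^ 2 := by
        rw [← Finset.mul_sum, ← mul_assoc, ← mul_pow]; norm_num

namespace Dat

variable (D : Dat ι)

theorem nu_apply {s : Set (ι → ℝ)} (hs : MeasurableSet s) :
    D.nu s = ∫⁻ V, s.indicator D.wt V ∂MU ι := by
  rw [nu, withDensity_apply _ hs, lintegral_indicator hs]

theorem fibre {b K g : ℝ} (hb : 0 < b) (hK : 24 ≤ K) (hg : 2 ≤ g) (hKbg : 8 * (K * b * g) ≤ 1)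
    {n : ℕ} (hn : 1 ≤ n) (hcard : Fintype.card ι ≤ n) (I : Finset ι) (V : ι → ℝ) :
    (∫⋯∫⁻_I, {V | D.evE b K g n I V}.indicator D.wt ∂fun _ => mu1) V ≤
      ENNReal.ofReal (((n * K) ^ 30 / g) ^ I.card) *
        (∫⋯∫⁻_I, D.wt ∂fun _ => mu1) V := by
  have hn' : (1 : ℝ) ≤ n := by exact_mod_cast hn
  set k := I.card with hk
  set c : ℝ := ‖pdS I D.qq (cc V)‖ with hc
  let F : ({i // i ∈ I} → ℝ) → ι → ℝ := fun y => Function.updateFinset V I y
  have hFoff : ∀ y i, i ∉ I → F y i = V i := fun y i hi => by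
    simp [F, Function.updateFinset, hi]
  have hFon : ∀ y (i : {i // i ∈ I}), F y i.1 = y i := fun y i => by
    simp [F, Function.updateFinset, i.2]
  let Cu : Set ({i // i ∈ I} → ℝ) := {y | ∀ i, y i ∈ Icc (-1 : ℝ) 1}
  let S : ℝ≥0∞ := ⨆ y ∈ Cu, ‖D.De (cc (F y))‖ₑ
  have hpdS : ∀ y, ‖pdS I D.qq (cc (F y))‖ = c := fun y => by
    rw [hc]; congr 1
    apply pdS_congr
    intro i hi
    simp only [cc]
    rw [hFoff y i hi]
  have hwt : ∀ W, D.wt W = ENNReal.ofReal (‖D.qq (cc W)‖ ^ 2) / ‖D.De (cc W)‖ₑ ^ 2 := fun W => by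
    have h0 : 0 < ‖D.De (cc W)‖ := norm_pos_iff.mpr (D.De_ne W)
    rw [wt, D.norm_pf, div_pow, ENNReal.ofReal_div_of_pos (by positivity), ← ofReal_norm,
      ENNReal.ofReal_pow (norm_nonneg (D.De (cc W)))]
  -- lower bound
  have hlow : ENNReal.ofReal ((2 / 3) ^ k * c ^ 2) / S ^ 2 ≤
      (∫⋯∫⁻_I, D.wt ∂fun _ => mu1) V := by
    have h1 := low D.MA_qq I V
    have h2 : (S ^ 2)⁻¹ * (∫⋯∫⁻_I, (fun V => ENNReal.ofReal (‖D.qq (cc V)‖ ^ 2)) ∂fun _ => mu1) V ≤
        (∫⋯∫⁻_I, D.wt ∂fun _ => mu1) V := by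
      unfold lmarginal
      have hm : Measurable fun y : {i // i ∈ I} → ℝ =>
          ENNReal.ofReal (‖D.qq (cc (Function.updateFinset V I y))‖ ^ 2) :=
        (ENNReal.measurable_ofReal.comp (D.continuous_qq.norm.pow 2).measurable).comp
          measurable_updateFinset
      rw [← lintegral_const_mul _ hm]
      apply lintegral_mono_ae
      filter_upwards [ae_cube I] with y hy
      rw [hwt, ENNReal.div_eq_inv_mul]
      refine mul_le_mul_left ?_ _
      apply ENNReal.inv_le_inv.mpr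
      exact pow_le_pow_left₀ zero_le
        (le_iSup₂ (f := fun y (_ : y ∈ Cu) => ‖D.De (cc (F y))‖ₑ) y hy) 2
    refine le_trans ?_ h2
    rw [ENNReal.div_eq_inv_mul]
    exact mul_le_mul_right h1 _
  -- upper bound
  set A : ℝ := 2 ^ 40 * (n : ℝ) ^ 28 * K ^ 2 / g with hA
  have hA0 : 0 ≤ A := by positivity
  have hup : (∫⋯∫⁻_I, {V | D.evE b K g n I V}.indicator D.wt ∂fun _ => mu1) V ≤
      (ENNReal.ofReal (c ^ 2 * (16 * (n : ℝ) ^ 2) ^ k * 8 ^ k) / S ^ 2) *
        (2 ^ k * ENNReal.ofReal (A ^ k)) := by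
    have h1 : (∫⋯∫⁻_I, {V | D.evE b K g n I V}.indicator D.wt ∂fun _ => mu1) V ≤
        ∫⁻ y, (ENNReal.ofReal (c ^ 2 * (16 * (n : ℝ) ^ 2) ^ k * 8 ^ k) / S ^ 2) *
          ∑ J ∈ I.powerset, D.fE b K g n I J I (Function.updateFinset V I y)
          ∂(Measure.pi fun _ : {i // i ∈ I} => mu1) := by
      unfold lmarginal
      apply lintegral_mono_ae
      filter_upwards [ae_cube I] with y hy
      by_cases hE : D.evE b K g n I (Function.updateFinset V I y)
      · rw [indicator_of_mem (show Function.updateFinset V I y ∈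
          {V | D.evE b K g n I V} from hE)]
        have hFE : ∀ J, D.fE b K g n I J I (Function.updateFinset V I y) =
            ENNReal.ofReal (‖(D.GJ J (F y)).det‖ ^ 2 *
              ∏ i ∈ I, (D.om i (F y) / D.gi i (F y)) ^ 2) := fun J => by
          unfold fE
          rw [indicator_of_mem (show Function.updateFinset V I y ∈
            {V | D.evE b K g n I V} from hE)]
        simp only [hFE]
        change D.wt (F y) ≤ _
        change D.evE b K g n I (F y) at hE
        have hDe : 0 < ‖D.De (cc (F y))‖ := norm_pos_iff.mpr (D.De_ne (F y))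
        set X : ℝ := ∑ J ∈ I.powerset, 2 ^ J.card * ‖(D.GJ J (F y)).det‖ with hX
        have hX0 : 0 ≤ X := Finset.sum_nonneg fun J _ => by positivity
        have hSle : S ≤ ENNReal.ofReal (‖D.De (cc (F y))‖ * X) := by
          apply iSup₂_le
          intro y' hy'
          rw [← ofReal_norm]
          apply ENNReal.ofReal_le_ofReal
          apply D.De_sup I (F y) (F y')
          · intro i hi
            rw [hFoff y i hi, hFoff y' i hi]
          · intro i
            by_cases hi : i ∈ I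
            · have e1 := hFon y ⟨i, hi⟩
              have e2 := hFon y' ⟨i, hi⟩
              simp only at e1 e2
              rw [e1, e2]
              have := hy ⟨i, hi⟩
              have := hy' ⟨i, hi⟩
              simp only [mem_Icc] at *
              rw [abs_le]
              constructor <;> linarith
            · rw [hFoff y i hi, hFoff y' i hi]; simp
        have hS0 : S ^ 2 ≠ 0 := by
          have : ‖D.De (cc (F y))‖ₑ ≤ S :=
            le_iSup₂ (f := fun y (_ : y ∈ Cu) => ‖D.De (cc (F y))‖ₑ) y hy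
          have h3 : 0 < S := lt_of_lt_of_le (by
            rw [enorm_pos]
            exact D.De_ne (F y)) this
          exact pow_ne_zero 2 h3.ne'
        have hST : S ^ 2 ≠ ⊤ := by
          apply ENNReal.pow_ne_top
          exact ne_top_of_le_ne_top ENNReal.ofReal_ne_top hSle
        have hq : ‖D.qq (cc (F y))‖ ≤ c * ∏ i ∈ I, (4 * n * (D.om i (F y) / D.gi i (F y))) := by
          have h3 := hE.2.2
          rw [hpdS] at h3
          have hpos : ∀ i, 0 < D.gi i (F y) / (4 * n * D.om i (F y)) := fun i => by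
            have h4 : 0 < D.gi i (F y) := lt_of_lt_of_le one_pos (le_max_left _ _)
            have h5 : 0 < D.om i (F y) := lt_of_lt_of_le one_pos (le_max_left _ _)
            positivity
          have hinv : ∏ i ∈ I, (4 * n * (D.om i (F y) / D.gi i (F y))) =
              (∏ i ∈ I, D.gi i (F y) / (4 * n * D.om i (F y)))⁻¹ := by
            rw [← Finset.prod_inv_distrib]
            apply Finset.prod_congr rfl
            intro i _
            rw [inv_div]; ring
          rw [hinv, ← div_eq_mul_inv, le_div_iff₀ (Finset.prod_pos fun i _ => hpos i), mul_comm]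
          exact h3
        have hqX : ‖D.qq (cc (F y))‖ ^ 2 * X ^ 2 ≤
            (c ^ 2 * (16 * (n : ℝ) ^ 2) ^ k * 8 ^ k) * ∑ J ∈ I.powerset,
              (‖(D.GJ J (F y)).det‖ ^ 2 * ∏ i ∈ I, (D.om i (F y) / D.gi i (F y)) ^ 2) := by
          have h4 : ‖D.qq (cc (F y))‖ ^ 2 ≤
              c ^ 2 * ((16 * (n : ℝ) ^ 2) ^ k * ∏ i ∈ I, (D.om i (F y) / D.gi i (F y)) ^ 2) := by
            calc ‖D.qq (cc (F y))‖ ^ 2 ≤
                (c * ∏ i ∈ I, (4 * n * (D.om i (F y) / D.gi i (F y)))) ^ 2 := by gcongr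
              _ = _ := by
                rw [mul_pow, ← Finset.prod_pow]
                congr 1
                rw [hk, ← Finset.prod_const, ← Finset.prod_mul_distrib]
                apply Finset.prod_congr rfl
                intro i _
                ring
          have h5 := sq_sum_le I fun J => ‖(D.GJ J (F y)).det‖
          calc ‖D.qq (cc (F y))‖ ^ 2 * X ^ 2 ≤
              (c ^ 2 * ((16 * (n : ℝ) ^ 2) ^ k *
                ∏ i ∈ I, (D.om i (F y) / D.gi i (F y)) ^ 2)) *
              (8 ^ I.card * ∑ J ∈ I.powerset, ‖(D.GJ J (F y)).det‖ ^ 2) := by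
                refine mul_le_mul h4 h5 (sq_nonneg _) ?_
                have : 0 ≤ ∏ i ∈ I, (D.om i (F y) / D.gi i (F y)) ^ 2 :=
                  Finset.prod_nonneg fun i _ => sq_nonneg _
                positivity
            _ = _ := by
                rw [← Finset.sum_mul, ← hk]
                ring
        have hw : D.wt (F y) * S ^ 2 ≤ ENNReal.ofReal (‖D.qq (cc (F y))‖ ^ 2 * X ^ 2) := by
          calc D.wt (F y) * S ^ 2 ≤
              D.wt (F y) * ENNReal.ofReal (‖D.De (cc (F y))‖ * X) ^ 2 := by gcongr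
            _ = ENNReal.ofReal (‖D.qq (cc (F y))‖ ^ 2 * X ^ 2) := by
              rw [wt, D.norm_pf, ← ENNReal.ofReal_pow (by positivity),
                ← ENNReal.ofReal_mul (by positivity)]
              congr 1
              field_simp
        have hdiv : D.wt (F y) ≤ ENNReal.ofReal (‖D.qq (cc (F y))‖ ^ 2 * X ^ 2) / S ^ 2 := by
          rw [ENNReal.le_div_iff_mul_le (Or.inl hS0) (Or.inl hST)]
          exact hw
        refine hdiv.trans ?_
        rw [← ENNReal.ofReal_sum_of_nonneg (fun J _ => mul_nonneg (sq_nonneg _)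
          (Finset.prod_nonneg fun i _ => sq_nonneg _)), ENNReal.div_eq_inv_mul,
          ENNReal.div_eq_inv_mul, mul_assoc, ← ENNReal.ofReal_mul (by positivity)]
        exact mul_le_mul_right (ENNReal.ofReal_le_ofReal hqX) _
      · rw [indicator_of_notMem (show Function.updateFinset V I y ∉
          {V | D.evE b K g n I V} from hE)]
        exact zero_le
    refine h1.trans ?_
    have hm : ∀ J, Measurable fun y : {i // i ∈ I} → ℝ =>
        D.fE b K g n I J I (Function.updateFinset V I y) := fun J =>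
      (D.measurable_fE b K g n I J I).comp measurable_updateFinset
    rw [lintegral_const_mul _ (Finset.measurable_sum _ fun J _ => hm J)]
    refine mul_le_mul_right ?_ _
    rw [lintegral_finsetSum _ fun J _ => hm J]
    calc ∑ J ∈ I.powerset, ∫⁻ y, D.fE b K g n I J I (Function.updateFinset V I y)
          ∂(Measure.pi fun _ : {i // i ∈ I} => mu1)
        ≤ ∑ _J ∈ I.powerset, ENNReal.ofReal (A ^ k) := by
          apply Finset.sum_le_sum
          intro J hJ
          exact D.I_fibre hb hK hg hKbg hn hcard (Finset.mem_powerset.mp hJ) V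
      _ = 2 ^ k * ENNReal.ofReal (A ^ k) := by
          rw [Finset.sum_const, Finset.card_powerset, nsmul_eq_mul]
          push_cast
          rfl
  refine hup.trans ((le_trans ?_ (mul_le_mul_right hlow _)))
  have h2 : (2 : ℝ≥0∞) ^ k = ENNReal.ofReal (2 ^ k) := by
    rw [ENNReal.ofReal_pow (by norm_num)]; simp
  rw [h2, ENNReal.div_eq_inv_mul, ENNReal.div_eq_inv_mul, mul_assoc, ← mul_assoc _ (S ^ 2)⁻¹,
    mul_comm _ (S ^ 2)⁻¹, mul_assoc (S ^ 2)⁻¹]
  refine mul_le_mul_right ?_ _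
  rw [← ENNReal.ofReal_mul (by positivity), ← ENNReal.ofReal_mul (by positivity),
    ← ENNReal.ofReal_mul (by positivity)]
  apply ENNReal.ofReal_le_ofReal
  have hKK : (384 : ℝ) * 2 ^ 40 ≤ K ^ 28 := by
    calc (384 : ℝ) * 2 ^ 40 ≤ 24 ^ 28 := by norm_num
      _ ≤ K ^ 28 := by gcongr
  have hfin : 16 * (n : ℝ) ^ 2 * 8 * 2 * A ≤ (n * K) ^ 30 / g * (2 / 3) := by
    rw [hA]
    have hg0 : 0 < g := by linarith
    rw [mul_div_assoc', div_mul_eq_mul_div]
    refine div_le_div_of_nonneg_right ?_ hg0.le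
    have hK0 : 0 < K := by linarith
    calc 16 * (n : ℝ) ^ 2 * 8 * 2 * (2 ^ 40 * (n : ℝ) ^ 28 * K ^ 2)
        = (384 * 2 ^ 40) * (n ^ 30 * K ^ 2) * (2 / 3) := by ring
      _ ≤ K ^ 28 * (n ^ 30 * K ^ 2) * (2 / 3) := by gcongr
      _ = (n * K) ^ 30 * (2 / 3) := by ring
  calc c ^ 2 * (16 * (n : ℝ) ^ 2) ^ k * 8 ^ k * (2 ^ k * A ^ k)
      = c ^ 2 * (16 * (n : ℝ) ^ 2 * 8 * 2 * A) ^ k := by
        simp only [mul_pow]; ring
    _ ≤ c ^ 2 * ((n * K) ^ 30 / g * (2 / 3)) ^ k := by gcongr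
    _ = ((n * K) ^ 30 / g) ^ k * ((2 / 3) ^ k * c ^ 2) := by rw [mul_pow]; ring

end Dat

theorem stepE : ∃ C0 : ℕ, ∀ (ι : Type) [Fintype ι] [DecidableEq ι] (D : Dat ι) (n : ℕ)
    (b K g : ℝ), 1 ≤ n → Fintype.card ι ≤ n → 24 ≤ K → 0 < b → 2 ≤ g → 8 * (K * b * g) ≤ 1 →
    ∀ I : Finset ι, I.Nonempty → D.nu {V | D.evE b K g n I V} ≤
      ENNReal.ofReal (((n * K) ^ C0 / g) ^ I.card) * D.nu univ := by
  refine ⟨30, ?_⟩
  intro ι _ _ D n b K g hn hcard hK hb hg hKbg I _
  have hE := D.measurableSet_evE b K g n I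
  rw [D.nu_apply hE, D.nu_apply MeasurableSet.univ, indicator_univ]
  exact fib I (D.measurable_wt.indicator hE) D.measurable_wt
    fun V => D.fibre hb hK hg hKbg hn hcard I V

end LL
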