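import Pool.Agent.Lib.MP_562b47_mp.LL.Union
import Pool.Agent.Lib.MP_562b47_mp.LL.StepE
import Pool.Agent.Lib.MP_562b47_mp.LL.Num

/-!
Main: lemma (L'). The event `n ^ C |δ| ≤ |P|` is `|D| ≥ n ^ C`, `D = P / δ = φᵀ M⁻¹ φ`.
-/

set_option autoImplicit false

namespace LL

open MeasureTheory Set
open scoped ENNReal

theorem bad_iff {ι : Type*} [Fintype ι] [DecidableEq ι] (D : Dat ι) {x : ℝ} (hx : 0 < x)
    (V : ι → ℝ) : x * ‖D.dl (cc V)‖ ≤ ‖D.pp (cc V)‖ ↔ D.bad x⁻¹ V := by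
  unfold Dat.bad
  rw [inv_mul_eq_div, le_div_iff₀ hx, mul_comm]

/-- lemma (L') -/
theorem main (κ : ℕ) : ∃ C : ℕ, ∀ (ι : Type) [Fintype ι] [DecidableEq ι] (D : Dat ι) (n : ℕ),
    2 ≤ n → Fintype.card ι ≤ n →
    D.nu {V | (n : ℝ) ^ C * ‖D.dl (cc V)‖ ≤ ‖D.pp (cc V)‖} ≤
      ENNReal.ofReal (((n : ℝ) ^ κ)⁻¹) * D.nu univ := by
  obtain ⟨C0, hC0⟩ := stepE
  obtain ⟨C, hC⟩ := num κ C0
  refine ⟨C, ?_⟩
  intro ι _ _ D n hn hcard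
  obtain ⟨b, K, g, hb, hb0, hK, hg, hKb, hKbg, hc, hε, hfin⟩ := hC n hn
  have hn0 : (0 : ℝ) < (n : ℝ) ^ C := by positivity
  have h1 : {V : ι → ℝ | (n : ℝ) ^ C * ‖D.dl (cc V)‖ ≤ ‖D.pp (cc V)‖} = {V | D.bad b V} := by
    ext V
    rw [Set.mem_setOf_eq, Set.mem_setOf_eq, bad_iff D hn0 V, hb]
  rw [h1]
  refine (D.union_bound (by omega) hcard hb0 hK hKb (by linarith) hc hε ?_).trans ?_
  · intro I hI
    exact hC0 ι D n b K g (by omega) hcard hK hb0 hg hKbg I hI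
  · gcongr

end LL
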