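import Pool.Agent.Lib.MP_562b47_mp.LL.MA2

/-!
MinorEx: a zero of a multi-affine function in a polydisc forces a large coefficient.

PROOF. Suppose the conclusion fails. By `MA.taylor` (`h = s`) and `Finset.sum_erase`/`pdS_empty`:
`0 = f (V + s) = f V + ∑_{I ⊆ S, I ≠ ∅} (∏_{i ∈ I} s i) pdS I f V`, so
`‖f V‖ ≤ ∑_{I ≠ ∅} (∏ r i) ‖pdS I f V‖`, and each term is
`≤ (∏ r i)(∏ 1/(2 n r i)) ‖f V‖ = (1/(2n))^|I| ‖f V‖`. The sum of `(1/(2n))^|I|` over the nonempty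
`I ⊆ S` is `(1 + 1/(2n))^|S| - 1 ≤ (1 + 1/(2n))^n - 1 ≤ e^(1/2) - 1 < 1`
(`Finset.sum_pow_mul_eq_add_pow`; `Real.add_one_le_exp`, `Real.exp_one_lt_d9`: `e^(1/2) < 2` because
`e < 4`). As `‖f V‖ > 0` this is a contradiction.
-/

set_option autoImplicit false

namespace LL

open Finset

variable {ι : Type*} [Fintype ι] [DecidableEq ι]

theorem minor_ex {f : (ι → ℂ) → ℂ} (hf : MA f) {V s : ι → ℂ} {S : Finset ι}
    (hs : ∀ i, i ∉ S → s i = 0) {r : ι → ℝ} (hr : ∀ i ∈ S, 0 < r i) (hsr : ∀ i ∈ S, ‖s i‖ ≤ r i)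
    {n : ℕ} (hn1 : 1 ≤ n) (hn : S.card ≤ n) (hV : f V ≠ 0) (h0 : f (V + s) = 0) :
    ∃ I, I ⊆ S ∧ I.Nonempty ∧ (∏ i ∈ I, 1 / (2 * n * r i)) * ‖f V‖ ≤ ‖pdS I f V‖ := by
  by_contra hcon
  push Not at hcon
  have hn0 : (0 : ℝ) < n := by exact_mod_cast hn1
  have hfV : 0 < ‖f V‖ := norm_pos_iff.mpr hV
  set q : ℝ := 1 / (2 * n) with hq
  have hq0 : 0 < q := by positivity
  have htay := hf.taylor S V s hs
  rw [h0] at htay
  have hmem : (∅ : Finset ι) ∈ S.powerset := Finset.empty_mem_powerset S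
  rw [← Finset.add_sum_erase _ _ hmem, Finset.prod_empty, one_mul, pdS_empty] at htay
  have hterm : ∀ J ∈ S.powerset.erase ∅,
      ‖(∏ i ∈ J, s i) * pdS J f V‖ ≤ q ^ J.card * ‖f V‖ := by
    intro J hJ
    obtain ⟨hJ1, hJ2⟩ := Finset.mem_erase.mp hJ
    have hJS : J ⊆ S := Finset.mem_powerset.mp hJ2
    have hJn : J.Nonempty := Finset.nonempty_iff_ne_empty.mpr hJ1
    have h1 := (hcon J hJS hJn).le
    have h2 : ‖∏ i ∈ J, s i‖ ≤ ∏ i ∈ J, r i := by
      rw [norm_prod]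
      exact Finset.prod_le_prod (fun i _ => norm_nonneg _) (fun i hi => hsr i (hJS hi))
    have h3 : (0 : ℝ) ≤ ∏ i ∈ J, r i := Finset.prod_nonneg (fun i hi => (hr i (hJS hi)).le)
    rw [norm_mul]
    calc ‖∏ i ∈ J, s i‖ * ‖pdS J f V‖
        ≤ (∏ i ∈ J, r i) * ((∏ i ∈ J, 1 / (2 * n * r i)) * ‖f V‖) :=
          mul_le_mul h2 h1 (norm_nonneg _) h3
      _ = (∏ i ∈ J, r i * (1 / (2 * n * r i))) * ‖f V‖ := by
          rw [Finset.prod_mul_distrib]; ring
      _ = q ^ J.card * ‖f V‖ := by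
          congr 1
          rw [← Finset.prod_const]
          refine Finset.prod_congr rfl (fun i hi => ?_)
          have hri : r i ≠ 0 := (hr i (hJS hi)).ne'
          rw [hq]
          field_simp
  have hsum : ∑ J ∈ S.powerset, q ^ J.card = (q + 1) ^ S.card := by
    have h1 := Finset.sum_pow_mul_eq_add_pow q 1 S
    simpa using h1
  have hsum2 : ∑ J ∈ S.powerset.erase ∅, q ^ J.card = (q + 1) ^ S.card - 1 := by
    have h1 := Finset.add_sum_erase S.powerset (fun J => q ^ J.card) hmem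
    simp only [Finset.card_empty, pow_zero] at h1
    linarith
  have hexp : Real.exp (1 / 2) < 2 := by
    have h1 : Real.exp (1 / 2) * Real.exp (1 / 2) = Real.exp 1 := by
      rw [← Real.exp_add]; norm_num
    have h2 := Real.exp_one_lt_d9
    nlinarith [Real.exp_pos (1 / 2)]
  have hpow : (q + 1) ^ S.card < 2 := by
    calc (q + 1) ^ S.card ≤ (q + 1) ^ n := pow_le_pow_right₀ (by linarith) hn
      _ ≤ (Real.exp q) ^ n := pow_le_pow_left₀ (by linarith) (Real.add_one_le_exp q) n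
      _ = Real.exp (1 / 2) := by
          rw [← Real.exp_nat_mul]
          congr 1
          rw [hq]
          field_simp
      _ < 2 := hexp
  have hnorm : ‖f V‖ ≤ ((q + 1) ^ S.card - 1) * ‖f V‖ := by
    have h1 : f V = -∑ J ∈ S.powerset.erase ∅, (∏ i ∈ J, s i) * pdS J f V := by
      linear_combination -htay
    calc ‖f V‖ = ‖∑ J ∈ S.powerset.erase ∅, (∏ i ∈ J, s i) * pdS J f V‖ := by
          conv_lhs => rw [h1]
          rw [norm_neg]
      _ ≤ ∑ J ∈ S.powerset.erase ∅, ‖(∏ i ∈ J, s i) * pdS J f V‖ := norm_sum_le _ _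
      _ ≤ ∑ J ∈ S.powerset.erase ∅, q ^ J.card * ‖f V‖ := Finset.sum_le_sum hterm
      _ = ((q + 1) ^ S.card - 1) * ‖f V‖ := by rw [← Finset.sum_mul, hsum2]
  nlinarith

end LL
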