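import Pool.Agent.Lib.MP_562b47_mp.LL.Meas
import Pool.Agent.Lib.MP_562b47_mp.LL.Fib
import Pool.Agent.Lib.MP_562b47_mp.LL.LineA

/-!
NuA (version 2): Step A on the cube.

PROOF. `D.nu S = ∫⁻ V, S.indicator D.wt V ∂MU ι` (`withDensity_apply`, `lintegral_indicator`).
`fib1` with `f = indicator of the set times wt`, `g = wt`. For fixed `V` put `d0 = dl (update (cc V) i 0)`,
`d1 = pd i dl (cc V)`, and in the same way `p0, p1` (`pp`), `q0, q1` (`qq`). By the definition of `MA`
(`MA_dl`, `MA_pp`, `MA_qq`) and `cc_update`, `dl (cc (update V i x)) = d0 + x d1` etc., and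
`De = dl - I * pp`; `pd i _ (cc (update V i x)) = pd i _ (cc V)` (`pd_update_self`);
`wi i (cc (update V i x)) = d1 (p0 + x p1) - (d0 + x d1) p1 = d1 p0 - d0 p1`. `wt_eq`. The set
`A = {x ∈ [-1, 1] | update V i x in the event}` is measurable (preimage under the continuous map
`x ↦ update V i x`); `lineA`, with `hΔ` from `pp_le_De`.
-/

set_option autoImplicit false

namespace LL

open MeasureTheory Set
open scoped ENNReal

variable {ι : Type*} [Fintype ι] [DecidableEq ι]

theorem Dat.nu_evA (D : Dat ι) {K b : ℝ} (hK : 24 ≤ K) (hb : 0 < b) (i : ι) :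
    D.nu {V | D.bad b V ∧ D.evA K i V} ≤ ENNReal.ofReal (4000 * (1 / K + b)) * D.nu univ := by
  have hS : MeasurableSet {V | D.bad b V ∧ D.evA K i V} :=
    (D.measurableSet_bad b).inter (D.measurableSet_evA K i)
  unfold Dat.nu
  rw [withDensity_apply _ hS, withDensity_apply _ MeasurableSet.univ, setLIntegral_univ,
    ← lintegral_indicator hS]
  refine fib1 i (D.measurable_wt.indicator hS) D.measurable_wt fun V => ?_
  have hline : ∀ {f : (ι → ℂ) → ℂ}, MA f → ∀ x : ℝ, f (cc (Function.update V i x)) =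
      f (Function.update (cc V) i 0) + (x : ℂ) * pd i f (cc V) := by
    intro f hf x
    rw [cc_update]
    exact hf (cc V) i x
  have hpd : ∀ (f : (ι → ℂ) → ℂ) (x : ℝ), pd i f (cc (Function.update V i x)) =
      pd i f (cc V) := by
    intro f x
    rw [cc_update, pd_update_self]
  have hdl := fun x : ℝ => hline D.MA_dl x
  have hpp := fun x : ℝ => hline D.MA_pp x
  have hqq := fun x : ℝ => hline D.MA_qq x
  have hpd1 := fun x : ℝ => hpd D.dl x
  have hpd2 := fun x : ℝ => hpd D.pp x
  set d0 := D.dl (Function.update (cc V) i 0) with hd0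
  set d1 := pd i D.dl (cc V) with hd1
  set p0 := D.pp (Function.update (cc V) i 0) with hp0
  set p1 := pd i D.pp (cc V) with hp1
  set q0 := D.qq (Function.update (cc V) i 0) with hq0
  set q1 := pd i D.qq (cc V) with hq1
  have hDe : ∀ x : ℝ, D.De (cc (Function.update V i x)) =
      (d0 - Complex.I * p0) + (x : ℝ) * (d1 - Complex.I * p1) := by
    intro x
    unfold Dat.De
    rw [hdl, hpp]
    ring
  have hwt : ∀ x : ℝ, D.wt (Function.update V i x) =
      ENNReal.ofReal (‖q0 + (x : ℝ) * q1‖ ^ 2 /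
        ‖(d0 - Complex.I * p0) + (x : ℝ) * (d1 - Complex.I * p1)‖ ^ 2) := by
    intro x
    rw [D.wt_eq, hqq, hDe]
  have hmu : Measurable fun x : ℝ => Function.update V i x :=
    (continuous_const.update i continuous_id).measurable
  have hB : MeasurableSet ((fun x : ℝ => Function.update V i x) ⁻¹'
      {V | D.bad b V ∧ D.evA K i V}) := hmu hS
  set B : Set ℝ := (fun x : ℝ => Function.update V i x) ⁻¹' {V | D.bad b V ∧ D.evA K i V} with hBd
  have e1 : (fun x : ℝ => ({V | D.bad b V ∧ D.evA K i V} : Set (ι → ℝ)).indicator D.wt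
      (Function.update V i x)) = B.indicator (fun x : ℝ => ENNReal.ofReal
        (‖q0 + (x : ℝ) * q1‖ ^ 2 /
          ‖(d0 - Complex.I * p0) + (x : ℝ) * (d1 - Complex.I * p1)‖ ^ 2)) := by
    funext x
    by_cases hx : x ∈ B
    · rw [Set.indicator_of_mem hx]
      have hx' : Function.update V i x ∈ ({V | D.bad b V ∧ D.evA K i V} : Set (ι → ℝ)) := hx
      rw [Set.indicator_of_mem hx', hwt]
    · rw [Set.indicator_of_notMem hx]
      have hx' : Function.update V i x ∉ ({V | D.bad b V ∧ D.evA K i V} : Set (ι → ℝ)) := hx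
      rw [Set.indicator_of_notMem hx']
  rw [e1, lintegral_indicator hB, Measure.restrict_restrict hB]
  simp_rw [hwt]
  refine lineA d0 d1 p0 p1 q0 q1 hK hb ?_ (hB.inter measurableSet_Icc) ?_
  · intro v _
    have h := D.pp_le_De (Function.update V i v)
    rw [hpp, hDe] at h
    exact h
  · rintro v ⟨hvB, hvI⟩
    have hv : D.bad b (Function.update V i v) ∧ D.evA K i (Function.update V i v) := hvB
    refine ⟨hvI, ?_, ?_⟩
    · have h := hv.1
      unfold Dat.bad at h
      rw [hdl, hpp] at h
      exact h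
    · have h := hv.2
      unfold Dat.evA Dat.wi at h
      rw [hdl, hpp, hpd1, hpd2] at h
      have e : d1 * (p0 + (v : ℂ) * p1) - (d0 + (v : ℂ) * d1) * p1 = d1 * p0 - d0 * p1 := by ring
      rw [e] at h
      exact h

end LL
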