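import Pool.Agent.Lib.MP_562b47_mp.LL.Meas
import Pool.Agent.Lib.MP_562b47_mp.LL.Fib
import Pool.Agent.Lib.MP_562b47_mp.LL.LineC

/-!
NuC (version 2): Step C on the cube.

PROOF. As in `NuA` (read its header), with `s0 = pd j pp (update (cc V) i 0)`,
`s1 = pd i (pd j pp) (cc V)`: `pd j pp` is multi-affine (`MA.pd`), so
`pd j pp (cc (update V i x)) = s0 + x s1`, and `pd i (pd j pp) (cc (update V i x)) = s1`
(`pd_update_self`), `wij i j (cc (update V i x)) = p1 (s0 + x s1) - (p0 + x p1) s1 = p1 s0 - p0 s1`.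
`lineC`, with `hne` from `De_ne`. (Nothing is used about `i ≠ j`.)
-/

set_option autoImplicit false

namespace LL

open MeasureTheory Set
open scoped ENNReal

variable {ι : Type*} [Fintype ι] [DecidableEq ι]

private theorem nuC_line {f : (ι → ℂ) → ℂ} (hf : MA f) (V : ι → ℝ) (i : ι) (x : ℝ) :
    f (cc (Function.update V i x)) =
      f (Function.update (cc V) i 0) + (x : ℂ) * pd i f (cc V) := by
  rw [cc_update]
  exact hf (cc V) i x

private theorem nuC_pd (f : (ι → ℂ) → ℂ) (V : ι → ℝ) (i : ι) (x : ℝ) :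
    pd i f (cc (Function.update V i x)) = pd i f (cc V) := by
  rw [cc_update, pd_update_self]

theorem Dat.nu_evC (D : Dat ι) {K b : ℝ} (hK : 24 ≤ K) (hb : 0 < b) (hKb : 2 * (K * b) ≤ 1)
    (i j : ι) :
    D.nu {V | D.bad b V ∧ ¬ D.evA K i V ∧ D.evC K i j V} ≤
      ENNReal.ofReal (7200 / K) * D.nu univ := by
  set S : Set (ι → ℝ) := {V | D.bad b V ∧ ¬ D.evA K i V ∧ D.evC K i j V} with hS
  have hSm : MeasurableSet S :=
    (D.measurableSet_bad b).inter
      ((D.measurableSet_evA K i).compl.inter (D.measurableSet_evC K i j))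
  have h1 : D.nu S = ∫⁻ V, S.indicator D.wt V ∂MU ι := by
    unfold Dat.nu
    rw [withDensity_apply _ hSm, lintegral_indicator hSm]
  have h2 : D.nu univ = ∫⁻ V, D.wt V ∂MU ι := by
    unfold Dat.nu
    rw [withDensity_apply _ MeasurableSet.univ, Measure.restrict_univ]
  rw [h1, h2]
  refine fib1 i (D.measurable_wt.indicator hSm) D.measurable_wt fun V => ?_
  have hup : Measurable fun x : ℝ => Function.update V i x := measurable_update V
  set T : Set ℝ := (fun x : ℝ => Function.update V i x) ⁻¹' S with hT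
  have hTm : MeasurableSet T := hup hSm
  have e1 : (fun x : ℝ => S.indicator D.wt (Function.update V i x)) =
      T.indicator fun x => D.wt (Function.update V i x) := by
    funext x
    by_cases hx : Function.update V i x ∈ S
    · rw [indicator_of_mem hx, indicator_of_mem (show x ∈ T from hx)]
    · rw [indicator_of_notMem hx, indicator_of_notMem (show x ∉ T from hx)]
  rw [e1, lintegral_indicator hTm, Measure.restrict_restrict hTm]
  set d0 := D.dl (Function.update (cc V) i 0) with hd0
  set d1 := pd i D.dl (cc V) with hd1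
  set p0 := D.pp (Function.update (cc V) i 0) with hp0
  set p1 := pd i D.pp (cc V) with hp1
  set q0 := D.qq (Function.update (cc V) i 0) with hq0
  set q1 := pd i D.qq (cc V) with hq1
  set s0 := pd j D.pp (Function.update (cc V) i 0) with hs0
  set s1 := pd i (pd j D.pp) (cc V) with hs1
  have ld : ∀ x : ℝ, D.dl (cc (Function.update V i x)) = d0 + (x : ℂ) * d1 := fun x =>
    nuC_line D.MA_dl V i x
  have lp : ∀ x : ℝ, D.pp (cc (Function.update V i x)) = p0 + (x : ℂ) * p1 := fun x =>
    nuC_line D.MA_pp V i x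
  have lq : ∀ x : ℝ, D.qq (cc (Function.update V i x)) = q0 + (x : ℂ) * q1 := fun x =>
    nuC_line D.MA_qq V i x
  have ls : ∀ x : ℝ, pd j D.pp (cc (Function.update V i x)) = s0 + (x : ℂ) * s1 := fun x =>
    nuC_line (D.MA_pp.pd j) V i x
  have lpp : ∀ x : ℝ, pd i D.pp (cc (Function.update V i x)) = p1 := fun x =>
    nuC_pd _ V i x
  have ldd : ∀ x : ℝ, pd i D.dl (cc (Function.update V i x)) = d1 := fun x =>
    nuC_pd _ V i x
  have lss : ∀ x : ℝ, pd i (pd j D.pp) (cc (Function.update V i x)) = s1 := fun x =>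
    nuC_pd _ V i x
  have lD : ∀ x : ℝ, D.De (cc (Function.update V i x)) =
      (d0 - Complex.I * p0) + (x : ℂ) * (d1 - Complex.I * p1) := by
    intro x
    unfold Dat.De
    rw [ld, lp]
    ring
  have hw : ∀ x : ℝ, D.wt (Function.update V i x) =
      ENNReal.ofReal (‖q0 + (x : ℂ) * q1‖ ^ 2 /
        ‖(d0 - Complex.I * p0) + (x : ℂ) * (d1 - Complex.I * p1)‖ ^ 2) := by
    intro x
    rw [D.wt_eq, lq, lD]
  simp only [hw]
  refine lineC d0 d1 p0 p1 q0 q1 s0 s1 hK hb hKb ?_ ?_ (hTm.inter measurableSet_Icc) ?_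
  · intro v _
    rw [← lD v]
    exact D.De_ne _
  · intro v _
    rw [← lD v, ← lp v]
    exact D.pp_le_De _
  · rintro v ⟨hvT, hvI⟩
    obtain ⟨g1, g2, g3⟩ : D.bad b (Function.update V i v) ∧
      ¬ D.evA K i (Function.update V i v) ∧ D.evC K i j (Function.update V i v) := hvT
    refine ⟨hvI, ?_, ?_, ?_⟩
    · unfold Dat.bad at g1
      rw [ld, lp] at g1
      exact g1
    · unfold Dat.evA at g2
      rw [not_lt] at g2
      unfold Dat.wi at g2
      rw [ld, lp, lpp, ldd] at g2
      have e : d1 * (p0 + (v : ℂ) * p1) - (d0 + (v : ℂ) * d1) * p1 = d1 * p0 - d0 * p1 := by ring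
      rw [e] at g2
      exact g2
    · unfold Dat.evC Dat.wij at g3
      rw [lp, lpp, lss, ls] at g3
      have e : p1 * (s0 + (v : ℂ) * s1) - (p0 + (v : ℂ) * p1) * s1 = p1 * s0 - p0 * s1 := by ring
      rw [e] at g3
      exact g3

end LL
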