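import Pool.Agent.Lib.MP_562b47_mp.LL.Gam

/-!
QZero (version 2): the zero of `q` on the complexified line.

PROOF.
* `yf V i` is `y_i / f` (`y = Γ ψ`, `f = ψᵀ z`): `Bm j i = Γ_ji - z_j yf_i` (`Bm_eq`, field_simp,
  `kp, pf ≠ 0`), `∑_j φ_j Bm j i = (G φ)_i - kp (G ψ)_i / pf = -yf_i` (`phi_Bm`, `G_symm`).
* `qq_zero`: let `φ'_j = φ_j` for `j ∈ S`, `0` otherwise, `s_i = φ_i / β_i` for `i ∈ S`, `0` otherwise,
  `u_i = ∑_j φ'_j Bm j i` and `t = (∑_j φ'_j (G φ)_j) / pf`. The hypothesis says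
  `u_i = -β_i` for `i ∈ S`, so `u_i s_i = -φ'_i` for all `i`. With `B = G - (G φ)(G ψ)ᵀ / pf` and
  `G M' = 1`, `(G ψ)ᵀ M' = ψᵀ` (`G` symmetric, `G_symm`, `G_mul`): `uᵀ M' = φ'ᵀ - t ψᵀ`; and
  `uᵀ φ = φ'ᵀ G φ - φ'ᵀ G φ = 0`, so with `M = M' + i φ φᵀ` also `uᵀ M = φ'ᵀ - t ψᵀ`, and
  `uᵀ (M + diagonal s) + t ψᵀ = 0`. So the row vector
  `Sum.elim u (fun _ => t)` is in the left kernel of `bord φ ψ (M + diagonal s)`
  `= bord φ ψ (mt Ξ (cc V + s))`. It is not zero: `u = 0` gives `φ' = 0` (`u_i s_i = -φ'_i`),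
  contradiction with `hne`. So the determinant is zero (`Matrix.exists_vecMul_eq_zero_iff`).
-/

set_option autoImplicit false

namespace LL

open Finset Matrix

variable {ι : Type*} [Fintype ι] [DecidableEq ι]

namespace Dat

variable (D : Dat ι)

/-- `y_i / f` -/
noncomputable def yf (V : ι → ℝ) (i : ι) : ℂ := D.Gp V i * D.kp V / D.pf V - D.Gf V i

private theorem phi_G (V : ι → ℝ) (i : ι) : ∑ j, D.φ j * D.G V j i = D.Gf V i := by
  simp only [Gf, Matrix.mulVec, dotProduct]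
  exact Finset.sum_congr rfl fun k _ => by rw [D.G_symm V k i, mul_comm]

private theorem psi_G (V : ι → ℝ) (i : ι) : ∑ j, D.ψ j * D.G V j i = D.Gp V i := by
  simp only [Gp, Matrix.mulVec, dotProduct]
  exact Finset.sum_congr rfl fun k _ => by rw [D.G_symm V k i, mul_comm]

private theorem Gp_phi (V : ι → ℝ) : ∑ i, D.Gp V i * D.φ i = D.pf V := by
  have h1 : ∀ i, D.Gp V i * D.φ i = ∑ j, D.ψ j * D.G V j i * D.φ i := by
    intro i
    rw [← D.psi_G, Finset.sum_mul]
  rw [Finset.sum_congr rfl fun i _ => h1 i, Finset.sum_comm]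
  simp only [pf, Gf, Matrix.mulVec, dotProduct]
  refine Finset.sum_congr rfl fun j _ => ?_
  rw [Finset.mul_sum]
  exact Finset.sum_congr rfl fun i _ => by ring

private theorem G_M' (V : ι → ℝ) (j k : ι) :
    ∑ i, D.G V j i * D.M' V i k = if j = k then 1 else 0 := by
  rw [← Matrix.mul_apply, (D.G_mul V).1, Matrix.one_apply]

private theorem Gp_M' (V : ι → ℝ) (k : ι) : ∑ i, D.Gp V i * D.M' V i k = D.ψ k := by
  have h1 : ∀ i, D.Gp V i * D.M' V i k = ∑ j, D.ψ j * (D.G V j i * D.M' V i k) := by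
    intro i
    rw [← D.psi_G, Finset.sum_mul]
    exact Finset.sum_congr rfl fun j _ => by ring
  rw [Finset.sum_congr rfl fun i _ => h1 i, Finset.sum_comm]
  have h2 : ∀ j, ∑ i, D.ψ j * (D.G V j i * D.M' V i k) = if j = k then D.ψ j else 0 := by
    intro j
    rw [← Finset.mul_sum, D.G_M']
    split_ifs <;> simp
  rw [Finset.sum_congr rfl fun j _ => h2 j, Finset.sum_ite_eq' Finset.univ k,
    if_pos (Finset.mem_univ _)]

theorem Bm_eq {V : ι → ℝ} (hP : D.pp (cc V) ≠ 0) (hq : D.qq (cc V) ≠ 0) (j i : ι) :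
    D.Bm V j i = D.Ga V j i - D.z V j * D.yf V i := by
  have h1 := D.kp_ne hP
  have h2 := D.pf_ne hq
  rw [Bm, Ga, z, yf]
  field_simp
  ring

theorem phi_Bm {V : ι → ℝ} (hP : D.pp (cc V) ≠ 0) (hq : D.qq (cc V) ≠ 0) (i : ι) :
    ∑ j, D.φ j * D.Bm V j i = -D.yf V i := by
  have h1 : ∀ j, D.φ j * D.Bm V j i = D.φ j * D.G V j i -
      D.φ j * D.Gf V j * (D.Gp V i / D.pf V) := by
    intro j
    rw [Bm]
    ring
  have h2 : ∑ j, D.φ j * D.Gf V j = D.kp V := rfl
  rw [Finset.sum_congr rfl fun j _ => h1 j, Finset.sum_sub_distrib, ← Finset.sum_mul, h2,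
    D.phi_G, yf]
  ring

theorem qq_zero {V : ι → ℝ} (hq : D.qq (cc V) ≠ 0) (S : Finset ι) (β : ι → ℂ)
    (hβ0 : ∀ i ∈ S, β i ≠ 0) (hβ : ∀ i ∈ S, ∑ j ∈ S, D.φ j * D.Bm V j i = -β i)
    (hne : ∃ i ∈ S, D.φ i ≠ 0) :
    D.qq (cc V + fun i => if i ∈ S then D.φ i / β i else 0) = 0 := by
  have hpf := D.pf_ne hq
  obtain ⟨f, hf⟩ : ∃ f : ι → ℂ, f = fun j => if j ∈ S then D.φ j else 0 := ⟨_, rfl⟩
  obtain ⟨s, hs⟩ : ∃ s : ι → ℂ, s = fun i => if i ∈ S then D.φ i / β i else 0 := ⟨_, rfl⟩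
  obtain ⟨u, hu⟩ : ∃ u : ι → ℂ, u = fun i => ∑ j, f j * D.Bm V j i := ⟨_, rfl⟩
  obtain ⟨t, ht⟩ : ∃ t : ℂ, t = (∑ j, f j * D.Gf V j) / D.pf V := ⟨_, rfl⟩
  rw [← hs]
  have huS : ∀ i ∈ S, u i = -β i := by
    intro i hi
    rw [← hβ i hi, hu, hf]
    show ∑ j, (if j ∈ S then D.φ j else 0) * D.Bm V j i = _
    simp only [ite_mul, zero_mul]
    rw [← Finset.sum_filter]
    congr 1
    ext j
    simp
  have hus : ∀ i, u i * s i = -f i := by
    intro i
    rw [hs, hf]
    show u i * (if i ∈ S then D.φ i / β i else 0) = -(if i ∈ S then D.φ i else 0)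
    by_cases hi : i ∈ S
    · rw [if_pos hi, if_pos hi, huS i hi]
      have := hβ0 i hi
      field_simp
    · rw [if_neg hi, if_neg hi]
      simp
  have hu1 : ∀ i, u i = ∑ j, f j * D.G V j i - t * D.Gp V i := by
    intro i
    rw [hu, ht]
    show ∑ j, f j * D.Bm V j i = _
    have h1 : ∀ j, f j * D.Bm V j i = f j * D.G V j i -
        f j * D.Gf V j * (D.Gp V i / D.pf V) := by
      intro j
      rw [Bm]
      ring
    rw [Finset.sum_congr rfl fun j _ => h1 j, Finset.sum_sub_distrib, ← Finset.sum_mul]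
    ring
  -- `u ⬝ φ = 0`
  have huφ : ∑ i, u i * D.φ i = 0 := by
    have h1 : ∀ i, u i * D.φ i = ∑ j, f j * (D.G V j i * D.φ i) - t * (D.Gp V i * D.φ i) := by
      intro i
      rw [hu1, sub_mul, Finset.sum_mul]
      congr 1
      · exact Finset.sum_congr rfl fun j _ => by ring
      · ring
    rw [Finset.sum_congr rfl fun i _ => h1 i, Finset.sum_sub_distrib, ← Finset.mul_sum, D.Gp_phi,
      Finset.sum_comm]
    have h2 : ∀ j, ∑ i, f j * (D.G V j i * D.φ i) = f j * D.Gf V j := by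
      intro j
      rw [← Finset.mul_sum]
      rfl
    rw [Finset.sum_congr rfl fun j _ => h2 j, ht, div_mul_cancel₀ _ hpf, sub_self]
  -- `uᵀ M' = fᵀ - t ψᵀ`
  have huM : ∀ k, ∑ i, u i * D.M' V i k = f k - t * D.ψ k := by
    intro k
    have h1 : ∀ i, u i * D.M' V i k = ∑ j, f j * (D.G V j i * D.M' V i k) -
        t * (D.Gp V i * D.M' V i k) := by
      intro i
      rw [hu1, sub_mul, Finset.sum_mul]
      congr 1
      · exact Finset.sum_congr rfl fun j _ => by ring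
      · ring
    rw [Finset.sum_congr rfl fun i _ => h1 i, Finset.sum_sub_distrib, ← Finset.mul_sum, D.Gp_M',
      Finset.sum_comm]
    have h2 : ∀ j, ∑ i, f j * (D.G V j i * D.M' V i k) = if j = k then f j else 0 := by
      intro j
      rw [← Finset.mul_sum, D.G_M']
      split_ifs <;> simp
    rw [Finset.sum_congr rfl fun j _ => h2 j, Finset.sum_ite_eq' Finset.univ k,
      if_pos (Finset.mem_univ _)]
  have hker : (Sum.elim u (fun _ => t) : ι ⊕ Unit → ℂ) ᵥ*
      bord D.φ D.ψ (mt D.Ξ (cc V + s)) = 0 := by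
    ext k
    rw [Matrix.vecMul, dotProduct, Fintype.sum_sum_type]
    rcases k with k | k
    · simp only [bord, Sum.elim_inl, Sum.elim_inr, Matrix.fromBlocks_apply₁₁,
        Matrix.fromBlocks_apply₂₁, Matrix.of_apply, Finset.univ_unique, Finset.sum_singleton,
        Pi.zero_apply]
      have h1 : ∀ i, u i * mt D.Ξ (cc V + s) i k = u i * D.M' V i k +
          Complex.I * D.φ k * (u i * D.φ i) + (if i = k then u i * s i else 0) := by
        intro i
        have h2 : mt D.Ξ (cc V + s) i k = D.M' V i k + Complex.I * (D.φ i * D.φ k) +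
            (if i = k then s i else 0) := by
          simp only [M', mt, Matrix.add_apply, Matrix.sub_apply, Matrix.smul_apply,
            Matrix.vecMulVec_apply, Matrix.diagonal_apply, Pi.add_apply, smul_eq_mul]
          split_ifs <;> ring
        rw [h2]
        split_ifs <;> ring
      rw [Finset.sum_congr rfl fun i _ => h1 i, Finset.sum_add_distrib, Finset.sum_add_distrib,
        ← Finset.mul_sum, huφ, huM, Finset.sum_ite_eq' Finset.univ k,
        if_pos (Finset.mem_univ _), hus]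
      ring
    · simp only [bord, Sum.elim_inl, Sum.elim_inr, Matrix.fromBlocks_apply₁₂,
        Matrix.fromBlocks_apply₂₂, Matrix.of_apply, Finset.univ_unique, Finset.sum_singleton,
        Pi.zero_apply, Matrix.zero_apply, mul_zero, add_zero]
      exact huφ
  have hnz : (Sum.elim u (fun _ => t) : ι ⊕ Unit → ℂ) ≠ 0 := by
    obtain ⟨i, hi, _⟩ := hne
    intro h
    have h1 := congrFun h (Sum.inl i)
    rw [Sum.elim_inl, huS i hi, Pi.zero_apply, neg_eq_zero] at h1
    exact hβ0 i hi h1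
  have hdet : (bord D.φ D.ψ (mt D.Ξ (cc V + s))).det = 0 :=
    Matrix.exists_vecMul_eq_zero_iff.1 ⟨_, hnz, hker⟩
  rw [qq, bq, hdet, neg_zero]

end Dat

end LL
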