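import Pool.Agent.Lib.MP_562b47_mp.LL.Gam

/-!
Typ (version 2): the meaning of the event `typ` in terms of `Γ`, `z`, `kp`.

PROOF. `P = Δ kp`, `δ = Δ (1 + i kp)`, `P ≠ 0`; divide the defining inequalities by `‖P‖²` and use
`wi_eq`, `wij_eq`, `pd_pp`, `gi_eq`: `max ‖P‖ ‖P Γ_ii‖ = ‖P‖ g_i`.
* `typ_T`: `T = δ / P = 1 / kp + i`, `‖δ‖ ≤ b ‖P‖`.
* `typ_kp`: `‖1 / kp‖ ≤ b + 1 ≤ 2`.
* `typ_z`: `‖P‖² ‖z_i‖² = ‖w_i‖ ≤ K ‖δ‖ ‖P‖ g_i ≤ K b ‖P‖² g_i`.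
* `typ_Ga`: `‖P‖² ‖Γ_ij‖² ≤ K ‖P‖² g_i g_j`.
* `typ_Ga_all`: for `i = j` use `‖Γ_ii‖ ≤ g_i` and `1 ≤ K`.
* `typ_om`: `om_i² = max 1 ‖z_i‖² ≤ max 1 (K b g_i)`, `1 ≤ g_i / g`, `K b g_i ≤ g_i / g`.
-/

set_option autoImplicit false

namespace LL

open Finset Matrix

variable {ι : Type*} [Fintype ι] [DecidableEq ι]

namespace Dat

variable (D : Dat ι)

theorem one_le_gi (i : ι) (V : ι → ℝ) : 1 ≤ D.gi i V := le_max_left _ _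

theorem one_le_om (i : ι) (V : ι → ℝ) : 1 ≤ D.om i V := le_max_left _ _

theorem typ_pp {b K : ℝ} {V : ι → ℝ} (h : D.typ b K V) : D.pp (cc V) ≠ 0 :=
  D.pp_ne_of_bad h.1

theorem typ_T {b K : ℝ} {V : ι → ℝ} (h : D.typ b K V) : ‖1 / D.kp V + Complex.I‖ ≤ b := by
  have hP := D.typ_pp h
  have hd := D.kp_ne hP
  have h1 : 1 / D.kp V + Complex.I = D.dl (cc V) / D.pp (cc V) := by
    rw [D.dl_eq, D.pp_eq]
    field_simp [D.De_ne V]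
  rw [h1, norm_div, div_le_iff₀ (norm_pos_iff.2 hP)]
  exact h.1

theorem typ_kp {b K : ℝ} (hb : b ≤ 1) {V : ι → ℝ} (h : D.typ b K V) : 1 / 2 ≤ ‖D.kp V‖ := by
  have hd := D.kp_ne (D.typ_pp h)
  have h1 : ‖1 / D.kp V‖ ≤ 2 := by
    calc ‖1 / D.kp V‖ = ‖(1 / D.kp V + Complex.I) - Complex.I‖ := by ring_nf
      _ ≤ ‖1 / D.kp V + Complex.I‖ + ‖Complex.I‖ := norm_sub_le _ _
      _ ≤ 2 := by rw [Complex.norm_I]; linarith [D.typ_T h]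
  rw [norm_div, norm_one, div_le_iff₀ (norm_pos_iff.2 hd)] at h1
  linarith

private theorem max_pd {V : ι → ℝ} (hP : D.pp (cc V) ≠ 0) (i : ι) :
    max ‖D.pp (cc V)‖ ‖pd i D.pp (cc V)‖ = ‖D.pp (cc V)‖ * D.gi i V := by
  rw [D.pd_pp hP, D.gi_eq hP, norm_mul, mul_max_of_nonneg _ _ (norm_nonneg _), mul_one]

theorem typ_z {b K : ℝ} (hK : 0 ≤ K) {V : ι → ℝ} (h : D.typ b K V) (i : ι) :
    ‖D.z V i‖ ^ 2 ≤ K * b * D.gi i V := by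
  have hP := D.typ_pp h
  have hp : 0 < ‖D.pp (cc V)‖ := norm_pos_iff.2 hP
  have h1 := h.2.2.1 i
  unfold evA at h1
  rw [not_lt, D.wi_eq hP, D.max_pd hP, norm_mul, norm_pow, norm_pow] at h1
  have h2 : ‖D.dl (cc V)‖ ≤ b * ‖D.pp (cc V)‖ := h.1
  have hg : 0 ≤ D.gi i V := zero_le_one.trans (D.one_le_gi i V)
  have h3 : ‖D.pp (cc V)‖ ^ 2 * ‖D.z V i‖ ^ 2 ≤ ‖D.pp (cc V)‖ ^ 2 * (K * b * D.gi i V) := by
    calc ‖D.pp (cc V)‖ ^ 2 * ‖D.z V i‖ ^ 2 ≤ K * ‖D.dl (cc V)‖ * (‖D.pp (cc V)‖ * D.gi i V) := h1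
      _ ≤ K * (b * ‖D.pp (cc V)‖) * (‖D.pp (cc V)‖ * D.gi i V) := by gcongr
      _ = ‖D.pp (cc V)‖ ^ 2 * (K * b * D.gi i V) := by ring
  exact le_of_mul_le_mul_left h3 (by positivity)

theorem typ_Ga {b K : ℝ} {V : ι → ℝ} (h : D.typ b K V) {i j : ι} (hij : i ≠ j) :
    ‖D.Ga V i j‖ ^ 2 ≤ K * D.gi i V * D.gi j V := by
  have hP := D.typ_pp h
  have hp : 0 < ‖D.pp (cc V)‖ := norm_pos_iff.2 hP
  have h1 := h.2.2.2 i j hij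
  unfold evC at h1
  rw [not_lt, D.wij_eq hP hij, D.max_pd hP, D.max_pd hP, norm_mul, norm_pow, norm_pow] at h1
  have h3 : ‖D.pp (cc V)‖ ^ 2 * ‖D.Ga V i j‖ ^ 2 ≤
      ‖D.pp (cc V)‖ ^ 2 * (K * D.gi i V * D.gi j V) := by
    refine h1.trans (le_of_eq ?_)
    ring
  exact le_of_mul_le_mul_left h3 (by positivity)

theorem typ_Ga_all {b K : ℝ} (hK : 1 ≤ K) {V : ι → ℝ} (h : D.typ b K V) (i j : ι) :
    ‖D.Ga V i j‖ ^ 2 ≤ K * D.gi i V * D.gi j V := by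
  by_cases hij : i = j
  · subst hij
    have h1 : ‖D.Ga V i i‖ ≤ D.gi i V := by
      rw [D.gi_eq (D.typ_pp h)]
      exact le_max_right _ _
    have hg : 0 ≤ D.gi i V := zero_le_one.trans (D.one_le_gi i V)
    have h2 : ‖D.Ga V i i‖ ^ 2 ≤ D.gi i V ^ 2 := pow_le_pow_left₀ (norm_nonneg _) h1 2
    nlinarith [mul_nonneg (sub_nonneg.2 hK) (mul_nonneg hg hg)]
  · exact D.typ_Ga h hij

theorem typ_om {b K g : ℝ} (hg : 1 ≤ g) (hK : 0 ≤ K) (hb : 0 < b) (hKbg : K * b * g ≤ 1)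
    {V : ι → ℝ} (h : D.typ b K V) {i : ι} (hi : g ≤ D.gi i V) :
    D.om i V ^ 2 ≤ D.gi i V / g := by
  have hg0 : 0 < g := zero_lt_one.trans_le hg
  have hgi : 0 < D.gi i V := zero_lt_one.trans_le (D.one_le_gi i V)
  have h1 : D.om i V ^ 2 ≤ max 1 (‖D.z V i‖ ^ 2) := by
    rw [D.om_eq (D.typ_pp h)]
    rcases le_total 1 ‖D.z V i‖ with h2 | h2
    · rw [max_eq_right h2]
      exact le_max_right _ _
    · rw [max_eq_left h2, one_pow]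
      exact le_max_left _ _
  refine h1.trans (max_le ?_ ?_)
  · rw [le_div_iff₀ hg0, one_mul]
    exact hi
  · refine (D.typ_z hK h i).trans ?_
    rw [le_div_iff₀ hg0]
    calc K * b * D.gi i V * g = (K * b * g) * D.gi i V := by ring
      _ ≤ 1 * D.gi i V := by gcongr
      _ = D.gi i V := one_mul _

end Dat

end LL
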