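import Pool.Agent.Lib.MP_562b47_mp.LL.MinorEx
import Pool.Agent.Lib.MP_562b47_mp.LL.QZero
import Pool.Agent.Lib.MP_562b47_mp.LL.Typ

/-!
StepD (version 2): a typical bad potential is in some `E_I`.

PROOF. `S = {i | g ≤ gi i}`, `N` the complement. For `i ∈ S`: `gi i = ‖Γ_ii‖` (`gi_eq`, `1 < g`).
Case 1: some `i ∈ S` has `‖Bm i i‖ ≥ gi i / (4 n om i)`: take `I = {i}`, `pdS_singleton`, `pd_qq`.
Case 2: `‖Bm i i‖ < gi i / (4 n om i) ≤ gi i / 4` for all `i ∈ S`. Then `z_i yf_i = Γ_ii - Bm i i`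
(`Bm_eq`) has norm `≥ (3/4) gi i`; so `z_i ≠ 0`, `‖yf_i‖ ≥ (3/4) gi i / ‖z_i‖ ≥ (3/4) gi i / om i`, and
`‖yf_i‖² ≥ (9/16) (gi i)² / ‖z_i‖² ≥ (9/16) gi i / (K b)` (`typ_z`).
`a_i = ∑_{j ∈ N} φ_j Γ_ji`: `‖a_i‖ ≤ n √(K g gi i)` (`typ_Ga` as `j ≠ i`, `gi j ≤ g`, `‖φ_j‖ ≤ 1`), and
`n² K g gi i ≤ (1/64)(9/16) gi i / (K b)` because `200 K² n² g b ≤ 1`; so `‖a_i‖ ≤ ‖yf_i‖ / 8`.
`c = ∑_{j ∈ N} φ_j z_j`: `‖c‖ ≤ n √(K b g) ≤ 1/8` (`200 K² n² g b ≤ 1`, `1 ≤ K`).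
Put `β_i = yf_i (1 - c) + a_i`: `‖β_i‖ ≥ (7/8 - 1/8) ‖yf_i‖ ≥ (9/16) gi i / om i ≥ gi i / (2 om i) > 0`, and
`∑_{j ∈ S} φ_j Bm j i = ∑_j φ_j Bm j i - ∑_{j ∈ N} φ_j (Γ_ji - z_j yf_i) = -yf_i - a_i + c yf_i = -β_i`
(`phi_Bm`, `Bm_eq`). Some `i ∈ S` has `φ_i ≠ 0`: otherwise `1 = ∑_j z_j φ_j = c` (`z_phi`). By
`qq_zero`, `q (cc V + s) = 0` with `s_i = φ_i / β_i` on `S`, `‖s_i‖ ≤ r_i := 2 om i / gi i`. `minor_ex`
(`MA_qq`, `S.card ≤ card ι ≤ n`): `1 / (2 n r_i) = gi i / (4 n om i)`.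
-/

set_option autoImplicit false

namespace LL

open Finset Matrix

variable {ι : Type*} [Fintype ι] [DecidableEq ι]

omit [DecidableEq ι] in
private theorem sd_norm_sum_le {n : ℕ} (hn : Fintype.card ι ≤ n) (S : Finset ι) (u : ι → ℂ)
    (φ : ι → ℂ) (hφ : ∀ j, ‖φ j‖ ≤ 1) {A : ℝ} (hA : 0 ≤ A) (hu : ∀ j ∈ S, ‖u j‖ ^ 2 ≤ A) :
    ‖∑ j ∈ S, φ j * u j‖ ^ 2 ≤ (n : ℝ) ^ 2 * A := by
  have h1 : ∀ j ∈ S, ‖φ j * u j‖ ≤ √A := by
    intro j hj
    rw [norm_mul]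
    have h2 : ‖u j‖ ≤ √A := Real.le_sqrt_of_sq_le (hu j hj)
    calc ‖φ j‖ * ‖u j‖ ≤ 1 * √A :=
          mul_le_mul (hφ j) h2 (norm_nonneg _) zero_le_one
      _ = √A := one_mul _
  have h3 : ‖∑ j ∈ S, φ j * u j‖ ≤ n * √A := by
    calc ‖∑ j ∈ S, φ j * u j‖ ≤ ∑ j ∈ S, ‖φ j * u j‖ := norm_sum_le _ _
      _ ≤ ∑ _j ∈ S, √A := Finset.sum_le_sum h1
      _ = S.card * √A := by rw [Finset.sum_const, nsmul_eq_mul]
      _ ≤ n * √A := by
        apply mul_le_mul_of_nonneg_right _ (Real.sqrt_nonneg _)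
        exact_mod_cast (Finset.card_le_univ S).trans hn
  calc ‖∑ j ∈ S, φ j * u j‖ ^ 2 ≤ (n * √A) ^ 2 :=
        pow_le_pow_left₀ (norm_nonneg _) h3 2
    _ = (n : ℝ) ^ 2 * A := by rw [mul_pow, Real.sq_sqrt hA]

theorem Dat.stepD (D : Dat ι) {b K g : ℝ} {n : ℕ} (hn1 : 1 ≤ n) (hn : Fintype.card ι ≤ n)
    (hb : 0 < b) (hK : 1 ≤ K) (hg : 1 < g) (hc : 200 * K ^ 2 * (n : ℝ) ^ 2 * g * b ≤ 1)
    {V : ι → ℝ} (h : D.typ b K V) : ∃ I : Finset ι, I.Nonempty ∧ D.evE b K g n I V := by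
  classical
  have hP : D.pp (cc V) ≠ 0 := D.typ_pp h
  have hq : D.qq (cc V) ≠ 0 := h.2.1
  have hn1' : (1 : ℝ) ≤ n := by exact_mod_cast hn1
  have hn0 : (0 : ℝ) < n := by linarith
  have hK0 : 0 < K := by linarith
  have hg0 : 0 < g := by linarith
  set S : Finset ι := Finset.univ.filter (fun i => g ≤ D.gi i V) with hS
  have hSm : ∀ i, i ∈ S ↔ g ≤ D.gi i V := by
    intro i
    rw [hS]
    simp
  have hGii : ∀ i ∈ S, ‖D.Ga V i i‖ = D.gi i V := by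
    intro i hi
    have h1 := D.gi_eq hP i
    have h2 := (hSm i).mp hi
    rcases le_total 1 ‖D.Ga V i i‖ with h3 | h3
    · rw [h1, max_eq_right h3]
    · rw [h1, max_eq_left h3] at h2
      linarith
  have hz : ∀ i, ‖D.z V i‖ ≤ D.om i V := by
    intro i
    rw [D.om_eq hP i]
    exact le_max_right _ _
  by_cases hcase : ∃ i ∈ S, D.gi i V / (4 * n * D.om i V) ≤ ‖D.Bm V i i‖
  · obtain ⟨i, hi, hB⟩ := hcase
    refine ⟨{i}, Finset.singleton_nonempty i, h, ?_, ?_⟩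
    · intro j hj
      rw [Finset.mem_singleton] at hj
      rw [hj]
      exact (hSm i).mp hi
    · rw [Finset.prod_singleton, pdS_singleton, D.pd_qq hq, norm_mul, mul_comm]
      exact mul_le_mul_of_nonneg_left hB (norm_nonneg _)
  push Not at hcase
  -- the lower bound for `yf`
  have hgi1 : ∀ i, 1 ≤ D.gi i V := fun i => D.one_le_gi i V
  have hom1 : ∀ i, 1 ≤ D.om i V := fun i => D.one_le_om i V
  have hzy : ∀ i ∈ S, 3 / 4 * D.gi i V ≤ ‖D.z V i‖ * ‖D.yf V i‖ := by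
    intro i hi
    have h1 := D.Bm_eq hP hq i i
    have h2 : D.Ga V i i = D.z V i * D.yf V i + D.Bm V i i := by
      rw [h1]
      ring
    have h3 : ‖D.Ga V i i‖ ≤ ‖D.z V i‖ * ‖D.yf V i‖ + ‖D.Bm V i i‖ := by
      calc ‖D.Ga V i i‖ = ‖D.z V i * D.yf V i + D.Bm V i i‖ := by rw [← h2]
        _ ≤ ‖D.z V i * D.yf V i‖ + ‖D.Bm V i i‖ := norm_add_le _ _
        _ = ‖D.z V i‖ * ‖D.yf V i‖ + ‖D.Bm V i i‖ := by rw [norm_mul]
    have h4 : ‖D.Bm V i i‖ ≤ D.gi i V / 4 := by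
      refine (hcase i hi).le.trans ?_
      apply div_le_div_of_nonneg_left (by linarith [hgi1 i]) (by norm_num)
      have : (1 : ℝ) * 1 ≤ n * D.om i V := mul_le_mul hn1' (hom1 i) zero_le_one hn0.le
      linarith
    rw [hGii i hi] at h3
    linarith
  have hyf1 : ∀ i ∈ S, 3 / 4 * (D.gi i V / D.om i V) ≤ ‖D.yf V i‖ := by
    intro i hi
    have ho : 0 < D.om i V := by linarith [hom1 i]
    have h1 : 3 / 4 * D.gi i V ≤ D.om i V * ‖D.yf V i‖ :=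
      (hzy i hi).trans (mul_le_mul_of_nonneg_right (hz i) (norm_nonneg _))
    rw [← mul_div_assoc, div_le_iff₀ ho]
    linarith
  have hyf2 : ∀ i ∈ S, 9 / 16 * D.gi i V ≤ K * b * ‖D.yf V i‖ ^ 2 := by
    intro i hi
    have hG : 0 < D.gi i V := by linarith [hgi1 i]
    have h1 : (3 / 4 * D.gi i V) ^ 2 ≤ (‖D.z V i‖ * ‖D.yf V i‖) ^ 2 :=
      pow_le_pow_left₀ (by positivity) (hzy i hi) 2
    have h2 := D.typ_z hK0.le h i
    have h3 : (‖D.z V i‖ * ‖D.yf V i‖) ^ 2 ≤ K * b * D.gi i V * ‖D.yf V i‖ ^ 2 := by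
      rw [mul_pow]
      exact mul_le_mul_of_nonneg_right h2 (by positivity)
    have h4 : D.gi i V * (9 / 16 * D.gi i V) ≤ D.gi i V * (K * b * ‖D.yf V i‖ ^ 2) := by
      calc D.gi i V * (9 / 16 * D.gi i V) = (3 / 4 * D.gi i V) ^ 2 := by ring
        _ ≤ K * b * D.gi i V * ‖D.yf V i‖ ^ 2 := h1.trans h3
        _ = D.gi i V * (K * b * ‖D.yf V i‖ ^ 2) := by ring
    exact le_of_mul_le_mul_left h4 hG
  have hnotS : ∀ j ∈ Sᶜ, D.gi j V ≤ g := by
    intro j hj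
    rw [Finset.mem_compl, hSm] at hj
    exact (not_le.mp hj).le
  -- the sums over the complement
  set c : ℂ := ∑ j ∈ Sᶜ, D.φ j * D.z V j with hcdef
  have hcn : ‖c‖ ≤ 1 / 8 := by
    have h1 : ‖c‖ ^ 2 ≤ (n : ℝ) ^ 2 * (K * b * g) := by
      apply sd_norm_sum_le hn Sᶜ (D.z V) D.φ D.phi_le (by positivity)
      intro j hj
      exact (D.typ_z hK0.le h j).trans
        (mul_le_mul_of_nonneg_left (hnotS j hj) (by positivity))
    have h2 : (n : ℝ) ^ 2 * (K * b * g) ≤ K ^ 2 * (n : ℝ) ^ 2 * g * b := by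
      have h3 : 0 ≤ (n : ℝ) ^ 2 * g * b := by positivity
      have h4 : K ≤ K ^ 2 := by nlinarith
      calc (n : ℝ) ^ 2 * (K * b * g) = K * ((n : ℝ) ^ 2 * g * b) := by ring
        _ ≤ K ^ 2 * ((n : ℝ) ^ 2 * g * b) := mul_le_mul_of_nonneg_right h4 h3
        _ = K ^ 2 * (n : ℝ) ^ 2 * g * b := by ring
    have h5 : ‖c‖ ^ 2 ≤ (1 / 8) ^ 2 := by nlinarith
    exact (pow_le_pow_iff_left₀ (norm_nonneg _) (by norm_num) (by norm_num)).mp h5
  let a : ι → ℂ := fun i => ∑ j ∈ Sᶜ, D.φ j * D.Ga V j i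
  have han : ∀ i ∈ S, ‖a i‖ ≤ ‖D.yf V i‖ / 8 := by
    intro i hi
    have hG : 0 < D.gi i V := by linarith [hgi1 i]
    have h1 : ‖a i‖ ^ 2 ≤ (n : ℝ) ^ 2 * (K * g * D.gi i V) := by
      apply sd_norm_sum_le hn Sᶜ (fun j => D.Ga V j i) D.φ D.phi_le (by positivity)
      intro j hj
      have hji : j ≠ i := by
        intro hji
        rw [hji, Finset.mem_compl] at hj
        exact hj hi
      refine (D.typ_Ga h hji).trans ?_
      apply mul_le_mul_of_nonneg_right _ hG.le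
      exact mul_le_mul_of_nonneg_left (hnotS j hj) hK0.le
    have h2 := hyf2 i hi
    have hKb : 0 < K * b := by positivity
    have h3 : K * b * ((n : ℝ) ^ 2 * (K * g * D.gi i V)) ≤ K * b * (‖D.yf V i‖ / 8) ^ 2 := by
      have h4 : K * b * ((n : ℝ) ^ 2 * (K * g * D.gi i V)) =
          (K ^ 2 * (n : ℝ) ^ 2 * g * b) * D.gi i V := by ring
      have h5 : (K ^ 2 * (n : ℝ) ^ 2 * g * b) * D.gi i V ≤ (1 / 200) * D.gi i V := by
        apply mul_le_mul_of_nonneg_right _ hG.le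
        linarith
      rw [h4]
      refine h5.trans ?_
      have h6 : K * b * (‖D.yf V i‖ / 8) ^ 2 = (K * b * ‖D.yf V i‖ ^ 2) / 64 := by ring
      rw [h6]
      linarith
    have h7 := le_of_mul_le_mul_left h3 hKb
    have h8 : ‖a i‖ ^ 2 ≤ (‖D.yf V i‖ / 8) ^ 2 := h1.trans h7
    exact (pow_le_pow_iff_left₀ (norm_nonneg _) (by positivity) (by norm_num)).mp h8
  -- the numbers `β`
  let β : ι → ℂ := fun i => D.yf V i * (1 - c) + a i
  have hβn : ∀ i ∈ S, D.gi i V / (2 * D.om i V) ≤ ‖β i‖ := by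
    intro i hi
    have hG : 0 < D.gi i V := by linarith [hgi1 i]
    have ho : 0 < D.om i V := by linarith [hom1 i]
    have h1 : ‖D.yf V i‖ ≤ ‖β i‖ + ‖D.yf V i‖ * ‖c‖ + ‖a i‖ := by
      have h2 : D.yf V i = β i + D.yf V i * c - a i := by
        change D.yf V i = D.yf V i * (1 - c) + a i + D.yf V i * c - a i
        ring
      calc ‖D.yf V i‖ = ‖β i + D.yf V i * c - a i‖ := by rw [← h2]
        _ ≤ ‖β i + D.yf V i * c‖ + ‖a i‖ := norm_sub_le _ _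
        _ ≤ ‖β i‖ + ‖D.yf V i * c‖ + ‖a i‖ := by
          linarith [norm_add_le (β i) (D.yf V i * c)]
        _ = ‖β i‖ + ‖D.yf V i‖ * ‖c‖ + ‖a i‖ := by rw [norm_mul]
    have h3 : ‖D.yf V i‖ * ‖c‖ ≤ ‖D.yf V i‖ * (1 / 8) :=
      mul_le_mul_of_nonneg_left hcn (norm_nonneg _)
    have h4 := han i hi
    have h5 := hyf1 i hi
    have h6 : D.gi i V / (2 * D.om i V) = 1 / 2 * (D.gi i V / D.om i V) := by
      field_simp
    have h7 : 0 < D.gi i V / D.om i V := by positivity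
    rw [h6]
    linarith
  have hβ0 : ∀ i ∈ S, β i ≠ 0 := by
    intro i hi h0
    have hG : 0 < D.gi i V := by linarith [hgi1 i]
    have ho : 0 < D.om i V := by linarith [hom1 i]
    have h1 := hβn i hi
    rw [h0, norm_zero] at h1
    have h2 : 0 < D.gi i V / (2 * D.om i V) := by positivity
    linarith
  have hβ : ∀ i ∈ S, ∑ j ∈ S, D.φ j * D.Bm V j i = -β i := by
    intro i hi
    have h1 := D.phi_Bm hP hq i
    rw [← Finset.sum_add_sum_compl S] at h1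
    have h2 : ∑ j ∈ Sᶜ, D.φ j * D.Bm V j i = a i - c * D.yf V i := by
      change _ = (∑ j ∈ Sᶜ, D.φ j * D.Ga V j i) - c * D.yf V i
      rw [hcdef, Finset.sum_mul, ← Finset.sum_sub_distrib]
      apply Finset.sum_congr rfl
      intro j _
      rw [D.Bm_eq hP hq j i]
      ring
    rw [h2] at h1
    change _ = -(D.yf V i * (1 - c) + a i)
    linear_combination h1
  have hne : ∃ i ∈ S, D.φ i ≠ 0 := by
    by_contra hcon
    push Not at hcon
    have h1 := D.z_phi hP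
    rw [← Finset.sum_add_sum_compl S] at h1
    have h2 : ∑ j ∈ S, D.z V j * D.φ j = 0 := by
      apply Finset.sum_eq_zero
      intro j hj
      rw [hcon j hj]
      simp
    have h3 : ∑ j ∈ Sᶜ, D.z V j * D.φ j = c := by
      rw [hcdef]
      apply Finset.sum_congr rfl
      intro j _
      ring
    rw [h2, h3, zero_add] at h1
    rw [h1, norm_one] at hcn
    norm_num at hcn
  have hzero := D.qq_zero hq S β hβ0 hβ hne
  obtain ⟨I, hIS, hI, hmin⟩ := minor_ex D.MA_qq (V := cc V)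
    (s := fun i => if i ∈ S then D.φ i / β i else 0) (S := S)
    (fun i hi => if_neg hi) (r := fun i => 2 * D.om i V / D.gi i V)
    (fun i _ => by
      have hG : 0 < D.gi i V := by linarith [hgi1 i]
      have ho : 0 < D.om i V := by linarith [hom1 i]
      positivity)
    (fun i hi => by
      have hG : 0 < D.gi i V := by linarith [hgi1 i]
      have ho : 0 < D.om i V := by linarith [hom1 i]
      change ‖(if i ∈ S then D.φ i / β i else 0)‖ ≤ 2 * D.om i V / D.gi i V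
      rw [if_pos hi, norm_div]
      have h1 := hβn i hi
      have h2 : 0 < D.gi i V / (2 * D.om i V) := by positivity
      calc ‖D.φ i‖ / ‖β i‖ ≤ 1 / (D.gi i V / (2 * D.om i V)) :=
            div_le_div₀ zero_le_one (D.phi_le i) h2 h1
        _ = 2 * D.om i V / D.gi i V := by rw [one_div_div])
    hn1 ((Finset.card_le_univ S).trans hn) hq hzero
  refine ⟨I, hI, h, fun i hi => (hSm i).mp (hIS hi), ?_⟩
  have hprod : ∏ i ∈ I, D.gi i V / (4 * n * D.om i V) =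
      ∏ i ∈ I, 1 / (2 * (n : ℝ) * (2 * D.om i V / D.gi i V)) := by
    apply Finset.prod_congr rfl
    intro i _
    have hG : 0 < D.gi i V := by linarith [hgi1 i]
    have ho : 0 < D.om i V := by linarith [hom1 i]
    field_simp
    ring
  rw [hprod]
  exact hmin

end LL
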