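import Pool.Agent.Lib.MP_562b47_mp.LL.NuA
import Pool.Agent.Lib.MP_562b47_mp.LL.NuC
import Pool.Agent.Lib.MP_562b47_mp.LL.StepD

/-!
Union: the union bound.

PROOF. By `stepD`, `{bad} ⊆ {q = 0} ∪ ⋃_i {bad, evA i} ∪ ⋃_{i, j} {bad, ¬evA i, evC i j}`
`∪ ⋃_{I ∈ univ.erase ∅} {evE I}`. `D.nu {V | qq (cc V) = 0} = 0` (`withDensity_apply`, `wt_eq`: the weight
vanishes there; `measurableSet` from `continuous_qq`). `measure_union_le`, `measure_iUnion_fintype_le`
or `measure_biUnion_finset_le`; `nu_evA` (`card ι ≤ n` terms), `nu_evC` (`≤ n²` terms), `hE`;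
`∑_{I ≠ ∅} ε^|I| = (1 + ε)^(card ι) - 1 ≤ (1 + ε)^n - 1` (`Fintype.sum_pow_mul_eq_add_pow` with
`b = 1`). Work in `ENNReal` with `ENNReal.ofReal_add`, `ENNReal.ofReal_sum_of_nonneg`, or bound by
`∑ ofReal .. * nu univ = ofReal (∑ ..) * nu univ`.
-/

set_option autoImplicit false

namespace LL

open MeasureTheory Set
open scoped ENNReal

variable {ι : Type*} [Fintype ι] [DecidableEq ι]

private theorem Dat.nu_q0 (D : Dat ι) : D.nu {V | D.qq (cc V) = 0} = 0 := by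
  have hS : MeasurableSet {V : ι → ℝ | D.qq (cc V) = 0} :=
    (isClosed_eq D.continuous_qq continuous_const).measurableSet
  unfold Dat.nu
  rw [withDensity_apply _ hS]
  have h : ∫⁻ V in {V : ι → ℝ | D.qq (cc V) = 0}, D.wt V ∂MU ι =
      ∫⁻ V in {V : ι → ℝ | D.qq (cc V) = 0}, 0 ∂MU ι := by
    refine setLIntegral_congr_fun hS fun V hV => ?_
    have hV' : D.qq (cc V) = 0 := hV
    rw [D.wt_eq, hV']
    simp
  rw [h, lintegral_zero]

private theorem Dat.cover (D : Dat ι) {b K g : ℝ} {n : ℕ} (hn1 : 1 ≤ n)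
    (hn : Fintype.card ι ≤ n) (hb : 0 < b) (hK : 24 ≤ K) (hg : 1 < g)
    (hc : 200 * K ^ 2 * (n : ℝ) ^ 2 * g * b ≤ 1) :
    {V : ι → ℝ | D.bad b V} ⊆ {V | D.qq (cc V) = 0} ∪
      ((⋃ i ∈ (Finset.univ : Finset ι), {V | D.bad b V ∧ D.evA K i V}) ∪
      ((⋃ p ∈ (Finset.univ : Finset (ι × ι)),
        {V | D.bad b V ∧ ¬ D.evA K p.1 V ∧ D.evC K p.1 p.2 V}) ∪
      (⋃ I ∈ (Finset.univ : Finset (Finset ι)).erase ∅, {V | D.evE b K g n I V}))) := by
  intro V hV
  have hV' : D.bad b V := hV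
  by_cases hq : D.qq (cc V) = 0
  · exact Or.inl hq
  right
  by_cases hA : ∃ i, D.evA K i V
  · left
    obtain ⟨i, hi⟩ := hA
    simp only [Set.mem_iUnion]
    exact ⟨i, Finset.mem_univ i, hV', hi⟩
  right
  push Not at hA
  by_cases hC : ∃ i j, i ≠ j ∧ D.evC K i j V
  · left
    obtain ⟨i, j, -, hij⟩ := hC
    simp only [Set.mem_iUnion]
    exact ⟨(i, j), Finset.mem_univ _, hV', hA i, hij⟩
  right
  push Not at hC
  obtain ⟨I, hI, hE⟩ := D.stepD hn1 hn hb (by linarith) hg hc (V := V) ⟨hV', hq, hA, hC⟩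
  simp only [Set.mem_iUnion]
  exact ⟨I, Finset.mem_erase.2 ⟨hI.ne_empty, Finset.mem_univ I⟩, hE⟩

private theorem sum_erase_pow {ε : ℝ} (hε : 0 ≤ ε) {n : ℕ} (hn : Fintype.card ι ≤ n) :
    ∑ I ∈ (Finset.univ : Finset (Finset ι)).erase ∅, ε ^ I.card ≤ (1 + ε) ^ n - 1 := by
  have h1 := Fintype.sum_pow_mul_eq_add_pow ι ε (1 : ℝ)
  simp only [one_pow, mul_one] at h1
  have h2 := Finset.add_sum_erase (Finset.univ : Finset (Finset ι)) (fun I => ε ^ I.card)
    (Finset.mem_univ ∅)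
  simp only [Finset.card_empty, pow_zero] at h2
  rw [h1] at h2
  have h3 : (ε + 1) ^ Fintype.card ι ≤ (1 + ε) ^ n := by
    rw [add_comm]
    exact pow_le_pow_right₀ (by linarith) hn
  linarith

theorem Dat.union_bound (D : Dat ι) {b K g ε : ℝ} {n : ℕ} (hn1 : 1 ≤ n)
    (hn : Fintype.card ι ≤ n) (hb : 0 < b) (hK : 24 ≤ K) (hKb : 2 * (K * b) ≤ 1) (hg : 1 < g)
    (hc : 200 * K ^ 2 * (n : ℝ) ^ 2 * g * b ≤ 1) (hε : 0 ≤ ε)
    (hE : ∀ I : Finset ι, I.Nonempty →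
      D.nu {V | D.evE b K g n I V} ≤ ENNReal.ofReal (ε ^ I.card) * D.nu univ) :
    D.nu {V | D.bad b V} ≤ ENNReal.ofReal
      (n * (4000 * (1 / K + b)) + n ^ 2 * (7200 / K) + ((1 + ε) ^ n - 1)) * D.nu univ := by
  have hK0 : 0 < K := by linarith
  have hnr : (Fintype.card ι : ℝ) ≤ n := by exact_mod_cast hn
  have hcr : (0 : ℝ) ≤ Fintype.card ι := Nat.cast_nonneg _
  have ha : 0 ≤ 4000 * (1 / K + b) := by positivity
  have hk : 0 ≤ 7200 / K := by positivity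
  have hp : 0 ≤ (1 + ε) ^ n - 1 := by
    have := one_le_pow₀ (n := n) (by linarith : (1 : ℝ) ≤ 1 + ε)
    linarith
  have h1 : D.nu (⋃ i ∈ (Finset.univ : Finset ι), {V | D.bad b V ∧ D.evA K i V}) ≤
      ENNReal.ofReal (n * (4000 * (1 / K + b))) * D.nu univ := by
    refine (measure_biUnion_finset_le _ _).trans
      ((Finset.sum_le_sum fun i _ => D.nu_evA hK hb i).trans ?_)
    rw [← Finset.sum_mul]
    refine mul_le_mul_left ?_ _
    rw [← ENNReal.ofReal_sum_of_nonneg fun _ _ => ha]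
    refine ENNReal.ofReal_le_ofReal ?_
    rw [Finset.sum_const, nsmul_eq_mul, Finset.card_univ]
    exact mul_le_mul_of_nonneg_right hnr ha
  have h2 : D.nu (⋃ p ∈ (Finset.univ : Finset (ι × ι)),
        {V | D.bad b V ∧ ¬ D.evA K p.1 V ∧ D.evC K p.1 p.2 V}) ≤
      ENNReal.ofReal (n ^ 2 * (7200 / K)) * D.nu univ := by
    refine (measure_biUnion_finset_le _ _).trans
      ((Finset.sum_le_sum fun p _ => D.nu_evC hK hb hKb p.1 p.2).trans ?_)
    rw [← Finset.sum_mul]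
    refine mul_le_mul_left ?_ _
    rw [← ENNReal.ofReal_sum_of_nonneg fun _ _ => hk]
    refine ENNReal.ofReal_le_ofReal ?_
    rw [Finset.sum_const, nsmul_eq_mul, Finset.card_univ, Fintype.card_prod]
    refine mul_le_mul_of_nonneg_right ?_ hk
    push_cast
    rw [sq]
    exact mul_le_mul hnr hnr hcr (Nat.cast_nonneg _)
  have h3 : D.nu (⋃ I ∈ (Finset.univ : Finset (Finset ι)).erase ∅, {V | D.evE b K g n I V}) ≤
      ENNReal.ofReal ((1 + ε) ^ n - 1) * D.nu univ := by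
    refine (measure_biUnion_finset_le _ _).trans
      ((Finset.sum_le_sum fun I hI => hE I
        (Finset.nonempty_iff_ne_empty.2 (Finset.mem_erase.1 hI).1)).trans ?_)
    rw [← Finset.sum_mul]
    refine mul_le_mul_left ?_ _
    rw [← ENNReal.ofReal_sum_of_nonneg fun _ _ => pow_nonneg hε _]
    exact ENNReal.ofReal_le_ofReal (sum_erase_pow hε hn)
  refine (measure_mono (D.cover hn1 hn hb hK hg hc)).trans ?_
  refine (measure_union_le _ _).trans ?_
  rw [D.nu_q0, zero_add]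
  refine (measure_union_le _ _).trans ?_
  refine (add_le_add h1 ((measure_union_le _ _).trans (add_le_add h2 h3))).trans (le_of_eq ?_)
  rw [← add_mul, ← add_mul, ← ENNReal.ofReal_add (by positivity) hp,
    ← ENNReal.ofReal_add (by positivity) (by positivity), ← add_assoc]

end LL
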